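import Pool.Agent.Lib.MP_f9aece_nt_j4.Stmts

/-!
Weighted integrals over the `t`-axis.
-/

set_option autoImplicit false

namespace Pool.Agent.Lib.J4

open MeasureTheory Set Filter Topology Complex
open scoped ComplexConjugate
open Pool.Agent.Lib.MP_f9aece_nt (DP pair BK K1 ev ev1 evh PP VV Smo expo EE mom)
open Pool.Agent.H20.Chi (chi)

/-- the weighted integral -/
noncomputable def Iw (w : ℝ → ℝ) (T : ℝ) (f : ℝ → ℝ) : ℝ := ∫ t : ℝ, w (t / T) * f t

variable {w : ℝ → ℝ} {θ C T : ℝ}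

lemma Wgt.cont24 (hw : Wgt w θ C) : Continuous w := by
  have h1 : LipschitzWith (Real.toNNReal (max C 0)) w := by
    refine LipschitzWith.of_dist_le_mul fun u v => ?_
    rw [Real.dist_eq, Real.dist_eq, Real.coe_toNNReal _ (le_max_right _ _)]
    exact (hw.lip u v).trans (mul_le_mul_of_nonneg_right (le_max_left _ _) (abs_nonneg _))
  exact h1.continuous

lemma Wgt.eq_zero24 (hw : Wgt w θ C) (hT : 0 < T) {t : ℝ} (ht : t ∉ Icc (θ * T) (2 * T)) :
    w (t / T) = 0 := by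
  by_contra h
  have h1 := hw.supp _ h
  exact ht ⟨(le_div_iff₀ hT).mp h1.1, (div_le_iff₀ hT).mp h1.2⟩

lemma Wgt.integrable_mul24 (hw : Wgt w θ C) (hT : 0 < T) {f : ℝ → ℝ}
    (hf : ContinuousOn f (Icc (θ * T) (2 * T))) : Integrable (fun t => w (t / T) * f t) := by
  have h1 : ContinuousOn (fun t => w (t / T) * f t) (Icc (θ * T) (2 * T)) :=
    (hw.cont24.comp (continuous_id.div_const T)).continuousOn.mul hf
  have h2 : IntegrableOn (fun t => w (t / T) * f t) (Icc (θ * T) (2 * T)) :=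
    h1.integrableOn_compact isCompact_Icc
  refine (integrableOn_iff_integrable_of_support_subset ?_).mp h2
  intro t ht
  by_contra h
  exact ht (by simp [hw.eq_zero24 hT h])

lemma Wgt.continuousI (hw : Wgt w θ C) : Continuous w := hw.cont24

lemma Wgt.eq_zero (hw : Wgt w θ C) (hT : 0 < T) {t : ℝ} (ht : t ∉ Icc (θ * T) (2 * T)) :
    w (t / T) = 0 := hw.eq_zero24 hT ht

lemma Wgt.integrable_mul (hw : Wgt w θ C) (hT : 0 < T) {f : ℝ → ℝ}
    (hf : ContinuousOn f (Icc (θ * T) (2 * T))) : Integrable (fun t => w (t / T) * f t) :=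
  hw.integrable_mul24 hT hf

lemma Iw_mono (hw : Wgt w θ C) (hT : 0 < T) {f g : ℝ → ℝ}
    (hg : ContinuousOn g (Icc (θ * T) (2 * T))) (hf0 : ∀ t ∈ Icc (θ * T) (2 * T), 0 ≤ f t)
    (hfg : ∀ t ∈ Icc (θ * T) (2 * T), f t ≤ g t) : Iw w T f ≤ Iw w T g := by
  refine integral_mono_of_nonneg (ae_of_all _ fun t => ?_) (hw.integrable_mul24 hT hg)
    (ae_of_all _ fun t => ?_)
  · by_cases ht : t ∈ Icc (θ * T) (2 * T)
    · exact mul_nonneg (hw.nonneg _) (hf0 t ht)
    · simp [hw.eq_zero24 hT ht]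
  · by_cases ht : t ∈ Icc (θ * T) (2 * T)
    · exact mul_le_mul_of_nonneg_left (hfg t ht) (hw.nonneg _)
    · simp [hw.eq_zero24 hT ht]

lemma Iw_nonneg (hw : Wgt w θ C) (hT : 0 < T) {f : ℝ → ℝ}
    (hf0 : ∀ t ∈ Icc (θ * T) (2 * T), 0 ≤ f t) : 0 ≤ Iw w T f := by
  refine integral_nonneg fun t => ?_
  by_cases ht : t ∈ Icc (θ * T) (2 * T)
  · exact mul_nonneg (hw.nonneg _) (hf0 t ht)
  · simp [hw.eq_zero24 hT ht]

lemma Iw_congr (hw : Wgt w θ C) (hT : 0 < T) {f g : ℝ → ℝ}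
    (hfg : ∀ t ∈ Icc (θ * T) (2 * T), f t = g t) : Iw w T f = Iw w T g := by
  refine integral_congr_ae (ae_of_all _ fun t => ?_)
  by_cases ht : t ∈ Icc (θ * T) (2 * T)
  · simp [hfg t ht]
  · simp [hw.eq_zero24 hT ht]

lemma Iw_add (hw : Wgt w θ C) (hT : 0 < T) {f g : ℝ → ℝ}
    (hf : ContinuousOn f (Icc (θ * T) (2 * T))) (hg : ContinuousOn g (Icc (θ * T) (2 * T))) :
    Iw w T (fun t => f t + g t) = Iw w T f + Iw w T g := by
  unfold Iw
  rw [← integral_add (hw.integrable_mul24 hT hf) (hw.integrable_mul24 hT hg)]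
  exact integral_congr_ae (ae_of_all _ fun t => by simp only; ring)

lemma Iw_const_mul (a : ℝ) (f : ℝ → ℝ) : Iw w T (fun t => a * f t) = a * Iw w T f := by
  unfold Iw
  rw [← integral_const_mul]
  exact integral_congr_ae (ae_of_all _ fun t => by simp only; ring)

lemma Iw_sum (hw : Wgt w θ C) (hT : 0 < T) {ι : Type} (s : Finset ι) {f : ι → ℝ → ℝ}
    (hf : ∀ i ∈ s, ContinuousOn (f i) (Icc (θ * T) (2 * T))) :
    Iw w T (fun t => ∑ i ∈ s, f i t) = ∑ i ∈ s, Iw w T (f i) := by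
  unfold Iw
  rw [← integral_finsetSum s fun i hi => hw.integrable_mul24 hT (hf i hi)]
  exact integral_congr_ae (ae_of_all _ fun t => by simp only [Finset.mul_sum])

lemma Iw_one (hT : 0 < T) : Iw w T (fun _ => 1) = T * ∫ u, w u := by
  unfold Iw
  simp only [mul_one]
  have h := Measure.integral_comp_div (fun u => w u) T
  rw [h, abs_of_pos hT, smul_eq_mul]

end Pool.Agent.Lib.J4
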