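import Pool.Agent.Lib.MP_f9aece_nt_j4.Defs
import Pool.Agent.Lib.MP_f9aece_nt.LogSub

/-!
Moments of zeta near the fourth moment: the statements of the modules, as propositions.
Module `X` proves `theorem xxx : XXX`; modules using `XXX` take it as a hypothesis until it is there.
-/

set_option autoImplicit false

namespace Pool.Agent.Lib.J4

open MeasureTheory Set Filter Topology Complex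
open scoped ComplexConjugate
open Pool.Agent.Lib.MP_f9aece_nt (DP pair BK K1 ev ev1 evh PP VV Smo expo EE mom)
open Pool.Agent.H20.Chi (chi)

/-! ### abbreviations -/

/-- the shift of the reflected polynomial -/
noncomputable def tau (T t : ℝ) : ℝ := 2 * Real.log (2 * Real.pi * T / t)

/-- the short divisor polynomial -/
noncomputable def Dm (σ T : ℝ) : DP :=
  DF (cu (Real.log T - σ * Real.log T) (σ * Real.log T)) ⌊T⌋₊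

/-- the long divisor polynomial, and the same with shift -/
noncomputable def Lo (T : ℝ) : DP := DF (cu (Real.log T - 1) 1) ⌊T⌋₊

noncomputable def Lot (T t : ℝ) : DP := DF (fun x => cu (Real.log T - 1) 1 (x + tau T t)) ⌊T⌋₊

/-- the part of the divisor polynomial at the edge -/
noncomputable def Ce (T : ℝ) : DP :=
  DF (fun x => 1 - cu (Real.log T - 1) 1 x - cu (Real.log T - 1) 1 (2 * Real.log T - x))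
    ⌊T * Real.exp 2⌋₊

/-- standing assumption on the number of groups -/
def Jok (v p0 : ℕ) (Y : ℝ) (J : ℕ) : Prop :=
  Yg v Y J ≤ Real.log p0 ∧ ∀ g < J, Real.log p0 < Yg v Y g

/-! ### A approximate functional equation -/

def AFE : Prop := ∀ θ : ℝ, 0 < θ → θ ≤ 1 → ∃ C T0 : ℝ, 0 ≤ C ∧ 1 ≤ T0 ∧ ∀ T : ℝ, T0 ≤ T →
    ∀ t : ℝ, θ * T ≤ t → t ≤ 2 * T →
    ‖riemannZeta (1 / 2 + I * t) ^ 2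
      - (ev t (Lo T) + chi t ^ 2 * conj (ev t (Lot T t)) + ev t (Ce T))‖ ≤ C

/-! ### B weights and mean values -/

/-- the trapezoid: `1` on `[a + δ, b - δ]`, `0` outside `[a, b]` -/
noncomputable def trap (a b δ u : ℝ) : ℝ := max 0 (min 1 (min ((u - a) / δ) ((b - u) / δ)))

def WgtTrap : Prop := ∀ a b δ : ℝ, 0 < a → 0 < δ → a + 2 * δ ≤ b → b ≤ 2 →
    ∃ C : ℝ, Wgt (trap a b δ) a C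

def MVT : Prop := ∀ (w : ℝ → ℝ) (θ C : ℝ), 0 < θ → Wgt w θ C → ∃ C1 : ℝ, 0 ≤ C1 ∧
    ∀ T N1 N2 : ℝ, 1 ≤ T → 1 ≤ N2 → N2 ≤ N1 → ∀ P Q : DP,
    (∀ n, P.coeff n ≠ 0 → 1 ≤ n ∧ (n : ℝ) ≤ N1) → (∀ n, Q.coeff n ≠ 0 → 1 ≤ n ∧ (n : ℝ) ≤ N2) →
    ‖(∫ t : ℝ, (w (t / T) : ℂ) * (ev t P * conj (ev t Q)))
        - ((T * (∫ u, w u) * BK K1 P Q : ℝ) : ℂ)‖
      ≤ C1 / T * (Real.sqrt (N1 * N2) + N2 ^ 2) * Real.sqrt (En P) * Real.sqrt (En Q)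

/-! ### C oscillation of the square of the functional equation factor -/

def OscTerm : Prop := ∀ θ A : ℝ, 0 < θ → θ ≤ 1 → 0 ≤ A → ∃ C : ℝ, 0 ≤ C ∧
    ∀ T : ℝ, 1 ≤ T → ∀ W : ℝ → ℂ, (∀ t, W t ≠ 0 → θ * T ≤ t ∧ t ≤ 2 * T) → (∀ t, ‖W t‖ ≤ 1) →
    (∀ s t, ‖W t - W s‖ ≤ A / T * |t - s|) →
    ∀ y : ℝ, y ≤ 2 * Real.log (θ * T / (2 * Real.pi)) - 1 →
    ‖∫ t : ℝ, W t * chi t ^ 2 * cexp (I * y * t)‖ ≤ C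

def OscSum : Prop := ∀ (w : ℝ → ℝ) (θ C : ℝ), 0 < θ → θ ≤ 1 → Wgt w θ C →
    ∃ C1 : ℝ, 0 ≤ C1 ∧ ∀ T N1 N2 N4 : ℝ, 1 ≤ T → 1 ≤ N1 → 1 ≤ N2 → 1 ≤ N4 →
    N1 * N2 * N4 ≤ (θ * T / (2 * Real.pi)) ^ 2 / 3 → ∀ P1 P2 P3 P4 : DP,
    (∀ n, P1.coeff n ≠ 0 → 1 ≤ n ∧ (n : ℝ) ≤ N1) → (∀ n, P2.coeff n ≠ 0 → 1 ≤ n ∧ (n : ℝ) ≤ N2) →
    (∀ n, P3.coeff n ≠ 0 → 1 ≤ n) → (∀ n, P4.coeff n ≠ 0 → 1 ≤ n ∧ (n : ℝ) ≤ N4) →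
    ‖∫ t : ℝ, (w (t / T) : ℂ) * chi t ^ 2 * (conj (ev t P1) * conj (ev t P2))
        * (ev t P3 * conj (ev t P4))‖ ≤ C1 * (evha P1 * evha P2 * (evha P3 * evha P4))

/-- version with a first factor depending on `t` -/
def OscSumTau : Prop := ∀ (w : ℝ → ℝ) (θ C : ℝ), 0 < θ → θ ≤ 1 → Wgt w θ C →
    ∃ C1 : ℝ, 0 ≤ C1 ∧ ∀ T N2 N4 : ℝ, 1 ≤ T → 1 ≤ N2 → 1 ≤ N4 →
    T * N2 * N4 ≤ (θ * T / (2 * Real.pi)) ^ 2 / 3 → ∀ P2 P3 P4 : DP,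
    (∀ n, P2.coeff n ≠ 0 → 1 ≤ n ∧ (n : ℝ) ≤ N2) →
    (∀ n, P3.coeff n ≠ 0 → 1 ≤ n) → (∀ n, P4.coeff n ≠ 0 → 1 ≤ n ∧ (n : ℝ) ≤ N4) →
    ‖∫ t : ℝ, (w (t / T) : ℂ) * chi t ^ 2 * (conj (ev t (Lot T t)) * conj (ev t P2))
        * (ev t P3 * conj (ev t P4))‖
      ≤ C1 * (evha (DF (fun _ => 1) ⌊T⌋₊) * evha P2 * (evha P3 * evha P4))

/-! ### D divisor sums -/

def D2Sum : Prop := ∃ C : ℝ, 0 ≤ C ∧ ∀ N : ℕ, 1 ≤ N →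
    |∑ n ∈ Finset.Icc 1 N, dv n ^ 2 / (n : ℝ) - Real.log N ^ 4 / (4 * Real.pi ^ 2)|
      ≤ C * (1 + Real.log N) ^ 3

/-! ### E rough sums -/

def Rough1 : Prop := ∃ C : ℝ, 0 ≤ C ∧ ∀ (S : Finset ℕ) (Y x q : ℝ),
    (∀ p ∈ S, p.Prime ∧ 10 ≤ p ∧ Real.log p ≤ Y) → 1 ≤ Y → 0 ≤ x → 0 ≤ q →
    ∀ s : Finset ℕ, (∀ r ∈ s, Rough S r ∧ Real.log r ≤ x) →
    (∑ r ∈ s, dv r ^ 2 / (r : ℝ)) * (DS S * (1 - C * Real.exp (-q / Y)))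
      ≤ ∑ n ∈ Finset.Icc 1 ⌊Real.exp (x + q)⌋₊, dv n ^ 2 / (n : ℝ)

def Rough2 : Prop := ∃ C : ℝ, 0 ≤ C ∧ ∀ (S : Finset ℕ) (Y X1 X2 : ℝ),
    (∀ p ∈ S, p.Prime ∧ 10 ≤ p ∧ Real.log p ≤ Y) → 1 ≤ Y → X1 ≤ X2 → 0 ≤ X2 →
    ∀ s : Finset ℕ, (∀ r ∈ s, Rough S r ∧ X1 ≤ Real.log r ∧ Real.log r ≤ X2) →
    (∑ r ∈ s, dv r ^ 2 / (r : ℝ)) * DS S ≤ C * (X2 - X1 + Y + 1) * (1 + X2 + Y) ^ 3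

def Rough3 : Prop := ∃ C : ℝ, 0 ≤ C ∧ ∀ (S : Finset ℕ) (Y X1 X2 κ : ℝ),
    (∀ p ∈ S, p.Prime ∧ 10 ≤ p ∧ Real.log p ≤ Y) → 1 ≤ Y → X1 ≤ X2 → 0 ≤ X2 → 0 < κ →
    ∀ s : Finset ℕ, (∀ r ∈ s, Rough S r ∧ Real.log r ≤ X2) →
    (∑ r ∈ s, dv r ^ 2 / (r : ℝ) * Real.exp (-(2 * κ * max (X1 - Real.log r) 0))) * DS S
      ≤ C * (X2 - X1 + 1 / κ + Y + 1) * (1 + X2 + Y) ^ 3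

def Rough4 : Prop := ∀ (S : Finset ℕ), (∀ p ∈ S, p.Prime) → ∀ x : ℝ, 0 ≤ x →
    ∃ s : Finset ℕ, (∀ r ∈ s, Rough S r ∧ Real.log r ≤ x) ∧
    ∑ n ∈ Finset.Icc 1 ⌊Real.exp x⌋₊, dv n ^ 2 / (n : ℝ) ≤ DS S * ∑ r ∈ s, dv r ^ 2 / (r : ℝ)

/-! ### F block energies -/

def BeExpo : Prop := ∃ C : ℝ, 0 ≤ C ∧ ∀ (S : Finset ℕ) (r : ℕ) (c : ℝ),
    (∀ p ∈ S, p.Prime ∧ 1000 ≤ p) → 1 ≤ r → VV S ≤ 2 * r → |c| ≤ 1 →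
    EB S (cv (expo c (50000 * r) S) dv)
      (DS S * Real.exp ((c ^ 2 + 4 * c) * VV S + C * V2 S + Real.exp (-r)))

def BePow : Prop := ∀ (S : Finset ℕ) (r : ℕ),
    (∀ p ∈ S, p.Prime ∧ 1000 ≤ p) → 1 ≤ r → VV S ≤ 2 * r →
    EB S (cv (PP S ^ (100000 * r)) dv)
      (DS S * Real.exp (-r) * ((1000 * (r : ℝ)) ^ (2 * (100000 * r)) / Real.exp (8 * (1000 * r))))

def BeExpoAbs : Prop := ∃ C : ℝ, 0 ≤ C ∧ ∀ (S : Finset ℕ) (r : ℕ) (c κ Y : ℝ),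
    (∀ p ∈ S, p.Prime ∧ 1000 ≤ p ∧ Real.log p ≤ Y) → 1 ≤ r → VV S ≤ 2 * r → |c| ≤ 1 → 0 ≤ κ →
    κ * Y ≤ 1 / 3 →
    EB S (cva (expo c (50000 * r) S) (fun n => dv n * (n : ℝ) ^ κ))
      (DS S * Real.exp ((c ^ 2 + 4 * |c|) * VV S + C))

def BePowAbs : Prop := ∃ C : ℝ, 0 ≤ C ∧ ∀ (S : Finset ℕ) (r : ℕ) (κ Y : ℝ),
    (∀ p ∈ S, p.Prime ∧ 1000 ≤ p ∧ Real.log p ≤ Y) → 1 ≤ r → VV S ≤ 2 * r → 0 ≤ κ → κ * Y ≤ 1 / 3 →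
    EB S (cva (PP S ^ (100000 * r)) (fun n => dv n * (n : ℝ) ^ κ))
      (DS S * Real.exp (C - r) * ((1000 * (r : ℝ)) ^ (2 * (100000 * r)) / Real.exp (8 * (1000 * r))))

def BeLower : Prop := ∃ C : ℝ, 0 ≤ C ∧ ∀ (S : Finset ℕ) (r : ℕ) (c : ℝ),
    (∀ p ∈ S, p.Prime ∧ 1000 ≤ p) → 1 ≤ r → VV S ≤ 2 * r → 0 ≤ c → c ≤ 1 →
    ∃ s : Finset ℕ, (∀ m ∈ s, m ∈ Smo (S : Set ℕ) ∧ ArithmeticFunction.cardFactors m ≤ 50000 * r) ∧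
    DS S * Real.exp ((c ^ 2 + 4 * c) * VV S - C * V2 S - Real.exp (-r))
      ≤ ∑ m ∈ s, cv (expo c (50000 * r) S) dv m ^ 2 / (m : ℝ)

/-! ### G the window lemma -/

def FW : Prop := ∀ (i J : ℕ) (S : ℕ → Finset ℕ), (∀ g, ∀ p ∈ S g, p.Prime) →
    (∀ g h, g ≠ h → Disjoint (S g) (S h)) → ∀ b : ℕ → DP,
    (∀ g, ∀ n, (b g).coeff n ≠ 0 → n ∈ Smo (S g : Set ℕ)) → ∀ Yv : ℕ → ℝ,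
    (∀ g, 0 < Yv g) → (∀ g, ∀ p ∈ S g, Real.log p ≤ Yv g) →
    ∀ (f : ℝ → ℝ) (A0 lm X1 X2 κ η : ℝ), 0 < κ → 0 < lm → 0 ≤ A0 → 0 < η →
    (∀ x, |f x| ≤ A0) → (∀ x y, |f x - f y| ≤ A0 / lm * |x - y|) →
    (∀ x, X2 ≤ x → f x = 0) → (∀ x, x ≤ X1 → f x = 0) →
    ∀ Q A : ℕ → ℝ, (∀ g, 0 ≤ Q g) → (∀ g, 0 ≤ A g) →
    (∀ g ∈ Finset.Ico i J, EB (S g) (cv (b g) dv) (Q g)) →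
    (∀ g ∈ Finset.Ico i J,
      EB (S g) (cva (b g) (fun n => dv n * (n : ℝ) ^ (κ + 1 / Yv g))) (A g)) →
    ∀ N : ℕ, X2 ≤ Real.log (N + 1) → ∀ R1 Rw : ℝ,
    (∀ s : Finset ℕ, (∀ r ∈ s, Rough ((Finset.Ico i J).biUnion S) r) →
      ∑ r ∈ s, dv r ^ 2 * f (Real.log r) ^ 2 / (r : ℝ) ≤ R1) →
    (∀ s : Finset ℕ, (∀ r ∈ s, Rough ((Finset.Ico i J).biUnion S) r ∧ Real.log r ≤ X2) →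
      ∑ r ∈ s, dv r ^ 2 / (r : ℝ) * Real.exp (-(2 * κ * max (X1 - Real.log r) 0)) ≤ Rw) →
    En (DF f N * ∏ g ∈ Finset.Ico i J, b g)
      ≤ (1 + η) * (R1 * ∏ g ∈ Finset.Ico i J, Q g)
        + (1 + 1 / η) * (Rw * A0 ^ 2 * (∑ h ∈ Finset.Ico i J, Yv h / lm)
          * ∑ h ∈ Finset.Ico i J, Yv h / lm * ((∏ g ∈ Finset.Ico i (h + 1), A g)
            * ∏ g ∈ Finset.Ico (h + 1) J, Q g))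

/-! ### H groups -/

def VVSg : Prop := ∃ v0 : ℕ, ∀ v : ℕ, v0 ≤ v → ∀ (p0 : ℕ) (Y : ℝ) (g : ℕ), 0 < Y →
    VV (Sg v p0 Y g) ≤ 2 * rg v g

def VsBounds : Prop := ∃ C : ℝ, 0 ≤ C ∧ ∀ (v p0 : ℕ) (Y : ℝ) (J : ℕ), 1 ≤ p0 → 1 ≤ Y →
    Yg v Y J ≤ Real.log p0 →
    Real.log Y - 2 - Real.log p0 ≤ Vs v p0 Y 0 J ∧ Vs v p0 Y 0 J ≤ Real.log Y + C

def ExistsJ : Prop := ∀ v p0 : ℕ, 1 ≤ v → 2 ≤ p0 → ∀ Y : ℝ, 0 < Y → ∃ J : ℕ, Jok v p0 Y J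

def SgDisj : Prop := ∀ (v p0 : ℕ) (Y : ℝ), 0 ≤ Y → ∀ g h : ℕ, g ≠ h →
    Disjoint (Sg v p0 Y g) (Sg v p0 Y h)

/-! ### I pointwise inequalities -/

def PtUpper : Prop := ∀ (v : ℕ), 1 ≤ v → ∀ (p0 : ℕ) (Y : ℝ) (J : ℕ) (a : ℝ), 0 ≤ a → a ≤ 1 / 2 →
    ∀ (t : ℝ) (z : ℂ),
    ‖z‖ ^ (4 * (1 - a)) ≤ (1 - a) * (‖z‖ ^ 4 * GG a v p0 Y J t)
      + a * (Real.exp (Real.exp (-v)) * ∑ s ∈ (Finset.range J).powerset,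
        Wt v s * ‖ev t (Bt (2 * (1 - a)) v p0 Y 0 J s)‖ ^ 2)

def PtCap : Prop := ∀ (v : ℕ), 1 ≤ v → ∀ (p0 : ℕ) (Y : ℝ) (i J : ℕ), i ≤ J → ∀ a : ℝ, 0 ≤ a →
    a ≤ 1 / 2 → ∀ t : ℝ,
    GG a v p0 Y J t ≤ Real.exp (4 * a * ∑ g ∈ Finset.range i, Rg v g)
      * (Real.exp (Real.exp (-v)) * ∑ s ∈ (Finset.Ico i J).powerset,
        Wt v s * ‖ev t (Bt (-2 * a) v p0 Y i J s)‖ ^ 2)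

def PtLower : Prop := ∀ (v : ℕ), 1 ≤ v → ∀ (p0 : ℕ) (Y : ℝ) (J : ℕ) (a b : ℝ), 0 ≤ a → a ≤ 1 / 2 →
    b = a / (1 + 2 * a) → ∀ (t : ℝ) (z : ℂ),
    (‖z‖ * ‖ev t (Bt (2 * a) v p0 Y 0 J ∅)‖ ^ 2) ^ (2 * (1 - b))
      ≤ Real.exp (Real.exp (-v)) * ((1 - b) * (‖z‖ ^ 2 * ∑ s ∈ (Finset.range J).powerset,
          Wt v s * ‖ev t (Bt (2 * a) v p0 Y 0 J s)‖ ^ 2)
        + b * ∑ s ∈ (Finset.range J).powerset,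
          Wt v s * ‖ev t (Bt (2 * (1 + a)) v p0 Y 0 J s)‖ ^ 2)

/-! ### J sums over the sets of groups -/

/-- second moments of the block products -/
def SuSum : Prop := ∃ (C : ℝ) (v0 : ℕ), 0 ≤ C ∧ ∀ v : ℕ, v0 ≤ v → ∀ (p0 : ℕ) (Y : ℝ) (J : ℕ)
    (c : ℝ), 10 ≤ p0 → 1 ≤ Y → |c| ≤ 3 →
    ∑ s ∈ (Finset.range J).powerset, Wt v s * En (Bt c v p0 Y 0 J s)
      ≤ C * Real.exp (c ^ 2 * Vs v p0 Y 0 J)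

/-- lengths -/
def BtLen : Prop := ∀ v p0 : ℕ, 2 ≤ v → 2 ≤ p0 → ∀ (Y : ℝ), 0 < Y → ∀ (i J : ℕ) (c : ℝ)
    (s : Finset ℕ), s ∈ (Finset.Ico i J).powerset → ∀ n : ℕ, (Bt c v p0 Y i J s).coeff n ≠ 0 →
    1 ≤ n ∧ Real.log n ≤ 200000 * v * (i + 1) * Yg v Y i

/-- sizes -/
def BtSize : Prop := ∀ v p0 : ℕ, 2 ≤ v → 10 ≤ p0 → ∀ ρ : ℝ, 0 < ρ →
    ∃ Λ0 : ℝ, 1 ≤ Λ0 ∧ ∀ Λ : ℝ, Λ0 ≤ Λ → ∃ T0 : ℝ, 1 ≤ T0 ∧ ∀ T : ℝ, T0 ≤ T →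
    ∀ (J : ℕ), (∀ g < J, Real.log p0 < Yg v (Real.log T / Λ) g) → ∀ c : ℝ, |c| ≤ 3 →
    ∑ s ∈ (Finset.range J).powerset, Wt v s * evha (Bt c v p0 (Real.log T / Λ) 0 J s) ^ 2
      ≤ T ^ ρ

/-- the sharp main term -/
def MuSum : Prop := ∀ ε : ℝ, 0 < ε → ∃ v0 p1 : ℕ, ∀ v p0 : ℕ, v0 ≤ v → p1 ≤ p0 → ∀ σ : ℝ, 0 < σ →
    σ ≤ 1 / 4 → ∃ Λ0 : ℝ, 1 ≤ Λ0 ∧ ∀ Λ : ℝ, Λ0 ≤ Λ → ∃ T0 : ℝ, 1 ≤ T0 ∧ ∀ T : ℝ, T0 ≤ T →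
    ∀ J : ℕ, Jok v p0 (Real.log T / Λ) J → ∀ c : ℝ, |c| ≤ 1 / 1000 →
    ∑ s ∈ (Finset.range J).powerset, Wt v s * En (Dm σ T * Bt c v p0 (Real.log T / Λ) 0 J s)
      ≤ (1 + ε) * (Real.log T ^ 4 / (4 * Real.pi ^ 2))
        * Real.exp ((c ^ 2 + 4 * c) * Vs v p0 (Real.log T / Λ) 0 J)

/-- the lower bound for the main term, `c ≥ 0` -/
def MlSum : Prop := ∀ ε : ℝ, 0 < ε → ∃ v0 p1 : ℕ, ∀ v p0 : ℕ, v0 ≤ v → p1 ≤ p0 →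
    ∃ σ0 : ℝ, 0 < σ0 ∧ ∀ σ : ℝ, 0 < σ → σ ≤ σ0 →
    ∃ Λ0 : ℝ, 1 ≤ Λ0 ∧ ∀ Λ : ℝ, Λ0 ≤ Λ → ∃ T0 : ℝ, 1 ≤ T0 ∧ ∀ T : ℝ, T0 ≤ T →
    ∀ J : ℕ, Jok v p0 (Real.log T / Λ) J → ∀ c : ℝ, 0 ≤ c → c ≤ 1 / 1000 →
    (1 - ε) * (Real.log T ^ 4 / (4 * Real.pi ^ 2))
        * Real.exp ((c ^ 2 + 4 * c) * Vs v p0 (Real.log T / Λ) 0 J)
      ≤ En (Dm σ T * Bt c v p0 (Real.log T / Λ) 0 J ∅)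

/-- the windows -/
def MidSum : Prop := ∃ (C : ℝ) (v0 p1 : ℕ), 0 ≤ C ∧ ∀ v p0 : ℕ, v0 ≤ v → p1 ≤ p0 →
    ∀ (Y L : ℝ) (i J : ℕ),
    1 ≤ Y → Y ≤ L → i ≤ J → Jok v p0 Y J →
    ∀ (c A0 lm X1 X2 : ℝ) (f : ℝ → ℝ), |c| ≤ 1 / 1000 → 0 ≤ A0 → (i < J → Yg v Y i ≤ lm) → 0 < lm →
    (∀ x, |f x| ≤ A0) → (∀ x y, |f x - f y| ≤ A0 / lm * |x - y|) →
    (∀ x, X2 ≤ x → f x = 0) → (∀ x, x ≤ X1 → f x = 0) → X1 ≤ X2 → 0 ≤ X2 → X2 ≤ L + 2 →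
    ∀ N : ℕ, X2 ≤ Real.log (N + 1) →
    ∑ s ∈ (Finset.Ico i J).powerset, Wt v s * En (DF f N * Bt c v p0 Y i J s)
      ≤ C * A0 ^ 2 * (X2 - X1 + Yg v Y i + 1) * (1 + L) ^ 3
        * Real.exp ((c ^ 2 + 4 * c) * Vs v p0 Y i J + 32 * |c| * rg v i)

/-! ### N mean values with the short polynomial -/

def MainInt : Prop := ∀ (w : ℝ → ℝ) (θ C : ℝ), 0 < θ → θ ≤ 1 → Wgt w θ C → ∀ v p0 : ℕ, 2 ≤ v →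
    10 ≤ p0 → ∀ σ : ℝ, 0 < σ → σ ≤ 1 / 4 → ∃ Λ0 : ℝ, 1 ≤ Λ0 ∧ ∀ Λ : ℝ, Λ0 ≤ Λ → ∀ δ : ℝ, 0 < δ →
    ∃ T0 : ℝ, 1 ≤ T0 ∧ ∀ T : ℝ, T0 ≤ T → ∀ J : ℕ,
    (∀ g < J, Real.log p0 < Yg v (Real.log T / Λ) g) → ∀ c : ℝ, |c| ≤ 3 →
    ∑ s ∈ (Finset.range J).powerset, Wt v s * ∫ t : ℝ, w (t / T) *
        (‖ev t (Dm σ T) + chi t ^ 2 * conj (ev t (Dm σ T))‖ ^ 2
          * ‖ev t (Bt c v p0 (Real.log T / Λ) 0 J s)‖ ^ 2)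
      ≤ (2 * (∫ u, w u) + δ) * T * (∑ s ∈ (Finset.range J).powerset, Wt v s *
          En (Dm σ T * Bt c v p0 (Real.log T / Λ) 0 J s)) + δ * T

def SuInt : Prop := ∃ v0 : ℕ, ∀ (w : ℝ → ℝ) (θ C : ℝ), 0 < θ → θ ≤ 1 → Wgt w θ C →
    ∃ C2 : ℝ, 0 ≤ C2 ∧ ∀ v p0 : ℕ, v0 ≤ v → 10 ≤ p0 →
    ∃ Λ0 : ℝ, 1 ≤ Λ0 ∧ ∀ Λ : ℝ, Λ0 ≤ Λ → ∃ T0 : ℝ, 1 ≤ T0 ∧ ∀ T : ℝ, T0 ≤ T →
    ∀ J : ℕ, ∀ c : ℝ, |c| ≤ 3 →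
    ∑ s ∈ (Finset.range J).powerset, Wt v s * ∫ t : ℝ, w (t / T) *
        ‖ev t (Bt c v p0 (Real.log T / Λ) 0 J s)‖ ^ 2
      ≤ C2 * T * Real.exp (c ^ 2 * Vs v p0 (Real.log T / Λ) 0 J)

/-! ### P mean values with the windows -/

def WinInt : Prop := ∃ v0 p1 : ℕ, ∀ (w : ℝ → ℝ) (θ C : ℝ), 0 < θ → θ ≤ 1 → Wgt w θ C →
    ∃ C2 : ℝ, 0 ≤ C2 ∧ ∀ v p0 : ℕ, v0 ≤ v → p1 ≤ p0 → ∀ σ : ℝ, 0 < σ → σ ≤ 1 / 4 →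
    ∃ Λ0 : ℝ, 1 ≤ Λ0 ∧ ∀ Λ : ℝ, Λ0 ≤ Λ → ∃ T0 : ℝ, 1 ≤ T0 ∧ ∀ T : ℝ, T0 ≤ T →
    ∀ J : ℕ, Jok v p0 (Real.log T / Λ) J → ∀ i : ℕ, i ≤ J → ∀ c : ℝ, |c| ≤ 1 / 1000 →
    ∑ s ∈ (Finset.Ico i J).powerset, Wt v s * ∫ t : ℝ, w (t / T) *
        ((‖ev t (DF (win v (Real.log T / Λ) (Real.log T) σ J i) ⌊T⌋₊)‖ ^ 2
          + ‖ev t (DF (fun x => win v (Real.log T / Λ) (Real.log T) σ J i (x + tau T t)) ⌊T⌋₊)‖ ^ 2)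
          * ‖ev t (Bt c v p0 (Real.log T / Λ) i J s)‖ ^ 2)
      ≤ C2 * T * lam v (Real.log T / Λ) (Real.log T) σ J i * Real.log T ^ 3
        * Real.exp ((c ^ 2 + 4 * c) * Vs v p0 (Real.log T / Λ) i J + 32 * |c| * rg v i)

def ShInt : Prop := ∃ v0 p1 : ℕ, ∀ (w : ℝ → ℝ) (θ C : ℝ), 0 < θ → θ ≤ 1 → Wgt w θ C →
    ∃ C2 : ℝ, 0 ≤ C2 ∧ ∀ v p0 : ℕ, v0 ≤ v → p1 ≤ p0 → ∀ σ : ℝ, 0 < σ → σ ≤ 1 / 4 →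
    ∃ Λ0 : ℝ, 1 ≤ Λ0 ∧ ∀ Λ : ℝ, Λ0 ≤ Λ → ∃ T0 : ℝ, 1 ≤ T0 ∧ ∀ T : ℝ, T0 ≤ T →
    ∀ J : ℕ, Jok v p0 (Real.log T / Λ) J → ∀ c : ℝ, |c| ≤ 1 / 1000 →
    ∑ s ∈ (Finset.range J).powerset, Wt v s * ∫ t : ℝ, w (t / T) *
        (‖ev t (DF (fun x => cu (Real.log T - σ * Real.log T) (σ * Real.log T) (x + tau T t)) ⌊T⌋₊)
            - ev t (Dm σ T)‖ ^ 2
          * ‖ev t (Bt c v p0 (Real.log T / Λ) 0 J s)‖ ^ 2)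
      ≤ C2 * T * (Real.log T ^ 2 / σ ^ 2)
        * Real.exp ((c ^ 2 + 4 * c) * Vs v p0 (Real.log T / Λ) 0 J + 32 * |c| * rg v 0)

def EdgeInt : Prop := ∀ (w : ℝ → ℝ) (θ C : ℝ), 0 < θ → θ ≤ 1 → Wgt w θ C →
    ∃ C2 T0 : ℝ, 0 ≤ C2 ∧ 1 ≤ T0 ∧ ∀ T : ℝ, T0 ≤ T →
    ∫ t : ℝ, w (t / T) * ‖ev t (Ce T)‖ ^ 2 ≤ C2 * T * Real.log T ^ 3

/-! ### K the upper half, L the lower half -/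

def UpperW : Prop := ∀ (w : ℝ → ℝ) (θ C : ℝ), 0 < θ → θ ≤ 1 → Wgt w θ C → ∀ ε : ℝ,
    0 < ε → ∃ a0 : ℝ, 0 < a0 ∧ a0 ≤ 1 / 2 ∧ ∃ T0 : ℝ, 1 ≤ T0 ∧ ∀ a : ℝ, 0 ≤ a → a ≤ a0 →
    ∀ T : ℝ, T0 ≤ T →
    ∫ t : ℝ, w (t / T) * ‖riemannZeta (1 / 2 + I * t)‖ ^ (4 * (1 - a))
      ≤ ((∫ u, w u) + ε) * (1 / (2 * Real.pi ^ 2)) * (T * Real.log T ^ (4 * (1 - a) ^ 2))

def LowerW : Prop := ∀ (w : ℝ → ℝ) (θ C : ℝ), 0 < θ → θ ≤ 1 → Wgt w θ C → ∀ ε : ℝ,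
    0 < ε → ∃ a0 : ℝ, 0 < a0 ∧ a0 ≤ 1 / 2 ∧ ∃ T0 : ℝ, 1 ≤ T0 ∧ ∀ a : ℝ, 0 ≤ a → a ≤ a0 →
    ∀ T : ℝ, T0 ≤ T →
    ((∫ u, w u) - ε) * (1 / (2 * Real.pi ^ 2)) * (T * Real.log T ^ (4 * (1 + a) ^ 2))
      ≤ ∫ t : ℝ, w (t / T) * ‖riemannZeta (1 / 2 + I * t)‖ ^ (4 * (1 + a))

/-! ### M final form -/

def UpperFour : Prop := ∀ (x ε : ℝ), 0 < ε → ∃ η0 : ℝ, 0 < η0 ∧ ∃ T0 : ℝ, ∀ β : ℝ,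
    4 - η0 ≤ β → β ≤ 4 → ∀ T : ℝ, T0 ≤ T →
    mom β x T ≤ (1 / (2 * Real.pi ^ 2) + ε) * Real.log T ^ (β ^ 2 / 4)

def LowerFour : Prop := ∀ (x ε : ℝ), 0 < ε → ∃ η0 : ℝ, 0 < η0 ∧ ∃ T0 : ℝ, ∀ β : ℝ,
    4 ≤ β → β ≤ 4 + η0 → ∀ T : ℝ, T0 ≤ T →
    (1 / (2 * Real.pi ^ 2) - ε) * Real.log T ^ (β ^ 2 / 4) ≤ mom β x T

end Pool.Agent.Lib.J4
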