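import Pool.Agent.Lib.MP_f9aece_nt_j4.FBridge

/-!
# JointFour, module F: block energies of the truncated exponentials
-/

set_option autoImplicit false

namespace Pool.Agent.Lib.J4.H97

open Pool.Agent.Lib.MP_f9aece_nt (DP pair BK K1 PP VV Smo expo Cone cone_PP_pow VV_nonneg pair_def)
open Pool.Agent.Lib.MP_f9aece_nt_h97 (cvg Dom dk QE)

lemma QE_two_le {S : Finset ℕ} {κ : ℝ} (hS : ∀ p ∈ S, 1000 ≤ p) (hz : ∀ p ∈ S, (p : ℝ) ^ κ ≤ 7 / 5)
    {r : ℕ} (hV : VV S ≤ 2 * r) : QE κ 2 S ≤ 66 * r := by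
  have h1 : QE κ 2 S ≤ 33 * VV S := by
    unfold QE VV
    rw [Finset.mul_sum]
    refine Finset.sum_le_sum fun p hp => ?_
    obtain ⟨h0, h1⟩ := inv_le_thousand (hS p hp)
    have hz1 := hz p hp
    have hz0 : 0 ≤ (p : ℝ) ^ κ := by positivity
    set z := (p : ℝ) ^ κ
    set x := (p : ℝ)⁻¹
    have e : Real.exp (2 * |(2 : ℝ)|) = Real.exp 4 := by norm_num
    rw [e]
    have h4 := exp_four_le
    have hz2 : z ^ 2 ≤ 49 / 25 := by nlinarith
    have h5 : (2 * z + 2) ^ 2 ≤ 24 := by nlinarith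
    have h6 : (z ^ 2 * x) ^ 2 ≤ (49 / 25 * x) ^ 2 := by
      have : 0 ≤ z ^ 2 * x := by positivity
      gcongr
    have h7 : (49 / 25 * x) ^ 2 ≤ (49 / 25) ^ 2 * (x * (1 / 1000)) := by nlinarith
    have h8 : 36 * Real.exp 4 * (z ^ 2 * x) ^ 2 ≤ 36 * 55 * ((49 / 25) ^ 2 * (x * (1 / 1000))) := by
      have := h6.trans h7
      gcongr
    nlinarith
  linarith

lemma expo_tail_le {S : Finset ℕ} {κ c : ℝ} (hS : ∀ p ∈ S, 1000 ≤ p)
    (hz : ∀ p ∈ S, (p : ℝ) ^ κ ≤ 7 / 5) {r : ℕ} (hr : 1 ≤ r) (hV : VV S ≤ 2 * r) (hc : |c| ≤ 1) :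
    2 * (|c| / 2 ^ (50000 * r)) * Real.exp (QE κ 2 S) ≤ Real.exp (-(r : ℝ)) := by
  refine le_trans ?_ (num1 hr)
  have h1 := QE_two_le hS hz hV
  gcongr

lemma y_small {p : ℕ} (hp : 1000 ≤ p) {κ : ℝ} (hz : (p : ℝ) ^ κ ≤ 7 / 5) :
    ((p : ℝ) ^ κ) ^ 2 * (p : ℝ)⁻¹ ≤ 1 / 2 := by
  obtain ⟨h0, h1⟩ := inv_le_thousand hp
  have hz0 : 0 ≤ (p : ℝ) ^ κ := by positivity
  have hz2 : ((p : ℝ) ^ κ) ^ 2 ≤ 49 / 25 := by nlinarith
  nlinarith

lemma VV_le_DS {S : Finset ℕ} (hS : ∀ p ∈ S, p.Prime) : Real.exp (4 * VV S) ≤ DS S :=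
  MP_f9aece_nt_h97.DS_ge hS

theorem beExpo : BeExpo := by
  refine ⟨36 * Real.exp 2, by positivity, fun S r c hS hr hV hc => ?_⟩
  have hSp : ∀ p ∈ S, p.Prime := fun p hp => (hS p hp).1
  have hS1 : ∀ p ∈ S, 1000 ≤ p := fun p hp => (hS p hp).2
  have hz : ∀ p ∈ S, (p : ℝ) ^ (0 : ℝ) ≤ 7 / 5 := fun p _ => by rw [Real.rpow_zero]; norm_num
  refine EB_of_cvg fun F hF => ?_
  have h1 := MP_f9aece_nt_h97.energy_expo hSp (le_refl (0 : ℝ)) (fun p hp => y_small (hS1 p hp) (hz p hp))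
    hc (M := 50000 * r) (by omega) F hF
  have e0 : ∀ m, cvg dv (expo c (50000 * r) S) m = cvg (dk 0) (expo c (50000 * r) S) m := by
    intro m
    have : dk 0 = dv := funext MP_f9aece_nt_h97.dk_zero
    rw [this]
  simp_rw [e0]
  refine h1.trans ?_
  have h2 := expo_tail_le hS1 hz hr hV hc
  have h3 : QE 0 c S ≤ 4 * VV S + ((c ^ 2 + 4 * c) * VV S + 36 * Real.exp 2 * V2 S) := by
    unfold QE VV V2
    rw [Finset.mul_sum, Finset.mul_sum, Finset.mul_sum, ← Finset.sum_add_distrib, ← Finset.sum_add_distrib]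
    refine Finset.sum_le_sum fun p hp => ?_
    rw [Real.rpow_zero]
    have h4 : Real.exp (2 * |c|) ≤ Real.exp 2 := Real.exp_le_exp.mpr (by linarith)
    have h5 : 36 * Real.exp (2 * |c|) * (1 ^ 2 * (p : ℝ)⁻¹) ^ 2 ≤ 36 * Real.exp 2 * ((p : ℝ)⁻¹) ^ 2 := by
      rw [one_pow, one_mul]
      gcongr
    nlinarith
  calc Real.exp (QE 0 c S + 2 * (|c| / 2 ^ (50000 * r)) * Real.exp (QE 0 2 S))
      ≤ Real.exp (4 * VV S + ((c ^ 2 + 4 * c) * VV S + 36 * Real.exp 2 * V2 S + Real.exp (-(r : ℝ)))) := by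
        apply Real.exp_le_exp.mpr; linarith
    _ = Real.exp (4 * VV S) * Real.exp ((c ^ 2 + 4 * c) * VV S + 36 * Real.exp 2 * V2 S + Real.exp (-(r : ℝ))) := by
        rw [Real.exp_add]
    _ ≤ _ := by
        have := VV_le_DS hSp
        gcongr

lemma exp_neg_nat_le_one (r : ℕ) : Real.exp (-(r : ℝ)) ≤ 1 := by
  rw [Real.exp_le_one_iff]
  have : (0 : ℝ) ≤ r := Nat.cast_nonneg r
  linarith

theorem beExpoAbs : BeExpoAbs := by
  refine ⟨24 + 144 * Real.exp 2 + 1, by positivity, fun S r c κ Y hS hr hV hc hκ hY => ?_⟩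
  have hSp : ∀ p ∈ S, p.Prime := fun p hp => (hS p hp).1
  have hS1 : ∀ p ∈ S, 1000 ≤ p := fun p hp => (hS p hp).2.1
  have hzz : ∀ p ∈ S, 1 ≤ (p : ℝ) ^ κ ∧ (p : ℝ) ^ κ ≤ 7 / 5 := fun p hp =>
    rpow_bounds (hSp p hp).one_le hκ hY (hS p hp).2.2
  have hz : ∀ p ∈ S, (p : ℝ) ^ κ ≤ 7 / 5 := fun p hp => (hzz p hp).2
  have hd : Dom (expo c (50000 * r) S) (expo |c| (50000 * r) S) :=
    MP_f9aece_nt_h97.dom_expo hSp le_rfl _
  have hc' : |(|c|)| ≤ 1 := by rwa [abs_abs]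
  have hnn : ∀ n, 0 ≤ dk κ n := MP_f9aece_nt_h97.dk_nonneg κ
  refine EB_mono (f' := cv (expo |c| (50000 * r) S) (dk κ)) (fun m => cva_nonneg _ hnn m)
    (fun m => cva_le hd hnn m) le_rfl ?_
  refine EB_of_cvg fun F hF => ?_
  have h1 := MP_f9aece_nt_h97.energy_expo hSp hκ (fun p hp => y_small (hS1 p hp) (hz p hp))
    hc' (M := 50000 * r) (by omega) F hF
  refine h1.trans ?_
  have h2 := expo_tail_le hS1 hz hr hV hc'
  have h2' := exp_neg_nat_le_one r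
  have hV2 := V2_le_one hS1
  have htw := sum_twist_le hS hκ hY
  have h3 : QE κ |c| S ≤ 4 * VV S + ((c ^ 2 + 4 * |c|) * VV S + 8 * ∑ p ∈ S, (((p : ℝ) ^ κ) ^ 2 - 1) * (p : ℝ)⁻¹
      + 144 * Real.exp 2 * V2 S) := by
    unfold QE VV V2
    rw [Finset.mul_sum, Finset.mul_sum, Finset.mul_sum, Finset.mul_sum, ← Finset.sum_add_distrib,
      ← Finset.sum_add_distrib, ← Finset.sum_add_distrib]
    refine Finset.sum_le_sum fun p hp => ?_
    obtain ⟨hx0, hx1⟩ := inv_le_thousand (hS1 p hp)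
    obtain ⟨hz1, hz2⟩ := hzz p hp
    set z := (p : ℝ) ^ κ
    set x := (p : ℝ)⁻¹
    rw [abs_abs]
    have h4 : Real.exp (2 * |c|) ≤ Real.exp 2 := Real.exp_le_exp.mpr (by linarith)
    have hzsq : z ^ 2 ≤ 2 := by nlinarith
    have hz0 : 0 ≤ z := by linarith
    have h5 : 36 * Real.exp (2 * |c|) * (z ^ 2 * x) ^ 2 ≤ 36 * Real.exp 2 * (2 * x) ^ 2 := by
      gcongr
    have h5' : 36 * Real.exp 2 * (2 * x) ^ 2 = 144 * Real.exp 2 * x ^ 2 := by ring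
    have habs : |c| ^ 2 = c ^ 2 := sq_abs c
    have hc0 := abs_nonneg c
    have h6 : (2 * z + |c|) ^ 2 ≤ 4 + (c ^ 2 + 4 * |c|) + 8 * (z ^ 2 - 1) := by
      have h7 : |c| * (z - 1) ≤ z ^ 2 - 1 := by nlinarith
      nlinarith
    have h8 : (2 * z + |c|) ^ 2 * x ≤ (4 + (c ^ 2 + 4 * |c|) + 8 * (z ^ 2 - 1)) * x := by gcongr
    linarith
  calc Real.exp (QE κ |c| S + 2 * (|(|c|)| / 2 ^ (50000 * r)) * Real.exp (QE κ 2 S))
      ≤ Real.exp (4 * VV S + ((c ^ 2 + 4 * |c|) * VV S + (24 + 144 * Real.exp 2 + 1))) := by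
        apply Real.exp_le_exp.mpr
        have : 144 * Real.exp 2 * V2 S ≤ 144 * Real.exp 2 * 1 := by gcongr
        linarith
    _ = Real.exp (4 * VV S) * Real.exp ((c ^ 2 + 4 * |c|) * VV S + (24 + 144 * Real.exp 2 + 1)) := by
        rw [Real.exp_add]
    _ ≤ _ := by
        have := VV_le_DS hSp
        gcongr

lemma exp_neg_le_half {x : ℝ} (h0 : 0 ≤ x) (h1 : x ≤ 1) : Real.exp (-x) ≤ 1 - x / 2 := by
  have h2 := Real.add_one_le_exp x
  rw [Real.exp_neg]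
  rw [inv_le_comm₀ (Real.exp_pos _) (by linarith)]
  refine le_trans ?_ h2
  rw [inv_le_comm₀ (by linarith) (by linarith), ← sub_nonneg]
  have : 1 - x / 2 - (x + 1)⁻¹ = x * (1 - x) / (2 * (x + 1)) := by
    field_simp; ring
  rw [this]
  have : 0 ≤ 1 - x := by linarith
  positivity

theorem beLower : BeLower := by
  refine ⟨77, by norm_num, fun S r c hS hr hV hc0 hc1 => ?_⟩
  have hSp : ∀ p ∈ S, p.Prime := fun p hp => (hS p hp).1
  have hS1 : ∀ p ∈ S, 1000 ≤ p := fun p hp => (hS p hp).2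
  refine ⟨MP_f9aece_nt_h97.sqf (50000 * r) S, fun m hm => MP_f9aece_nt_h97.sqf_mem hSp hm, ?_⟩
  have h1 := MP_f9aece_nt_h97.energy_lower hSp hc0 hc1 (50000 * r)
  have e0 : ∀ m ∈ MP_f9aece_nt_h97.sqf (50000 * r) S,
      cv (expo c (50000 * r) S) dv m ^ 2 / (m : ℝ)
        = MP_f9aece_nt_h97.cvd (expo c (50000 * r) S) m ^ 2 * (m : ℝ)⁻¹ := by
    intro m hm
    rw [cv_eq _ _ (MP_f9aece_nt_h97.sqf_mem hSp hm).1.1, div_eq_mul_inv]
    rfl
  rw [Finset.sum_congr rfl e0]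
  refine le_trans ?_ h1
  have hV0 := VV_nonneg S
  have hV2 := V2_le hS1
  have hD := VV_le_DS hSp
  set X := MP_f9aece_nt_h97.DS S * Real.exp ((4 * c + c ^ 2) * VV S - 77 * MP_f9aece_nt_h97.V2 S) with hX
  have hX1 : 1 ≤ X := by
    calc (1 : ℝ) ≤ Real.exp (4 * VV S + ((4 * c + c ^ 2) * VV S - 77 * V2 S)) := by
          apply Real.one_le_exp
          have : 0 ≤ (4 * c + c ^ 2) * VV S := by positivity
          linarith
      _ = Real.exp (4 * VV S) * Real.exp ((4 * c + c ^ 2) * VV S - 77 * V2 S) := Real.exp_add _ _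
      _ ≤ X := by
          rw [hX]
          have hD' : Real.exp (4 * VV S) ≤ MP_f9aece_nt_h97.DS S := hD
          change _ ≤ MP_f9aece_nt_h97.DS S * Real.exp ((4 * c + c ^ 2) * VV S - 77 * V2 S)
          gcongr
  have h2 : (1 / 2 : ℝ) ^ (50000 * r) * Real.exp (18 * VV S) ≤ Real.exp (-(r : ℝ)) / 2 := by
    have h3 := num1 hr
    have h4 : Real.exp (18 * VV S) ≤ Real.exp (66 * r) := by
      apply Real.exp_le_exp.mpr
      have : (0 : ℝ) ≤ r := Nat.cast_nonneg r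
      linarith
    have e1 : (1 / 2 : ℝ) ^ (50000 * r) = 1 / 2 ^ (50000 * r) := by rw [div_pow, one_pow]
    rw [e1]
    have : 1 / 2 ^ (50000 * r) * Real.exp (18 * VV S) ≤ 1 / 2 ^ (50000 * r) * Real.exp (66 * r) := by
      gcongr
    linarith
  have h5 := exp_neg_le_half (Real.exp_pos (-(r : ℝ))).le (exp_neg_nat_le_one r)
  have e2 : DS S * Real.exp ((c ^ 2 + 4 * c) * VV S - 77 * V2 S - Real.exp (-(r : ℝ)))
      = X * Real.exp (-Real.exp (-(r : ℝ))) := by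
    rw [hX, mul_assoc, ← Real.exp_add]
    change MP_f9aece_nt_h97.DS S * _ = MP_f9aece_nt_h97.DS S * _
    congr 2
    change _ = (4 * c + c ^ 2) * VV S - 77 * V2 S + -Real.exp (-(r : ℝ))
    ring
  rw [e2]
  have h6 : X * Real.exp (-Real.exp (-(r : ℝ))) ≤ X * (1 - Real.exp (-(r : ℝ)) / 2) := by gcongr
  have h7 : 0 < Real.exp (-(r : ℝ)) := Real.exp_pos _
  nlinarith

end Pool.Agent.Lib.J4.H97

namespace Pool.Agent.Lib.J4

theorem beExpo : BeExpo := H97.beExpo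

theorem beExpoAbs : BeExpoAbs := H97.beExpoAbs

theorem beLower : BeLower := H97.beLower

end Pool.Agent.Lib.J4
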