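import Pool.Agent.Lib.MP_f9aece_nt_j4.FPow
import Pool.Agent.Lib.MP_f9aece_nt_j4.FExpo

/-!
# JointFour, module F: block energies of powers of prime sums, final bounds
-/

set_option autoImplicit false

namespace Pool.Agent.Lib.J4.H97

open Pool.Agent.Lib.MP_f9aece_nt (DP pair BK K1 PP VV Smo expo Cone cone_PP_pow VV_nonneg pair_def)
open Pool.Agent.Lib.MP_f9aece_nt_h97 (cvg Dom dk)

lemma num3 (r : ℕ) : (19 / 25 : ℝ) ^ (100000 * r) * Real.exp (8001 * r) ≤ 1 := by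
  have h1 : (19 / 25 : ℝ) ^ (100000 * r) ≤ (19 / 25 : ℝ) ^ (4 * (8001 * r)) :=
    pow_le_pow_of_le_one (by norm_num) (by norm_num) (by omega)
  have e : Real.exp (8001 * (r : ℝ)) = Real.exp 1 ^ (8001 * r) := by
    rw [← Real.exp_nat_mul]; congr 1; push_cast; ring
  have h2 : (19 / 25 : ℝ) ^ 4 * Real.exp 1 ≤ 1 := by
    have := Real.exp_one_lt_d9
    norm_num at this ⊢
    linarith
  calc (19 / 25 : ℝ) ^ (100000 * r) * Real.exp (8001 * r)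
      ≤ (19 / 25 : ℝ) ^ (4 * (8001 * r)) * Real.exp 1 ^ (8001 * r) := by rw [e]; gcongr
    _ = ((19 / 25 : ℝ) ^ 4 * Real.exp 1) ^ (8001 * r) := by rw [pow_mul, mul_pow]
    _ ≤ 1 := pow_le_one₀ (by positivity) h2

lemma pow_num {r : ℕ} {A : ℝ} (hA0 : 0 ≤ A) (hA : A ≤ 19 / 25 * (1000 * (r : ℝ)) ^ 2) :
    A ^ (100000 * r) ≤ Real.exp (-(r : ℝ)) * ((1000 * (r : ℝ)) ^ (2 * (100000 * r)) / Real.exp (8 * (1000 * r))) := by
  have h1 : A ^ (100000 * r) ≤ (19 / 25 : ℝ) ^ (100000 * r) * (1000 * (r : ℝ)) ^ (2 * (100000 * r)) := by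
    calc A ^ (100000 * r) ≤ (19 / 25 * (1000 * (r : ℝ)) ^ 2) ^ (100000 * r) := by gcongr
      _ = _ := by rw [mul_pow, ← pow_mul]
  refine h1.trans ?_
  have h2 := num3 r
  have e1 : Real.exp (8001 * (r : ℝ)) = Real.exp (8 * (1000 * r)) * Real.exp r := by
    rw [← Real.exp_add]; congr 1; ring
  have h3 : (19 / 25 : ℝ) ^ (100000 * r) ≤ Real.exp (-(r : ℝ)) / Real.exp (8 * (1000 * r)) := by
    rw [Real.exp_neg, le_div_iff₀ (Real.exp_pos _), ← one_div, le_div_iff₀ (Real.exp_pos _)]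
    rw [e1] at h2
    linarith
  calc (19 / 25 : ℝ) ^ (100000 * r) * (1000 * (r : ℝ)) ^ (2 * (100000 * r))
      ≤ Real.exp (-(r : ℝ)) / Real.exp (8 * (1000 * r)) * (1000 * (r : ℝ)) ^ (2 * (100000 * r)) := by
        gcongr
    _ = _ := by ring

theorem bePow : BePow := by
  intro S r hS hr hV
  have hSp : ∀ p ∈ S, p.Prime := fun p hp => (hS p hp).1
  refine EB_of_cvg fun F hF => ?_
  have hcone : Cone (Smo (S : Set ℕ)) (PP S ^ (100000 * r)) :=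
    (cone_PP_pow hSp _).mono fun n hn => hn.1
  have h1 := MP_f9aece_nt_h97.energy_cvd_le hSp hcone F hF
  refine h1.trans ?_
  have hr0 : (0 : ℝ) ≤ r := Nat.cast_nonneg r
  have hr1 : (1 : ℝ) ≤ r := by exact_mod_cast hr
  have hV0 := VV_nonneg S
  have h2 := MP_f9aece_nt_h97.PP_pow_K4 hSp (l := 100000 * r) (by push_cast; linarith)
  have h3 : (3 * VV S * ((100000 * r : ℕ) : ℝ)) ^ (100000 * r)
      ≤ Real.exp (-(r : ℝ)) * ((1000 * (r : ℝ)) ^ (2 * (100000 * r)) / Real.exp (8 * (1000 * r))) := by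
    refine pow_num (by positivity) ?_
    push_cast
    calc 3 * VV S * (100000 * (r : ℝ)) ≤ 3 * (2 * r) * (100000 * r) := by gcongr
      _ ≤ 19 / 25 * (1000 * (r : ℝ)) ^ 2 := by nlinarith
  have hD : 0 ≤ DS S := (Real.exp_pos _).le.trans (VV_le_DS hSp)
  calc MP_f9aece_nt_h97.DS S * BK MP_f9aece_nt_h97.K4 (PP S ^ (100000 * r)) (PP S ^ (100000 * r))
      ≤ DS S * (Real.exp (-(r : ℝ)) * ((1000 * (r : ℝ)) ^ (2 * (100000 * r)) / Real.exp (8 * (1000 * r)))) :=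
        mul_le_mul_of_nonneg_left (h2.trans h3) hD
    _ = _ := by ring

lemma DK_le {S : Finset ℕ} {κ Y : ℝ} (hS : ∀ p ∈ S, p.Prime ∧ 1000 ≤ p ∧ Real.log p ≤ Y)
    (hκ : 0 ≤ κ) (hY : κ * Y ≤ 1 / 3) : DK κ S ≤ DS S * Real.exp 156 := by
  have hSp : ∀ p ∈ S, p.Prime := fun p hp => (hS p hp).1
  have hS1 : ∀ p ∈ S, 1000 ≤ p := fun p hp => (hS p hp).2.1
  have h1 : DK κ S ≤ Real.exp (∑ p ∈ S, (4 * ((p : ℝ)⁻¹) + 4 * ((((p : ℝ) ^ κ) ^ 2 - 1) * (p : ℝ)⁻¹)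
      + 144 * ((p : ℝ)⁻¹) ^ 2)) := by
    rw [Real.exp_sum]
    unfold DK
    refine Finset.prod_le_prod (fun p hp => ?_) fun p hp => ?_
    · have := y_small (hS1 p hp) (rpow_bounds (hSp p hp).one_le hκ hY (hS p hp).2.2).2
      have h2 : 0 < 1 - ((p : ℝ) ^ κ) ^ 2 * (p : ℝ)⁻¹ := by linarith
      positivity
    · have h2 := y_small (hS1 p hp) (rpow_bounds (hSp p hp).one_le hκ hY (hS p hp).2.2).2
      have hz := (rpow_bounds (hSp p hp).one_le hκ hY (hS p hp).2.2).2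
      have hz0 : 0 ≤ (p : ℝ) ^ κ := by positivity
      have hz2 : ((p : ℝ) ^ κ) ^ 2 ≤ 2 := by nlinarith
      have h3 := MP_f9aece_nt_h97.tail_sq_le h2
      have h4 := Real.add_one_le_exp (4 * ((p : ℝ)⁻¹) + 4 * ((((p : ℝ) ^ κ) ^ 2 - 1) * (p : ℝ)⁻¹)
        + 144 * ((p : ℝ)⁻¹) ^ 2)
      have hx : 0 ≤ (p : ℝ)⁻¹ := by positivity
      have h5 : (((p : ℝ) ^ κ) ^ 2 * (p : ℝ)⁻¹) ^ 2 ≤ (2 * (p : ℝ)⁻¹) ^ 2 := by
        gcongr
      nlinarith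
  refine h1.trans ?_
  have htw := sum_twist_le hS hκ hY
  have hV2 := V2_le_one hS1
  have e : ∑ p ∈ S, (4 * ((p : ℝ)⁻¹) + 4 * ((((p : ℝ) ^ κ) ^ 2 - 1) * (p : ℝ)⁻¹)
      + 144 * ((p : ℝ)⁻¹) ^ 2)
      = 4 * VV S + 4 * ∑ p ∈ S, (((p : ℝ) ^ κ) ^ 2 - 1) * (p : ℝ)⁻¹ + 144 * V2 S := by
    rw [Finset.sum_add_distrib, Finset.sum_add_distrib, ← Finset.mul_sum, ← Finset.mul_sum,
      ← Finset.mul_sum]
    rfl
  rw [e]
  calc Real.exp (4 * VV S + 4 * ∑ p ∈ S, (((p : ℝ) ^ κ) ^ 2 - 1) * (p : ℝ)⁻¹ + 144 * V2 S)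
      ≤ Real.exp (4 * VV S + 156) := by
        apply Real.exp_le_exp.mpr; linarith
    _ = Real.exp (4 * VV S) * Real.exp 156 := Real.exp_add _ _
    _ ≤ _ := by
        have := VV_le_DS hSp
        gcongr

theorem bePowAbs : BePowAbs := by
  refine ⟨156, by norm_num, fun S r κ Y hS hr hV hκ hY => ?_⟩
  have hSp : ∀ p ∈ S, p.Prime := fun p hp => (hS p hp).1
  have hS1 : ∀ p ∈ S, 1000 ≤ p := fun p hp => (hS p hp).2.1
  have hz : ∀ p ∈ S, (p : ℝ) ^ κ ≤ 7 / 5 := fun p hp =>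
    (rpow_bounds (hSp p hp).one_le hκ hY (hS p hp).2.2).2
  have hcone : Cone (Smo (S : Set ℕ)) (PP S ^ (100000 * r)) :=
    (cone_PP_pow hSp _).mono fun n hn => hn.1
  have hnn : ∀ n, 0 ≤ dk κ n := MP_f9aece_nt_h97.dk_nonneg κ
  refine EB_mono (f' := cv (PP S ^ (100000 * r)) (dk κ)) (fun m => cva_nonneg _ hnn m)
    (fun m => cva_le (MP_f9aece_nt_h97.dom_self hcone) hnn m) le_rfl ?_
  refine EB_of_cvg fun F hF => ?_
  have h1 := energy_cvk_le hSp (fun p hp => y_small (hS1 p hp) (hz p hp)) hcone F hF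
  refine h1.trans ?_
  have hr0 : (0 : ℝ) ≤ r := Nat.cast_nonneg r
  have hr1 : (1 : ℝ) ≤ r := by exact_mod_cast hr
  have hV0 := VV_nonneg S
  have h2 := PP_pow_KD hSp hz (by norm_num) (l := 100000 * r) (by push_cast; linarith)
  have h3 : ((2 * (7 / 5) + 1) * VV S * ((100000 * r : ℕ) : ℝ)) ^ (100000 * r)
      ≤ Real.exp (-(r : ℝ)) * ((1000 * (r : ℝ)) ^ (2 * (100000 * r)) / Real.exp (8 * (1000 * r))) := by
    refine pow_num (by positivity) ?_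
    push_cast
    calc (2 * (7 / 5) + 1) * VV S * (100000 * (r : ℝ)) ≤ (2 * (7 / 5) + 1) * (2 * r) * (100000 * r) := by gcongr
      _ ≤ 19 / 25 * (1000 * (r : ℝ)) ^ 2 := by nlinarith
  have hD := DK_le hS hκ hY
  have hD0 : 0 ≤ DS S := (Real.exp_pos _).le.trans (VV_le_DS hSp)
  have hB0 : 0 ≤ BK (KD κ) (PP S ^ (100000 * r)) (PP S ^ (100000 * r)) :=
    MP_f9aece_nt.BK_nonneg hcone hcone (KD_nonneg κ)
  calc DK κ S * BK (KD κ) (PP S ^ (100000 * r)) (PP S ^ (100000 * r))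
      ≤ (DS S * Real.exp 156) * (Real.exp (-(r : ℝ)) * ((1000 * (r : ℝ)) ^ (2 * (100000 * r)) / Real.exp (8 * (1000 * r)))) := by
        have := h2.trans h3
        gcongr
    _ = DS S * Real.exp (156 - r) * ((1000 * (r : ℝ)) ^ (2 * (100000 * r)) / Real.exp (8 * (1000 * r))) := by
        rw [sub_eq_add_neg, Real.exp_add]; ring

end Pool.Agent.Lib.J4.H97
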