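import Pool.Agent.Lib.MP_f9aece_nt_j4.I2Base

/-!
# JointFour, module I2: second moments of the block products
-/

set_option autoImplicit false

namespace Pool.Agent.Lib.J4

open Pool.Agent.Lib.MP_f9aece_nt
  (DP pair BK K1 ev ev1 evh PP VV Smo expo EE mulKer_K1 MulKer BK_single BK_expo BK_PP_pow_self
    VV_nonneg)
open Pool.Agent.Lib.MP_f9aece_nt_h97 (Sup BK_mul_sup sup_prod_Smo)

lemma En_eq_sum (f : DP) : En f = ∑ a ∈ f.coeff.support, f.coeff a ^ 2 * (a : ℝ)⁻¹ := by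
  unfold En
  rw [MP_f9aece_nt.BK_K1_eq, MP_f9aece_nt.pair_def]
  exact Finset.sum_congr rfl fun a _ => by ring

lemma En_nonneg' (f : DP) : 0 ≤ En f := by
  rw [En_eq_sum]
  exact Finset.sum_nonneg fun a _ => by positivity

/-- multiplicative kernels give multiplicative forms -/
lemma BK_prod_sup' {K : ℕ → ℕ → ℝ} (hK : MulKer K) (s : Finset ℕ) (I : ℕ → Finset ℕ)
    (hI : ∀ i ∈ s, ∀ j ∈ s, i ≠ j → Disjoint (I i) (I j)) (f g : ℕ → DP)
    (hf : ∀ j ∈ s, Sup (Smo (I j)) (f j)) (hg : ∀ j ∈ s, Sup (Smo (I j)) (g j)) :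
    BK K (∏ j ∈ s, f j) (∏ j ∈ s, g j) = ∏ j ∈ s, BK K (f j) (g j) := by
  classical
  induction s using Finset.induction_on with
  | empty =>
    simp only [Finset.prod_empty]
    rw [MonoidAlgebra.one_def, BK_single, hK.1]
    norm_num
  | insert a s ha ih =>
    rw [Finset.prod_insert ha, Finset.prod_insert ha, Finset.prod_insert ha]
    have hf' : ∀ j ∈ s, Sup (Smo (I j)) (f j) := fun j hj => hf j (Finset.mem_insert_of_mem hj)
    have hg' : ∀ j ∈ s, Sup (Smo (I j)) (g j) := fun j hj => hg j (Finset.mem_insert_of_mem hj)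
    have hdis : Disjoint (I a : Set ℕ) (⋃ j ∈ s, (I j : Set ℕ)) := by
      rw [Set.disjoint_iUnion₂_right]
      intro j hj
      rw [Finset.disjoint_coe]
      exact hI a (Finset.mem_insert_self _ _) j (Finset.mem_insert_of_mem hj)
        (by rintro rfl; exact ha hj)
    rw [BK_mul_sup K (hf a (Finset.mem_insert_self _ _)) (hg a (Finset.mem_insert_self _ _))
      (sup_prod_Smo s I f hf') (sup_prod_Smo s I g hg') (hK.2 _ _ hdis)]
    rw [ih (fun i hi j hj hij => hI i (Finset.mem_insert_of_mem hi) j (Finset.mem_insert_of_mem hj) hij)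
      hf' hg']

/-- the energy of the block product -/
lemma En_Bt (c : ℝ) (v p0 : ℕ) {Y : ℝ} (hY : 0 ≤ Y) (i J : ℕ) {s : Finset ℕ}
    (hs : s ⊆ Finset.Ico i J) :
    En (Bt c v p0 Y i J s) = ∏ g ∈ Finset.Ico i J, En (bg c v p0 Y s g) := by
  rw [Bt_eq c v p0 Y i J hs]
  exact BK_prod_sup' mulKer_K1 _ (Sg v p0 Y) (fun g _ h _ hgh => sgDisj v p0 Y hY g h hgh) _ _
    (fun g _ => sup_bg_Smo c v p0 Y s g) (fun g _ => sup_bg_Smo c v p0 Y s g)

lemma exp_eight_thousand : Real.exp 8001 ≤ 5 ^ 100000 := by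
  have h1 := Real.exp_one_lt_d9
  have h2 : Real.exp 8001 = Real.exp 1 ^ 8001 := by
    rw [← Real.exp_nat_mul]
    norm_num
  rw [h2]
  calc Real.exp 1 ^ 8001 ≤ 5 ^ 8001 := by
        refine pow_le_pow_left₀ (Real.exp_pos _).le ?_ _
        linarith
    _ ≤ 5 ^ 100000 := pow_le_pow_right₀ (by norm_num) (by norm_num)

/-- the weighted energy of a power of the prime sum -/
lemma wt_En_pow {I : Finset ℕ} (hI : ∀ p ∈ I, p.Prime) {r : ℕ} (hr : 1 ≤ r) (hV : VV I ≤ 2 * r) :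
    Real.exp (8 * (1000 * (r : ℝ))) / (1000 * (r : ℝ)) ^ (2 * (100000 * r))
      * En (PP I ^ (100000 * r)) ≤ Real.exp (-(r : ℝ)) := by
  have hr0 : (1 : ℝ) ≤ r := by exact_mod_cast hr
  set M : ℕ := 100000 * r with hM
  have hMr : (M : ℝ) = 100000 * r := by rw [hM]; push_cast; ring
  have h1 : En (PP I ^ M) ≤ (M : ℝ) ^ M * (2 * r) ^ M := by
    refine (BK_PP_pow_self hI M).trans ?_
    have h2 : ((M.factorial : ℕ) : ℝ) ≤ (M : ℝ) ^ M := by exact_mod_cast Nat.factorial_le_pow M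
    have h3 := VV_nonneg I
    gcongr
  have h4 : Real.exp (8 * (1000 * (r : ℝ))) ≤ (5 ^ 100000) ^ r * Real.exp (-(r : ℝ)) := by
    have h5 : Real.exp (8 * (1000 * (r : ℝ))) = Real.exp 8001 ^ r * Real.exp (-(r : ℝ)) := by
      rw [← Real.exp_nat_mul, ← Real.exp_add]
      congr 1
      ring
    rw [h5]
    have := exp_eight_thousand
    gcongr
  have hpos : (0 : ℝ) < (1000 * (r : ℝ)) ^ (2 * M) := by positivity
  rw [div_mul_eq_mul_div, div_le_iff₀ hpos]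
  have h6 : (5 ^ 100000 : ℝ) ^ r = 5 ^ M := by rw [← pow_mul]
  have h7 := En_nonneg' (PP I ^ M)
  calc Real.exp (8 * (1000 * (r : ℝ))) * En (PP I ^ M)
      ≤ ((5 ^ 100000) ^ r * Real.exp (-(r : ℝ))) * ((M : ℝ) ^ M * (2 * r) ^ M) := by
        gcongr
    _ = Real.exp (-(r : ℝ)) * (1000 * (r : ℝ)) ^ (2 * M) := by
        rw [h6, pow_mul (1000 * (r : ℝ)) 2 M]
        have e : (1000 * (r : ℝ)) ^ 2 = 5 * ((M : ℝ) * (2 * r)) := by rw [hMr]; ring
        rw [e, mul_pow, mul_pow]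
        ring

lemma one_le_rg {v : ℕ} (hv : 1 ≤ v) (g : ℕ) : 1 ≤ rg v g := by
  unfold rg
  exact Nat.one_le_iff_ne_zero.mpr (mul_ne_zero (by omega) (by omega))

lemma sum_exp_rg_le {v : ℕ} (hv : 1 ≤ v) (t : Finset ℕ) :
    ∑ g ∈ t, Real.exp (-(rg v g : ℝ)) ≤ 1 := by
  have h1 : ∀ g, Real.exp (-(rg v g : ℝ)) ≤ (1 / 2 : ℝ) ^ (g + 1) := by
    intro g
    have h2 : Real.exp (-(rg v g : ℝ)) ≤ Real.exp (-1) ^ (g + 1) := by
      rw [← Real.exp_nat_mul]
      apply Real.exp_le_exp.mpr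
      have h3 : g + 1 ≤ rg v g := by
        unfold rg
        exact Nat.le_mul_of_pos_left _ (by omega)
      have h4 : ((g + 1 : ℕ) : ℝ) ≤ (rg v g : ℝ) := by exact_mod_cast h3
      linarith
    refine h2.trans (pow_le_pow_left₀ (Real.exp_pos _).le ?_ _)
    rw [Real.exp_neg, inv_eq_one_div]
    apply one_div_le_one_div_of_le (by norm_num)
    have := Real.exp_one_gt_d9
    linarith
  have hs : Summable fun g : ℕ => (1 / 2 : ℝ) ^ (g + 1) := by
    have := (summable_geometric_two).mul_left (1 / 2 : ℝ)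
    refine this.congr fun g => ?_
    rw [pow_succ]; ring
  calc ∑ g ∈ t, Real.exp (-(rg v g : ℝ)) ≤ ∑ g ∈ t, (1 / 2 : ℝ) ^ (g + 1) :=
        Finset.sum_le_sum fun g _ => h1 g
    _ ≤ ∑' g : ℕ, (1 / 2 : ℝ) ^ (g + 1) := hs.sum_le_tsum t fun g _ => by positivity
    _ = 1 := by
        have e : (fun g : ℕ => (1 / 2 : ℝ) ^ (g + 1)) = fun g => (1 / 2) * (1 / 2 : ℝ) ^ g := by
          funext g; rw [pow_succ]; ring
        rw [e, tsum_mul_left, tsum_geometric_two]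
        norm_num

theorem sum_Wt_En_le {v : ℕ} (hv : 1 ≤ v) (p0 : ℕ) {Y : ℝ} (hY : 0 ≤ Y)
    (hV : ∀ g, VV (Sg v p0 Y g) ≤ 2 * rg v g) (i J : ℕ) (c : ℝ) :
    ∑ s ∈ (Finset.Ico i J).powerset, Wt v s * En (Bt c v p0 Y i J s)
      ≤ Real.exp 1 * Real.exp (c ^ 2 * Vs v p0 Y i J) := by
  have h1 : ∀ s ∈ (Finset.Ico i J).powerset, Wt v s * En (Bt c v p0 Y i J s)
      ≤ (∏ g ∈ s, Real.exp (-(rg v g : ℝ)) * Real.exp (c ^ 2 * VV (Sg v p0 Y g)))
        * ∏ g ∈ Finset.Ico i J \ s, Real.exp (c ^ 2 * VV (Sg v p0 Y g)) := by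
    intro s hs
    rw [Finset.mem_powerset] at hs
    rw [En_Bt c v p0 hY i J hs, ← Finset.prod_sdiff hs, mul_comm (∏ g ∈ Finset.Ico i J \ s, _),
      ← mul_assoc]
    unfold Wt
    rw [← Finset.prod_mul_distrib]
    have hnn := En_nonneg'
    refine mul_le_mul ?_ ?_ (Finset.prod_nonneg fun g _ => hnn _)
      (Finset.prod_nonneg fun g _ => by positivity)
    · refine Finset.prod_le_prod (fun g _ => mul_nonneg ?_ (hnn _)) fun g hg => ?_
      · unfold Rg; positivity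
      rw [bg_mem hg]
      have h2 := wt_En_pow (I := Sg v p0 Y g) Sg_prime (one_le_rg hv g) (hV g)
      have h3 : (1 : ℝ) ≤ Real.exp (c ^ 2 * VV (Sg v p0 Y g)) :=
        Real.one_le_exp (mul_nonneg (sq_nonneg _) (VV_nonneg _))
      calc Real.exp (8 * Rg v g) / Rg v g ^ (2 * Mg v g) * En (Pg v p0 Y g ^ Mg v g)
          ≤ Real.exp (-(rg v g : ℝ)) := h2
        _ = Real.exp (-(rg v g : ℝ)) * 1 := (mul_one _).symm
        _ ≤ _ := by gcongr
    · refine Finset.prod_le_prod (fun g _ => hnn _) fun g hg => ?_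
      rw [bg_notMem (Finset.mem_sdiff.mp hg).2]
      exact BK_expo Sg_prime c _
  refine (Finset.sum_le_sum h1).trans ?_
  rw [← Finset.prod_add]
  have h4 : ∀ g ∈ Finset.Ico i J, Real.exp (-(rg v g : ℝ)) * Real.exp (c ^ 2 * VV (Sg v p0 Y g))
      + Real.exp (c ^ 2 * VV (Sg v p0 Y g))
      ≤ Real.exp (Real.exp (-(rg v g : ℝ)) + c ^ 2 * VV (Sg v p0 Y g)) := by
    intro g _
    rw [Real.exp_add (Real.exp (-(rg v g : ℝ)))]
    have := Real.add_one_le_exp (Real.exp (-(rg v g : ℝ)))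
    have e : Real.exp (-(rg v g : ℝ)) * Real.exp (c ^ 2 * VV (Sg v p0 Y g))
      + Real.exp (c ^ 2 * VV (Sg v p0 Y g))
      = (Real.exp (-(rg v g : ℝ)) + 1) * Real.exp (c ^ 2 * VV (Sg v p0 Y g)) := by ring
    rw [e]
    gcongr
  refine (Finset.prod_le_prod (fun g _ => by positivity) h4).trans ?_
  rw [← Real.exp_sum, ← Real.exp_add, Finset.sum_add_distrib]
  apply Real.exp_le_exp.mpr
  have h5 := sum_exp_rg_le hv (Finset.Ico i J)
  have h6 : ∑ g ∈ Finset.Ico i J, c ^ 2 * VV (Sg v p0 Y g) = c ^ 2 * Vs v p0 Y i J := by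
    unfold Vs
    rw [Finset.mul_sum]
  rw [h6]
  linarith

theorem suSum : SuSum := by
  obtain ⟨v0, hv0⟩ := vvSg
  refine ⟨Real.exp 1, max v0 1, (Real.exp_pos _).le, fun v hv p0 Y J c _ hY _ => ?_⟩
  have h := sum_Wt_En_le (le_trans (le_max_right _ _) hv) p0 (by linarith : (0 : ℝ) ≤ Y)
    (fun g => hv0 v (le_trans (le_max_left _ _) hv) p0 Y g (by linarith)) 0 J c
  rwa [Nat.Ico_zero_eq_range] at h

end Pool.Agent.Lib.J4
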