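import Pool.Agent.Lib.MP_f9aece_nt_j4.GroupsH
import Pool.Agent.Lib.MP_f9aece_nt_h97.Signed

/-!
# JointFour, module I2: the block products as products over the groups, their lengths

`Bt c v p0 Y i J s = ∏ g ∈ Ico i J, bg c v p0 Y s g` with `bg = Pg ^ Mg` for `g ∈ s`, `Eg` otherwise.
-/

set_option autoImplicit false

namespace Pool.Agent.Lib.J4

open Pool.Agent.Lib.MP_f9aece_nt
  (DP pair BK K1 ev ev1 evh PP VV Smo expo EE cone_PP_pow Smo_mono log_le_of_Omega Cone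
    mulKer_K1 MulKer one_mem_Smo)
open Pool.Agent.Lib.MP_f9aece_nt_h97 (Sup sup_of_cone BK_mul_sup sup_prod_Smo)
open scoped ArithmeticFunction.Omega

/-! ### the groups -/

lemma mem_Sg {v p0 g p : ℕ} {Y : ℝ} : p ∈ Sg v p0 Y g ↔ p ∈ Finset.Icc 1 ⌊Real.exp Y⌋₊ ∧
    p.Prime ∧ p0 < p ∧ Yg v Y (g + 1) < Real.log p ∧ Real.log p ≤ Yg v Y g := by
  unfold Sg
  rw [Finset.mem_filter]

lemma Sg_prime {v p0 g : ℕ} {Y : ℝ} : ∀ p ∈ Sg v p0 Y g, p.Prime := fun _ hp => (mem_Sg.mp hp).2.1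

lemma Sg_gt {v p0 g : ℕ} {Y : ℝ} : ∀ p ∈ Sg v p0 Y g, p0 < p := fun _ hp => (mem_Sg.mp hp).2.2.1

lemma Sg_log_le {v p0 g : ℕ} {Y : ℝ} : ∀ p ∈ Sg v p0 Y g, Real.log p ≤ Yg v Y g :=
  fun _ hp => (mem_Sg.mp hp).2.2.2.2

/-- the factor of the group `g` -/
noncomputable def bg (c : ℝ) (v p0 : ℕ) (Y : ℝ) (s : Finset ℕ) (g : ℕ) : DP :=
  if g ∈ s then Pg v p0 Y g ^ Mg v g else Eg c v p0 Y g

lemma bg_mem {c : ℝ} {v p0 : ℕ} {Y : ℝ} {s : Finset ℕ} {g : ℕ} (h : g ∈ s) :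
    bg c v p0 Y s g = Pg v p0 Y g ^ Mg v g := if_pos h

lemma bg_notMem {c : ℝ} {v p0 : ℕ} {Y : ℝ} {s : Finset ℕ} {g : ℕ} (h : g ∉ s) :
    bg c v p0 Y s g = Eg c v p0 Y g := if_neg h

lemma prod_split {M : Type*} [CommMonoid M] {t s : Finset ℕ} (hs : s ⊆ t) (a b : ℕ → M) :
    (∏ g ∈ t \ s, a g) * ∏ g ∈ s, b g = ∏ g ∈ t, if g ∈ s then b g else a g := by
  classical
  rw [← Finset.prod_sdiff hs]
  congr 1
  · refine Finset.prod_congr rfl fun g hg => ?_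
    rw [if_neg (Finset.mem_sdiff.mp hg).2]
  · refine Finset.prod_congr rfl fun g hg => ?_
    rw [if_pos hg]

lemma Bt_eq (c : ℝ) (v p0 : ℕ) (Y : ℝ) (i J : ℕ) {s : Finset ℕ} (hs : s ⊆ Finset.Ico i J) :
    Bt c v p0 Y i J s = ∏ g ∈ Finset.Ico i J, bg c v p0 Y s g := by
  unfold Bt bg
  exact prod_split hs _ _

/-! ### supports -/

lemma sup_PPpow {I : Finset ℕ} (hI : ∀ p ∈ I, p.Prime) (r : ℕ) :
    Sup {n | n ∈ Smo (I : Set ℕ) ∧ Ω n ≤ r} (PP I ^ r) :=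
  (sup_of_cone (cone_PP_pow hI r)).mono fun _ hn => ⟨hn.1, hn.2.le⟩

lemma sup_expo' {I : Finset ℕ} (hI : ∀ p ∈ I, p.Prime) (c : ℝ) (M : ℕ) :
    Sup {n | n ∈ Smo (I : Set ℕ) ∧ Ω n ≤ M} (expo c M I) := by
  unfold expo
  refine Sup.sum _ fun r hr => Sup.smul ?_ _
  rw [Finset.mem_range] at hr
  refine (sup_PPpow hI r).mono fun n hn => ⟨hn.1, hn.2.trans (by omega)⟩

lemma sup_bg (c : ℝ) (v p0 : ℕ) (Y : ℝ) (s : Finset ℕ) (g : ℕ) :
    Sup {n | n ∈ Smo (Sg v p0 Y g : Set ℕ) ∧ Ω n ≤ Mg v g} (bg c v p0 Y s g) := by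
  unfold bg
  split_ifs with h
  · exact sup_PPpow Sg_prime _
  · refine (sup_expo' Sg_prime c (Kg v g)).mono fun n hn => ⟨hn.1, hn.2.trans ?_⟩
    unfold Kg Mg
    omega

lemma sup_bg_Smo (c : ℝ) (v p0 : ℕ) (Y : ℝ) (s : Finset ℕ) (g : ℕ) :
    Sup (Smo (Sg v p0 Y g : Set ℕ)) (bg c v p0 Y s g) :=
  (sup_bg c v p0 Y s g).mono fun _ hn => hn.1

/-! ### lengths -/

/-- numbers of bounded logarithm -/
def Ln (lam : ℝ) : Set ℕ := {n | 1 ≤ n ∧ Real.log n ≤ lam}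

lemma Ln.mul {x y : ℝ} {a b : ℕ} (ha : a ∈ Ln x) (hb : b ∈ Ln y) : a * b ∈ Ln (x + y) := by
  refine ⟨Nat.one_le_iff_ne_zero.mpr (mul_ne_zero (Nat.one_le_iff_ne_zero.mp ha.1)
    (Nat.one_le_iff_ne_zero.mp hb.1)), ?_⟩
  have h1 : (a : ℝ) ≠ 0 := by exact_mod_cast Nat.one_le_iff_ne_zero.mp ha.1
  have h2 : (b : ℝ) ≠ 0 := by exact_mod_cast Nat.one_le_iff_ne_zero.mp hb.1
  push_cast
  rw [Real.log_mul h1 h2]
  exact add_le_add ha.2 hb.2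

lemma Ln.mono {x y : ℝ} (h : x ≤ y) : Ln x ⊆ Ln y := fun _ hn => ⟨hn.1, hn.2.trans h⟩

lemma sup_Ln_prod (t : Finset ℕ) (f : ℕ → DP) (lam : ℕ → ℝ)
    (hf : ∀ j ∈ t, Sup (Ln (lam j)) (f j)) : Sup (Ln (∑ j ∈ t, lam j)) (∏ j ∈ t, f j) := by
  classical
  induction t using Finset.induction_on with
  | empty =>
    simp only [Finset.prod_empty, Finset.sum_empty]
    exact Sup.one ⟨le_rfl, by simp⟩
  | insert a t ha ih =>
    rw [Finset.prod_insert ha, Finset.sum_insert ha]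
    exact (hf a (Finset.mem_insert_self _ _)).mul
      (ih fun i hi => hf i (Finset.mem_insert_of_mem hi)) fun x hx y hy => Ln.mul hx hy

lemma sup_bg_Ln (c : ℝ) (v p0 : ℕ) {Y : ℝ} (hY : 0 < Y) (s : Finset ℕ) (g : ℕ) :
    Sup (Ln (Mg v g * Yg v Y g)) (bg c v p0 Y s g) := by
  refine (sup_bg c v p0 Y s g).mono fun n hn => ⟨Nat.one_le_iff_ne_zero.mpr hn.1.1, ?_⟩
  exact log_le_of_Omega (lam := Yg v Y g) (fun p hp => Sg_log_le p hp) (Yg_pos v hY g).le hn.1 hn.2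

lemma geom_sum_le (a : ℕ → ℝ) (ha : ∀ g, 0 ≤ a g) (h : ∀ g, a (g + 1) ≤ a g / 2) (i J : ℕ) :
    ∑ g ∈ Finset.Ico i J, a g ≤ 2 * a i := by
  rcases le_total J i with hJ | hJ
  · rw [Finset.Ico_eq_empty_of_le hJ, Finset.sum_empty]
    have := ha i
    linarith
  · have h1 : ∀ J, i ≤ J → ∑ g ∈ Finset.Ico i J, a g ≤ 2 * a i - 2 * a J := by
      intro J hJ
      induction J, hJ using Nat.le_induction with
      | base => simp
      | succ J hJ ih =>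
        rw [Finset.sum_Ico_succ_top hJ]
        have := h J
        linarith
    have h2 := h1 J hJ
    have := ha J
    linarith

lemma exp_neg_two_le : Real.exp (-2) ≤ 1 / 4 := by
  have h1 := Real.exp_one_gt_d9
  have h2 : Real.exp 2 = Real.exp 1 * Real.exp 1 := by rw [← Real.exp_add]; norm_num
  rw [Real.exp_neg, h2, inv_eq_one_div]
  apply one_div_le_one_div_of_le (by norm_num)
  nlinarith

/-- the sum of `r_g Y_g` is dominated by its first term -/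
lemma sum_rY_le {v : ℕ} (hv : 2 ≤ v) {Y : ℝ} (hY : 0 < Y) (i J : ℕ) :
    ∑ g ∈ Finset.Ico i J, ((g : ℝ) + 1) * Yg v Y g ≤ 2 * (((i : ℝ) + 1) * Yg v Y i) := by
  refine geom_sum_le (fun g => ((g : ℝ) + 1) * Yg v Y g)
    (fun g => mul_nonneg (by positivity) (Yg_pos v hY g).le) (fun g => ?_) i J
  rw [Yg_succ]
  have hY0 := Yg_pos v hY g
  have h1 : Real.exp (-(rg v g : ℝ)) ≤ 1 / 4 := by
    refine le_trans ?_ exp_neg_two_le
    apply Real.exp_le_exp.mpr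
    have : (2 : ℝ) ≤ (rg v g : ℝ) := by
      have h2 : 2 ≤ rg v g := by
        unfold rg
        calc 2 ≤ v * 1 := by omega
          _ ≤ v * (g + 1) := Nat.mul_le_mul_left _ (by omega)
      exact_mod_cast h2
    linarith
  push_cast
  have h2 : (0 : ℝ) ≤ (g : ℝ) := Nat.cast_nonneg g
  calc ((g : ℝ) + 1 + 1) * (Yg v Y g * Real.exp (-(rg v g : ℝ)))
      ≤ ((g : ℝ) + 1 + 1) * (Yg v Y g * (1 / 4)) := by gcongr
    _ ≤ ((g : ℝ) + 1) * Yg v Y g / 2 := by nlinarith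

lemma Mg_eq (v g : ℕ) : (Mg v g : ℝ) = 100000 * v * ((g : ℝ) + 1) := by
  unfold Mg rg
  push_cast
  ring

lemma sum_MY_le {v : ℕ} (hv : 2 ≤ v) {Y : ℝ} (hY : 0 < Y) (i J : ℕ) :
    ∑ g ∈ Finset.Ico i J, (Mg v g : ℝ) * Yg v Y g ≤ 200000 * v * (i + 1) * Yg v Y i := by
  have h1 : ∑ g ∈ Finset.Ico i J, (Mg v g : ℝ) * Yg v Y g
      = 100000 * v * ∑ g ∈ Finset.Ico i J, ((g : ℝ) + 1) * Yg v Y g := by
    rw [Finset.mul_sum]
    refine Finset.sum_congr rfl fun g _ => ?_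
    rw [Mg_eq]
    ring
  rw [h1]
  calc 100000 * (v : ℝ) * ∑ g ∈ Finset.Ico i J, ((g : ℝ) + 1) * Yg v Y g
      ≤ 100000 * (v : ℝ) * (2 * (((i : ℝ) + 1) * Yg v Y i)) := by
        gcongr
        exact sum_rY_le hv hY i J
    _ = _ := by ring

lemma sup_Bt_Ln {v : ℕ} (hv : 2 ≤ v) (p0 : ℕ) {Y : ℝ} (hY : 0 < Y) (i J : ℕ) (c : ℝ)
    {s : Finset ℕ} (hs : s ⊆ Finset.Ico i J) :
    Sup (Ln (200000 * v * (i + 1) * Yg v Y i)) (Bt c v p0 Y i J s) := by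
  rw [Bt_eq c v p0 Y i J hs]
  exact (sup_Ln_prod _ _ _ fun g _ => sup_bg_Ln c v p0 hY s g).mono (Ln.mono (sum_MY_le hv hY i J))

theorem btLen : BtLen := by
  intro v p0 hv _ Y hY i J c s hs n hn
  exact sup_Bt_Ln hv p0 hY i J c (Finset.mem_powerset.mp hs) n hn

/-- the support of the block product is composed of primes of the groups -/
lemma sup_Bt_SU (c : ℝ) (v p0 : ℕ) (Y : ℝ) (i J : ℕ) {s : Finset ℕ} (hs : s ⊆ Finset.Ico i J) :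
    Sup (Smo (SU v p0 Y i J : Set ℕ)) (Bt c v p0 Y i J s) := by
  rw [Bt_eq c v p0 Y i J hs]
  refine (sup_prod_Smo _ (Sg v p0 Y) _ fun g _ => sup_bg_Smo c v p0 Y s g).mono (Smo_mono ?_)
  intro p hp
  simp only [Set.mem_iUnion] at hp
  obtain ⟨g, hg, hp⟩ := hp
  unfold SU
  rw [Finset.mem_coe, Finset.mem_biUnion]
  exact ⟨g, hg, hp⟩

end Pool.Agent.Lib.J4
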