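import Pool.Agent.Lib.MP_f9aece_nt_j4.Stmts
import Pool.Agent.Lib.MP_f9aece_nt.PrimeSums

/-!
# JointFour, module E: rough and smooth parts of the sum of `d(n)^2 / n`
-/

set_option autoImplicit false

namespace Pool.Agent.Lib.J4.H6

open Finset
open Pool.Agent.Lib.MP_f9aece_nt (sum_log_div_le)

/-- `d(n)^2 n^(κ-1)` -/
noncomputable def fk (κ : ℝ) (n : ℕ) : ℝ := dv n ^ 2 * (n : ℝ) ^ (κ - 1)

lemma fk_nonneg (κ : ℝ) (n : ℕ) : 0 ≤ fk κ n := by unfold fk; positivity

lemma fk_one (κ : ℝ) : fk κ 1 = 1 := by simp [fk, dv]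

lemma fk_zero_eq (n : ℕ) : fk 0 n = dv n ^ 2 / (n : ℝ) := by
  unfold fk
  rw [zero_sub, Real.rpow_neg_one, div_eq_mul_inv]

lemma dv_mul {m n : ℕ} (h : m.Coprime n) : dv (m * n) = dv m * dv n := by
  unfold dv
  rw [h.card_divisors_mul]
  push_cast
  rfl

lemma fk_mul (κ : ℝ) {m n : ℕ} (h : m.Coprime n) : fk κ (m * n) = fk κ m * fk κ n := by
  unfold fk
  rw [dv_mul h]
  push_cast
  rw [Real.mul_rpow (Nat.cast_nonneg m) (Nat.cast_nonneg n)]
  ring

lemma fk_prime_pow (κ : ℝ) {p : ℕ} (hp : p.Prime) (k : ℕ) :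
    fk κ (p ^ k) = ((k : ℝ) + 1) ^ 2 * ((p : ℝ) ^ (κ - 1)) ^ k := by
  unfold fk dv
  rw [Nat.divisors_prime_pow hp, card_map, card_range]
  push_cast
  congr 1
  rw [← Real.rpow_natCast, ← Real.rpow_natCast, ← Real.rpow_mul (Nat.cast_nonneg p),
    ← Real.rpow_mul (Nat.cast_nonneg p), mul_comm (k : ℝ)]

/-- `∑ (k+1)^2 x^k = (1+x)/(1-x)^3` -/
lemma hasSum_sq_geom {x : ℝ} (hx0 : 0 ≤ x) (hx1 : x < 1) :
    HasSum (fun k : ℕ => ((k : ℝ) + 1) ^ 2 * x ^ k) ((1 + x) / (1 - x) ^ 3) := by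
  have hx : ‖x‖ < 1 := by rwa [Real.norm_eq_abs, abs_of_nonneg hx0]
  have h1 := hasSum_choose_mul_geometric_of_norm_lt_one 1 hx
  have h2 := hasSum_choose_mul_geometric_of_norm_lt_one 2 hx
  have h3 := (h2.mul_left 2).sub h1
  have hne : (1 - x) ≠ 0 := by linarith
  have he : (1 + x) / (1 - x) ^ 3 = 2 * (1 / (1 - x) ^ (2 + 1)) - 1 / (1 - x) ^ (1 + 1) := by
    field_simp
    ring
  rw [he]
  refine h3.congr_fun ?_
  intro k
  have h4 : ((Nat.choose (k + 2) 2 : ℕ) : ℝ) = ((k : ℝ) + 2) * (k + 1) / 2 := by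
    rw [Nat.cast_choose_two]
    push_cast
    ring
  rw [h4, Nat.choose_one_right]
  push_cast
  ring

lemma rpow_prime_lt_one {κ : ℝ} (hκ : κ < 1) {p : ℕ} (hp : p.Prime) : (p : ℝ) ^ (κ - 1) < 1 := by
  apply Real.rpow_lt_one_of_one_lt_of_neg
  · exact_mod_cast hp.one_lt
  · linarith

/-- the local factor -/
noncomputable def lf (x : ℝ) : ℝ := (1 + x) / (1 - x) ^ 3

lemma hasSum_smooth {κ : ℝ} (hκ : κ < 1) {S : Finset ℕ} (hS : ∀ p ∈ S, p.Prime) :
    HasSum (fun m : Nat.factoredNumbers S => fk κ m) (∏ p ∈ S, lf ((p : ℝ) ^ (κ - 1))) := by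
  have h1 := (EulerProduct.summable_and_hasSum_factoredNumbers_prod_filter_prime_tsum
    (f := fk κ) (fk_one κ) (fun h => fk_mul κ h) (fun {p} hp => by
      have h2 := (hasSum_sq_geom (x := (p : ℝ) ^ (κ - 1)) (by positivity)
        (rpow_prime_lt_one hκ hp)).summable
      refine h2.congr fun k => ?_
      rw [fk_prime_pow κ hp, Real.norm_of_nonneg (by positivity)]) S).2
  rw [filter_true_of_mem hS] at h1
  have h3 : (∏ p ∈ S, lf ((p : ℝ) ^ (κ - 1))) = ∏ p ∈ S, ∑' n : ℕ, fk κ (p ^ n) := by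
    refine Finset.prod_congr rfl fun p hp => ?_
    rw [tsum_congr fun k => fk_prime_pow κ (hS p hp) k]
    exact ((hasSum_sq_geom (by positivity) (rpow_prime_lt_one hκ (hS p hp))).tsum_eq).symm
  rw [h3]
  exact h1

lemma lf_zero_eq (S : Finset ℕ) : ∏ p ∈ S, lf ((p : ℝ) ^ ((0 : ℝ) - 1)) = DS S := by
  unfold DS lf Dp
  refine Finset.prod_congr rfl fun p _ => ?_
  rw [zero_sub, Real.rpow_neg_one]


/-- the sum of `log p / p` -/
lemma sum_log_div_le' {S : Finset ℕ} {Y : ℝ} (hY : 0 < Y)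
    (hS : ∀ p ∈ S, p.Prime ∧ Real.log p ≤ Y) : ∑ p ∈ S, Real.log p / p ≤ Y + Real.log 4 := by
  have hn : 1 ≤ ⌊Real.exp Y⌋₊ := by
    apply Nat.le_floor
    simpa using Real.one_le_exp hY.le
  have hn0 : (0 : ℝ) < ⌊Real.exp Y⌋₊ := by exact_mod_cast hn
  have hsub : S ⊆ (Ioc 0 ⌊Real.exp Y⌋₊).filter Nat.Prime := by
    intro p hp
    obtain ⟨h1, h3⟩ := hS p hp
    rw [Finset.mem_filter, Finset.mem_Ioc]
    refine ⟨⟨h1.pos, ?_⟩, h1⟩
    apply Nat.le_floor
    rw [← Real.log_le_iff_le_exp (by exact_mod_cast h1.pos)]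
    exact h3
  have h1 : ∑ p ∈ S, Real.log p / p ≤ ∑ p ∈ Ioc 0 ⌊Real.exp Y⌋₊ with p.Prime, Real.log p / p :=
    Finset.sum_le_sum_of_subset_of_nonneg hsub fun p _ _ =>
      div_nonneg (Real.log_natCast_nonneg p) (Nat.cast_nonneg p)
  have h2 := sum_log_div_le hn
  have h3 : Real.log ⌊Real.exp Y⌋₊ ≤ Y := by
    rw [Real.log_le_iff_le_exp hn0]
    exact Nat.floor_le (Real.exp_pos Y).le
  linarith

lemma lf_pos {x : ℝ} (h0 : 0 ≤ x) (h1 : x < 1) : 0 < lf x := by
  unfold lf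
  have : 0 < 1 - x := by linarith
  positivity

/-- comparison of local factors -/
lemma lf_le {x u : ℝ} (hx0 : 0 ≤ x) (hu : 1 ≤ u) (hux : u * x ≤ 1 / 2) :
    lf (u * x) ≤ lf x * Real.exp (7 * ((u - 1) * x)) := by
  have hxu : x ≤ u * x := by nlinarith
  have h1 : 0 < 1 - u * x := by linarith
  have h2 : 0 < 1 - x := by linarith
  set δ := (u - 1) * x with hδ
  have hδ0 : 0 ≤ δ := mul_nonneg (by linarith) hx0
  have hux' : u * x = x + δ := by rw [hδ]; ring
  have h3 : 1 + u * x ≤ (1 + x) * Real.exp δ := by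
    have h4 := Real.add_one_le_exp δ
    calc 1 + u * x = 1 + x + δ := by rw [hux']; ring
      _ ≤ (1 + x) * (δ + 1) := by nlinarith
      _ ≤ (1 + x) * Real.exp δ := by gcongr
  have h5 : 1 - x ≤ (1 - u * x) * Real.exp (2 * δ) := by
    have h4 := Real.add_one_le_exp (2 * δ)
    calc 1 - x = (1 - u * x) + δ := by rw [hux']; ring
      _ ≤ (1 - u * x) * (2 * δ + 1) := by nlinarith
      _ ≤ (1 - u * x) * Real.exp (2 * δ) := by gcongr
  unfold lf
  rw [div_mul_eq_mul_div, div_le_div_iff₀ (by positivity) (by positivity)]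
  have h6 : (1 - x) ^ 3 ≤ ((1 - u * x) * Real.exp (2 * δ)) ^ 3 := by gcongr
  calc (1 + u * x) * (1 - x) ^ 3 ≤ ((1 + x) * Real.exp δ) * ((1 - u * x) * Real.exp (2 * δ)) ^ 3 := by
        gcongr
    _ = (1 + x) * Real.exp (7 * δ) * (1 - u * x) ^ 3 := by
        have h7 : Real.exp (7 * δ) = Real.exp δ * (Real.exp (2 * δ)) ^ 3 := by
          rw [← Real.exp_nat_mul, ← Real.exp_add]
          congr 1
          push_cast
          ring
        rw [h7]
        ring

/-- the constant -/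
noncomputable def C1 : ℝ := Real.exp (14 * (1 + Real.log 4))

lemma prod_lf_le {S : Finset ℕ} {Y : ℝ} (hY : 1 ≤ Y)
    (hS : ∀ p ∈ S, p.Prime ∧ 10 ≤ p ∧ Real.log p ≤ Y) :
    ∏ p ∈ S, lf ((p : ℝ) ^ (1 / Y - 1)) ≤ C1 * DS S := by
  have hY0 : 0 < Y := by linarith
  have h1 : ∀ p ∈ S, lf ((p : ℝ) ^ (1 / Y - 1)) ≤
      lf ((p : ℝ) ^ ((0 : ℝ) - 1)) * Real.exp (14 / Y * (Real.log p / p)) := by
    intro p hp
    obtain ⟨hp1, hp2, hp3⟩ := hS p hp
    have hp0 : (0 : ℝ) < p := by exact_mod_cast hp1.pos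
    have hp10 : (10 : ℝ) ≤ p := by exact_mod_cast hp2
    set w := Real.log p / Y with hw
    have hw0 : 0 ≤ w := div_nonneg (Real.log_natCast_nonneg p) hY0.le
    have hw1 : w ≤ 1 := (div_le_one hY0).mpr hp3
    have e1 : (p : ℝ) ^ (1 / Y - 1) = Real.exp w * (p : ℝ)⁻¹ := by
      rw [Real.rpow_sub hp0, Real.rpow_one, Real.rpow_def_of_pos hp0, hw, div_eq_mul_inv]
      congr 2
      rw [one_div, div_eq_mul_inv]
    have e2 : (p : ℝ) ^ ((0 : ℝ) - 1) = (p : ℝ)⁻¹ := by
      rw [zero_sub, Real.rpow_neg_one]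
    have hexp1 : 1 ≤ Real.exp w := Real.one_le_exp hw0
    have hexp3 : Real.exp w ≤ 3 := by
      have h2 : Real.exp w ≤ Real.exp 1 := Real.exp_le_exp.mpr hw1
      have h3 := Real.exp_one_lt_d9
      linarith
    have hinv : (p : ℝ)⁻¹ ≤ 1 / 10 := by
      rw [← one_div]
      exact one_div_le_one_div_of_le (by norm_num) hp10
    have hinv0 : 0 < (p : ℝ)⁻¹ := by positivity
    rw [e1, e2]
    refine (lf_le hinv0.le hexp1 (by nlinarith)).trans ?_
    have hlf := lf_pos hinv0.le (by linarith)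
    apply mul_le_mul_of_nonneg_left _ hlf.le
    rw [Real.exp_le_exp]
    have h4 : Real.exp w - 1 ≤ 2 * w := by
      have := Real.abs_exp_sub_one_le (x := w) (by rwa [abs_of_nonneg hw0])
      rw [abs_of_nonneg (by linarith), abs_of_nonneg hw0] at this
      exact this
    calc 7 * ((Real.exp w - 1) * (p : ℝ)⁻¹) ≤ 7 * ((2 * w) * (p : ℝ)⁻¹) := by gcongr
      _ = 14 / Y * (Real.log p / p) := by rw [hw]; ring
  calc ∏ p ∈ S, lf ((p : ℝ) ^ (1 / Y - 1))
      ≤ ∏ p ∈ S, (lf ((p : ℝ) ^ ((0 : ℝ) - 1)) * Real.exp (14 / Y * (Real.log p / p))) := by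
        apply prod_le_prod
        · intro p hp
          obtain ⟨hp1, hp2, hp3⟩ := hS p hp
          rcases hY.eq_or_lt with h | h
          · exfalso
            have h2 : Real.log 10 ≤ Real.log p :=
              Real.log_le_log (by norm_num) (by exact_mod_cast hp2)
            have h3 : 1 < Real.log 10 := by
              rw [Real.lt_log_iff_exp_lt (by norm_num)]
              have := Real.exp_one_lt_d9
              linarith
            linarith
          · refine (lf_pos (by positivity) (rpow_prime_lt_one ?_ hp1)).le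
            rw [div_lt_one hY0]
            exact h
        · exact h1
    _ = DS S * Real.exp (14 / Y * ∑ p ∈ S, Real.log p / p) := by
        rw [prod_mul_distrib, lf_zero_eq, ← Real.exp_sum, mul_sum]
    _ ≤ DS S * C1 := by
        have hDS : 0 ≤ DS S := by
          rw [← lf_zero_eq]
          apply prod_nonneg
          intro p hp
          exact (lf_pos (by positivity) (rpow_prime_lt_one (by norm_num) (hS p hp).1)).le
        apply mul_le_mul_of_nonneg_left _ hDS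
        unfold C1
        rw [Real.exp_le_exp]
        have h5 := sum_log_div_le' hY0 fun p hp => ⟨(hS p hp).1, (hS p hp).2.2⟩
        have hl4 : 0 ≤ Real.log 4 := Real.log_nonneg (by norm_num)
        calc 14 / Y * ∑ p ∈ S, Real.log p / p ≤ 14 / Y * (Y + Real.log 4) := by gcongr
          _ = 14 * (1 + Real.log 4 / Y) := by field_simp
          _ ≤ 14 * (1 + Real.log 4) := by
              have : Real.log 4 / Y ≤ Real.log 4 := div_le_self hl4 hY
              linarith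
    _ = C1 * DS S := mul_comm _ _

lemma DS_nonneg {S : Finset ℕ} (hS : ∀ p ∈ S, p.Prime) : 0 ≤ DS S := by
  rw [← lf_zero_eq]
  apply prod_nonneg
  intro p hp
  exact (lf_pos (by positivity) (rpow_prime_lt_one (by norm_num) (hS p hp))).le

/-- smooth numbers up to `e ^ q` -/
noncomputable def Bq (S : Finset ℕ) (q : ℝ) : Finset ℕ :=
  (Finset.Icc 1 ⌊Real.exp q⌋₊).filter (fun m => m ∈ Nat.factoredNumbers S)

lemma mem_Bq {S : Finset ℕ} {q : ℝ} {m : ℕ} :
    m ∈ Bq S q ↔ m ∈ Nat.factoredNumbers S ∧ Real.log m ≤ q := by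
  unfold Bq
  rw [mem_filter, mem_Icc]
  constructor
  · rintro ⟨⟨h1, h2⟩, h3⟩
    refine ⟨h3, ?_⟩
    rw [Real.log_le_iff_le_exp (by exact_mod_cast h1)]
    exact (Nat.le_floor_iff (Real.exp_pos q).le).mp h2
  · rintro ⟨h1, h2⟩
    have h3 : 1 ≤ m := Nat.one_le_iff_ne_zero.mpr (Nat.ne_zero_of_mem_factoredNumbers h1)
    refine ⟨⟨h3, ?_⟩, h1⟩
    apply Nat.le_floor
    rwa [← Real.log_le_iff_le_exp (by exact_mod_cast h3)]

/-- partial sums over smooth numbers are at most `DS` -/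
lemma sum_smooth_le {S : Finset ℕ} (hS : ∀ p ∈ S, p.Prime) (B : Finset ℕ)
    (hB : ∀ m ∈ B, m ∈ Nat.factoredNumbers S) : ∑ m ∈ B, fk 0 m ≤ DS S := by
  have h1 := hasSum_smooth (κ := 0) (by norm_num) hS
  rw [lf_zero_eq] at h1
  replace h1 : HasSum ((Nat.factoredNumbers S).indicator (fk 0)) (DS S) :=
    hasSum_subtype_iff_indicator.mp h1
  calc ∑ m ∈ B, fk 0 m = ∑ m ∈ B, (Nat.factoredNumbers S).indicator (fk 0) m := by
        refine sum_congr rfl fun m hm => ?_
        rw [Set.indicator_of_mem (hB m hm)]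
    _ ≤ DS S := sum_le_hasSum _ (fun m _ => Set.indicator_nonneg (fun _ _ => fk_nonneg 0 _) m) h1

/-- Rankin's bound for the tail -/
lemma smooth_ge {S : Finset ℕ} {Y q : ℝ} (hY : 1 ≤ Y) (hq : 0 ≤ q)
    (hS : ∀ p ∈ S, p.Prime ∧ 10 ≤ p ∧ Real.log p ≤ Y) :
    DS S * (1 - C1 * Real.exp (-q / Y)) ≤ ∑ m ∈ Bq S q, fk 0 m := by
  have hY0 : 0 < Y := by linarith
  rcases S.eq_empty_or_nonempty with h0 | ⟨p1, hp1⟩
  · subst h0
    have h1 : (1 : ℕ) ∈ Bq ∅ q := by
      rw [mem_Bq]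
      refine ⟨?_, by simpa using hq⟩
      rw [Nat.factoredNumbers_empty]
      rfl
    have h2 : fk 0 1 ≤ ∑ m ∈ Bq ∅ q, fk 0 m :=
      single_le_sum (f := fk 0) (fun m _ => fk_nonneg 0 m) h1
    rw [fk_one] at h2
    have h3 : DS ∅ = 1 := by simp [DS]
    have h4 : 0 < C1 * Real.exp (-q / Y) := by unfold C1; positivity
    rw [h3]
    linarith
  have hY1 : 1 < Y := by
    obtain ⟨h1, h2, h3⟩ := hS p1 hp1
    have h4 : Real.log 10 ≤ Real.log p1 := Real.log_le_log (by norm_num) (by exact_mod_cast h2)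
    have h5 : 1 < Real.log 10 := by
      rw [Real.lt_log_iff_exp_lt (by norm_num)]
      have := Real.exp_one_lt_d9
      linarith
    linarith
  have hSp : ∀ p ∈ S, p.Prime := fun p hp => (hS p hp).1
  have hκ : 1 / Y < 1 := by rw [div_lt_one hY0]; exact hY1
  have h1 := hasSum_smooth (κ := 0) (by norm_num) hSp
  rw [lf_zero_eq] at h1
  replace h1 : HasSum ((Nat.factoredNumbers S).indicator (fk 0)) (DS S) :=
    hasSum_subtype_iff_indicator.mp h1
  have h2 : HasSum ((Nat.factoredNumbers S).indicator (fk (1 / Y)))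
      (∏ p ∈ S, lf ((p : ℝ) ^ (1 / Y - 1))) :=
    hasSum_subtype_iff_indicator.mp (hasSum_smooth hκ hSp)
  have h3 : HasSum (fun m => if m ∈ Bq S q then fk 0 m else 0) (∑ m ∈ Bq S q, fk 0 m) := by
    have h4 : HasSum (fun m => if m ∈ Bq S q then fk 0 m else 0)
        (∑ m ∈ Bq S q, if m ∈ Bq S q then fk 0 m else 0) :=
      hasSum_sum_of_ne_finset_zero (fun m hm => if_neg hm)
    have h5 : (∑ m ∈ Bq S q, if m ∈ Bq S q then fk 0 m else 0) = ∑ m ∈ Bq S q, fk 0 m :=
      sum_congr rfl (fun m hm => if_pos hm)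
    rwa [h5] at h4
  have h5 := h3.add (h2.mul_left (Real.exp (-q / Y)))
  have h6 := hasSum_le (f := (Nat.factoredNumbers S).indicator (fk 0)) (fun m => ?_) h1 h5
  · have h7 := prod_lf_le hY hS
    have h8 : Real.exp (-q / Y) * ∏ p ∈ S, lf ((p : ℝ) ^ (1 / Y - 1)) ≤
        Real.exp (-q / Y) * (C1 * DS S) := by gcongr
    nlinarith
  · by_cases hm : m ∈ Nat.factoredNumbers S
    · rw [Set.indicator_of_mem hm, Set.indicator_of_mem hm]
      by_cases hmq : m ∈ Bq S q
      · rw [if_pos hmq]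
        have : 0 ≤ Real.exp (-q / Y) * fk (1 / Y) m := mul_nonneg (Real.exp_pos _).le (fk_nonneg _ _)
        linarith
      · rw [if_neg hmq, zero_add]
        have hm0 : 0 < m := Nat.pos_of_ne_zero (Nat.ne_zero_of_mem_factoredNumbers hm)
        have hm0' : (0 : ℝ) < m := by exact_mod_cast hm0
        have hlog : q < Real.log m := by
          by_contra hc
          exact hmq (mem_Bq.mpr ⟨hm, not_lt.mp hc⟩)
        have h9 : fk (1 / Y) m = fk 0 m * Real.exp (Real.log m / Y) := by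
          unfold fk
          rw [mul_assoc]
          congr 1
          rw [Real.rpow_def_of_pos hm0', Real.rpow_def_of_pos hm0', ← Real.exp_add]
          congr 1
          ring
        rw [h9]
        have h10 : 1 ≤ Real.exp (-q / Y) * Real.exp (Real.log m / Y) := by
          rw [← Real.exp_add, Real.one_le_exp_iff]
          rw [← add_div]
          apply div_nonneg _ hY0.le
          linarith
        calc fk 0 m = fk 0 m * 1 := (mul_one _).symm
          _ ≤ fk 0 m * (Real.exp (-q / Y) * Real.exp (Real.log m / Y)) :=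
              mul_le_mul_of_nonneg_left h10 (fk_nonneg 0 m)
          _ = _ := by ring
    · rw [Set.indicator_of_notMem hm, Set.indicator_of_notMem hm, mul_zero, add_zero]
      split_ifs
      · exact fk_nonneg 0 m
      · exact le_rfl

end Pool.Agent.Lib.J4.H6
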