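import Pool.Agent.Lib.MP_f9aece_nt_j4.KPar

/-!
The norm `sqrt (En f)`: Cauchy-Schwarz, triangle inequality, products.
-/

set_option autoImplicit false

namespace Pool.Agent.Lib.J4.H24

open Pool.Agent.Lib.MP_f9aece_nt

lemma En_add_smul (f g : DP) (x : ℝ) :
    En (f + x • g) = En f + 2 * x * BK K1 f g + x ^ 2 * En g := by
  unfold En
  rw [BK_add_left, BK_add_right, BK_add_right, BK_smul_left, BK_smul_right, BK_smul_left,
    BK_smul_right, BK_K1_comm g f]
  ring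

lemma BK_cs (f g : DP) : |BK K1 f g| ≤ Real.sqrt (En f) * Real.sqrt (En g) := by
  have h1 : ∀ x : ℝ, 0 ≤ En g * (x * x) + (2 * BK K1 f g) * x + En f := by
    intro x
    have := En_nonneg24 (f + x • g)
    rw [En_add_smul] at this
    nlinarith
  have h2 := discrim_le_zero h1
  unfold discrim at h2
  rw [← Real.sqrt_mul (En_nonneg24 f)]
  apply Real.abs_le_sqrt
  nlinarith

lemma sqrtEn_add (f g : DP) : Real.sqrt (En (f + g)) ≤ Real.sqrt (En f) + Real.sqrt (En g) := by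
  have h1 : En (f + g) = En f + 2 * BK K1 f g + En g := by
    have := En_add_smul f g 1
    rw [one_smul] at this
    rw [this]; ring
  have h2 := (le_abs_self _).trans (BK_cs f g)
  rw [Real.sqrt_le_left (by positivity), h1, add_sq, Real.sq_sqrt (En_nonneg24 f),
    Real.sq_sqrt (En_nonneg24 g)]
  linarith

lemma sqrtEn_sum {ι : Type} (s : Finset ι) (f : ι → DP) :
    Real.sqrt (En (∑ i ∈ s, f i)) ≤ ∑ i ∈ s, Real.sqrt (En (f i)) := by
  classical
  induction s using Finset.induction_on with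
  | empty => simp [En, BK]
  | insert a s ha ih =>
    rw [Finset.sum_insert ha, Finset.sum_insert ha]
    exact (sqrtEn_add _ _).trans (add_le_add_right ih _)

lemma K1_mul_left {u : ℕ} (hu : 1 ≤ u) (a b : ℕ) : K1 (u * a) (u * b) = (u : ℝ)⁻¹ * K1 a b := by
  unfold K1
  have hu0 : u ≠ 0 := by omega
  by_cases h : a = b
  · subst h
    simp [mul_comm]
  · rw [if_neg h, if_neg, mul_zero]
    intro h'
    exact h (Nat.eq_of_mul_eq_mul_left (by omega) h')

lemma En_single_mul {u : ℕ} (hu : 1 ≤ u) (x : ℝ) (f : DP) :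
    En (MonoidAlgebra.single u x * f) = x ^ 2 * (u : ℝ)⁻¹ * En f := by
  unfold En BK
  rw [pair_mul, pair_single]
  have h1 : ∀ a : ℕ, pair (fun b => K1 (u * a) b) (MonoidAlgebra.single u x * f)
      = x * (u : ℝ)⁻¹ * pair (fun b => K1 a b) f := by
    intro a
    rw [pair_mul, pair_single]
    simp only [K1_mul_left hu]
    rw [pair_const_mul]
    ring
  simp only [h1]
  rw [pair_const_mul]
  ring

lemma sqrtEn_single_mul {u : ℕ} (hu : 1 ≤ u) (x : ℝ) (f : DP) :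
    Real.sqrt (En (MonoidAlgebra.single u x * f)) = |x| / Real.sqrt u * Real.sqrt (En f) := by
  have hu0 : (0 : ℝ) < u := by exact_mod_cast hu
  rw [En_single_mul hu, Real.sqrt_mul (by positivity), Real.sqrt_mul (sq_nonneg x), Real.sqrt_sq_eq_abs,
    Real.sqrt_inv]
  rfl

lemma sum_single_coeff (f : DP) : ∑ n ∈ f.coeff.support, MonoidAlgebra.single n (f.coeff n) = f := by
  ext m
  rw [MonoidAlgebra.coeff_sum, Finsupp.finsetSum_apply]
  simp only [MonoidAlgebra.coeff_single, Finsupp.single_apply]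
  rw [Finset.sum_ite_eq']
  split_ifs with h
  · rfl
  · exact (Finsupp.notMem_support_iff.mp h).symm

lemma evha_nonneg (f : DP) : 0 ≤ evha f := Finset.sum_nonneg fun n _ => by positivity

lemma sqrtEn_mul {g : DP} (hg : ∀ n, g.coeff n ≠ 0 → 1 ≤ n) (f : DP) :
    Real.sqrt (En (g * f)) ≤ evha g * Real.sqrt (En f) := by
  have h1 : g * f = ∑ n ∈ g.coeff.support, MonoidAlgebra.single n (g.coeff n) * f := by
    conv_lhs => rw [← sum_single_coeff g]
    rw [Finset.sum_mul]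
  rw [h1]
  refine (sqrtEn_sum _ _).trans ?_
  unfold evha
  rw [Finset.sum_mul]
  refine Finset.sum_le_sum fun n hn => ?_
  rw [sqrtEn_single_mul (hg n (Finsupp.mem_support_iff.mp hn))]

lemma En_mul_le {g : DP} (hg : ∀ n, g.coeff n ≠ 0 → 1 ≤ n) (f : DP) :
    En (g * f) ≤ evha g ^ 2 * En f := by
  have h1 := sqrtEn_mul hg f
  have h2 := pow_le_pow_left₀ (Real.sqrt_nonneg _) h1 2
  rwa [Real.sq_sqrt (En_nonneg24 _), mul_pow, Real.sq_sqrt (En_nonneg24 _)] at h2

lemma En_eq24 (f : DP) : En f = ∑ n ∈ f.coeff.support, f.coeff n ^ 2 / (n : ℝ) := by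
  unfold En
  rw [BK_K1_eq, pair_def]
  exact Finset.sum_congr rfl fun n _ => by ring

lemma En_eq_of_subset {f : DP} {s : Finset ℕ} (h : f.coeff.support ⊆ s) :
    En f = ∑ n ∈ s, f.coeff n ^ 2 / (n : ℝ) := by
  rw [En_eq24]
  refine Finset.sum_subset h fun n _ hn => ?_
  rw [Finsupp.notMem_support_iff.mp hn]
  simp

lemma evha_le {f : DP} {x : ℝ} (hx : 0 ≤ x) (hf : ∀ n, f.coeff n ≠ 0 → 1 ≤ n ∧ (n : ℝ) ≤ x) :
    evha f ≤ Real.sqrt x * Real.sqrt (En f) := by
  have h1 : evha f = ∑ n ∈ f.coeff.support, 1 * (|f.coeff n| / Real.sqrt n) := by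
    unfold evha; simp
  rw [h1]
  refine (Real.sum_mul_le_sqrt_mul_sqrt _ _ _).trans ?_
  gcongr
  · have h2 : f.coeff.support ⊆ Finset.Icc 1 ⌊x⌋₊ := by
      intro n hn
      have := hf n (Finsupp.mem_support_iff.mp hn)
      exact Finset.mem_Icc.mpr ⟨this.1, Nat.le_floor this.2⟩
    have h3 := Finset.card_le_card h2
    rw [Nat.card_Icc, Nat.add_sub_cancel] at h3
    simp only [one_pow, Finset.sum_const, nsmul_eq_mul, mul_one]
    calc (f.coeff.support.card : ℝ) ≤ (⌊x⌋₊ : ℝ) := by exact_mod_cast h3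
      _ ≤ x := Nat.floor_le hx
  · rw [En_eq24]
    refine Finset.sum_le_sum fun n _ => ?_
    rw [div_pow, sq_abs, Real.sq_sqrt (Nat.cast_nonneg n)]

lemma coeff_DF (f : ℝ → ℝ) (N n : ℕ) :
    (DF f N).coeff n = if 1 ≤ n ∧ n ≤ N then dv n * f (Real.log n) else 0 := by
  unfold DF
  rw [MonoidAlgebra.coeff_sum, Finsupp.finsetSum_apply]
  simp only [MonoidAlgebra.coeff_single, Finsupp.single_apply]
  rw [Finset.sum_ite_eq']
  simp only [Finset.mem_Icc]

lemma DF_support {f : ℝ → ℝ} {N n : ℕ} (h : (DF f N).coeff n ≠ 0) :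
    (1 ≤ n ∧ n ≤ N) ∧ f (Real.log n) ≠ 0 := by
  rw [coeff_DF] at h
  split_ifs at h with h1
  · exact ⟨h1, fun h2 => h (by rw [h2, mul_zero])⟩
  · exact absurd rfl h

/-- crude bound for the energy of a divisor polynomial -/
lemma En_DF_le {C : ℝ} (hC : 0 ≤ C) (hD : ∀ N : ℕ, 1 ≤ N →
    |∑ n ∈ Finset.Icc 1 N, dv n ^ 2 / (n : ℝ) - Real.log N ^ 4 / (4 * Real.pi ^ 2)|
      ≤ C * (1 + Real.log N) ^ 3) {f : ℝ → ℝ} (hf : ∀ x, |f x| ≤ 1) {N : ℕ} (hN : 1 ≤ N) :
    En (DF f N) ≤ (1 + C) * (1 + Real.log N) ^ 4 := by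
  have h1 : (DF f N).coeff.support ⊆ Finset.Icc 1 N := by
    intro n hn
    exact Finset.mem_Icc.mpr (DF_support (Finsupp.mem_support_iff.mp hn)).1
  rw [En_eq_of_subset h1]
  have h2 : ∑ n ∈ Finset.Icc 1 N, (DF f N).coeff n ^ 2 / (n : ℝ)
      ≤ ∑ n ∈ Finset.Icc 1 N, dv n ^ 2 / (n : ℝ) := by
    refine Finset.sum_le_sum fun n hn => ?_
    rw [coeff_DF, if_pos (Finset.mem_Icc.mp hn), mul_pow]
    have h3 : f (Real.log n) ^ 2 ≤ 1 := by
      rw [sq_le_one_iff_abs_le_one]; exact hf _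
    have h4 : dv n ^ 2 * f (Real.log n) ^ 2 ≤ dv n ^ 2 * 1 :=
      mul_le_mul_of_nonneg_left h3 (sq_nonneg _)
    rw [mul_one] at h4
    gcongr
  have h3 := (abs_le.mp (hD N hN)).2
  have hl : 0 ≤ Real.log N := Real.log_natCast_nonneg N
  have h4 : Real.log N ^ 4 / (4 * Real.pi ^ 2) ≤ Real.log N ^ 4 := by
    apply div_le_self (by positivity)
    have := Real.pi_gt_three
    nlinarith
  have h5 : Real.log N ^ 4 ≤ (1 + Real.log N) ^ 4 := by gcongr; linarith
  have h6 : C * (1 + Real.log N) ^ 3 ≤ C * (1 + Real.log N) ^ 4 := by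
    refine mul_le_mul_of_nonneg_left ?_ hC
    exact pow_le_pow_right₀ (by linarith) (by norm_num)
  linarith

end Pool.Agent.Lib.J4.H24
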