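import Pool.Agent.Lib.MP_f9aece_nt_j4.Stmts
import Pool.Agent.Lib.MP_f9aece_nt_h6.Groups

/-!
# JointFour, module H: the groups of primes
-/

set_option autoImplicit false

namespace Pool.Agent.Lib.J4

open Pool.Agent.Lib.MP_f9aece_nt (VV)

lemma Yg_eq (v : ℕ) (Y : ℝ) (g : ℕ) : Yg v Y g = MP_f9aece_nt_h6.Yg Y (v : ℝ) g := by
  unfold Yg MP_f9aece_nt_h6.Yg
  congr 2
  ring

lemma Sg_eq (v p0 : ℕ) (Y : ℝ) (g : ℕ) : Sg v p0 Y g = MP_f9aece_nt_h6.Sg Y (v : ℝ) p0 g := by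
  unfold Sg MP_f9aece_nt_h6.Sg
  simp only [Yg_eq]

lemma Yg_pos (v : ℕ) {Y : ℝ} (hY : 0 < Y) (g : ℕ) : 0 < Yg v Y g := by
  rw [Yg_eq]; exact MP_f9aece_nt_h6.Yg_pos hY g

lemma Yg_zero (v : ℕ) (Y : ℝ) : Yg v Y 0 = Y := by
  rw [Yg_eq]; exact MP_f9aece_nt_h6.Yg_zero

lemma Yg_succ (v : ℕ) (Y : ℝ) (g : ℕ) : Yg v Y (g + 1) = Yg v Y g * Real.exp (-(rg v g : ℝ)) := by
  rw [Yg_eq, Yg_eq, MP_f9aece_nt_h6.Yg_succ]
  unfold rg MP_f9aece_nt_h6.rg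
  push_cast
  rfl

lemma Yg_anti (v : ℕ) {Y : ℝ} (hY : 0 < Y) : Antitone (Yg v Y) := by
  intro i j h
  rw [Yg_eq, Yg_eq]
  exact MP_f9aece_nt_h6.Yg_anti hY (Nat.cast_nonneg v) h

lemma Yg_le (v : ℕ) {Y : ℝ} (hY : 0 < Y) (g : ℕ) : Yg v Y g ≤ Y := by
  have := Yg_anti v hY (Nat.zero_le g)
  rwa [Yg_zero] at this

theorem vvSg : VVSg := by
  refine ⟨4, fun v hv p0 Y g hY => ?_⟩
  rw [Sg_eq]
  have h := MP_f9aece_nt_h6.VV_Sg_le (p0 := p0) hY (v := (v : ℝ)) (by exact_mod_cast hv) g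
  refine h.trans (le_of_eq ?_)
  unfold rg MP_f9aece_nt_h6.rg
  push_cast
  ring

theorem vsBounds : VsBounds := by
  refine ⟨5, by norm_num, fun v p0 Y J hp0 hY hJ => ?_⟩
  have hY0 : 0 < Y := by linarith
  have h1 : Vs v p0 Y 0 J = VV (MP_f9aece_nt_h6.Pall Y p0) := by
    unfold Vs
    rw [Nat.Ico_zero_eq_range]
    have h2 := MP_f9aece_nt_h6.sum_VV_Sg (p0 := p0) hY0 (Nat.cast_nonneg v : (0 : ℝ) ≤ v) J
    rw [MP_f9aece_nt_h6.biUnion_eq_Pall hp0 (by rwa [← Yg_eq])] at h2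
    rw [← h2]
    exact Finset.sum_congr rfl fun g _ => by rw [Sg_eq]
  rw [h1]
  exact ⟨MP_f9aece_nt_h6.VV_Pall_ge hY, MP_f9aece_nt_h6.VV_Pall_le hY⟩

theorem existsJ : ExistsJ := by
  intro v p0 hv hp0 Y hY
  unfold Jok
  by_cases h : Real.log p0 < Y
  · obtain ⟨J, -, h1, h2, -⟩ := MP_f9aece_nt_h6.exists_J (v := (v : ℝ)) hY
      (by exact_mod_cast hv) hp0 h
    refine ⟨J, by rwa [Yg_eq], fun g hg => ?_⟩
    rw [Yg_eq]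
    exact h2 g hg
  · exact ⟨0, by rw [Yg_zero]; exact not_lt.mp h, fun g hg => absurd hg (Nat.not_lt_zero g)⟩

theorem sgDisj : SgDisj := by
  intro v p0 Y hY g h hgh
  rw [Sg_eq, Sg_eq]
  rcases hY.eq_or_lt with h0 | h0
  · rw [← h0]
    have : MP_f9aece_nt_h6.Sg 0 (v : ℝ) p0 g = ∅ := by
      rw [Finset.eq_empty_iff_forall_notMem]
      intro p hp
      have h1 := MP_f9aece_nt_h6.lt_Sg_log hp
      have h2 := MP_f9aece_nt_h6.Sg_log_le hp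
      unfold MP_f9aece_nt_h6.Yg at h1 h2
      linarith
    rw [this]
    exact Finset.disjoint_empty_left _
  · exact MP_f9aece_nt_h6.Sg_disjoint h0 (Nat.cast_nonneg v) hgh

end Pool.Agent.Lib.J4
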