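import Pool.Agent.Lib.MP_f9aece_nt_j4.I2Sum
import Pool.Agent.Lib.MP_f9aece_nt_j4.EnNorm
import Pool.Agent.Lib.MP_f9aece_nt_j4.RoughA

/-!
# JointFour, module MlSum: factorisation of the coefficients, lower bounds for energies
-/

set_option autoImplicit false

namespace Pool.Agent.Lib.J4.H29

open Pool.Agent.Lib.MP_f9aece_nt
  (DP pair BK K1 ev ev1 evh PP VV Smo expo EE cone_PP_pow Smo_mono log_le_of_Omega Cone
    one_mem_Smo pair_mul pair_def mul_mem_Smo)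
open Pool.Agent.Lib.MP_f9aece_nt_h97 (Sup coeff_eq_pair sup_of_cone)
open Pool.Agent.Lib.J4.H24 (coeff_DF DF_support En_eq24 En_eq_of_subset)

/-- numbers without prime factors in `S` -/
def Rgh (S : Set ℕ) : Set ℕ := {n | n ≠ 0 ∧ ∀ p, p.Prime → p ∈ S → ¬ p ∣ n}

lemma coprime_smo_rgh {S : Set ℕ} {m r : ℕ} (hm : m ∈ Smo S) (hr : r ∈ Rgh S) : m.Coprime r := by
  rw [Nat.coprime_iff_gcd_eq_one]
  by_contra h
  obtain ⟨p, hp, hpd⟩ := Nat.exists_prime_and_dvd h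
  exact hr.2 p hp (hm.2 p hp (hpd.trans (Nat.gcd_dvd_left m r))) (hpd.trans (Nat.gcd_dvd_right m r))

lemma smo_of_dvd {S : Set ℕ} {m d : ℕ} (hm : m ∈ Smo S) (hd : d ∣ m) : d ∈ Smo S :=
  ⟨fun h => hm.1 (by rw [h] at hd; exact zero_dvd_iff.mp hd), fun p hp hpd => hm.2 p hp (hpd.trans hd)⟩

lemma rgh_of_dvd {S : Set ℕ} {m d : ℕ} (hm : m ∈ Rgh S) (hd : d ∣ m) : d ∈ Rgh S :=
  ⟨fun h => hm.1 (by rw [h] at hd; exact zero_dvd_iff.mp hd),
    fun p hp hpS hpd => hm.2 p hp hpS (hpd.trans hd)⟩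

lemma smo_rgh_inj {S : Set ℕ} {m m' r r' : ℕ} (hm : m ∈ Smo S) (hm' : m' ∈ Smo S)
    (hr : r ∈ Rgh S) (hr' : r' ∈ Rgh S) (h : m * r = m' * r') : m = m' ∧ r = r' := by
  have h1 : m ∣ m' := by
    have h2 : m ∣ m' * r' := h ▸ dvd_mul_right m r
    exact (coprime_smo_rgh hm hr').dvd_of_dvd_mul_right h2
  have h3 : m' ∣ m := by
    have h2 : m' ∣ m * r := h ▸ dvd_mul_right m' r'
    exact (coprime_smo_rgh hm' hr).dvd_of_dvd_mul_right h2
  have h4 : m = m' := Nat.dvd_antisymm h1 h3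
  subst h4
  exact ⟨rfl, Nat.eq_of_mul_eq_mul_left (Nat.pos_of_ne_zero hm.1) h⟩

lemma one_mem_Rgh (S : Set ℕ) : 1 ∈ Rgh S :=
  ⟨one_ne_zero, fun _ hp _ h => hp.one_lt.ne' (Nat.dvd_one.mp h)⟩

lemma coeff_mul_eq (f g : DP) {n : ℕ} (hn : n ≠ 0) :
    (f * g).coeff n = ∑ a ∈ n.divisors, f.coeff a * g.coeff (n / a) := by
  classical
  rw [coeff_eq_pair, pair_mul, pair_def]
  have h1 : ∀ a : ℕ, pair (fun b => if a * b = n then (1 : ℝ) else 0) g
      = if a ∈ n.divisors then g.coeff (n / a) else 0 := by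
    intro a
    split_ifs with h
    · rw [Nat.mem_divisors] at h
      obtain ⟨k, hk⟩ := h.1
      have ha : 0 < a := Nat.pos_of_ne_zero (by rintro rfl; simp at hk; exact hn hk)
      rw [hk, Nat.mul_div_cancel_left k ha, coeff_eq_pair]
      refine Pool.Agent.Lib.MP_f9aece_nt.pair_congr g fun b _ => ?_
      simp only [Nat.mul_right_inj ha.ne']
    · rw [pair_def]
      refine Finset.sum_eq_zero fun b _ => ?_
      rw [if_neg, mul_zero]
      intro h2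
      exact h (Nat.mem_divisors.mpr ⟨⟨b, h2.symm⟩, hn⟩)
  simp only [h1]
  calc ∑ a ∈ f.coeff.support, f.coeff a * (if a ∈ n.divisors then g.coeff (n / a) else 0)
      = ∑ a ∈ f.coeff.support ∪ n.divisors,
          f.coeff a * (if a ∈ n.divisors then g.coeff (n / a) else 0) := by
        refine Finset.sum_subset Finset.subset_union_left fun a _ ha => ?_
        rw [Finsupp.notMem_support_iff.mp ha, zero_mul]
    _ = ∑ a ∈ n.divisors, f.coeff a * (if a ∈ n.divisors then g.coeff (n / a) else 0) := by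
        refine (Finset.sum_subset Finset.subset_union_right fun a _ ha => ?_).symm
        rw [if_neg ha, mul_zero]
    _ = ∑ a ∈ n.divisors, f.coeff a * g.coeff (n / a) := by
        refine Finset.sum_congr rfl fun a ha => ?_
        rw [if_pos ha]

lemma sum_divisors_coprime {m r : ℕ} (h : m.Coprime r) (F : ℕ → ℝ) :
    ∑ u ∈ (m * r).divisors, F u = ∑ a ∈ m.divisors, ∑ b ∈ r.divisors, F (a * b) := by
  rw [h.divisors_mul, Finset.sum_map]
  exact (Finset.sum_attach (m.divisors ×ˢ r.divisors) (fun p => F (p.1 * p.2))).trans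
    (Finset.sum_product _ _ _)

/-- the coefficients of a product of a smooth and a rough polynomial -/
lemma coeff_mul_split {S : Set ℕ} {b1 b2 : DP} (h1 : Sup (Smo S) b1) (h2 : Sup (Rgh S) b2)
    {m r : ℕ} (hm : m ∈ Smo S) (hr : r ∈ Rgh S) :
    (b1 * b2).coeff (m * r) = b1.coeff m * b2.coeff r := by
  have hm0 : 0 < m := Nat.pos_of_ne_zero hm.1
  rw [coeff_mul_eq b1 b2 (mul_ne_zero hm.1 hr.1), Finset.sum_eq_single m]
  · rw [Nat.mul_div_cancel_left r hm0]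
  · intro a ha ham
    by_contra h
    have ha1 := h1 a (left_ne_zero_of_mul h)
    have ha2 := h2 _ (right_ne_zero_of_mul h)
    obtain ⟨k, hk⟩ := (Nat.mem_divisors.mp ha).1
    rw [hk, Nat.mul_div_cancel_left k (Nat.pos_of_ne_zero ha1.1)] at ha2
    exact ham (smo_rgh_inj hm ha1 hr ha2 hk).1.symm
  · intro h
    exact absurd (Nat.mem_divisors.mpr ⟨dvd_mul_right m r, mul_ne_zero hm.1 hr.1⟩) h

lemma cv_split {S : Set ℕ} {b1 b2 : DP} (h1 : Sup (Smo S) b1) (h2 : Sup (Rgh S) b2)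
    {m r : ℕ} (hm : m ∈ Smo S) (hr : r ∈ Rgh S) :
    cv (b1 * b2) dv (m * r) = cv b1 dv m * cv b2 dv r := by
  unfold cv
  rw [sum_divisors_coprime (coprime_smo_rgh hm hr), Finset.sum_mul_sum]
  refine Finset.sum_congr rfl fun a ha => Finset.sum_congr rfl fun b hb => ?_
  have ha1 := (Nat.mem_divisors.mp ha).1
  have hb1 := (Nat.mem_divisors.mp hb).1
  rw [coeff_mul_split h1 h2 (smo_of_dvd hm ha1) (rgh_of_dvd hr hb1), Nat.mul_div_mul_comm ha1 hb1,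
    H6.dv_mul (coprime_smo_rgh (smo_of_dvd hm (Nat.div_dvd_of_dvd ha1))
      (rgh_of_dvd hr (Nat.div_dvd_of_dvd hb1)))]
  ring

lemma cv_one {r : ℕ} (hr : r ≠ 0) : cv 1 dv r = dv r := by
  unfold cv
  rw [Finset.sum_eq_single 1]
  · rw [Nat.div_one, MonoidAlgebra.one_def, MonoidAlgebra.coeff_single, Finsupp.single_apply,
      if_pos rfl, one_mul]
  · intro a _ ha
    rw [MonoidAlgebra.one_def, MonoidAlgebra.coeff_single, Finsupp.single_apply,
      if_neg (fun h => ha h.symm), zero_mul]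
  · intro h
    exact absurd (Nat.mem_divisors.mpr ⟨one_dvd r, hr⟩) h

/-- energy of a product set -/
lemma energy_mul {S : Set ℕ} {b1 b2 : DP} (h1 : Sup (Smo S) b1) (h2 : Sup (Rgh S) b2)
    {s1 s2 : Finset ℕ} (hs1 : ∀ m ∈ s1, m ∈ Smo S) (hs2 : ∀ r ∈ s2, r ∈ Rgh S) :
    ∃ W : Finset ℕ, (∀ n ∈ W, ∃ m ∈ s1, ∃ r ∈ s2, n = m * r) ∧
      ∑ n ∈ W, cv (b1 * b2) dv n ^ 2 / (n : ℝ)
        = (∑ m ∈ s1, cv b1 dv m ^ 2 / (m : ℝ)) * ∑ r ∈ s2, cv b2 dv r ^ 2 / (r : ℝ) := by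
  classical
  refine ⟨(s1 ×ˢ s2).image fun x => x.1 * x.2, ?_, ?_⟩
  · intro n hn
    obtain ⟨x, hx, rfl⟩ := Finset.mem_image.mp hn
    rw [Finset.mem_product] at hx
    exact ⟨x.1, hx.1, x.2, hx.2, rfl⟩
  · rw [Finset.sum_image, Finset.sum_mul_sum, ← Finset.sum_product']
    · refine Finset.sum_congr rfl fun x hx => ?_
      rw [Finset.mem_product] at hx
      rw [cv_split h1 h2 (hs1 _ hx.1) (hs2 _ hx.2)]
      have e1 : (x.1 : ℝ) ≠ 0 := by exact_mod_cast (hs1 _ hx.1).1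
      have e2 : (x.2 : ℝ) ≠ 0 := by exact_mod_cast (hs2 _ hx.2).1
      push_cast
      field_simp
    · intro x hx y hy hxy
      rw [Finset.mem_coe, Finset.mem_product] at hx hy
      obtain ⟨h3, h4⟩ := smo_rgh_inj (hs1 _ hx.1) (hs1 _ hy.1) (hs2 _ hx.2) (hs2 _ hy.2) hxy
      exact Prod.ext h3 h4

lemma smo_subset_rgh {S T : Set ℕ} (h : Disjoint S T) : Smo T ⊆ Rgh S := by
  intro n hn
  refine ⟨hn.1, fun p hp hpS hpn => ?_⟩
  exact Set.disjoint_left.mp h hpS (hn.2 p hp hpn)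

lemma log_mul_nat {a b : ℕ} (ha : a ≠ 0) (hb : b ≠ 0) :
    Real.log ((a * b : ℕ) : ℝ) = Real.log a + Real.log b := by
  push_cast
  exact Real.log_mul (by exact_mod_cast ha) (by exact_mod_cast hb)

/-- energy of the product over the groups -/
lemma energy_prod (S : ℕ → Finset ℕ) (hdis : ∀ g h, g ≠ h → Disjoint (S g) (S h)) (b : ℕ → DP)
    (hb : ∀ g, Sup (Smo (S g : Set ℕ)) (b g)) (s : ℕ → Finset ℕ) (lam : ℕ → ℝ) (t : Finset ℕ)
    (hs : ∀ g ∈ t, ∀ m ∈ s g, m ∈ Smo (S g : Set ℕ) ∧ Real.log m ≤ lam g) :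
    ∃ W : Finset ℕ, (∀ n ∈ W, n ∈ Smo ((t.biUnion S : Finset ℕ) : Set ℕ) ∧
        Real.log n ≤ ∑ g ∈ t, lam g) ∧
      ∑ n ∈ W, cv (∏ g ∈ t, b g) dv n ^ 2 / (n : ℝ)
        = ∏ g ∈ t, ∑ m ∈ s g, cv (b g) dv m ^ 2 / (m : ℝ) := by
  classical
  induction t using Finset.induction_on with
  | empty =>
    refine ⟨{1}, ?_, ?_⟩
    · intro n hn
      rw [Finset.mem_singleton] at hn
      subst hn
      exact ⟨one_mem_Smo _, by simp⟩
    · rw [Finset.sum_singleton, Finset.prod_empty, Finset.prod_empty, cv_one one_ne_zero]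
      simp [dv]
  | insert a t ha ih =>
    obtain ⟨W, hW, hWs⟩ := ih fun g hg => hs g (Finset.mem_insert_of_mem hg)
    have hdis' : Disjoint (S a : Set ℕ) ((t.biUnion S : Finset ℕ) : Set ℕ) := by
      rw [Finset.disjoint_coe, Finset.disjoint_biUnion_right]
      intro g hg
      exact hdis a g (by rintro rfl; exact ha hg)
    have hb2 : Sup (Smo ((t.biUnion S : Finset ℕ) : Set ℕ)) (∏ g ∈ t, b g) := by
      refine Sup.prod t (fun g hg => (hb g).mono (Smo_mono ?_)) (one_mem_Smo _)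
        (fun x hx y hy => mul_mem_Smo hx hy)
      exact Finset.coe_subset.mpr (Finset.subset_biUnion_of_mem S hg)
    obtain ⟨W', hW', hWs'⟩ := energy_mul (hb a) (hb2.mono (smo_subset_rgh hdis'))
      (fun m hm => (hs a (Finset.mem_insert_self _ _) m hm).1)
      (fun r hr => smo_subset_rgh hdis' (hW r hr).1)
    refine ⟨W', ?_, ?_⟩
    · intro n hn
      obtain ⟨m, hm, r, hr, rfl⟩ := hW' n hn
      have h1 := hs a (Finset.mem_insert_self _ _) m hm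
      have h2 := hW r hr
      refine ⟨mul_mem_Smo (Smo_mono ?_ h1.1) (Smo_mono ?_ h2.1), ?_⟩
      · exact Finset.coe_subset.mpr (Finset.subset_biUnion_of_mem S (Finset.mem_insert_self a t))
      · exact Finset.coe_subset.mpr (Finset.biUnion_subset_biUnion_of_subset_left S
          (Finset.subset_insert a t))
      · rw [log_mul_nat h1.1.1 h2.1.1, Finset.sum_insert ha]
        exact add_le_add h1.2 h2.2
    · rw [Finset.prod_insert ha, Finset.prod_insert ha, hWs', hWs]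

/-- the coefficients of the product with a divisor polynomial -/
lemma coeff_DF_mul {f : ℝ → ℝ} {N : ℕ} {X : ℝ} (hf : ∀ x, x ≤ X → f x = 1)
    (hN : ∀ n : ℕ, 1 ≤ n → Real.log n ≤ X → n ≤ N) (B : DP) {n : ℕ} (hn : 1 ≤ n)
    (hnX : Real.log n ≤ X) : (DF f N * B).coeff n = cv B dv n := by
  rw [mul_comm, coeff_mul_eq B (DF f N) (by omega)]
  unfold cv
  refine Finset.sum_congr rfl fun a ha => ?_
  congr 1
  have h1 := Nat.mem_divisors.mp ha
  have h2 : 1 ≤ n / a := Nat.div_pos (Nat.le_of_dvd hn h1.1) (Nat.pos_of_mem_divisors ha)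
  have h3 : n / a ≤ n := Nat.div_le_self n a
  have h4 : Real.log ((n / a : ℕ) : ℝ) ≤ X := by
    refine le_trans (Real.log_le_log (by exact_mod_cast h2) ?_) hnX
    exact_mod_cast h3
  rw [coeff_DF, if_pos ⟨h2, hN _ h2 h4⟩, hf _ h4, mul_one]

lemma sum_le_En (F : DP) {W : Finset ℕ} : ∑ n ∈ W, F.coeff n ^ 2 / (n : ℝ) ≤ En F := by
  classical
  rw [En_eq_of_subset (s := F.coeff.support ∪ W) Finset.subset_union_left]
  exact Finset.sum_le_sum_of_subset_of_nonneg Finset.subset_union_right fun n _ _ => by positivity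

/-- the lower bound for the energy -/
lemma En_lower (S : ℕ → Finset ℕ) (hdis : ∀ g h, g ≠ h → Disjoint (S g) (S h)) (b : ℕ → DP)
    (hb : ∀ g, Sup (Smo (S g : Set ℕ)) (b g)) (s : ℕ → Finset ℕ) (lam : ℕ → ℝ) (t : Finset ℕ)
    (hs : ∀ g ∈ t, ∀ m ∈ s g, m ∈ Smo (S g : Set ℕ) ∧ Real.log m ≤ lam g)
    {f : ℝ → ℝ} {N : ℕ} {X x : ℝ} (hf : ∀ x, x ≤ X → f x = 1)
    (hN : ∀ n : ℕ, 1 ≤ n → Real.log n ≤ X → n ≤ N)
    (hx : x + ∑ g ∈ t, lam g ≤ X) {R : Finset ℕ}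
    (hR : ∀ r ∈ R, r ≠ 0 ∧ (∀ p ∈ t.biUnion S, ¬ p ∣ r) ∧ Real.log r ≤ x) :
    (∑ r ∈ R, dv r ^ 2 / (r : ℝ)) * ∏ g ∈ t, ∑ m ∈ s g, cv (b g) dv m ^ 2 / (m : ℝ)
      ≤ En (DF f N * ∏ g ∈ t, b g) := by
  classical
  obtain ⟨W, hW, hWs⟩ := energy_prod S hdis b hb s lam t hs
  have hb2 : Sup (Smo ((t.biUnion S : Finset ℕ) : Set ℕ)) (∏ g ∈ t, b g) := by
    refine Sup.prod t (fun g hg => (hb g).mono (Smo_mono ?_)) (one_mem_Smo _)
      (fun x hx y hy => mul_mem_Smo hx hy)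
    exact Finset.coe_subset.mpr (Finset.subset_biUnion_of_mem S hg)
  have hR' : ∀ r ∈ R, r ∈ Rgh ((t.biUnion S : Finset ℕ) : Set ℕ) := fun r hr =>
    ⟨(hR r hr).1, fun p _ hpS => (hR r hr).2.1 p hpS⟩
  obtain ⟨W', hW', hWs'⟩ := energy_mul hb2 (Sup.one (one_mem_Rgh _) : Sup (Rgh _) 1)
    (fun m hm => (hW m hm).1) hR'
  rw [mul_one] at hWs'
  have h1 : ∑ r ∈ R, cv 1 dv r ^ 2 / (r : ℝ) = ∑ r ∈ R, dv r ^ 2 / (r : ℝ) :=
    Finset.sum_congr rfl fun r hr => by rw [cv_one (hR r hr).1]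
  rw [h1, hWs] at hWs'
  rw [mul_comm, ← hWs']
  refine le_trans (le_of_eq ?_) (sum_le_En (DF f N * ∏ g ∈ t, b g) (W := W'))
  refine Finset.sum_congr rfl fun n hn => ?_
  obtain ⟨m, hm, r, hr, rfl⟩ := hW' n hn
  have h2 := hW m hm
  have h3 := hR r hr
  rw [coeff_DF_mul hf hN _ (Nat.one_le_iff_ne_zero.mpr (mul_ne_zero h2.1.1 h3.1))]
  rw [log_mul_nat h2.1.1 h3.1]
  linarith [h2.2, h3.2.2]

end Pool.Agent.Lib.J4.H29
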