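import Mathlib
import Pool.Agent.Lib.MP_f9aece_nt.PrimePoly
import Pool.Agent.Lib.MP_f9aece_nt.TruncExp
import Pool.Agent.Lib.MP_f9aece_nt_h20.Chi

/-!
Moments of zeta near the fourth moment: definitions.
-/

set_option autoImplicit false

namespace Pool.Agent.Lib.J4

open MeasureTheory Set Filter Topology Complex
open scoped ComplexConjugate
open Pool.Agent.Lib.MP_f9aece_nt (DP pair BK K1 ev ev1 evh PP VV Smo expo EE)
open Pool.Agent.H20.Chi (chi)

/-- the divisor function -/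
def dv (n : ℕ) : ℝ := (n.divisors.card : ℝ)

/-- the energy `∑ |f_n|^2 / n` -/
noncomputable def En (f : DP) : ℝ := BK K1 f f

/-- smooth cut-off: `1` for `x ≤ c - w`, `0` for `x ≥ c` -/
noncomputable def cu (c w x : ℝ) : ℝ := Real.smoothTransition ((c - x) / w)

/-- the Dirichlet polynomial with coefficients `d(n) f(log n)`, `1 ≤ n ≤ N` -/
noncomputable def DF (f : ℝ → ℝ) (N : ℕ) : DP :=
  ∑ n ∈ Finset.Icc 1 N, MonoidAlgebra.single n (dv n * f (Real.log n))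

/-- `∑_k (k+1)^2 p^{-k}` -/
noncomputable def Dp (p : ℕ) : ℝ := (1 + (p : ℝ)⁻¹) / (1 - (p : ℝ)⁻¹) ^ 3

/-- the product of the local factors -/
noncomputable def DS (S : Finset ℕ) : ℝ := ∏ p ∈ S, Dp p

/-- sum of the squares of the reciprocals -/
noncomputable def V2 (S : Finset ℕ) : ℝ := ∑ p ∈ S, ((p : ℝ)⁻¹) ^ 2

/-- convolution of a Dirichlet polynomial with a function -/
noncomputable def cv (b : DP) (h : ℕ → ℝ) (m : ℕ) : ℝ := ∑ u ∈ m.divisors, b.coeff u * h (m / u)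

/-- the same with absolute values -/
noncomputable def cva (b : DP) (h : ℕ → ℝ) (m : ℕ) : ℝ := ∑ u ∈ m.divisors, |b.coeff u| * h (m / u)

/-- the energy of `f` over the numbers composed of elements of `S` is at most `E` -/
def EB (S : Finset ℕ) (f : ℕ → ℝ) (E : ℝ) : Prop :=
  ∀ s : Finset ℕ, (∀ m ∈ s, m ∈ Smo (S : Set ℕ)) → ∑ m ∈ s, f m ^ 2 / (m : ℝ) ≤ E

/-- numbers without prime factor in `S` -/
def Rough (S : Finset ℕ) (r : ℕ) : Prop := 1 ≤ r ∧ ∀ p ∈ S, ¬ p ∣ r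

/-- weights on the `t`-axis: supported in `[θ, 2]`, bounded by one, Lipschitz, with a Fourier
transform of quadratic decay -/
structure Wgt (w : ℝ → ℝ) (θ C : ℝ) : Prop where
  nonneg : ∀ u, 0 ≤ w u
  le_one : ∀ u, w u ≤ 1
  supp : ∀ u, w u ≠ 0 → θ ≤ u ∧ u ≤ 2
  lip : ∀ u v, |w u - w v| ≤ C * |u - v|
  four : ∀ ξ : ℝ, ‖∫ u : ℝ, (w u : ℂ) * cexp (I * ξ * u)‖ * ξ ^ 2 ≤ C

/-! ### groups of primes -/

/-- the scales -/
noncomputable def Yg (v : ℕ) (Y : ℝ) (g : ℕ) : ℝ := Y * Real.exp (-((v : ℝ) * g * (g + 1) / 2))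

/-- the groups of primes -/
noncomputable def Sg (v p0 : ℕ) (Y : ℝ) (g : ℕ) : Finset ℕ :=
  (Finset.Icc 1 ⌊Real.exp Y⌋₊).filter fun p =>
    p.Prime ∧ p0 < p ∧ Yg v Y (g + 1) < Real.log p ∧ Real.log p ≤ Yg v Y g

/-- size parameter of a group: `VV (Sg v p0 Y g) ≤ 2 * rg v g` -/
def rg (v g : ℕ) : ℕ := v * (g + 1)

/-- degree of the truncated exponentials -/
def Kg (v g : ℕ) : ℕ := 50000 * rg v g

/-- degree of the powers -/
def Mg (v g : ℕ) : ℕ := 100000 * rg v g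

/-- thresholds -/
noncomputable def Rg (v g : ℕ) : ℝ := 1000 * (rg v g : ℝ)

/-- the truncated exponential of `c` times the prime sum of a group -/
noncomputable def Eg (c : ℝ) (v p0 : ℕ) (Y : ℝ) (g : ℕ) : DP := expo c (Kg v g) (Sg v p0 Y g)

/-- the prime sum of a group -/
noncomputable def Pg (v p0 : ℕ) (Y : ℝ) (g : ℕ) : DP := PP (Sg v p0 Y g)

/-- product over the groups `i ≤ g < J`: powers of prime sums for `g ∈ t`, truncated exponentials
otherwise -/
noncomputable def Bt (c : ℝ) (v p0 : ℕ) (Y : ℝ) (i J : ℕ) (t : Finset ℕ) : DP :=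
  (∏ g ∈ Finset.Ico i J \ t, Eg c v p0 Y g) * ∏ g ∈ t, Pg v p0 Y g ^ Mg v g

/-- weight of a set of groups -/
noncomputable def Wt (v : ℕ) (t : Finset ℕ) : ℝ :=
  ∏ g ∈ t, (Real.exp (8 * Rg v g) / Rg v g ^ (2 * Mg v g))

/-- total sum of reciprocals of the groups `i ≤ g < J` -/
noncomputable def Vs (v p0 : ℕ) (Y : ℝ) (i J : ℕ) : ℝ := ∑ g ∈ Finset.Ico i J, VV (Sg v p0 Y g)

/-- all primes of the groups `i ≤ g < J` -/
noncomputable def SU (v p0 : ℕ) (Y : ℝ) (i J : ℕ) : Finset ℕ :=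
  (Finset.Ico i J).biUnion (Sg v p0 Y)

/-- the bounded function replacing a power of zeta -/
noncomputable def GG (a : ℝ) (v p0 : ℕ) (Y : ℝ) (J : ℕ) (t : ℝ) : ℝ :=
  ∏ g ∈ Finset.range J,
    if ‖ev t (Pg v p0 Y g)‖ ≤ Rg v g then Real.exp (-4 * a * (ev t (Pg v p0 Y g)).re) else 1

/-- distances of the windows from the edge -/
noncomputable def lam (v : ℕ) (Y L σ : ℝ) (J i : ℕ) : ℝ :=
  if i = 0 then σ * L else if i ≤ J then 200000 * v * i * Yg v Y (i - 1) else 1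

/-- the symbols of the windows -/
noncomputable def win (v : ℕ) (Y L σ : ℝ) (J i : ℕ) (x : ℝ) : ℝ :=
  cu (L - lam v Y L σ J (i + 1)) (lam v Y L σ J (i + 1)) x - cu (L - lam v Y L σ J i) (lam v Y L σ J i) x

/-- the sum of absolute values of the coefficients over the square roots -/
noncomputable def evha (f : DP) : ℝ := ∑ n ∈ f.coeff.support, |f.coeff n| / Real.sqrt n

end Pool.Agent.Lib.J4
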