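import Pool.Agent.Lib.MP_f9aece_nt_j4.Stmts
import Pool.Agent.Lib.MP_f9aece_nt_h97.EnergyL
import Pool.Agent.Lib.MP_f9aece_nt.PrimeSums

/-!
# JointFour, module F: block energies, bridge and numerical facts
-/

set_option autoImplicit false

namespace Pool.Agent.Lib.J4.H97

open Pool.Agent.Lib.MP_f9aece_nt (DP pair BK K1 PP VV Smo expo Cone cone_PP_pow VV_nonneg pair_def)
open Pool.Agent.Lib.MP_f9aece_nt_h97 (cvg Dom dk)

lemma cv_eq (b : DP) (h : ℕ → ℝ) {m : ℕ} (hm : m ≠ 0) : cv b h m = cvg h b m := by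
  classical
  unfold cv cvg
  rw [pair_def]
  have h0 : ∑ u ∈ m.divisors, b.coeff u * h (m / u)
      = ∑ u ∈ m.divisors, b.coeff u * (if u ∣ m then h (m / u) else 0) := by
    refine Finset.sum_congr rfl fun u hu => ?_
    rw [if_pos (Nat.dvd_of_mem_divisors hu)]
  have h1 : ∑ u ∈ m.divisors, b.coeff u * (if u ∣ m then h (m / u) else 0)
      = ∑ u ∈ b.coeff.support ∪ m.divisors, b.coeff u * (if u ∣ m then h (m / u) else 0) := by
    refine Finset.sum_subset Finset.subset_union_right fun u _ hu => ?_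
    rw [Nat.mem_divisors] at hu
    rw [if_neg (fun hd => hu ⟨hd, hm⟩), mul_zero]
  have h2 : ∑ u ∈ b.coeff.support, b.coeff u * (if u ∣ m then h (m / u) else 0)
      = ∑ u ∈ b.coeff.support ∪ m.divisors, b.coeff u * (if u ∣ m then h (m / u) else 0) := by
    refine Finset.sum_subset Finset.subset_union_left fun u _ hu => ?_
    rw [Finsupp.notMem_support_iff] at hu
    rw [hu, zero_mul]
  rw [h0, h1, h2]

lemma cva_nonneg (b : DP) {h : ℕ → ℝ} (hh : ∀ n, 0 ≤ h n) (m : ℕ) : 0 ≤ cva b h m :=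
  Finset.sum_nonneg fun _ _ => mul_nonneg (abs_nonneg _) (hh _)

lemma cva_le {b b' : DP} (hb : Dom b b') {h : ℕ → ℝ} (hh : ∀ n, 0 ≤ h n) (m : ℕ) :
    cva b h m ≤ cv b' h m :=
  Finset.sum_le_sum fun u _ => mul_le_mul_of_nonneg_right (hb u) (hh _)

lemma EB_of_cvg {S : Finset ℕ} {b : DP} {h : ℕ → ℝ} {E : ℝ}
    (H : ∀ F : Finset ℕ, (∀ m ∈ F, m ∈ Smo (S : Set ℕ)) → ∑ m ∈ F, cvg h b m ^ 2 * (m : ℝ)⁻¹ ≤ E) :
    EB S (cv b h) E := by
  intro s hs
  refine le_trans (le_of_eq ?_) (H s hs)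
  refine Finset.sum_congr rfl fun m hm => ?_
  rw [cv_eq b h (hs m hm).1, div_eq_mul_inv]

lemma EB_mono {S : Finset ℕ} {f f' : ℕ → ℝ} {E E' : ℝ} (h0 : ∀ m, 0 ≤ f m) (h1 : ∀ m, f m ≤ f' m)
    (hE : E ≤ E') (H : EB S f' E) : EB S f E' := by
  intro s hs
  refine le_trans (Finset.sum_le_sum fun m _ => ?_) ((H s hs).trans hE)
  have := h0 m
  have := h1 m
  gcongr

lemma EB_mono_right {S : Finset ℕ} {f : ℕ → ℝ} {E E' : ℝ} (hE : E ≤ E') (H : EB S f E) : EB S f E' :=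
  fun s hs => (H s hs).trans hE

/-! ### numerical facts -/

lemma exp_one_le_four : Real.exp 1 ≤ 4 := by
  have := Real.exp_one_lt_d9
  linarith

lemma exp_third_le : Real.exp (1 / 3) ≤ 7 / 5 := by
  have h := Real.exp_one_lt_d9
  have e : Real.exp 1 = Real.exp (1 / 3) ^ 3 := by
    rw [← Real.exp_nat_mul]; norm_num
  by_contra hc
  push Not at hc
  have : (7 / 5 : ℝ) ^ 3 < Real.exp (1 / 3) ^ 3 := pow_lt_pow_left₀ hc (by norm_num) (by norm_num)
  rw [← e] at this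
  norm_num at this
  linarith

lemma exp_four_le : Real.exp 4 ≤ 55 := by
  have h := Real.exp_one_lt_d9
  have e : Real.exp 4 = Real.exp 1 ^ 4 := by
    rw [← Real.exp_nat_mul]; norm_num
  rw [e]
  calc Real.exp 1 ^ 4 ≤ 2.7182818286 ^ 4 := by
        have := Real.exp_pos 1
        gcongr
    _ ≤ 55 := by norm_num

lemma num1 {r : ℕ} (hr : 1 ≤ r) :
    2 * (1 / 2 ^ (50000 * r)) * Real.exp (66 * r) ≤ Real.exp (-(r : ℝ)) := by
  have h1 : Real.exp (67 * r) ≤ 2 ^ (134 * r) := by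
    have e : Real.exp (67 * (r : ℝ)) = Real.exp 1 ^ (67 * r) := by
      rw [← Real.exp_nat_mul]; congr 1; push_cast; ring
    rw [e]
    calc Real.exp 1 ^ (67 * r) ≤ 4 ^ (67 * r) := by
          have := Real.exp_pos 1
          have := exp_one_le_four
          gcongr
      _ = 2 ^ (134 * r) := by
          have : (4 : ℝ) = 2 ^ 2 := by norm_num
          rw [this, ← pow_mul]; congr 1; ring
  have h2 : (2 : ℝ) * 2 ^ (134 * r) ≤ 2 ^ (50000 * r) := by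
    rw [← pow_succ']
    exact pow_le_pow_right₀ (by norm_num) (by omega)
  have h3 : (0 : ℝ) < 2 ^ (50000 * r) := by positivity
  have e2 : Real.exp (67 * r) = Real.exp (66 * r) * Real.exp r := by
    rw [← Real.exp_add]; congr 1; ring
  have h4 : Real.exp (-(r : ℝ)) = 1 / Real.exp r := by rw [Real.exp_neg, one_div]
  rw [h4, le_div_iff₀ (Real.exp_pos _)]
  have e3 : 2 * (1 / 2 ^ (50000 * r)) * Real.exp (66 * r) * Real.exp r
      = 2 * Real.exp (67 * r) / 2 ^ (50000 * r) := by rw [e2]; ring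
  rw [e3, div_le_one h3]
  calc 2 * Real.exp (67 * r) ≤ 2 * 2 ^ (134 * r) := by gcongr
    _ ≤ _ := h2

lemma inv_le_thousand {p : ℕ} (hp : 1000 ≤ p) : 0 ≤ (p : ℝ)⁻¹ ∧ (p : ℝ)⁻¹ ≤ 1 / 1000 := by
  have h : (1000 : ℝ) ≤ p := by exact_mod_cast hp
  refine ⟨by positivity, ?_⟩
  rw [one_div]; exact inv_anti₀ (by norm_num) h

lemma V2_nonneg (S : Finset ℕ) : 0 ≤ V2 S := Finset.sum_nonneg fun p _ => by positivity

lemma V2_le {S : Finset ℕ} (hS : ∀ p ∈ S, 1000 ≤ p) : V2 S ≤ VV S / 1000 := by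
  unfold V2 VV
  rw [Finset.sum_div]
  refine Finset.sum_le_sum fun p hp => ?_
  obtain ⟨h0, h1⟩ := inv_le_thousand (hS p hp)
  nlinarith

lemma V2_le_one {S : Finset ℕ} (hS : ∀ p ∈ S, 1000 ≤ p) : V2 S ≤ 1 := by
  unfold V2
  refine (MP_f9aece_nt.sum_inv_sq_le 1 le_rfl S fun p hp => ?_).trans (by norm_num)
  have := hS p hp
  omega

/-! ### the twist -/

lemma rpow_bounds {p : ℕ} (hp : 1 ≤ p) {κ Y : ℝ} (hκ : 0 ≤ κ) (hY : κ * Y ≤ 1 / 3)
    (hpY : Real.log p ≤ Y) : 1 ≤ (p : ℝ) ^ κ ∧ (p : ℝ) ^ κ ≤ 7 / 5 := by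
  have hp1 : (1 : ℝ) ≤ p := by exact_mod_cast hp
  refine ⟨Real.one_le_rpow hp1 hκ, ?_⟩
  rw [Real.rpow_def_of_pos (by linarith)]
  refine le_trans (Real.exp_le_exp.mpr ?_) exp_third_le
  have : κ * Real.log p ≤ κ * Y := mul_le_mul_of_nonneg_left hpY hκ
  linarith

lemma sum_twist_le {S : Finset ℕ} {κ Y : ℝ} (hS : ∀ p ∈ S, p.Prime ∧ 1000 ≤ p ∧ Real.log p ≤ Y)
    (hκ : 0 ≤ κ) (hY : κ * Y ≤ 1 / 3) :
    ∑ p ∈ S, (((p : ℝ) ^ κ) ^ 2 - 1) * (p : ℝ)⁻¹ ≤ 3 := by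
  rcases S.eq_empty_or_nonempty with h0 | ⟨p0, hp0⟩
  · rw [h0, Finset.sum_empty]; norm_num
  have hY4 : Real.log 4 ≤ Y := by
    obtain ⟨_, h2, h3⟩ := hS p0 hp0
    refine le_trans (Real.log_le_log (by norm_num) ?_) h3
    have : (1000 : ℝ) ≤ p0 := by exact_mod_cast h2
    linarith
  have h1 : ∀ p ∈ S, (((p : ℝ) ^ κ) ^ 2 - 1) * (p : ℝ)⁻¹ ≤ 4 * κ * (Real.log p / p) := by
    intro p hp
    obtain ⟨hpp, h2, h3⟩ := hS p hp
    have hp1 : (1 : ℝ) ≤ p := by exact_mod_cast hpp.one_le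
    obtain ⟨hz1, hz2⟩ := rpow_bounds hpp.one_le hκ hY h3
    have hz0 : 0 ≤ (p : ℝ) ^ κ := by linarith
    set z := (p : ℝ) ^ κ with hz
    have hl : 0 ≤ Real.log p := Real.log_nonneg hp1
    have e : z ^ 2 = Real.exp (2 * κ * Real.log p) := by
      rw [hz, Real.rpow_def_of_pos (by linarith), ← Real.exp_nat_mul]
      congr 1; push_cast; ring
    have h4 : 1 - 2 * κ * Real.log p ≤ Real.exp (-(2 * κ * Real.log p)) := by
      have := Real.add_one_le_exp (-(2 * κ * Real.log p))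
      linarith
    have h5 : z ^ 2 * Real.exp (-(2 * κ * Real.log p)) = 1 := by
      rw [e, ← Real.exp_add]; simp
    have h6 : z ^ 2 ≤ 2 := by nlinarith
    have h7 : z ^ 2 - 1 ≤ 4 * κ * Real.log p := by
      have h8 : z ^ 2 * (1 - 2 * κ * Real.log p) ≤ 1 := by
        calc z ^ 2 * (1 - 2 * κ * Real.log p) ≤ z ^ 2 * Real.exp (-(2 * κ * Real.log p)) := by gcongr
          _ = 1 := h5
      have h9 : 0 ≤ 2 * κ * Real.log p := by positivity
      nlinarith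
    calc (z ^ 2 - 1) * (p : ℝ)⁻¹ ≤ (4 * κ * Real.log p) * (p : ℝ)⁻¹ := by gcongr
      _ = _ := by ring
  refine (Finset.sum_le_sum h1).trans ?_
  rw [← Finset.mul_sum]
  set n := ⌊Real.exp Y⌋₊ with hn
  have hY0 : 0 ≤ Y := le_trans (Real.log_nonneg (by norm_num)) hY4
  have hn1 : 1 ≤ n := by
    rw [hn, Nat.one_le_floor_iff]
    exact Real.one_le_exp hY0
  have h2 : ∑ p ∈ S, Real.log p / p ≤ ∑ p ∈ Finset.Ioc 0 n with p.Prime, Real.log p / p := by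
    refine Finset.sum_le_sum_of_subset_of_nonneg ?_ fun p _ _ => ?_
    · intro p hp
      obtain ⟨hpp, _, h3⟩ := hS p hp
      rw [Finset.mem_filter, Finset.mem_Ioc]
      refine ⟨⟨hpp.pos, Nat.le_floor ?_⟩, hpp⟩
      rwa [← Real.log_le_iff_le_exp (by exact_mod_cast hpp.pos)]
    · exact div_nonneg (Real.log_natCast_nonneg p) (Nat.cast_nonneg p)
  have h3 := MP_f9aece_nt.sum_log_div_le hn1
  have h4 : Real.log n ≤ Y := by
    rw [Real.log_le_iff_le_exp (by exact_mod_cast hn1)]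
    exact Nat.floor_le (Real.exp_pos _).le
  have h5 : κ * (∑ p ∈ S, Real.log p / p) ≤ κ * (Y + Y) := by
    apply mul_le_mul_of_nonneg_left _ hκ
    linarith
  nlinarith

end Pool.Agent.Lib.J4.H97
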