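import Pool.Agent.Lib.MP_f9aece_nt_j4.FBridge

/-!
# JointFour, module F: block energies of powers of prime sums, with a twist
-/

set_option autoImplicit false

namespace Pool.Agent.Lib.J4.H97

open Pool.Agent.Lib.MP_f9aece_nt
open Pool.Agent.Lib.MP_f9aece_nt_h97 (cvg Dom dk dv_smo inv_smo sum_smo_le dvd_smo
  sum_sq_le dk_mul dk_pow prod_factorization_smo dk_nonneg)

lemma cast_smo {S : Finset ℕ} {n : ℕ} (hn : n ∈ Smo (S : Set ℕ)) :
    (n : ℝ) = ∏ p ∈ S, (p : ℝ) ^ n.factorization p := by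
  have h1 : (n : ℝ) = ∏ p ∈ n.primeFactors, (p : ℝ) ^ n.factorization p := by
    have := Nat.prod_factorization_pow_eq_self hn.1
    conv_lhs => rw [← this]
    rw [Finsupp.prod, Nat.support_factorization]
    push_cast
    rfl
  rw [h1]
  exact prod_factorization_smo hn (fun p k => (p : ℝ) ^ k) (fun p => by simp)

lemma rpow_smo {S : Finset ℕ} {n : ℕ} (hn : n ∈ Smo (S : Set ℕ)) (κ : ℝ) :
    (n : ℝ) ^ κ = ∏ p ∈ S, ((p : ℝ) ^ κ) ^ n.factorization p := by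
  rw [cast_smo hn, ← Real.finsetProd_rpow _ _ (fun p _ => by positivity)]
  refine Finset.prod_congr rfl fun p _ => ?_
  rw [← Real.rpow_natCast ((p : ℝ) ^ κ), ← Real.rpow_mul (Nat.cast_nonneg _), mul_comm κ,
    Real.rpow_mul (Nat.cast_nonneg _), Real.rpow_natCast]

/-- twisted kernel -/
noncomputable def KD (κ : ℝ) (a b : ℕ) : ℝ :=
  K2 a b * (dk κ (a / Nat.gcd a b) * dk κ (b / Nat.gcd a b))

lemma KD_nonneg (κ : ℝ) (a b : ℕ) : 0 ≤ KD κ a b :=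
  mul_nonneg (K2_nonneg _ _) (mul_nonneg (dk_nonneg _ _) (dk_nonneg _ _))

lemma KD_comm (κ : ℝ) (a b : ℕ) : KD κ a b = KD κ b a := by
  unfold KD
  rw [K2_comm, Nat.gcd_comm, mul_comm (dk κ _)]

/-- twisted Euler product -/
noncomputable def DK (κ : ℝ) (S : Finset ℕ) : ℝ :=
  ∏ p ∈ S, (1 + ((p : ℝ) ^ κ) ^ 2 * (p : ℝ)⁻¹) / (1 - ((p : ℝ) ^ κ) ^ 2 * (p : ℝ)⁻¹) ^ 3

lemma sum_shift_le' {x : ℝ} (h0 : 0 ≤ x) (h1 : x ≤ 1 / 2) (i N : ℕ) :
    ∑ k ∈ Finset.range N, ((k : ℝ) + 1) * ((k : ℝ) + 1 + i) * x ^ k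
      ≤ (1 + x) / (1 - x) ^ 3 * (1 + i) := by
  have h2 := sum_sq_le h0 (by linarith : x < 1) N
  have hne : 0 < 1 - x := by linarith
  have h3 : ∑ k ∈ Finset.range N, ((k : ℝ) + 1) * ((k : ℝ) + 1 + i) * x ^ k
      ≤ (∑ k ∈ Finset.range N, ((k : ℝ) + 1) ^ 2 * x ^ k) * (1 + i) := by
    rw [Finset.sum_mul]
    refine Finset.sum_le_sum fun k _ => ?_
    have hk : (0 : ℝ) ≤ k := Nat.cast_nonneg k
    have hi : (0 : ℝ) ≤ i := Nat.cast_nonneg i
    have hx : 0 ≤ x ^ k := by positivity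
    have : ((k : ℝ) + 1) * ((k : ℝ) + 1 + i) ≤ ((k : ℝ) + 1) ^ 2 * (1 + i) := by
      have h4 : 0 ≤ (k : ℝ) * i := by positivity
      have h5 : 0 ≤ (k : ℝ) ^ 2 * i := by positivity
      nlinarith
    calc ((k : ℝ) + 1) * ((k : ℝ) + 1 + i) * x ^ k ≤ ((k : ℝ) + 1) ^ 2 * (1 + i) * x ^ k := by gcongr
      _ = _ := by ring
  refine h3.trans ?_
  gcongr

/-- finite sums of products of two shifted twisted divisor functions -/
lemma sum_dk_le {S : Finset ℕ} (hS : ∀ p ∈ S, p.Prime) {κ : ℝ}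
    (hy : ∀ p ∈ S, ((p : ℝ) ^ κ) ^ 2 * (p : ℝ)⁻¹ ≤ 1 / 2) {a b : ℕ} (ha : a ∈ Smo (S : Set ℕ))
    (hb : b ∈ Smo (S : Set ℕ)) (F : Finset ℕ) (hF : ∀ m ∈ F, m ∈ Smo (S : Set ℕ)) :
    ∑ m ∈ F, (if a ∣ m then dk κ (m / a) else 0) * (if b ∣ m then dk κ (m / b) else 0) * (m : ℝ)⁻¹
      ≤ DK κ S * KD κ a b := by
  classical
  set l := Nat.lcm a b with hl
  have ha0 := Nat.pos_of_ne_zero ha.1
  have hb0 := Nat.pos_of_ne_zero hb.1
  have hl0 : 0 < l := Nat.lcm_pos ha0 hb0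
  obtain ⟨a1, ha1⟩ := Nat.dvd_lcm_left a b
  obtain ⟨b1, hb1⟩ := Nat.dvd_lcm_right a b
  rw [← hl] at ha1 hb1
  have hg0 : 0 < Nat.gcd a b := Nat.gcd_pos_of_pos_left _ ha0
  have hgl : Nat.gcd a b * l = a * b := Nat.gcd_mul_lcm a b
  have ea : a / Nat.gcd a b = b1 := by
    apply Nat.div_eq_of_eq_mul_right hg0
    have : a * b = Nat.gcd a b * b1 * b := by rw [← hgl, hb1]; ring
    exact Nat.eq_of_mul_eq_mul_right hb0 this
  have eb : b / Nat.gcd a b = a1 := by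
    apply Nat.div_eq_of_eq_mul_right hg0
    have : a * b = a * (Nat.gcd a b * a1) := by rw [← hgl, ha1]; ring
    exact Nat.eq_of_mul_eq_mul_left ha0 this
  have hcop : Nat.Coprime a1 b1 := by
    rw [← ea, ← eb]
    exact (Nat.coprime_div_gcd_div_gcd hg0).symm
  have hlS : l ∈ Smo (S : Set ℕ) := by
    refine ⟨hl0.ne', fun p hp hd => ?_⟩
    have h1 : p ∣ a * b := hd.trans (Nat.lcm_dvd_mul a b)
    rcases (hp.dvd_mul).mp h1 with h | h
    · exact ha.2 p hp h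
    · exact hb.2 p hp h
  have ha1S : a1 ∈ Smo (S : Set ℕ) := dvd_smo hlS (Dvd.intro_left a ha1.symm)
  have hb1S : b1 ∈ Smo (S : Set ℕ) := dvd_smo hlS (Dvd.intro_left b hb1.symm)
  -- local terms
  set h : ℕ → ℕ → ℝ := fun p k => ((k : ℝ) + 1) * ((k : ℝ) + 1 + ((a1.factorization p + b1.factorization p : ℕ) : ℝ))
    * (((p : ℝ) ^ κ) ^ 2 * (p : ℝ)⁻¹) ^ k with hh
  set H : ℕ → ℝ := fun p => (1 + ((p : ℝ) ^ κ) ^ 2 * (p : ℝ)⁻¹) / (1 - ((p : ℝ) ^ κ) ^ 2 * (p : ℝ)⁻¹) ^ 3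
    * (1 + ((a1.factorization p + b1.factorization p : ℕ) : ℝ)) with hH
  have hmin : ∀ p, a1.factorization p = 0 ∨ b1.factorization p = 0 := by
    intro p
    by_contra hc
    push Not at hc
    have h1 : p ∣ a1 := Nat.dvd_of_factorization_pos hc.1
    have h2 : p ∣ b1 := Nat.dvd_of_factorization_pos hc.2
    have h3 : p ∣ 1 := by rw [← hcop]; exact Nat.dvd_gcd h1 h2
    have h4 := Nat.dvd_one.mp h3
    rw [h4, Nat.factorization_one_right] at hc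
    exact hc.1 rfl
  have hlocal : ∀ p ∈ S, ∀ N, ∑ k ∈ Finset.range N, h p k ≤ H p := by
    intro p hp N
    exact sum_shift_le' (by positivity) (hy p hp) (a1.factorization p + b1.factorization p) N
  set F' := (F.filter (l ∣ ·)).image (fun m => m / l) with hF'
  have hF'S : ∀ m ∈ F', m ∈ Smo (S : Set ℕ) := by
    intro m hm
    rw [hF', Finset.mem_image] at hm
    obtain ⟨x, hx, rfl⟩ := hm
    rw [Finset.mem_filter] at hx
    exact dvd_smo (hF x hx.1) (Nat.div_dvd_of_dvd hx.2)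
  have hmain := sum_smo_le S hS h (fun p _ k => by simp only [hh]; positivity) H hlocal F' hF'S
  -- rewriting the sum
  have hterm : ∀ k, k ∈ Smo (S : Set ℕ) →
      dk κ (a1 * k) * dk κ (b1 * k) * ((k : ℝ))⁻¹
        = ((a1 : ℝ) ^ κ * (b1 : ℝ) ^ κ) * ∏ p ∈ S, h p (k.factorization p) := by
    intro k hk
    have e1 : dk κ (a1 * k) * dk κ (b1 * k) * ((k : ℝ))⁻¹
        = ((a1 : ℝ) ^ κ * (b1 : ℝ) ^ κ)
          * (MP_f9aece_nt_h97.dv (a1 * k) * MP_f9aece_nt_h97.dv (b1 * k) * ((k : ℝ) ^ κ * (k : ℝ) ^ κ * (k : ℝ)⁻¹)) := by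
      unfold dk
      push_cast
      rw [Real.mul_rpow (Nat.cast_nonneg _) (Nat.cast_nonneg _),
        Real.mul_rpow (Nat.cast_nonneg _) (Nat.cast_nonneg _)]
      ring
    rw [e1, dv_smo (mul_mem_Smo ha1S hk), dv_smo (mul_mem_Smo hb1S hk), inv_smo hk, rpow_smo hk κ,
      ← Finset.prod_mul_distrib, ← Finset.prod_mul_distrib, ← Finset.prod_mul_distrib,
      ← Finset.prod_mul_distrib]
    congr 1
    refine Finset.prod_congr rfl fun p _ => ?_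
    rw [Nat.factorization_mul ha1S.1 hk.1, Nat.factorization_mul hb1S.1 hk.1]
    simp only [hh, Finsupp.add_apply]
    rw [mul_pow, ← pow_mul, mul_comm 2, pow_mul, sq]
    rcases hmin p with h0 | h0 <;> rw [h0] <;> push_cast <;> ring
  have hsum : ∑ m ∈ F, (if a ∣ m then dk κ (m / a) else 0) * (if b ∣ m then dk κ (m / b) else 0) * (m : ℝ)⁻¹
      = (l : ℝ)⁻¹ * (((a1 : ℝ) ^ κ * (b1 : ℝ) ^ κ) * ∑ k ∈ F', ∏ p ∈ S, h p (k.factorization p)) := by
    have e1 : ∑ m ∈ F, (if a ∣ m then dk κ (m / a) else 0) * (if b ∣ m then dk κ (m / b) else 0) * (m : ℝ)⁻¹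
        = ∑ m ∈ F.filter (l ∣ ·), dk κ (m / a) * dk κ (m / b) * (m : ℝ)⁻¹ := by
      rw [Finset.sum_filter]
      refine Finset.sum_congr rfl fun m _ => ?_
      by_cases h1 : a ∣ m
      · by_cases h2 : b ∣ m
        · rw [if_pos h1, if_pos h2, if_pos (Nat.lcm_dvd h1 h2)]
        · rw [if_neg h2, if_neg (fun h3 => h2 ((Nat.dvd_lcm_right a b).trans h3))]; ring
      · rw [if_neg h1, if_neg (fun h3 => h1 ((Nat.dvd_lcm_left a b).trans h3))]; ring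
    rw [e1, hF', Finset.sum_image, Finset.mul_sum, Finset.mul_sum]
    · refine Finset.sum_congr rfl fun m hm => ?_
      rw [Finset.mem_filter] at hm
      obtain ⟨k, hk⟩ := hm.2
      have hkS : k ∈ Smo (S : Set ℕ) := dvd_smo (hF m hm.1) ⟨l, by rw [hk, mul_comm]⟩
      have e2 : m / l = k := by rw [hk, Nat.mul_div_cancel_left _ hl0]
      have e3 : m / a = a1 * k := by rw [hk, ha1, mul_assoc, Nat.mul_div_cancel_left _ ha0]
      have e4 : m / b = b1 * k := by rw [hk, hb1, mul_assoc, Nat.mul_div_cancel_left _ hb0]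
      rw [e2, e3, e4, ← hterm k hkS, hk]
      push_cast
      rw [mul_inv]
      ring
    · intro x hx y hy hxy
      simp only [Finset.coe_filter, Set.mem_ofPred_eq] at hx hy
      simp only at hxy
      rw [← Nat.div_mul_cancel hx.2, ← Nat.div_mul_cancel hy.2, hxy]
  rw [hsum]
  have hprod : ∏ p ∈ S, H p = DK κ S * (MP_f9aece_nt_h97.dv a1 * MP_f9aece_nt_h97.dv b1) := by
    simp only [hH]
    rw [dv_smo ha1S, dv_smo hb1S, ← Finset.prod_mul_distrib]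
    unfold DK
    have e5 : ∏ p ∈ S, (1 + ((a1.factorization p + b1.factorization p : ℕ) : ℝ))
        = ∏ p ∈ S, ((a1.factorization p : ℝ) + 1) * ((b1.factorization p : ℝ) + 1) := by
      refine Finset.prod_congr rfl fun p _ => ?_
      rcases hmin p with h0 | h0 <;> rw [h0] <;> push_cast <;> ring
    rw [← e5, ← Finset.prod_mul_distrib]
  have hlinv : (0 : ℝ) ≤ (l : ℝ)⁻¹ := by positivity
  have hab : (0 : ℝ) ≤ (a1 : ℝ) ^ κ * (b1 : ℝ) ^ κ := by positivity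
  calc (l : ℝ)⁻¹ * (((a1 : ℝ) ^ κ * (b1 : ℝ) ^ κ) * ∑ k ∈ F', ∏ p ∈ S, h p (k.factorization p))
      ≤ (l : ℝ)⁻¹ * (((a1 : ℝ) ^ κ * (b1 : ℝ) ^ κ) * ∏ p ∈ S, H p) := by gcongr
    _ = DK κ S * KD κ a b := by
        rw [hprod]
        unfold KD dk
        rw [K2_eq_inv_lcm ha.1 hb.1, ea, eb]
        ring

/-- **energy bound**, nonnegative coefficients -/
theorem energy_cvk_le {S : Finset ℕ} (hS : ∀ p ∈ S, p.Prime) {κ : ℝ}
    (hy : ∀ p ∈ S, ((p : ℝ) ^ κ) ^ 2 * (p : ℝ)⁻¹ ≤ 1 / 2) {f : DP} (hf : Cone (Smo (S : Set ℕ)) f)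
    (F : Finset ℕ) (hF : ∀ m ∈ F, m ∈ Smo (S : Set ℕ)) :
    ∑ m ∈ F, cvg (dk κ) f m ^ 2 * (m : ℝ)⁻¹ ≤ DK κ S * BK (KD κ) f f := by
  have e1 : ∑ m ∈ F, cvg (dk κ) f m ^ 2 * (m : ℝ)⁻¹
      = pair (fun a => pair (fun b => ∑ m ∈ F, (if a ∣ m then dk κ (m / a) else 0)
          * (if b ∣ m then dk κ (m / b) else 0) * (m : ℝ)⁻¹) f) f := by
    simp only [cvg, pair_def]
    have : ∀ a b : ℕ, f.coeff b * ∑ m ∈ F, (if a ∣ m then dk κ (m / a) else 0)
          * (if b ∣ m then dk κ (m / b) else 0) * (m : ℝ)⁻¹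
        = ∑ m ∈ F, f.coeff b * ((if a ∣ m then dk κ (m / a) else 0)
          * (if b ∣ m then dk κ (m / b) else 0) * (m : ℝ)⁻¹) := fun a b => Finset.mul_sum _ _ _
    simp_rw [this]
    have e2 : ∀ a, f.coeff a * ∑ b ∈ f.coeff.support, ∑ m ∈ F, f.coeff b * ((if a ∣ m then dk κ (m / a) else 0)
          * (if b ∣ m then dk κ (m / b) else 0) * (m : ℝ)⁻¹)
        = ∑ m ∈ F, ∑ b ∈ f.coeff.support, f.coeff a * (f.coeff b * ((if a ∣ m then dk κ (m / a) else 0)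
          * (if b ∣ m then dk κ (m / b) else 0) * (m : ℝ)⁻¹)) := by
      intro a
      rw [Finset.sum_comm, Finset.mul_sum]
      exact Finset.sum_congr rfl fun m _ => Finset.mul_sum _ _ _
    simp_rw [e2]
    rw [Finset.sum_comm]
    refine Finset.sum_congr rfl fun m _ => ?_
    rw [sq, Finset.sum_mul_sum, Finset.sum_mul]
    refine Finset.sum_congr rfl fun a _ => ?_
    rw [Finset.sum_mul]
    refine Finset.sum_congr rfl fun b _ => ?_
    ring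
  rw [e1]
  have h1 : pair (fun a => pair (fun b => ∑ m ∈ F, (if a ∣ m then dk κ (m / a) else 0)
          * (if b ∣ m then dk κ (m / b) else 0) * (m : ℝ)⁻¹) f) f
      ≤ pair (fun a => pair (fun b => DK κ S * KD κ a b) f) f := by
    refine pair_mono hf fun a ha => pair_mono hf fun b hb => ?_
    exact sum_dk_le hS hy ha hb F hF
  refine h1.trans (le_of_eq ?_)
  unfold BK
  rw [← pair_const_mul]
  congr 1
  funext a
  rw [pair_const_mul]

lemma dk_prime_mul {p : ℕ} (hp : p.Prime) {κ : ℝ} {n : ℕ} (hn : n ≠ 0) :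
    dk κ (p * n) ≤ 2 * (p : ℝ) ^ κ * dk κ n := by
  obtain ⟨k, m, hm, rfl⟩ := Nat.exists_eq_pow_mul_and_not_dvd hn p hp.ne_one
  have hc : Nat.Coprime (p ^ k) m := Nat.Coprime.pow_left _ ((Nat.Prime.coprime_iff_not_dvd hp).mpr hm)
  have hc' : Nat.Coprime (p ^ (k + 1)) m :=
    Nat.Coprime.pow_left _ ((Nat.Prime.coprime_iff_not_dvd hp).mpr hm)
  have e : p * (p ^ k * m) = p ^ (k + 1) * m := by ring
  rw [e, dk_mul κ hc, dk_mul κ hc', dk_pow κ hp, dk_pow κ hp]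
  have h1 := dk_nonneg κ m
  have h2 : 0 ≤ (p : ℝ) ^ κ := by positivity
  have hk : (0 : ℝ) ≤ k := Nat.cast_nonneg k
  have h5 : ((k + 1 : ℕ) : ℝ) + 1 ≤ 2 * ((k : ℝ) + 1) := by
    push_cast
    linarith
  calc (((k + 1 : ℕ) : ℝ) + 1) * ((p : ℝ) ^ κ) ^ (k + 1) * dk κ m
      ≤ (2 * ((k : ℝ) + 1)) * ((p : ℝ) ^ κ) ^ (k + 1) * dk κ m := by gcongr
    _ = _ := by rw [pow_succ]; ring

lemma KD_prime_mul {p : ℕ} (hp : p.Prime) {κ z : ℝ} (hz : (p : ℝ) ^ κ ≤ z) {a b : ℕ} (ha : a ≠ 0) :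
    KD κ (p * a) b ≤ (p : ℝ)⁻¹ * (2 * z * KD κ a b + if p ∣ b then KD κ a (b / p) else 0) := by
  have hp0 : (p : ℝ) ≠ 0 := by exact_mod_cast hp.ne_zero
  have hpi : 0 ≤ (p : ℝ)⁻¹ := by positivity
  have hz0 : 0 ≤ z := le_trans (by positivity) hz
  split_ifs with h
  · obtain ⟨c, rfl⟩ := h
    rw [Nat.mul_div_cancel_left _ hp.pos]
    have h1 : KD κ (p * a) (p * c) = (p : ℝ)⁻¹ * KD κ a c := by
      unfold KD K2
      rw [Nat.gcd_mul_left, Nat.mul_div_mul_left _ _ hp.pos, Nat.mul_div_mul_left _ _ hp.pos]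
      push_cast
      have e : (p : ℝ) * a * (p * c) = p * (p * (a * c)) := by ring
      rw [e, mul_div_mul_left _ _ hp0, div_mul_eq_div_div_swap]
      rw [div_eq_mul_inv _ (p : ℝ)]
      ring
    rw [h1]
    have := KD_nonneg κ a (p * c)
    have h2 : 0 ≤ 2 * z * KD κ a (p * c) := by positivity
    nlinarith [mul_nonneg hpi h2]
  · have hcop : Nat.Coprime p b := (Nat.Prime.coprime_iff_not_dvd hp).mpr h
    rw [add_zero]
    have hg : Nat.gcd (p * a) b = Nat.gcd a b := Nat.Coprime.gcd_mul_left_cancel a hcop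
    have hK : K2 (p * a) b = (p : ℝ)⁻¹ * K2 a b := by
      unfold K2
      rw [hg]
      push_cast
      rw [mul_assoc, div_mul_eq_div_div_swap, div_eq_mul_inv _ (p : ℝ), mul_comm]
    unfold KD
    rw [hK, hg]
    have hd : p * a / Nat.gcd a b = p * (a / Nat.gcd a b) := Nat.mul_div_assoc _ (Nat.gcd_dvd_left _ _)
    rw [hd]
    have hne : a / Nat.gcd a b ≠ 0 :=
      (Nat.div_pos (Nat.gcd_le_left _ (Nat.pos_of_ne_zero ha))
        (Nat.gcd_pos_of_pos_left _ (Nat.pos_of_ne_zero ha))).ne'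
    have h1 := dk_prime_mul hp (κ := κ) hne
    have h2 := dk_nonneg κ (b / Nat.gcd a b)
    have h3 := K2_nonneg a b
    have h4 := dk_nonneg κ (a / Nat.gcd a b)
    have h5 : dk κ (p * (a / Nat.gcd a b)) ≤ 2 * z * dk κ (a / Nat.gcd a b) := by
      refine h1.trans ?_
      gcongr
    calc (p : ℝ)⁻¹ * K2 a b * (dk κ (p * (a / Nat.gcd a b)) * dk κ (b / Nat.gcd a b))
        ≤ (p : ℝ)⁻¹ * K2 a b * (2 * z * dk κ (a / Nat.gcd a b) * dk κ (b / Nat.gcd a b)) := by gcongr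
      _ = _ := by ring

lemma U_recK {I : Finset ℕ} (hI : ∀ p ∈ I, p.Prime) {κ z : ℝ} (hz : ∀ p ∈ I, (p : ℝ) ^ κ ≤ z) (r s : ℕ) :
    BK (KD κ) ((PP I) ^ (r + 1)) ((PP I) ^ s)
      ≤ VV I * (2 * z * BK (KD κ) ((PP I) ^ r) ((PP I) ^ s)
        + s * BK (KD κ) ((PP I) ^ r) ((PP I) ^ (s - 1))) := by
  have h1 : (PP I) ^ (r + 1) = ∑ p ∈ I, MonoidAlgebra.single p (1 : ℝ) * (PP I) ^ r := by
    rw [pow_succ', ← Finset.sum_mul]; rfl
  rw [h1, BK_sum_left]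
  unfold VV
  rw [Finset.sum_mul]
  refine Finset.sum_le_sum fun p hp => ?_
  have hpp := hI p hp
  unfold BK
  rw [pair_mul, pair_single, one_mul]
  have h2 : ∀ a, a ≠ 0 → pair (fun b => KD κ (p * a) b) ((PP I) ^ s)
      ≤ (p : ℝ)⁻¹ * (2 * z * pair (fun b => KD κ a b) ((PP I) ^ s)
        + s * pair (fun b => KD κ a b) ((PP I) ^ (s - 1))) := by
    intro a ha
    have h3 : pair (fun b => KD κ (p * a) b) ((PP I) ^ s)
        ≤ pair (fun b => (p : ℝ)⁻¹ * (2 * z * KD κ a b + if p ∣ b then KD κ a (b / p) else 0)) ((PP I) ^ s) :=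
      pair_mono (cone_PP_pow hI s) fun b _ => KD_prime_mul hpp (hz p hp) ha
    refine h3.trans ?_
    rw [pair_const_mul, MP_f9aece_nt_h97.pair_add_fun, pair_const_mul]
    have h4 := MP_f9aece_nt_h97.pair_dvd_le hI hpp s (ψ := fun b => KD κ a b) fun n => KD_nonneg _ _ _
    have hp0 : (0 : ℝ) ≤ (p : ℝ)⁻¹ := by positivity
    gcongr
  have h5 : pair (fun a => pair (fun b => KD κ (p * a) b) ((PP I) ^ s)) ((PP I) ^ r)
      ≤ pair (fun a => (p : ℝ)⁻¹ * (2 * z * pair (fun b => KD κ a b) ((PP I) ^ s)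
        + s * pair (fun b => KD κ a b) ((PP I) ^ (s - 1)))) ((PP I) ^ r) :=
    pair_mono (cone_PP_pow hI r) fun a ha => h2 a ha.1.1
  refine h5.trans (le_of_eq ?_)
  rw [pair_const_mul, MP_f9aece_nt_h97.pair_add_fun, pair_const_mul, pair_const_mul]

lemma KD_one (κ : ℝ) : KD κ 1 1 = 1 := by
  simp [KD, K2, dk, MP_f9aece_nt_h97.dv]

lemma U_zeroK {I : Finset ℕ} (hI : ∀ p ∈ I, p.Prime) {κ z : ℝ} (hz : ∀ p ∈ I, (p : ℝ) ^ κ ≤ z)
    (hz0 : 0 ≤ z) (s : ℕ) :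
    BK (KD κ) ((PP I) ^ 0) ((PP I) ^ s) ≤ (2 * z * VV I) ^ s := by
  have hsymm : ∀ r, BK (KD κ) ((PP I) ^ 0) ((PP I) ^ r) = BK (KD κ) ((PP I) ^ r) ((PP I) ^ 0) := by
    intro r
    unfold BK
    rw [pow_zero, MonoidAlgebra.one_def, pair_single, one_mul]
    refine pair_congr _ fun b _ => ?_
    rw [pair_single, one_mul, KD_comm]
  rw [hsymm]
  have hV := VV_nonneg I
  induction s with
  | zero =>
    rw [pow_zero, pow_zero, MonoidAlgebra.one_def, BK_single, KD_one]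
    norm_num
  | succ s ih =>
    refine (U_recK hI hz s 0).trans ?_
    simp only [Nat.cast_zero, zero_mul, add_zero]
    calc VV I * (2 * z * BK (KD κ) ((PP I) ^ s) ((PP I) ^ 0)) ≤ VV I * (2 * z * (2 * z * VV I) ^ s) := by gcongr
      _ = _ := by ring

lemma U_leK {I : Finset ℕ} (hI : ∀ p ∈ I, p.Prime) {κ z : ℝ} (hz : ∀ p ∈ I, (p : ℝ) ^ κ ≤ z)
    (hz0 : 0 ≤ z) {l : ℕ} (hV : 2 * z * VV I ≤ l) (r : ℕ) :
    ∀ s ≤ l, BK (KD κ) ((PP I) ^ r) ((PP I) ^ s) ≤ ((2 * z + 1) * VV I) ^ r * (l : ℝ) ^ s := by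
  have hV0 := VV_nonneg I
  have hl0 : (0 : ℝ) ≤ l := by positivity
  induction r with
  | zero =>
    intro s _
    rw [pow_zero ((2 * z + 1) * VV I), one_mul]
    refine (U_zeroK hI hz hz0 s).trans ?_
    gcongr
  | succ r ih =>
    intro s hs
    refine (U_recK hI hz r s).trans ?_
    have h1 := ih s hs
    have h2 := ih (s - 1) (by omega)
    have h3 : (s : ℝ) * BK (KD κ) ((PP I) ^ r) ((PP I) ^ (s - 1)) ≤ ((2 * z + 1) * VV I) ^ r * (l : ℝ) ^ s := by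
      rcases Nat.eq_zero_or_pos s with rfl | hs0
      · simp only [Nat.cast_zero, zero_mul]
        positivity
      · calc (s : ℝ) * BK (KD κ) ((PP I) ^ r) ((PP I) ^ (s - 1))
            ≤ l * (((2 * z + 1) * VV I) ^ r * (l : ℝ) ^ (s - 1)) := by
              have hsl : (s : ℝ) ≤ l := by exact_mod_cast hs
              have : 0 ≤ BK (KD κ) ((PP I) ^ r) ((PP I) ^ (s - 1)) :=
                BK_nonneg (MP_f9aece_nt_h97.cone_univ_PP hI r) (MP_f9aece_nt_h97.cone_univ_PP hI (s - 1))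
                  (KD_nonneg κ)
              gcongr
          _ = ((2 * z + 1) * VV I) ^ r * ((l : ℝ) ^ (s - 1) * l) := by ring
          _ = ((2 * z + 1) * VV I) ^ r * (l : ℝ) ^ s := by
              rw [← pow_succ]
              congr 2
              omega
    calc VV I * (2 * z * BK (KD κ) ((PP I) ^ r) ((PP I) ^ s) + s * BK (KD κ) ((PP I) ^ r) ((PP I) ^ (s - 1)))
        ≤ VV I * (2 * z * (((2 * z + 1) * VV I) ^ r * (l : ℝ) ^ s) + ((2 * z + 1) * VV I) ^ r * (l : ℝ) ^ s) := by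
          gcongr
      _ = ((2 * z + 1) * VV I) ^ (r + 1) * (l : ℝ) ^ s := by ring

/-- high powers of the prime polynomial under the twisted form -/
lemma PP_pow_KD {I : Finset ℕ} (hI : ∀ p ∈ I, p.Prime) {κ z : ℝ} (hz : ∀ p ∈ I, (p : ℝ) ^ κ ≤ z)
    (hz0 : 0 ≤ z) {l : ℕ} (hV : 2 * z * VV I ≤ l) :
    BK (KD κ) ((PP I) ^ l) ((PP I) ^ l) ≤ ((2 * z + 1) * VV I * l) ^ l := by
  rw [mul_pow ((2 * z + 1) * VV I)]
  exact U_leK hI hz hz0 hV l l le_rfl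

end Pool.Agent.Lib.J4.H97
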