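import Pool.Agent.Lib.MP_f9aece_nt_j4.FWConv

/-!
# JointFour, module G: the window lemma `fw : FW`

The groups are added one at a time.  `G n x y` is the convolution of the product of the groups
`i ≤ g < n` with `dv · f (log · + y)`; its difference from the main part `M` is controlled by the
majorant `Ψ`.
-/

set_option autoImplicit false

namespace Pool.Agent.Lib.J4.H6

open Pool.Agent.Lib.MP_f9aece_nt (DP Smo Smo_mono one_mem_Smo Smo_pos mul_mem_Smo)
open Pool.Agent.Lib.MP_f9aece_nt_h97 (Sup sup_prod_Smo)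
open Pool.Agent.Lib.J4.H24 (En_eq24 coeff_DF)

/-- decomposition into the rough and the smooth part -/
lemma exists_parts {S : Finset ℕ} (hS : ∀ p ∈ S, p.Prime) :
    ∃ rp sp : ℕ → ℕ, ∀ n, n ≠ 0 → Rough S (rp n) ∧ sp n ∈ Smo (S : Set ℕ) ∧ rp n * sp n = n := by
  have h : ∀ n : ℕ, ∃ x : ℕ × ℕ, n ≠ 0 → Rough S x.1 ∧ x.2 ∈ Smo (S : Set ℕ) ∧ x.1 * x.2 = n := by
    intro n
    by_cases hn : n = 0
    · exact ⟨(0, 0), fun h => absurd hn h⟩
    · obtain ⟨r, m, h1, h2, h3⟩ := exists_rough_smooth hS hn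
      refine ⟨(r, m), fun _ => ⟨h1, ⟨Nat.ne_zero_of_mem_factoredNumbers h2, ?_⟩, h3⟩⟩
      intro p hp hpm
      exact Finset.mem_coe.mpr (Nat.mem_factoredNumbers'.mp h2 p hp hpm)
  choose x hx using h
  exact ⟨fun n => (x n).1, fun n => (x n).2, hx⟩

lemma exp_log_le {κ Yv : ℝ} (hY : 0 < Yv) {a : ℕ} (ha : a ≠ 0) :
    Real.exp (κ * Real.log a) ≤ (a : ℝ) ^ (κ + 1 / Yv) := by
  have ha1 : (1 : ℝ) ≤ a := by exact_mod_cast Nat.one_le_iff_ne_zero.mpr ha
  have ha0 : (0 : ℝ) < a := by linarith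
  rw [mul_comm, ← Real.rpow_def_of_pos ha0]
  apply Real.rpow_le_rpow_of_exponent_le ha1
  have : 0 < 1 / Yv := by positivity
  linarith

lemma log_exp_log_le {κ Yv : ℝ} (hY : 0 < Yv) {a : ℕ} (ha : a ≠ 0) :
    Real.log a * Real.exp (κ * Real.log a) ≤ Yv * (a : ℝ) ^ (κ + 1 / Yv) := by
  have ha1 : (1 : ℝ) ≤ a := by exact_mod_cast Nat.one_le_iff_ne_zero.mpr ha
  have ha0 : (0 : ℝ) < a := by linarith
  rw [mul_comm κ, ← Real.rpow_def_of_pos ha0, Real.rpow_add ha0]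
  have h1 : Real.log a ≤ Yv * (a : ℝ) ^ (1 / Yv) := by
    have h2 : Real.log ((a : ℝ) ^ (1 / Yv)) ≤ (a : ℝ) ^ (1 / Yv) :=
      Real.log_le_self (Real.rpow_nonneg ha0.le _)
    rw [Real.log_rpow ha0] at h2
    have h3 : Real.log a = Yv * (1 / Yv * Real.log a) := by field_simp
    rw [h3]
    exact mul_le_mul_of_nonneg_left h2 hY.le
  calc Real.log a * (a : ℝ) ^ κ ≤ Yv * (a : ℝ) ^ (1 / Yv) * (a : ℝ) ^ κ :=
        mul_le_mul_of_nonneg_right h1 (Real.rpow_nonneg ha0.le _)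
    _ = _ := by ring

lemma dv_nonneg6 (n : ℕ) : 0 ≤ dv n := by unfold dv; positivity

lemma cva_nonneg {b : DP} {h : ℕ → ℝ} (hh : ∀ n, 0 ≤ h n) (m : ℕ) : 0 ≤ cva b h m :=
  Finset.sum_nonneg fun _ _ => mul_nonneg (abs_nonneg _) (hh _)

/-- adding one group -/
lemma step {S T : Finset ℕ} (hS : ∀ p ∈ S, p.Prime) {b : DP} {G G' : ℕ → ℝ → ℝ} {κ Yv A0 lm : ℝ}
    (hY : 0 < Yv) (hlm : 0 < lm) (hA0 : 0 ≤ A0)
    (hrec : ∀ r m, Rough (S ∪ T) r → m ∈ Smo (S : Set ℕ) → ∀ y, G' (r * m) y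
      = ∑ u ∈ m.divisors, b.coeff u * (dv (m / u) * G r (y + Real.log ((m / u : ℕ) : ℝ))))
    {M Ψ : ℕ → ℝ} (hΨ : ∀ x, 0 ≤ Ψ x)
    (hd : ∀ x, Rough (S ∪ T) x → ∀ y l : ℝ, 0 ≤ y → 0 ≤ l →
      |G x (y + l) - G x y| ≤ A0 / lm * l * Real.exp (κ * (y + l)) * Ψ x)
    {EM EP ε Q A : ℝ} (hε : 0 ≤ ε) (hM : ER (S ∪ T) M EM) (hP : ER (S ∪ T) Ψ EP)
    (hR : ER (S ∪ T) (fun x => G x 0 - M x) (ε ^ 2)) (hQ : EB S (cv b dv) Q)
    (hA : EB S (cva b (fun n => dv n * (n : ℝ) ^ (κ + 1 / Yv))) A) :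
    ∃ M' Ψ' : ℕ → ℝ, (∀ x, 0 ≤ Ψ' x) ∧ (∀ x, Rough T x → ∀ y l : ℝ, 0 ≤ y → 0 ≤ l →
      |G' x (y + l) - G' x y| ≤ A0 / lm * l * Real.exp (κ * (y + l)) * Ψ' x) ∧
      ER T M' (EM * Q) ∧ ER T Ψ' (EP * A) ∧
      ER T (fun x => G' x 0 - M' x)
        ((ε * Real.sqrt Q + A0 * (Yv / lm) * Real.sqrt (EP * A)) ^ 2) := by
  obtain ⟨rp, sp, hrs⟩ := exists_parts hS
  have hro : ∀ x, Rough T x → x ≠ 0 ∧ Rough (S ∪ T) (rp x) ∧ sp x ∈ Smo (S : Set ℕ)
      ∧ rp x * sp x = x := by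
    intro x hx
    have hx0 : x ≠ 0 := Nat.one_le_iff_ne_zero.mp hx.1
    obtain ⟨h1, h2, h3⟩ := hrs x hx0
    refine ⟨hx0, ⟨h1.1, fun p hp => ?_⟩, h2, h3⟩
    rcases Finset.mem_union.mp hp with hp | hp
    · exact h1.2 p hp
    · exact (Rough_of_dvd hx (Dvd.intro _ h3)).2 p hp
  set α : ℕ → ℝ := cva b (fun n => dv n * (n : ℝ) ^ (κ + 1 / Yv)) with hα
  have hα0 : ∀ m, 0 ≤ α m := cva_nonneg fun n =>
    mul_nonneg (dv_nonneg6 n) (Real.rpow_nonneg (Nat.cast_nonneg n) _)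
  -- the estimate behind both claims
  have hkey : ∀ (m : ℕ), m ∈ Smo (S : Set ℕ) → ∀ (w : ℕ → ℝ) (c : ℝ),
      (∀ u ∈ m.divisors, |w (m / u)| ≤ c * ((m / u : ℕ) : ℝ) ^ (κ + 1 / Yv)) →
      |∑ u ∈ m.divisors, b.coeff u * (dv (m / u) * w (m / u))| ≤ c * α m := by
    intro m hm w c hw
    refine (Finset.abs_sum_le_sum_abs _ _).trans ?_
    rw [hα]
    unfold cva
    rw [Finset.mul_sum]
    refine Finset.sum_le_sum fun u hu => ?_
    rw [abs_mul, abs_mul, abs_of_nonneg (dv_nonneg6 _)]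
    calc |b.coeff u| * (dv (m / u) * |w (m / u)|)
        ≤ |b.coeff u| * (dv (m / u) * (c * ((m / u : ℕ) : ℝ) ^ (κ + 1 / Yv))) := by
          refine mul_le_mul_of_nonneg_left ?_ (abs_nonneg _)
          exact mul_le_mul_of_nonneg_left (hw u hu) (dv_nonneg6 _)
      _ = _ := by ring
  have hne : ∀ m ∈ Smo (S : Set ℕ), ∀ u ∈ m.divisors, m / u ≠ 0 := by
    intro m hm u hu
    exact ne_zero_of_dvd_ne_zero hm.1 (Nat.div_dvd_of_dvd (Nat.dvd_of_mem_divisors hu))
  have hlog : ∀ a : ℕ, 0 ≤ Real.log (a : ℝ) := fun a => Real.log_natCast_nonneg a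
  refine ⟨fun x => cv b dv (sp x) * M (rp x), fun x => α (sp x) * Ψ (rp x),
    fun x => mul_nonneg (hα0 _) (hΨ _), ?_, ?_, ?_, ?_⟩
  · -- differences
    intro x hx y l hy hl
    obtain ⟨hx0, h1, h2, h3⟩ := hro x hx
    have e1 : G' x (y + l) - G' x y = ∑ u ∈ (sp x).divisors, b.coeff u * (dv (sp x / u)
        * (fun a : ℕ => G (rp x) (y + l + Real.log (a : ℝ)) - G (rp x) (y + Real.log (a : ℝ)))
          (sp x / u)) := by
      conv_lhs => rw [← h3]
      rw [hrec _ _ h1 h2, hrec _ _ h1 h2, ← Finset.sum_sub_distrib]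
      refine Finset.sum_congr rfl fun u _ => ?_
      ring
    rw [e1]
    show _ ≤ A0 / lm * l * Real.exp (κ * (y + l)) * (α (sp x) * Ψ (rp x))
    have e2 : A0 / lm * l * Real.exp (κ * (y + l)) * (α (sp x) * Ψ (rp x))
        = A0 / lm * l * Real.exp (κ * (y + l)) * Ψ (rp x) * α (sp x) := by ring
    rw [e2]
    refine hkey (sp x) h2
      (fun a : ℕ => G (rp x) (y + l + Real.log (a : ℝ)) - G (rp x) (y + Real.log (a : ℝ)))
      (A0 / lm * l * Real.exp (κ * (y + l)) * Ψ (rp x)) ?_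
    intro u hu
    show |G (rp x) (y + l + Real.log ((sp x / u : ℕ) : ℝ))
      - G (rp x) (y + Real.log ((sp x / u : ℕ) : ℝ))| ≤ _
    have ha := hne _ h2 u hu
    set a := sp x / u
    have h4 := hd (rp x) h1 (y + Real.log a) l (add_nonneg hy (hlog a)) hl
    have h5 : y + Real.log (a : ℝ) + l = y + l + Real.log (a : ℝ) := by ring
    rw [h5] at h4
    refine h4.trans ?_
    rw [mul_add κ, Real.exp_add]
    have h6 := exp_log_le (κ := κ) hY ha
    have h7 : 0 ≤ A0 / lm * l * Real.exp (κ * (y + l)) * Ψ (rp x) := by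
      have := hΨ (rp x)
      positivity
    calc A0 / lm * l * (Real.exp (κ * (y + l)) * Real.exp (κ * Real.log a)) * Ψ (rp x)
        = A0 / lm * l * Real.exp (κ * (y + l)) * Ψ (rp x) * Real.exp (κ * Real.log a) := by ring
      _ ≤ _ := mul_le_mul_of_nonneg_left h6 h7
  · intro s hs
    exact tensor (fun n hn => (hro n (hs n hn)).2.2.2) (fun n hn => (hro n (hs n hn)).2.1)
      (fun n hn => (hro n (hs n hn)).2.2.1) hM hQ
  · intro s hs
    exact tensor (fun n hn => (hro n (hs n hn)).2.2.2) (fun n hn => (hro n (hs n hn)).2.1)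
      (fun n hn => (hro n (hs n hn)).2.2.1) hP hA
  · intro s hs
    have hQ0 := EB.nonneg' hQ
    have hPA0 : 0 ≤ EP * A := mul_nonneg hP.nonneg (EB.nonneg' hA)
    refine mink (a := fun x => cv b dv (sp x) * (G (rp x) 0 - M (rp x)))
      (c := fun x => A0 * (Yv / lm) * (α (sp x) * Ψ (rp x))) (by positivity) (by positivity)
      ?_ ?_ ?_
    · intro x hx
      obtain ⟨hx0, h1, h2, h3⟩ := hro x (hs x hx)
      have e1 : G' x 0 - cv b dv (sp x) * M (rp x) = cv b dv (sp x) * (G (rp x) 0 - M (rp x))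
          + ∑ u ∈ (sp x).divisors, b.coeff u * (dv (sp x / u)
            * (fun a : ℕ => G (rp x) (0 + Real.log (a : ℝ)) - G (rp x) 0) (sp x / u)) := by
        conv_lhs => rw [← h3]
        rw [hrec _ _ h1 h2]
        have h4 : cv b dv (sp x) = ∑ u ∈ (sp x).divisors, b.coeff u * dv (sp x / u) := rfl
        have h5 : rp (rp x * sp x) = rp x := by rw [h3]
        have h6 : sp (rp x * sp x) = sp x := by rw [h3]
        rw [h5, h6]
        have h7 : ∑ u ∈ (sp x).divisors, b.coeff u * (dv (sp x / u)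
            * (fun a : ℕ => G (rp x) (0 + Real.log (a : ℝ)) - G (rp x) 0) (sp x / u))
            = ∑ u ∈ (sp x).divisors, b.coeff u * (dv (sp x / u)
              * G (rp x) (0 + Real.log ((sp x / u : ℕ) : ℝ))) - cv b dv (sp x) * G (rp x) 0 := by
          rw [h4, Finset.sum_mul, ← Finset.sum_sub_distrib]
          refine Finset.sum_congr rfl fun u _ => ?_
          ring
        rw [h7]
        ring
      show |G' x 0 - cv b dv (sp x) * M (rp x)| ≤ _
      rw [e1]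
      refine (abs_add_le _ _).trans (add_le_add le_rfl ?_)
      refine (hkey (sp x) h2 (fun a : ℕ => G (rp x) (0 + Real.log (a : ℝ)) - G (rp x) 0)
        (A0 * (Yv / lm) * Ψ (rp x)) ?_).trans ?_
      · intro u hu
        show |G (rp x) (0 + Real.log ((sp x / u : ℕ) : ℝ)) - G (rp x) 0| ≤ _
        have ha := hne _ h2 u hu
        set a := sp x / u
        have h4 := hd (rp x) h1 0 (Real.log a) le_rfl (hlog a)
        refine h4.trans ?_
        rw [zero_add]
        have h6 := log_exp_log_le (κ := κ) hY ha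
        have h7 : 0 ≤ A0 / lm * Ψ (rp x) := by
          have := hΨ (rp x)
          positivity
        calc A0 / lm * Real.log a * Real.exp (κ * Real.log a) * Ψ (rp x)
            = A0 / lm * Ψ (rp x) * (Real.log a * Real.exp (κ * Real.log a)) := by ring
          _ ≤ A0 / lm * Ψ (rp x) * (Yv * (a : ℝ) ^ (κ + 1 / Yv)) :=
              mul_le_mul_of_nonneg_left h6 h7
          _ = _ := by ring
      · refine le_trans (le_of_eq ?_) (le_abs_self _)
        ring
    · have h4 := tensor (fun n hn => (hro n (hs n hn)).2.2.2) (fun n hn => (hro n (hs n hn)).2.1)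
        (fun n hn => (hro n (hs n hn)).2.2.1) hR hQ
      rw [mul_pow, Real.sq_sqrt hQ0]
      exact h4
    · have h4 := tensor (fun n hn => (hro n (hs n hn)).2.2.2) (fun n hn => (hro n (hs n hn)).2.1)
        (fun n hn => (hro n (hs n hn)).2.2.1) hP hA
      have h5 : ∑ n ∈ s, (A0 * (Yv / lm) * (α (sp n) * Ψ (rp n))) ^ 2 / (n : ℝ)
          = (A0 * (Yv / lm)) ^ 2 * ∑ n ∈ s, (α (sp n) * Ψ (rp n)) ^ 2 / (n : ℝ) := by
        rw [Finset.mul_sum]
        refine Finset.sum_congr rfl fun n _ => ?_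
        ring
      rw [h5, mul_pow (A0 * (Yv / lm)), Real.sq_sqrt hPA0]
      exact mul_le_mul_of_nonneg_left h4 (sq_nonneg _)

lemma Ico_biUnion (S : ℕ → Finset ℕ) {n J : ℕ} (h : n < J) :
    (Finset.Ico n J).biUnion S = S n ∪ (Finset.Ico (n + 1) J).biUnion S := by
  ext p
  simp only [Finset.mem_biUnion, Finset.mem_union, Finset.mem_Ico]
  constructor
  · rintro ⟨g, ⟨h1, h2⟩, h3⟩
    rcases h1.eq_or_lt with h1 | h1
    · left; rw [h1]; exact h3
    · right; exact ⟨g, ⟨h1, h2⟩, h3⟩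
  · rintro (h1 | ⟨g, ⟨h1, h2⟩, h3⟩)
    · exact ⟨n, ⟨le_rfl, h⟩, h1⟩
    · exact ⟨g, ⟨by omega, h2⟩, h3⟩

lemma inv {i J : ℕ} {S : ℕ → Finset ℕ} (hSp : ∀ g, ∀ p ∈ S g, p.Prime)
    (hSd : ∀ g h, g ≠ h → Disjoint (S g) (S h)) {b : ℕ → DP}
    (hb : ∀ g, ∀ n, (b g).coeff n ≠ 0 → n ∈ Smo (S g : Set ℕ)) {Yv : ℕ → ℝ}
    (hY : ∀ g, 0 < Yv g) {f : ℝ → ℝ} {A0 lm X1 X2 κ : ℝ} (hκ : 0 < κ) (hlm : 0 < lm)
    (hA0 : 0 ≤ A0) (hlip : ∀ x y, |f x - f y| ≤ A0 / lm * |x - y|)
    (hf2 : ∀ x, X2 ≤ x → f x = 0) (hf1 : ∀ x, x ≤ X1 → f x = 0) {Q A : ℕ → ℝ}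
    (hQ : ∀ g ∈ Finset.Ico i J, EB (S g) (cv (b g) dv) (Q g))
    (hA : ∀ g ∈ Finset.Ico i J,
      EB (S g) (cva (b g) (fun n => dv n * (n : ℝ) ^ (κ + 1 / Yv g))) (A g)) {R1 Rw : ℝ}
    (hR1 : ∀ s : Finset ℕ, (∀ r ∈ s, Rough ((Finset.Ico i J).biUnion S) r) →
      ∑ r ∈ s, dv r ^ 2 * f (Real.log r) ^ 2 / (r : ℝ) ≤ R1)
    (hRw : ∀ s : Finset ℕ, (∀ r ∈ s, Rough ((Finset.Ico i J).biUnion S) r ∧ Real.log r ≤ X2) →
      ∑ r ∈ s, dv r ^ 2 / (r : ℝ) * Real.exp (-(2 * κ * max (X1 - Real.log r) 0)) ≤ Rw) :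
    ∀ n, i ≤ n → n ≤ J → ∃ M Ψ : ℕ → ℝ, (∀ x, 0 ≤ Ψ x) ∧
      (∀ x, Rough ((Finset.Ico n J).biUnion S) x → ∀ y l : ℝ, 0 ≤ y → 0 ≤ l →
        |cv (∏ g ∈ Finset.Ico i n, b g) (Ff f (y + l)) x
          - cv (∏ g ∈ Finset.Ico i n, b g) (Ff f y) x|
          ≤ A0 / lm * l * Real.exp (κ * (y + l)) * Ψ x) ∧
      ER ((Finset.Ico n J).biUnion S) M (R1 * ∏ g ∈ Finset.Ico i n, Q g) ∧
      ER ((Finset.Ico n J).biUnion S) Ψ (Rw * ∏ g ∈ Finset.Ico i n, A g) ∧
      ER ((Finset.Ico n J).biUnion S)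
        (fun x => cv (∏ g ∈ Finset.Ico i n, b g) (Ff f 0) x - M x)
        ((∑ h ∈ Finset.Ico i n, A0 * (Yv h / lm) * Real.sqrt (Rw
          * ((∏ g ∈ Finset.Ico i (h + 1), A g) * ∏ g ∈ Finset.Ico (h + 1) n, Q g))) ^ 2) := by
  intro n hn
  induction n, hn using Nat.le_induction with
  | base =>
    intro _
    have hcv : ∀ y x, Rough ((Finset.Ico i J).biUnion S) x →
        cv (∏ g ∈ Finset.Ico i i, b g) (Ff f y) x = Ff f y x := by
      intro y x hx
      rw [Finset.Ico_self, Finset.prod_empty]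
      exact cv_one _ (Nat.one_le_iff_ne_zero.mp hx.1)
    refine ⟨Ff f 0, fun x => if Real.log x ≤ X2 then
      dv x * Real.exp (-(κ * max (X1 - Real.log x) 0)) else 0, ?_, ?_, ?_, ?_, ?_⟩
    · intro x
      have := dv_nonneg6 x
      show 0 ≤ if Real.log x ≤ X2 then dv x * Real.exp (-(κ * max (X1 - Real.log x) 0)) else 0
      split_ifs
      · positivity
      · exact le_rfl
    · intro x hx y l hy hl
      rw [hcv _ _ hx, hcv _ _ hx]
      unfold Ff
      have hdv := dv_nonneg6 x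
      rw [← mul_sub, abs_mul, abs_of_nonneg hdv]
      beta_reduce
      split_ifs with h1
      · by_cases h2 : Real.log x + (y + l) ≤ X1
        · rw [hf1 _ h2, hf1 (Real.log x + y) (by linarith), sub_zero, abs_zero, mul_zero]
          positivity
        · push Not at h2
          have h3 := hlip (Real.log x + (y + l)) (Real.log x + y)
          have h4 : Real.log (x : ℝ) + (y + l) - (Real.log (x : ℝ) + y) = l := by ring
          rw [h4, abs_of_nonneg hl] at h3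
          have h5 : (1 : ℝ) ≤ Real.exp (κ * (y + l)) * Real.exp (-(κ * max (X1 - Real.log x) 0)) := by
            rw [← Real.exp_add]
            apply Real.one_le_exp
            have h6 : max (X1 - Real.log (x : ℝ)) 0 ≤ y + l := max_le (by linarith) (by linarith)
            have h7 := mul_le_mul_of_nonneg_left h6 hκ.le
            linarith
          calc dv x * |f (Real.log x + (y + l)) - f (Real.log x + y)|
              ≤ dv x * (A0 / lm * l) := mul_le_mul_of_nonneg_left h3 hdv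
            _ = A0 / lm * l * dv x * 1 := by ring
            _ ≤ A0 / lm * l * dv x
                * (Real.exp (κ * (y + l)) * Real.exp (-(κ * max (X1 - Real.log x) 0))) :=
                mul_le_mul_of_nonneg_left h5 (by positivity)
            _ = _ := by ring
      · push Not at h1
        rw [hf2 (Real.log x + (y + l)) (by linarith), hf2 (Real.log x + y) (by linarith), sub_zero,
          abs_zero, mul_zero, mul_zero]
    · intro s hs
      rw [Finset.Ico_self, Finset.prod_empty, mul_one]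
      refine le_trans (le_of_eq ?_) (hR1 s hs)
      refine Finset.sum_congr rfl fun x _ => ?_
      unfold Ff
      rw [add_zero, mul_pow]
    · intro s hs
      rw [Finset.Ico_self, Finset.prod_empty, mul_one]
      refine le_trans (le_of_eq ?_) (hRw (s.filter fun x => Real.log x ≤ X2) ?_)
      · rw [Finset.sum_filter]
        refine Finset.sum_congr rfl fun x _ => ?_
        beta_reduce
        split_ifs with h1
        · rw [mul_pow, ← Real.exp_nat_mul]
          have h2 : ((2 : ℕ) : ℝ) * (-(κ * max (X1 - Real.log x) 0))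
              = -(2 * κ * max (X1 - Real.log x) 0) := by push_cast; ring
          rw [h2]
          ring
        · simp
      · intro x hx
        rw [Finset.mem_filter] at hx
        exact ⟨hs x hx.1, hx.2⟩
    · intro s hs
      rw [Finset.Ico_self, Finset.sum_empty]
      refine le_of_eq ?_
      rw [zero_pow two_ne_zero]
      refine Finset.sum_eq_zero fun x hx => ?_
      have h1 := hcv 0 x (hs x hx)
      rw [Finset.Ico_self] at h1
      show (cv (∏ g ∈ (∅ : Finset ℕ), b g) (Ff f 0) x - Ff f 0 x) ^ 2 / (x : ℝ) = 0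
      rw [h1, sub_self]
      simp
  | succ n hn ih =>
    intro hnJ
    obtain ⟨M, Ψ, hΨ, hd, hM, hP, hR⟩ := ih (by omega)
    have hU := Ico_biUnion S (show n < J by omega)
    rw [hU] at hd hM hP hR
    have hnm : n ∈ Finset.Ico i J := Finset.mem_Ico.mpr ⟨hn, by omega⟩
    have hRw0 : 0 ≤ Rw := by simpa using hRw ∅ (by simp)
    have hQ0 := EB.nonneg' (hQ n hnm)
    obtain ⟨M', Ψ', h1, h2, h3, h4, h5⟩ := step (hSp n) (b := b n)
      (T := (Finset.Ico (n + 1) J).biUnion S)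
      (G := fun x y => cv (∏ g ∈ Finset.Ico i n, b g) (Ff f y) x)
      (G' := fun x y => cv (∏ g ∈ Finset.Ico i (n + 1), b g) (Ff f y) x) (hY n) hlm hA0 (by
        intro r m hr hm y
        show cv (∏ g ∈ Finset.Ico i (n + 1), b g) (Ff f y) (r * m) = _
        rw [Finset.prod_Ico_succ_top hn]
        refine rec_step (hb n) (sup_prod_Smo _ S _ fun g _ => hb g) ?_ f y
          (Rough_mono hr Finset.subset_union_left) hm
        rw [Set.disjoint_left]
        intro p hp hp'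
        simp only [Set.mem_iUnion] at hp
        obtain ⟨g, hg, hp⟩ := hp
        have hgn : g ≠ n := by
          rw [Finset.mem_Ico] at hg
          omega
        exact Finset.disjoint_left.mp (hSd g n hgn) hp hp')
      hΨ hd (Finset.sum_nonneg fun h _ => by have := (hY h).le; positivity) hM hP hR
      (hQ n hnm) (hA n hnm)
    refine ⟨M', Ψ', h1, h2, ?_, ?_, ?_⟩
    · rw [Finset.prod_Ico_succ_top hn, ← mul_assoc]
      exact h3
    · rw [Finset.prod_Ico_succ_top hn, ← mul_assoc]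
      exact h4
    · have h6 : ∑ h ∈ Finset.Ico i (n + 1), A0 * (Yv h / lm) * Real.sqrt (Rw
          * ((∏ g ∈ Finset.Ico i (h + 1), A g) * ∏ g ∈ Finset.Ico (h + 1) (n + 1), Q g))
          = (∑ h ∈ Finset.Ico i n, A0 * (Yv h / lm) * Real.sqrt (Rw
          * ((∏ g ∈ Finset.Ico i (h + 1), A g) * ∏ g ∈ Finset.Ico (h + 1) n, Q g)))
            * Real.sqrt (Q n)
            + A0 * (Yv n / lm) * Real.sqrt ((Rw * ∏ g ∈ Finset.Ico i n, A g) * A n) := by
        rw [Finset.sum_Ico_succ_top hn, Finset.sum_mul]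
        congr 1
        · refine Finset.sum_congr rfl fun h hh => ?_
          rw [Finset.mem_Ico] at hh
          rw [Finset.prod_Ico_succ_top (show h + 1 ≤ n by omega), ← mul_assoc, ← mul_assoc,
            Real.sqrt_mul' _ hQ0]
          ring_nf
        · rw [Finset.Ico_self, Finset.prod_empty, mul_one, Finset.prod_Ico_succ_top hn, mul_assoc Rw]
      rw [h6]
      exact h5

lemma sq_add_le_eta {η : ℝ} (hη : 0 < η) (a c : ℝ) :
    (a + c) ^ 2 ≤ (1 + η) * a ^ 2 + (1 + 1 / η) * c ^ 2 := by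
  have h1 : 0 ≤ (η * a - c) ^ 2 / η := by positivity
  have h2 : (η * a - c) ^ 2 / η = η * a ^ 2 - 2 * a * c + 1 / η * c ^ 2 := by
    field_simp
    ring
  nlinarith

lemma cs_weights (t : Finset ℕ) {w X : ℕ → ℝ} (hw : ∀ h, 0 ≤ w h) (hX : ∀ h ∈ t, 0 ≤ X h)
    (A0 : ℝ) : (∑ h ∈ t, A0 * w h * Real.sqrt (X h)) ^ 2
      ≤ A0 ^ 2 * (∑ h ∈ t, w h) * ∑ h ∈ t, w h * X h := by
  have h1 : ∑ h ∈ t, A0 * w h * Real.sqrt (X h)
      = A0 * ∑ h ∈ t, Real.sqrt (w h) * (Real.sqrt (w h) * Real.sqrt (X h)) := by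
    rw [Finset.mul_sum]
    refine Finset.sum_congr rfl fun h _ => ?_
    rw [← mul_assoc (Real.sqrt (w h)), Real.mul_self_sqrt (hw h)]
    ring
  have h2 := Finset.sum_mul_sq_le_sq_mul_sq t (fun h => Real.sqrt (w h))
    (fun h => Real.sqrt (w h) * Real.sqrt (X h))
  have h3 : ∑ h ∈ t, Real.sqrt (w h) ^ 2 = ∑ h ∈ t, w h :=
    Finset.sum_congr rfl fun h _ => Real.sq_sqrt (hw h)
  have h4 : ∑ h ∈ t, (Real.sqrt (w h) * Real.sqrt (X h)) ^ 2 = ∑ h ∈ t, w h * X h := by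
    refine Finset.sum_congr rfl fun h hh => ?_
    rw [mul_pow, Real.sq_sqrt (hw h), Real.sq_sqrt (hX h hh)]
  rw [h3, h4] at h2
  rw [h1, mul_pow, mul_assoc (A0 ^ 2)]
  exact mul_le_mul_of_nonneg_left h2 (sq_nonneg _)

theorem _root_.Pool.Agent.Lib.J4.fw : FW := by
  intro i J S hSp hSd b hb Yv hY _ f A0 lm X1 X2 κ η hκ hlm hA0 hη _ hlip hf2 hf1 Q A hQ0 hA00 hQ
    hA N hN R1 Rw hR1 hRw
  -- coefficients
  have hco : ∀ n : ℕ, n ≠ 0 → (DF f N * ∏ g ∈ Finset.Ico i J, b g).coeff n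
      = cv (∏ g ∈ Finset.Ico i J, b g) (Ff f 0) n := by
    intro n hn
    rw [mul_comm, coeff_mul_div _ _ hn]
    unfold cv
    refine Finset.sum_congr rfl fun u hu => ?_
    have hu0 : n / u ≠ 0 := ne_zero_of_dvd_ne_zero hn (Nat.div_dvd_of_dvd (Nat.dvd_of_mem_divisors hu))
    congr 1
    rw [coeff_DF]
    unfold Ff
    rw [add_zero]
    split_ifs with h
    · rfl
    · have h1 : N + 1 ≤ n / u := by
        by_contra h2
        exact h ⟨Nat.one_le_iff_ne_zero.mpr hu0, by omega⟩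
      have h2 : ((N : ℝ) + 1) ≤ ((n / u : ℕ) : ℝ) := by exact_mod_cast h1
      rw [hf2 _ (hN.trans (Real.log_le_log (by positivity) h2)), mul_zero]
  -- the energy of the product
  have hmain : ∀ M : ℕ → ℝ, ∀ E1 E2 : ℝ, ER ∅ M E1 →
      ER ∅ (fun x => cv (∏ g ∈ Finset.Ico i J, b g) (Ff f 0) x - M x) E2 →
      En (DF f N * ∏ g ∈ Finset.Ico i J, b g) ≤ (1 + η) * E1 + (1 + 1 / η) * E2 := by
    intro M E1 E2 h1 h2
    rw [En_eq24, ← Finset.sum_erase (a := 0) _ (by simp)]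
    set s := (DF f N * ∏ g ∈ Finset.Ico i J, b g).coeff.support.erase 0
    have hs : ∀ n ∈ s, Rough ∅ n := by
      intro n hn
      refine ⟨Nat.one_le_iff_ne_zero.mpr (Finset.ne_of_mem_erase hn), ?_⟩
      intro p hp
      simp at hp
    have h3 := h1 s hs
    have h4 := h2 s hs
    have h5 : ∑ n ∈ s, (DF f N * ∏ g ∈ Finset.Ico i J, b g).coeff n ^ 2 / (n : ℝ)
        ≤ ∑ n ∈ s, ((1 + η) * (M n ^ 2 / (n : ℝ)) + (1 + 1 / η)
          * ((cv (∏ g ∈ Finset.Ico i J, b g) (Ff f 0) n - M n) ^ 2 / (n : ℝ))) := by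
      refine Finset.sum_le_sum fun n hn => ?_
      rw [hco n (Finset.ne_of_mem_erase hn)]
      have h6 := sq_add_le_eta hη (M n) (cv (∏ g ∈ Finset.Ico i J, b g) (Ff f 0) n - M n)
      rw [add_sub_cancel] at h6
      have h7 := div_le_div_of_nonneg_right h6 (Nat.cast_nonneg n)
      refine h7.trans (le_of_eq ?_)
      ring
    refine h5.trans ?_
    rw [Finset.sum_add_distrib, ← Finset.mul_sum, ← Finset.mul_sum]
    have h6 : 0 < 1 / η := by positivity
    exact add_le_add (mul_le_mul_of_nonneg_left h3 (by linarith))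
      (mul_le_mul_of_nonneg_left h4 (by linarith))
  have hRw0 : 0 ≤ Rw := by simpa using hRw ∅ (by simp)
  have hw0 : ∀ h, 0 ≤ Yv h / lm := fun h => by have := (hY h).le; positivity
  rcases le_or_gt i J with hiJ | hiJ
  · obtain ⟨M, Ψ, _, _, hM, _, hR⟩ := inv hSp hSd hb hY hκ hlm hA0 hlip hf2 hf1 hQ hA hR1 hRw J hiJ
      le_rfl
    rw [Finset.Ico_self, Finset.biUnion_empty] at hM hR
    refine (hmain M _ _ hM hR).trans ?_
    have h6 : 0 < 1 / η := by positivity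
    refine add_le_add le_rfl (mul_le_mul_of_nonneg_left ?_ (by linarith))
    refine (cs_weights _ (w := fun h => Yv h / lm) hw0 ?_ A0).trans (le_of_eq ?_)
    · intro h _
      exact mul_nonneg hRw0 (mul_nonneg (Finset.prod_nonneg fun g _ => hA00 g)
        (Finset.prod_nonneg fun g _ => hQ0 g))
    · have h7 : ∑ h ∈ Finset.Ico i J, Yv h / lm * (Rw * ((∏ g ∈ Finset.Ico i (h + 1), A g)
          * ∏ g ∈ Finset.Ico (h + 1) J, Q g))
          = Rw * ∑ h ∈ Finset.Ico i J, Yv h / lm * ((∏ g ∈ Finset.Ico i (h + 1), A g)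
          * ∏ g ∈ Finset.Ico (h + 1) J, Q g) := by
        rw [Finset.mul_sum]
        exact Finset.sum_congr rfl fun h _ => by ring
      rw [h7]
      ring
  · have hem : Finset.Ico i J = ∅ := Finset.Ico_eq_empty_of_le hiJ.le
    rw [hem, Finset.biUnion_empty] at hR1
    refine (hmain (Ff f 0) R1 0 ?_ ?_).trans (le_of_eq ?_)
    · intro s hs
      refine le_trans (le_of_eq ?_) (hR1 s hs)
      refine Finset.sum_congr rfl fun x _ => ?_
      unfold Ff
      rw [add_zero, mul_pow]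
    · intro s hs
      refine le_of_eq (Finset.sum_eq_zero fun x hx => ?_)
      show (cv (∏ g ∈ Finset.Ico i J, b g) (Ff f 0) x - Ff f 0 x) ^ 2 / (x : ℝ) = 0
      rw [hem, Finset.prod_empty, cv_one _ (Nat.one_le_iff_ne_zero.mp (hs x hx).1), sub_self]
      simp
    · rw [hem]
      simp

end Pool.Agent.Lib.J4.H6
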