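import Pool.Agent.Lib.MP_f9aece_nt_j4.RoughA

/-!
# JointFour, module E: the four statements on rough sums
-/

set_option autoImplicit false

namespace Pool.Agent.Lib.J4.H6

open Finset

lemma rough_coprime {S : Finset ℕ} {r m : ℕ} (hr : Rough S r) (hm : m ∈ Nat.factoredNumbers S) :
    r.Coprime m := by
  rw [Nat.coprime_iff_gcd_eq_one]
  by_contra h
  obtain ⟨p, hp, hpd⟩ := Nat.exists_prime_and_dvd h
  have h1 : p ∣ r := hpd.trans (Nat.gcd_dvd_left r m)
  have h2 : p ∣ m := hpd.trans (Nat.gcd_dvd_right r m)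
  have h3 : p ∈ S := (Nat.mem_factoredNumbers.mp hm).2 p
    ((Nat.mem_primeFactorsList (Nat.ne_zero_of_mem_factoredNumbers hm)).mpr ⟨hp, h2⟩)
  exact hr.2 p h3 h1

lemma rough_smooth_inj {S : Finset ℕ} {r r' m m' : ℕ} (hr : Rough S r) (hr' : Rough S r')
    (hm : m ∈ Nat.factoredNumbers S) (hm' : m' ∈ Nat.factoredNumbers S) (h : r * m = r' * m') :
    r = r' ∧ m = m' := by
  have h1 : m ∣ m' := by
    have h2 : m ∣ r' * m' := h ▸ Dvd.intro_left r rfl
    exact (rough_coprime hr' hm).symm.dvd_of_dvd_mul_left h2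
  have h3 : m' ∣ m := by
    have h2 : m' ∣ r * m := h ▸ Dvd.intro_left r' rfl
    exact (rough_coprime hr hm').symm.dvd_of_dvd_mul_left h2
  have h4 : m = m' := Nat.dvd_antisymm h1 h3
  subst h4
  exact ⟨Nat.eq_of_mul_eq_mul_right
    (Nat.pos_of_ne_zero (Nat.ne_zero_of_mem_factoredNumbers hm)) h, rfl⟩

/-- products of rough and smooth numbers -/
lemma rough_mul_smooth_le {S s B W : Finset ℕ} (hs : ∀ r ∈ s, Rough S r)
    (hB : ∀ m ∈ B, m ∈ Nat.factoredNumbers S) (hW : ∀ r ∈ s, ∀ m ∈ B, r * m ∈ W) :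
    (∑ r ∈ s, fk 0 r) * ∑ m ∈ B, fk 0 m ≤ ∑ n ∈ W, fk 0 n := by
  rw [sum_mul_sum, ← sum_product']
  have h1 : ∑ x ∈ s ×ˢ B, fk 0 x.1 * fk 0 x.2 = ∑ x ∈ s ×ˢ B, fk 0 (x.1 * x.2) := by
    refine sum_congr rfl fun x hx => ?_
    rw [mem_product] at hx
    rw [fk_mul 0 (rough_coprime (hs _ hx.1) (hB _ hx.2))]
  rw [h1]
  have h2 : ∑ x ∈ s ×ˢ B, fk 0 (x.1 * x.2) = ∑ n ∈ (s ×ˢ B).image (fun x => x.1 * x.2), fk 0 n := by
    rw [sum_image]
    intro x hx y hy hxy
    have hx' := mem_product.mp hx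
    have hy' := mem_product.mp hy
    obtain ⟨h3, h4⟩ := rough_smooth_inj (hs _ hx'.1) (hs _ hy'.1) (hB _ hx'.2) (hB _ hy'.2) hxy
    exact Prod.ext h3 h4
  rw [h2]
  apply sum_le_sum_of_subset_of_nonneg
  · intro n hn
    obtain ⟨x, hx, rfl⟩ := mem_image.mp hn
    rw [mem_product] at hx
    exact hW _ hx.1 _ hx.2
  · intro n _ _
    exact fk_nonneg 0 n

lemma sum_fk_eq (s : Finset ℕ) : ∑ r ∈ s, dv r ^ 2 / (r : ℝ) = ∑ r ∈ s, fk 0 r :=
  sum_congr rfl fun r _ => (fk_zero_eq r).symm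

lemma C1_nonneg : 0 ≤ C1 := (Real.exp_pos _).le

theorem _root_.Pool.Agent.Lib.J4.rough1 : Rough1 := by
  refine ⟨C1, C1_nonneg, ?_⟩
  intro S Y x q hS hY hx hq s hs
  rw [sum_fk_eq, sum_fk_eq]
  have h1 := smooth_ge hY hq hS
  have h2 : 0 ≤ ∑ r ∈ s, fk 0 r := sum_nonneg fun r _ => fk_nonneg 0 r
  refine (mul_le_mul_of_nonneg_left h1 h2).trans ?_
  apply rough_mul_smooth_le (S := S) (fun r hr => (hs r hr).1) (fun m hm => (mem_Bq.mp hm).1)
  intro r hr m hm
  obtain ⟨h3, h4⟩ := hs r hr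
  obtain ⟨h5, h6⟩ := mem_Bq.mp hm
  have hr0 : 0 < r := h3.1
  have hm0 : 0 < m := Nat.pos_of_ne_zero (Nat.ne_zero_of_mem_factoredNumbers h5)
  rw [mem_Icc]
  refine ⟨Nat.mul_pos hr0 hm0, ?_⟩
  apply Nat.le_floor
  have hr0' : (0 : ℝ) < r := by exact_mod_cast hr0
  have hm0' : (0 : ℝ) < m := by exact_mod_cast hm0
  push_cast
  rw [← Real.log_le_iff_le_exp (mul_pos hr0' hm0'), Real.log_mul hr0'.ne' hm0'.ne']
  linarith

/-- the rough part of a number -/
lemma exists_rough_smooth {S : Finset ℕ} (hS : ∀ p ∈ S, p.Prime) {n : ℕ} (hn : n ≠ 0) :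
    ∃ r m : ℕ, Rough S r ∧ m ∈ Nat.factoredNumbers S ∧ r * m = n := by
  induction n using Nat.strong_induction_on with
  | _ n ih =>
    by_cases h : ∃ p ∈ S, p ∣ n
    · obtain ⟨p, hpS, k, rfl⟩ := h
      have hp := hS p hpS
      have hk : k ≠ 0 := by
        rintro rfl
        exact hn (mul_zero p)
      have hlt : k < p * k := by
        have := hp.two_le
        have := Nat.pos_of_ne_zero hk
        nlinarith
      obtain ⟨r, m, h1, h2, h3⟩ := ih k hlt hk
      refine ⟨r, p * m, h1, ?_, ?_⟩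
      · rw [Nat.mem_factoredNumbers]
        refine ⟨mul_ne_zero hp.ne_zero (Nat.ne_zero_of_mem_factoredNumbers h2), ?_⟩
        intro l hl
        rw [Nat.mem_primeFactorsList (mul_ne_zero hp.ne_zero
          (Nat.ne_zero_of_mem_factoredNumbers h2))] at hl
        rcases (Nat.Prime.dvd_mul hl.1).mp hl.2 with h4 | h4
        · rw [(Nat.prime_dvd_prime_iff_eq hl.1 hp).mp h4]
          exact hpS
        · exact (Nat.mem_factoredNumbers.mp h2).2 l
            ((Nat.mem_primeFactorsList (Nat.ne_zero_of_mem_factoredNumbers h2)).mpr ⟨hl.1, h4⟩)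
      · rw [← h3]; ring
    · push Not at h
      refine ⟨n, 1, ⟨Nat.one_le_iff_ne_zero.mpr hn, h⟩, ?_, mul_one n⟩
      rw [Nat.mem_factoredNumbers]
      exact ⟨one_ne_zero, fun p hp => by simp at hp⟩

theorem _root_.Pool.Agent.Lib.J4.rough4 : Rough4 := by
  classical
  intro S hS x hx
  refine ⟨(Finset.Icc 1 ⌊Real.exp x⌋₊).filter (fun r => Rough S r), ?_, ?_⟩
  · intro r hr
    rw [mem_filter, mem_Icc] at hr
    refine ⟨hr.2, ?_⟩
    rw [Real.log_le_iff_le_exp (by exact_mod_cast hr.1.1)]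
    exact (Nat.le_floor_iff (Real.exp_pos x).le).mp hr.1.2
  · rw [sum_fk_eq, sum_fk_eq]
    set W := Finset.Icc 1 ⌊Real.exp x⌋₊ with hW
    set s := W.filter (fun r => Rough S r) with hs
    have h1 : ∑ n ∈ W, fk 0 n ≤ ∑ y ∈ s ×ˢ Bq S x, fk 0 (y.1 * y.2) := by
      have h2 : W ⊆ (s ×ˢ Bq S x).image (fun y => y.1 * y.2) := by
        intro n hn
        rw [hW, mem_Icc] at hn
        obtain ⟨r, m, h3, h4, h5⟩ := exists_rough_smooth hS (n := n) (by omega)
        have hm0 : 0 < m := Nat.pos_of_ne_zero (Nat.ne_zero_of_mem_factoredNumbers h4)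
        have hr0 : 0 < r := h3.1
        have hrn : r ≤ n := h5 ▸ Nat.le_mul_of_pos_right r hm0
        have hmn : m ≤ n := h5 ▸ Nat.le_mul_of_pos_left m hr0
        rw [mem_image]
        refine ⟨(r, m), ?_, h5⟩
        rw [mem_product]
        refine ⟨?_, ?_⟩
        · rw [hs, mem_filter, hW, mem_Icc]
          exact ⟨⟨hr0, by omega⟩, h3⟩
        · rw [mem_Bq]
          refine ⟨h4, ?_⟩
          rw [Real.log_le_iff_le_exp (by exact_mod_cast hm0)]
          exact (Nat.le_floor_iff (Real.exp_pos x).le).mp (by simp only; omega)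
      calc ∑ n ∈ W, fk 0 n ≤ ∑ n ∈ (s ×ˢ Bq S x).image (fun y => y.1 * y.2), fk 0 n :=
            sum_le_sum_of_subset_of_nonneg h2 fun n _ _ => fk_nonneg 0 n
        _ ≤ ∑ y ∈ s ×ˢ Bq S x, fk 0 (y.1 * y.2) :=
            sum_image_le_of_nonneg (fun y _ => fk_nonneg 0 _)
    refine h1.trans ?_
    have h3 : ∑ y ∈ s ×ˢ Bq S x, fk 0 (y.1 * y.2) = (∑ m ∈ Bq S x, fk 0 m) * ∑ r ∈ s, fk 0 r := by
      rw [mul_comm, sum_mul_sum, ← sum_product']
      refine sum_congr rfl fun y hy => ?_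
      rw [mem_product] at hy
      have h4 : Rough S y.1 := (mem_filter.mp hy.1).2
      rw [fk_mul 0 (rough_coprime h4 (mem_Bq.mp hy.2).1)]
    rw [h3]
    exact mul_le_mul_of_nonneg_right (sum_smooth_le hS _ fun m hm => (mem_Bq.mp hm).1)
      (sum_nonneg fun r _ => fk_nonneg 0 r)

/-- sums of `d(n)^2 / n` over windows -/
lemma window (h : D2Sum) : ∃ C : ℝ, 0 ≤ C ∧ ∀ (A B : ℝ), A ≤ B → 0 ≤ B → ∀ W : Finset ℕ,
    (∀ n ∈ W, 1 ≤ n ∧ A ≤ Real.log n ∧ Real.log n ≤ B) →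
    ∑ n ∈ W, fk 0 n ≤ C * (B - A + 1) * (1 + B) ^ 3 := by
  obtain ⟨C, hC, h⟩ := h
  have hpi : 1 ≤ 4 * Real.pi ^ 2 := by
    have := Real.pi_gt_three
    nlinarith
  refine ⟨4 * C + 8, by linarith, ?_⟩
  intro A B hAB hB W hW
  set N := ⌊Real.exp B⌋₊ with hN
  have hN1 : 1 ≤ N := by
    apply Nat.le_floor
    simpa using Real.one_le_exp hB
  have hlogN : Real.log N ≤ B := by
    rw [Real.log_le_iff_le_exp (by exact_mod_cast hN1)]
    exact Nat.floor_le (Real.exp_pos B).le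
  have hlogN0 : 0 ≤ Real.log N := Real.log_natCast_nonneg N
  have hF : ∑ n ∈ Finset.Icc 1 N, fk 0 n ≤
      Real.log N ^ 4 / (4 * Real.pi ^ 2) + C * (1 + Real.log N) ^ 3 := by
    have := h N hN1
    rw [sum_fk_eq, abs_le] at this
    linarith [this.2]
  by_cases hA : A ≤ 0
  · -- all of the sum
    have h1 : ∑ n ∈ W, fk 0 n ≤ ∑ n ∈ Finset.Icc 1 N, fk 0 n := by
      apply sum_le_sum_of_subset_of_nonneg
      · intro n hn
        obtain ⟨h2, h3, h4⟩ := hW n hn
        rw [mem_Icc]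
        refine ⟨h2, Nat.le_floor ?_⟩
        rwa [← Real.log_le_iff_le_exp (by exact_mod_cast h2)]
      · intro n _ _
        exact fk_nonneg 0 n
    have h5 : Real.log N ^ 4 / (4 * Real.pi ^ 2) ≤ B * (1 + B) ^ 3 := by
      calc Real.log N ^ 4 / (4 * Real.pi ^ 2) ≤ Real.log N ^ 4 := div_le_self (by positivity) hpi
        _ ≤ B ^ 4 := by gcongr
        _ = B * B ^ 3 := by ring
        _ ≤ B * (1 + B) ^ 3 := by gcongr; linarith
    have h6 : C * (1 + Real.log N) ^ 3 ≤ C * (1 + B) ^ 3 := by gcongr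
    have h7 : 0 ≤ (1 + B) ^ 3 := by positivity
    calc ∑ n ∈ W, fk 0 n ≤ (B + C) * (1 + B) ^ 3 := by linarith
      _ ≤ (4 * C + 8) * (B - A + 1) * (1 + B) ^ 3 := by
          apply mul_le_mul_of_nonneg_right _ h7
          nlinarith
  · have hA0 : 0 < A := not_le.mp hA
    -- the largest integer below `e ^ A`
    set M := ⌈Real.exp A⌉₊ - 1 with hM
    have hexp : 1 < Real.exp A := by
      rw [Real.one_lt_exp_iff]; exact hA0
    have hceil : 2 ≤ ⌈Real.exp A⌉₊ := by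
      have : 1 < ⌈Real.exp A⌉₊ := by
        rw [Nat.lt_ceil]
        simpa using hexp
      omega
    have hM1 : 1 ≤ M := by omega
    have hMlt : (M : ℝ) < Real.exp A := by
      have h2 : M < ⌈Real.exp A⌉₊ := by omega
      exact Nat.lt_ceil.mp h2
    have hMge : Real.exp A ≤ 2 * M := by
      have h2 : Real.exp A ≤ ⌈Real.exp A⌉₊ := Nat.le_ceil _
      have h3 : ⌈Real.exp A⌉₊ ≤ 2 * M := by omega
      have h4 : (⌈Real.exp A⌉₊ : ℝ) ≤ 2 * M := by exact_mod_cast h3
      linarith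
    have hMpos : (0 : ℝ) < M := by exact_mod_cast hM1
    have hlogM : A - 1 ≤ Real.log M := by
      have h2 : A ≤ Real.log (2 * M) := by
        rw [Real.le_log_iff_exp_le (by positivity)]
        exact hMge
      rw [Real.log_mul (by norm_num) hMpos.ne'] at h2
      have h3 := Real.log_two_lt_d9
      linarith
    have hlogM' : Real.log M ≤ A := by
      rw [Real.log_le_iff_le_exp hMpos]
      exact hMlt.le
    have hlogM0 : 0 ≤ Real.log M := Real.log_natCast_nonneg M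
    have hG := h M hM1
    rw [sum_fk_eq, abs_le] at hG
    -- the window sum
    have hdisj : Disjoint W (Finset.Icc 1 M) := by
      rw [disjoint_left]
      intro n hn hn'
      obtain ⟨h2, h3, h4⟩ := hW n hn
      rw [mem_Icc] at hn'
      have h5 : Real.log n ≤ Real.log M := Real.log_le_log (by exact_mod_cast h2)
        (by exact_mod_cast hn'.2)
      have h6 : Real.log M < A := by
        rw [Real.log_lt_iff_lt_exp hMpos]
        exact hMlt
      linarith
    have hMN : M ≤ N := by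
      apply Nat.le_floor
      exact hMlt.le.trans (Real.exp_le_exp.mpr hAB)
    have h7 : ∑ n ∈ W, fk 0 n + ∑ n ∈ Finset.Icc 1 M, fk 0 n ≤ ∑ n ∈ Finset.Icc 1 N, fk 0 n := by
      rw [← sum_union hdisj]
      apply sum_le_sum_of_subset_of_nonneg
      · intro n hn
        rw [mem_union] at hn
        rw [mem_Icc]
        rcases hn with hn | hn
        · obtain ⟨h2, h3, h4⟩ := hW n hn
          refine ⟨h2, Nat.le_floor ?_⟩
          rwa [← Real.log_le_iff_le_exp (by exact_mod_cast h2)]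
        · rw [mem_Icc] at hn
          exact ⟨hn.1, hn.2.trans hMN⟩
      · intro n _ _
        exact fk_nonneg 0 n
    -- difference of fourth powers
    set a := Real.log N with ha
    set b := Real.log M with hb
    have hab : b ≤ a := Real.log_le_log hMpos (by exact_mod_cast hMN)
    have h8 : a ^ 4 / (4 * Real.pi ^ 2) - b ^ 4 / (4 * Real.pi ^ 2) ≤ 4 * (B - A + 1) * (1 + B) ^ 3 := by
      rw [← sub_div]
      have h9 : 0 ≤ a ^ 4 - b ^ 4 := by
        have : b ^ 4 ≤ a ^ 4 := by gcongr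
        linarith
      have h10 : a ^ 4 - b ^ 4 ≤ 4 * (a - b) * a ^ 3 := by
        have e : a ^ 4 - b ^ 4 = (a - b) * (a ^ 3 + a ^ 2 * b + a * b ^ 2 + b ^ 3) := by ring
        rw [e]
        have h11 : a ^ 3 + a ^ 2 * b + a * b ^ 2 + b ^ 3 ≤ 4 * a ^ 3 := by
          have h12 : a ^ 2 * b ≤ a ^ 2 * a := by gcongr
          have h13 : a * b ^ 2 ≤ a * a ^ 2 := by gcongr
          have h14 : b ^ 3 ≤ a ^ 3 := by gcongr
          nlinarith
        calc (a - b) * (a ^ 3 + a ^ 2 * b + a * b ^ 2 + b ^ 3) ≤ (a - b) * (4 * a ^ 3) :=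
              mul_le_mul_of_nonneg_left h11 (by linarith)
          _ = 4 * (a - b) * a ^ 3 := by ring
      calc (a ^ 4 - b ^ 4) / (4 * Real.pi ^ 2) ≤ a ^ 4 - b ^ 4 := div_le_self h9 hpi
        _ ≤ 4 * (a - b) * a ^ 3 := h10
        _ ≤ 4 * (B - A + 1) * (1 + B) ^ 3 := by
            have h15 : a - b ≤ B - A + 1 := by linarith
            have h16 : 0 ≤ B - A + 1 := by linarith
            have h17 : a ≤ 1 + B := by linarith
            gcongr
    have h18 : C * (1 + a) ^ 3 ≤ C * (1 + B) ^ 3 := by gcongr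
    have h19 : C * (1 + b) ^ 3 ≤ C * (1 + B) ^ 3 := by
      have : b ≤ B := by linarith
      gcongr
    have h20 : 0 ≤ (1 + B) ^ 3 := by positivity
    have h21 : 1 ≤ B - A + 1 := by linarith
    have h22 : C * (1 + B) ^ 3 ≤ C * (B - A + 1) * (1 + B) ^ 3 := by
      apply mul_le_mul_of_nonneg_right _ h20
      nlinarith
    have h23 : 0 ≤ (B - A + 1) * (1 + B) ^ 3 := by positivity
    calc ∑ n ∈ W, fk 0 n ≤ 4 * (B - A + 1) * (1 + B) ^ 3 + 2 * (C * (B - A + 1) * (1 + B) ^ 3) := by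
          linarith [hG.1]
      _ ≤ (4 * C + 8) * (B - A + 1) * (1 + B) ^ 3 := by
          have h24 : 0 ≤ C * ((B - A + 1) * (1 + B) ^ 3) := mul_nonneg hC h23
          linarith

theorem _root_.Pool.Agent.Lib.J4.rough2 (hD : D2Sum) : Rough2 := by
  obtain ⟨C, hC, hw⟩ := window hD
  -- the multiple of `Y`
  obtain ⟨c0, hc0, hc1⟩ : ∃ c0 : ℝ, 0 ≤ c0 ∧ C1 * Real.exp (-c0) ≤ 1 / 2 := by
    refine ⟨max 0 (Real.log (2 * C1)), le_max_left _ _, ?_⟩
    have h1 : 0 < C1 := Real.exp_pos _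
    calc C1 * Real.exp (-max 0 (Real.log (2 * C1))) ≤ C1 * Real.exp (-Real.log (2 * C1)) := by
          gcongr
          exact le_max_right _ _
      _ = 1 / 2 := by
          rw [Real.exp_neg, Real.exp_log (by positivity)]
          field_simp
  refine ⟨2 * (C * (1 + c0) * (1 + c0) ^ 3), by positivity, ?_⟩
  intro S Y X1 X2 hS hY hX hX2 s hs
  have hY0 : 0 < Y := by linarith
  rw [sum_fk_eq]
  have hSp : ∀ p ∈ S, p.Prime := fun p hp => (hS p hp).1
  have h0 : 0 ≤ ∑ r ∈ s, fk 0 r := sum_nonneg fun r _ => fk_nonneg 0 r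
  have h1 := smooth_ge (q := c0 * Y) hY (by positivity) hS
  have e1 : -(c0 * Y) / Y = -c0 := by field_simp
  rw [e1] at h1
  have h2 : DS S / 2 ≤ ∑ m ∈ Bq S (c0 * Y), fk 0 m := by
    refine le_trans ?_ h1
    have := DS_nonneg hSp
    nlinarith
  have h3 : (∑ r ∈ s, fk 0 r) * ∑ m ∈ Bq S (c0 * Y), fk 0 m ≤
      ∑ n ∈ (s ×ˢ Bq S (c0 * Y)).image (fun x => x.1 * x.2), fk 0 n := by
    apply rough_mul_smooth_le (S := S) (fun r hr => (hs r hr).1) (fun m hm => (mem_Bq.mp hm).1)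
    intro r hr m hm
    exact mem_image.mpr ⟨(r, m), mem_product.mpr ⟨hr, hm⟩, rfl⟩
  have h4 := hw X1 (X2 + c0 * Y) (by nlinarith) (by positivity)
    ((s ×ˢ Bq S (c0 * Y)).image (fun x => x.1 * x.2)) (by
      intro n hn
      obtain ⟨x, hx, rfl⟩ := mem_image.mp hn
      rw [mem_product] at hx
      obtain ⟨h5, h6, h7⟩ := hs _ hx.1
      obtain ⟨h8, h9⟩ := mem_Bq.mp hx.2
      have hr0 : 0 < x.1 := h5.1
      have hm0 : 0 < x.2 := Nat.pos_of_ne_zero (Nat.ne_zero_of_mem_factoredNumbers h8)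
      have hr0' : (0 : ℝ) < x.1 := by exact_mod_cast hr0
      have hm0' : (0 : ℝ) < x.2 := by exact_mod_cast hm0
      refine ⟨Nat.mul_pos hr0 hm0, ?_, ?_⟩
      · push_cast
        rw [Real.log_mul hr0'.ne' hm0'.ne']
        have := Real.log_natCast_nonneg x.2
        linarith
      · push_cast
        rw [Real.log_mul hr0'.ne' hm0'.ne']
        linarith)
  have h10 : (∑ r ∈ s, fk 0 r) * DS S ≤ 2 * (C * (X2 + c0 * Y - X1 + 1) * (1 + (X2 + c0 * Y)) ^ 3) := by
    have h11 : (∑ r ∈ s, fk 0 r) * (DS S / 2) ≤ (∑ r ∈ s, fk 0 r) * ∑ m ∈ Bq S (c0 * Y), fk 0 m :=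
      mul_le_mul_of_nonneg_left h2 h0
    linarith
  refine h10.trans ?_
  have h12 : X2 + c0 * Y - X1 + 1 ≤ (1 + c0) * (X2 - X1 + Y + 1) := by nlinarith
  have h13 : 1 + (X2 + c0 * Y) ≤ (1 + c0) * (1 + X2 + Y) := by nlinarith
  have h14 : 0 ≤ X2 + c0 * Y - X1 + 1 := by nlinarith
  have h15 : (1 + (X2 + c0 * Y)) ^ 3 ≤ ((1 + c0) * (1 + X2 + Y)) ^ 3 := by gcongr
  calc 2 * (C * (X2 + c0 * Y - X1 + 1) * (1 + (X2 + c0 * Y)) ^ 3)
      ≤ 2 * (C * ((1 + c0) * (X2 - X1 + Y + 1)) * ((1 + c0) * (1 + X2 + Y)) ^ 3) := by gcongr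
    _ = 2 * (C * (1 + c0) * (1 + c0) ^ 3) * (X2 - X1 + Y + 1) * (1 + X2 + Y) ^ 3 := by ring

theorem _root_.Pool.Agent.Lib.J4.rough3 (hD : D2Sum) : Rough3 := by
  obtain ⟨C, hC, h2⟩ := rough2 hD
  refine ⟨3 * C, by positivity, ?_⟩
  intro S Y X1 X2 κ hS hY hX hX2 hκ s hs
  have hY0 : 0 < Y := by linarith
  have hSp : ∀ p ∈ S, p.Prime := fun p hp => (hS p hp).1
  have hDS := DS_nonneg hSp
  set w : ℕ → ℝ := fun r => dv r ^ 2 / (r : ℝ) * Real.exp (-(2 * κ * max (X1 - Real.log r) 0)) with hw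
  have hw0 : ∀ r, 0 ≤ w r := fun r => by rw [hw]; positivity
  set P := (1 + X2 + Y) ^ 3 with hP
  have hP0 : 0 ≤ P := by rw [hP]; positivity
  -- the part above `X1`
  have hA : (∑ r ∈ s.filter (fun r : ℕ => X1 ≤ Real.log r), w r) * DS S ≤ C * (X2 - X1 + Y + 1) * P := by
    have h3 := h2 S Y X1 X2 hS hY hX hX2 (s.filter (fun r : ℕ => X1 ≤ Real.log r)) (by
      intro r hr
      rw [mem_filter] at hr
      exact ⟨(hs r hr.1).1, hr.2, (hs r hr.1).2⟩)
    refine le_trans ?_ h3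
    apply mul_le_mul_of_nonneg_right _ hDS
    refine sum_le_sum fun r _ => ?_
    rw [hw]
    apply mul_le_of_le_one_right (by positivity)
    rw [Real.exp_le_one_iff]
    have : 0 ≤ κ * max (X1 - Real.log r) 0 := by positivity
    linarith
  -- the layers
  set s' := s.filter (fun r : ℕ => ¬ X1 ≤ Real.log r) with hs'
  set lay : ℕ → ℕ := fun r => ⌊(X1 - Real.log r) * κ⌋₊ with hlay
  obtain ⟨N, hN⟩ : ∃ N, ∀ r ∈ s', lay r ∈ range N :=
    ⟨s'.sup lay + 1, fun r hr => mem_range.mpr (Nat.lt_succ_of_le (le_sup hr))⟩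
  have hB : (∑ r ∈ s', w r) * DS S ≤ 2 * (C * (1 / κ + Y + 1) * P) := by
    rw [← sum_fiberwise_of_maps_to hN, sum_mul]
    have h4 : ∀ j ∈ range N, (∑ r ∈ s' with lay r = j, w r) * DS S ≤
        (C * (1 / κ + Y + 1) * P) * Real.exp (-2) ^ j := by
      intro j _
      rcases (s'.filter (fun r => lay r = j)).eq_empty_or_nonempty with h0 | ⟨r1, hr1⟩
      · rw [h0, sum_empty, zero_mul]
        positivity
      have hlayer : ∀ r ∈ s'.filter (fun r => lay r = j), Rough S r ∧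
          X1 - (j + 1) / κ ≤ Real.log r ∧ Real.log r ≤ X1 - j / κ := by
        intro r hr
        rw [mem_filter, hs', mem_filter] at hr
        obtain ⟨⟨h5, h6⟩, h7⟩ := hr
        have h8 : 0 ≤ (X1 - Real.log r) * κ := mul_nonneg (by linarith [not_le.mp h6]) hκ.le
        have h9 := Nat.floor_le h8
        have h10 := Nat.lt_floor_add_one ((X1 - Real.log r) * κ)
        change lay r = j at h7
        rw [hlay] at h7
        simp only at h7
        rw [h7] at h9 h10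
        refine ⟨(hs r h5).1, ?_, ?_⟩
        · rw [sub_le_comm, le_div_iff₀ hκ]
          exact h10.le
        · rw [le_sub_comm, div_le_iff₀ hκ]
          exact h9
      have hX2' : 0 ≤ X1 - j / κ :=
        (Real.log_natCast_nonneg r1).trans (hlayer r1 hr1).2.2
      have h5 := h2 S Y (X1 - (j + 1) / κ) (X1 - j / κ) hS hY
        (by have : (j : ℝ) / κ ≤ (j + 1) / κ := by gcongr; linarith
            linarith) hX2' _ hlayer
      have h6 : ∑ r ∈ s' with lay r = j, w r ≤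
          (∑ r ∈ s' with lay r = j, dv r ^ 2 / (r : ℝ)) * Real.exp (-2) ^ j := by
        rw [sum_mul]
        refine sum_le_sum fun r hr => ?_
        rw [hw]
        apply mul_le_mul_of_nonneg_left _ (by positivity)
        rw [← Real.exp_nat_mul, Real.exp_le_exp]
        have h7 := (hlayer r hr).2.2
        have h8 : (j : ℝ) ≤ (X1 - Real.log r) * κ := by
          rw [← div_le_iff₀ hκ]
          linarith
        have h9 : (j : ℝ) ≤ κ * max (X1 - Real.log r) 0 := by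
          refine h8.trans ?_
          rw [mul_comm]
          exact mul_le_mul_of_nonneg_left (le_max_left _ _) hκ.le
        linarith
      have hE : 0 ≤ Real.exp (-2) ^ j := by positivity
      have h10 : X1 - j / κ - (X1 - (j + 1) / κ) = 1 / κ := by field_simp; ring
      rw [h10] at h5
      have h11 : (1 + (X1 - j / κ) + Y) ^ 3 ≤ P := by
        rw [hP]
        have : X1 - j / κ ≤ X2 := by
          have : 0 ≤ (j : ℝ) / κ := by positivity
          linarith
        gcongr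
      calc (∑ r ∈ s' with lay r = j, w r) * DS S
          ≤ ((∑ r ∈ s' with lay r = j, dv r ^ 2 / (r : ℝ)) * Real.exp (-2) ^ j) * DS S :=
            mul_le_mul_of_nonneg_right h6 hDS
        _ = ((∑ r ∈ s' with lay r = j, dv r ^ 2 / (r : ℝ)) * DS S) * Real.exp (-2) ^ j := by ring
        _ ≤ (C * (1 / κ + Y + 1) * (1 + (X1 - j / κ) + Y) ^ 3) * Real.exp (-2) ^ j :=
            mul_le_mul_of_nonneg_right h5 hE
        _ ≤ (C * (1 / κ + Y + 1) * P) * Real.exp (-2) ^ j := by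
            apply mul_le_mul_of_nonneg_right _ hE
            exact mul_le_mul_of_nonneg_left h11 (by positivity)
    refine (sum_le_sum h4).trans ?_
    rw [← mul_sum, mul_comm]
    have hx0 : 0 ≤ Real.exp (-2) := (Real.exp_pos _).le
    have hx1 : Real.exp (-2) ≤ 1 / 2 := by
      rw [Real.exp_neg, inv_le_comm₀ (Real.exp_pos _) (by norm_num)]
      have := Real.add_one_le_exp (2 : ℝ)
      linarith
    have h12 : ∑ j ∈ range N, Real.exp (-2) ^ j ≤ 2 := by
      have h13 : ∑ j ∈ range N, Real.exp (-2) ^ j ≤ ∑ j ∈ range N, (1 / 2 : ℝ) ^ j := by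
        refine sum_le_sum fun j _ => ?_
        gcongr
      have h14 : ∑ j ∈ range N, (1 / 2 : ℝ) ^ j ≤ 2 := by
        rw [geom_sum_eq (by norm_num)]
        have : 0 ≤ (1 / 2 : ℝ) ^ N := by positivity
        rw [div_le_iff_of_neg (by norm_num)]
        linarith
      exact h13.trans h14
    exact mul_le_mul_of_nonneg_right h12 (by positivity)
  have hsplit : ∑ r ∈ s, w r = ∑ r ∈ s.filter (fun r : ℕ => X1 ≤ Real.log r), w r + ∑ r ∈ s', w r :=
    (sum_filter_add_sum_filter_not s _ w).symm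
  change (∑ r ∈ s, w r) * DS S ≤ _
  rw [hsplit, add_mul]
  have hk : 0 < 1 / κ := by positivity
  calc _ ≤ C * (X2 - X1 + Y + 1) * P + 2 * (C * (1 / κ + Y + 1) * P) := add_le_add hA hB
    _ ≤ 3 * C * (X2 - X1 + 1 / κ + Y + 1) * P := by
        have h15 : 0 ≤ C * P := by positivity
        nlinarith

end Pool.Agent.Lib.J4.H6
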