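import Pool.Agent.Lib.MP_f9aece_nt_j4.EnNorm
import Pool.Agent.Lib.MP_f9aece_nt_j4.Rough
import Pool.Agent.Lib.MP_f9aece_nt_h97.Signed

/-!
# JointFour, module G: convolutions along rough and smooth parts

`cv b h m = ∑ u ∣ m, b_u h (m / u)`; associativity, and the formulas for `cv b h (r * m)` with `r`
rough and `m` smooth.  Step lemma for the energies.
-/

set_option autoImplicit false

namespace Pool.Agent.Lib.J4.H6

open Pool.Agent.Lib.MP_f9aece_nt (DP Smo Smo_mono one_mem_Smo Smo_pos mul_mem_Smo)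
open Pool.Agent.Lib.MP_f9aece_nt_h97 (Sup)

/-! ### convolutions -/

lemma coeff_mul_div (P Q : DP) {n : ℕ} (hn : n ≠ 0) :
    (P * Q).coeff n = ∑ u ∈ n.divisors, P.coeff u * Q.coeff (n / u) := by
  rw [MonoidAlgebra.coeff_mul_antidiag P Q n n.divisorsAntidiagonal (by
    intro p
    rw [Nat.mem_divisorsAntidiagonal]
    exact ⟨fun h => h.1, fun h => ⟨h, hn⟩⟩)]
  exact Nat.sum_divisorsAntidiagonal (fun a c => P.coeff a * Q.coeff c)

/-- the function `Φ` restricted to the divisors of `n` -/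
noncomputable def rest (Φ : ℕ → ℝ) (n : ℕ) : DP := ∑ d ∈ n.divisors, MonoidAlgebra.single d (Φ d)

lemma coeff_rest (Φ : ℕ → ℝ) (n m : ℕ) :
    (rest Φ n).coeff m = if m ∈ n.divisors then Φ m else 0 := by
  unfold rest
  rw [MonoidAlgebra.coeff_sum, Finsupp.finsetSum_apply]
  simp only [MonoidAlgebra.coeff_single, Finsupp.single_apply]
  rw [Finset.sum_ite_eq']

lemma cv_eq_coeff (P : DP) (Φ : ℕ → ℝ) {n m : ℕ} (hn : n ≠ 0) (hm : m ∣ n) :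
    (P * rest Φ n).coeff m = cv P Φ m := by
  have hm0 : m ≠ 0 := ne_zero_of_dvd_ne_zero hn hm
  rw [coeff_mul_div _ _ hm0]
  unfold cv
  refine Finset.sum_congr rfl fun u hu => ?_
  rw [coeff_rest, if_pos]
  rw [Nat.mem_divisors]
  exact ⟨(Nat.div_dvd_of_dvd (Nat.dvd_of_mem_divisors hu)).trans hm, hn⟩

lemma cv_mul (P Q : DP) (Φ : ℕ → ℝ) {n : ℕ} (hn : n ≠ 0) :
    cv (P * Q) Φ n = cv Q (cv P Φ) n := by
  rw [← cv_eq_coeff (P * Q) Φ hn dvd_rfl, mul_comm P Q, mul_assoc, coeff_mul_div _ _ hn]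
  unfold cv
  refine Finset.sum_congr rfl fun u hu => ?_
  rw [cv_eq_coeff P Φ hn (Nat.div_dvd_of_dvd (Nat.dvd_of_mem_divisors hu))]
  rfl

lemma cv_one (Φ : ℕ → ℝ) {n : ℕ} (hn : n ≠ 0) : cv 1 Φ n = Φ n := by
  rw [← cv_eq_coeff 1 Φ hn dvd_rfl, one_mul, coeff_rest, if_pos]
  exact Nat.mem_divisors.mpr ⟨dvd_rfl, hn⟩

/-! ### rough and smooth -/

lemma mem_Smo_iff {S : Finset ℕ} (n : ℕ) :
    n ∈ Smo (S : Set ℕ) ↔ n ≠ 0 ∧ ∀ p, p.Prime → p ∣ n → p ∈ S := Iff.rfl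

lemma coprime_rough_Smo {S : Finset ℕ} {r m : ℕ} (hr : Rough S r) (hm : m ∈ Smo (S : Set ℕ)) :
    Nat.Coprime r m := by
  refine Nat.Coprime.symm ?_
  refine Nat.coprime_of_dvd ?_
  intro p hp hpm hpr
  exact hr.2 p (hm.2 p hp hpm) hpr

lemma Smo_of_dvd {S : Set ℕ} {m u : ℕ} (hm : m ∈ Smo S) (hu : u ∣ m) : u ∈ Smo S :=
  ⟨ne_zero_of_dvd_ne_zero hm.1 hu, fun p hp hd => hm.2 p hp (hd.trans hu)⟩

lemma Rough_of_dvd {S : Finset ℕ} {r u : ℕ} (hr : Rough S r) (hu : u ∣ r) : Rough S u :=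
  ⟨Nat.one_le_iff_ne_zero.mpr (ne_zero_of_dvd_ne_zero (Nat.one_le_iff_ne_zero.mp hr.1) hu),
    fun p hp hd => hr.2 p hp (hd.trans hu)⟩

lemma Rough_mono {S T : Finset ℕ} {r : ℕ} (hr : Rough T r) (h : S ⊆ T) : Rough S r :=
  ⟨hr.1, fun p hp => hr.2 p (h hp)⟩

lemma peel {b : DP} {S : Finset ℕ} (hb : Sup (Smo (S : Set ℕ)) b) (Φ : ℕ → ℝ) {r m : ℕ}
    (hr : Rough S r) (hm : m ∈ Smo (S : Set ℕ)) :
    cv b Φ (r * m) = ∑ u ∈ m.divisors, b.coeff u * Φ (r * (m / u)) := by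
  have hr0 : r ≠ 0 := Nat.one_le_iff_ne_zero.mp hr.1
  have hrm : r * m ≠ 0 := mul_ne_zero hr0 hm.1
  unfold cv
  symm
  have h1 : ∑ u ∈ m.divisors, b.coeff u * Φ (r * (m / u))
      = ∑ u ∈ m.divisors, b.coeff u * Φ (r * m / u) := by
    refine Finset.sum_congr rfl fun u hu => ?_
    rw [Nat.mul_div_assoc r (Nat.dvd_of_mem_divisors hu)]
  rw [h1]
  refine Finset.sum_subset ?_ ?_
  · exact Nat.divisors_subset_of_dvd hrm (Dvd.intro_left r rfl)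
  · intro u hu hu'
    by_cases h2 : b.coeff u = 0
    · rw [h2, zero_mul]
    · exfalso
      apply hu'
      rw [Nat.mem_divisors]
      refine ⟨?_, hm.1⟩
      exact (coprime_rough_Smo hr (hb u h2)).symm.dvd_of_dvd_mul_left (Nat.dvd_of_mem_divisors hu)

lemma peel' {B : DP} {a : ℕ} (ha : a ≠ 0) (hB : ∀ w, B.coeff w ≠ 0 → Nat.Coprime w a)
    (Φ : ℕ → ℝ) {r : ℕ} (hr : r ≠ 0) :
    cv B Φ (r * a) = ∑ w ∈ r.divisors, B.coeff w * Φ (r / w * a) := by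
  have hra : r * a ≠ 0 := mul_ne_zero hr ha
  unfold cv
  symm
  have h1 : ∑ w ∈ r.divisors, B.coeff w * Φ (r / w * a)
      = ∑ w ∈ r.divisors, B.coeff w * Φ (r * a / w) := by
    refine Finset.sum_congr rfl fun w hw => ?_
    rw [Nat.div_mul_right_comm (Nat.dvd_of_mem_divisors hw)]
  rw [h1]
  refine Finset.sum_subset ?_ ?_
  · exact Nat.divisors_subset_of_dvd hra (Dvd.intro a rfl)
  · intro w hw hw'
    by_cases h2 : B.coeff w = 0
    · rw [h2, zero_mul]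
    · exfalso
      apply hw'
      rw [Nat.mem_divisors]
      exact ⟨(hB w h2).dvd_of_dvd_mul_right (Nat.dvd_of_mem_divisors hw), hr⟩

/-- the shifted function -/
noncomputable def Ff (f : ℝ → ℝ) (y : ℝ) (n : ℕ) : ℝ := dv n * f (Real.log n + y)

/-- adding one group -/
lemma rec_step {B b : DP} {S : Finset ℕ} {U : Set ℕ} (hb : Sup (Smo (S : Set ℕ)) b)
    (hB : Sup (Smo U) B) (hU : Disjoint U (S : Set ℕ)) (f : ℝ → ℝ) (y : ℝ) {r m : ℕ}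
    (hr : Rough S r) (hm : m ∈ Smo (S : Set ℕ)) :
    cv (B * b) (Ff f y) (r * m)
      = ∑ u ∈ m.divisors, b.coeff u * (dv (m / u) * cv B (Ff f (y + Real.log ((m / u : ℕ) : ℝ))) r) := by
  have hr0 : r ≠ 0 := Nat.one_le_iff_ne_zero.mp hr.1
  have hrm : r * m ≠ 0 := mul_ne_zero hr0 hm.1
  rw [cv_mul B b (Ff f y) hrm, peel hb _ hr hm]
  refine Finset.sum_congr rfl fun u hu => ?_
  congr 1
  have hum := Nat.dvd_of_mem_divisors hu
  have ha : m / u ∈ Smo (S : Set ℕ) := Smo_of_dvd hm (Nat.div_dvd_of_dvd hum)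
  set a := m / u with ha'
  rw [peel' ha.1 (fun w hw => MP_f9aece_nt.coprime_of_Smo hU (hB w hw) ha) _ hr0]
  unfold cv
  rw [Finset.mul_sum]
  refine Finset.sum_congr rfl fun w hw => ?_
  have hwr := Nat.dvd_of_mem_divisors hw
  have hrw : Rough S (r / w) := Rough_of_dvd hr (Nat.div_dvd_of_dvd hwr)
  have h1 : Ff f y (r / w * a) = dv a * Ff f (y + Real.log (a : ℝ)) (r / w) := by
    unfold Ff
    rw [dv_mul (coprime_rough_Smo hrw ha)]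
    have h2 : ((r / w : ℕ) : ℝ) ≠ 0 := by
      exact_mod_cast Nat.one_le_iff_ne_zero.mp hrw.1
    have h3 : (a : ℝ) ≠ 0 := by exact_mod_cast ha.1
    push_cast
    rw [Real.log_mul h2 h3]
    have h4 : Real.log ((r / w : ℕ) : ℝ) + Real.log (a : ℝ) + y
        = Real.log ((r / w : ℕ) : ℝ) + (y + Real.log (a : ℝ)) := by ring
    rw [h4]
    ring
  rw [h1]
  ring

/-! ### energies -/

/-- the energy over the rough numbers is at most `E` -/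
def ER (T : Finset ℕ) (f : ℕ → ℝ) (E : ℝ) : Prop :=
  ∀ s : Finset ℕ, (∀ n ∈ s, Rough T n) → ∑ n ∈ s, f n ^ 2 / (n : ℝ) ≤ E

lemma ER.nonneg {T : Finset ℕ} {f : ℕ → ℝ} {E : ℝ} (h : ER T f E) : 0 ≤ E := by
  have := h ∅ (by simp)
  simpa using this

lemma EB.nonneg' {S : Finset ℕ} {f : ℕ → ℝ} {E : ℝ} (h : EB S f E) : 0 ≤ E := by
  have := h ∅ (by simp)
  simpa using this

lemma tensor {T : Finset ℕ} {S : Finset ℕ} {rp sp : ℕ → ℕ} {s : Finset ℕ} {f g : ℕ → ℝ}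
    {E1 E2 : ℝ} (hs : ∀ n ∈ s, rp n * sp n = n) (hD : ∀ n ∈ s, Rough T (rp n))
    (hS : ∀ n ∈ s, sp n ∈ Smo (S : Set ℕ)) (h1 : ER T f E1) (h2 : EB S g E2) :
    ∑ n ∈ s, (g (sp n) * f (rp n)) ^ 2 / (n : ℝ) ≤ E1 * E2 := by
  classical
  set φ : ℕ × ℕ → ℝ := fun x => f x.1 ^ 2 / (x.1 : ℝ) * (g x.2 ^ 2 / (x.2 : ℝ)) with hφ
  have hφ0 : ∀ x, 0 ≤ φ x := fun x => by
    simp only [hφ]
    positivity
  have e1 : ∑ n ∈ s, (g (sp n) * f (rp n)) ^ 2 / (n : ℝ) = ∑ n ∈ s, φ (rp n, sp n) := by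
    refine Finset.sum_congr rfl fun n hn => ?_
    have h3 : (n : ℝ) = (rp n : ℝ) * (sp n : ℝ) := by
      exact_mod_cast (hs n hn).symm
    rw [h3]
    simp only [hφ]
    rw [mul_pow, mul_comm (g (sp n) ^ 2), mul_div_mul_comm]
  have e2 : ∑ n ∈ s, φ (rp n, sp n) = ∑ x ∈ s.image (fun n => (rp n, sp n)), φ x := by
    rw [Finset.sum_image]
    intro n hn n' hn' h
    have h3 : rp n = rp n' := congrArg Prod.fst h
    have h4 : sp n = sp n' := congrArg Prod.snd h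
    rw [← hs n hn, ← hs n' hn', h3, h4]
  have e3 : ∑ x ∈ s.image (fun n => (rp n, sp n)), φ x
      ≤ ∑ x ∈ s.image rp ×ˢ s.image sp, φ x := by
    refine Finset.sum_le_sum_of_subset_of_nonneg ?_ fun x _ _ => hφ0 x
    intro x hx
    obtain ⟨n, hn, rfl⟩ := Finset.mem_image.mp hx
    exact Finset.mem_product.mpr ⟨Finset.mem_image_of_mem _ hn, Finset.mem_image_of_mem _ hn⟩
  have e4 : ∑ x ∈ s.image rp ×ˢ s.image sp, φ x
      = (∑ a ∈ s.image rp, f a ^ 2 / (a : ℝ)) * ∑ b ∈ s.image sp, g b ^ 2 / (b : ℝ) := by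
    rw [Finset.sum_product, Finset.sum_mul]
    refine Finset.sum_congr rfl fun a _ => ?_
    rw [Finset.mul_sum]
  have h3 : ∑ a ∈ s.image rp, f a ^ 2 / (a : ℝ) ≤ E1 := by
    refine h1 _ fun a ha => ?_
    obtain ⟨n, hn, rfl⟩ := Finset.mem_image.mp ha
    exact hD n hn
  have h4 : ∑ b ∈ s.image sp, g b ^ 2 / (b : ℝ) ≤ E2 := by
    refine h2 _ fun a ha => ?_
    obtain ⟨n, hn, rfl⟩ := Finset.mem_image.mp ha
    exact hS n hn
  rw [e1, e2]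
  refine e3.trans ?_
  rw [e4]
  exact mul_le_mul h3 h4 (Finset.sum_nonneg fun b _ => by positivity) h1.nonneg

lemma mink {s : Finset ℕ} {x a c : ℕ → ℝ} {A C : ℝ} (hA : 0 ≤ A) (hC : 0 ≤ C)
    (hx : ∀ n ∈ s, |x n| ≤ |a n| + |c n|) (ha : ∑ n ∈ s, a n ^ 2 / (n : ℝ) ≤ A ^ 2)
    (hc : ∑ n ∈ s, c n ^ 2 / (n : ℝ) ≤ C ^ 2) : ∑ n ∈ s, x n ^ 2 / (n : ℝ) ≤ (A + C) ^ 2 := by
  have h1 : ∀ n ∈ s, x n ^ 2 / (n : ℝ)
      ≤ a n ^ 2 / (n : ℝ) + 2 * (|a n| / Real.sqrt n * (|c n| / Real.sqrt n)) + c n ^ 2 / (n : ℝ) := by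
    intro n hn
    have h2 : x n ^ 2 ≤ (|a n| + |c n|) ^ 2 := by
      rw [← sq_abs (x n)]
      exact pow_le_pow_left₀ (abs_nonneg _) (hx n hn) 2
    have h3 : |a n| / Real.sqrt n * (|c n| / Real.sqrt n) = |a n| * |c n| / (n : ℝ) := by
      rw [div_mul_div_comm, Real.mul_self_sqrt (Nat.cast_nonneg n)]
    rw [h3, add_sq, sq_abs, sq_abs] at *
    have h4 : a n ^ 2 / (n : ℝ) + 2 * (|a n| * |c n| / (n : ℝ)) + c n ^ 2 / (n : ℝ)
        = (a n ^ 2 + 2 * |a n| * |c n| + c n ^ 2) / (n : ℝ) := by ring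
    rw [h4]
    exact div_le_div_of_nonneg_right h2 (Nat.cast_nonneg n)
  have h5 : ∑ n ∈ s, |a n| / Real.sqrt n * (|c n| / Real.sqrt n) ≤ A * C := by
    refine (Real.sum_mul_le_sqrt_mul_sqrt _ _ _).trans ?_
    have h6 : ∀ d : ℕ → ℝ, ∑ n ∈ s, (|d n| / Real.sqrt n) ^ 2 = ∑ n ∈ s, d n ^ 2 / (n : ℝ) := by
      intro d
      refine Finset.sum_congr rfl fun n _ => ?_
      rw [div_pow, sq_abs, Real.sq_sqrt (Nat.cast_nonneg n)]
    rw [h6, h6]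
    refine mul_le_mul ?_ ?_ (Real.sqrt_nonneg _) hA
    · rw [Real.sqrt_le_left hA]; exact ha
    · rw [Real.sqrt_le_left hC]; exact hc
  refine (Finset.sum_le_sum h1).trans ?_
  rw [Finset.sum_add_distrib, Finset.sum_add_distrib, ← Finset.mul_sum]
  nlinarith

end Pool.Agent.Lib.J4.H6
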