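import Pool.Agent.Lib.MP_f9aece_nt_j4.I2Sum

/-!
# JointFour: the window lemma, summed over the sets of groups

Common part of `MidSum` and `MuSum`.
-/

set_option autoImplicit false

namespace Pool.Agent.Lib.J4.H91

open Pool.Agent.Lib.J4
open Pool.Agent.Lib.MP_f9aece_nt (DP BK K1 PP VV Smo expo VV_nonneg)
open Pool.Agent.Lib.MP_f9aece_nt_h97 (Sup)

lemma Dp_pos {p : ℕ} (hp : 1000 ≤ p) : 0 < Dp p := by
  unfold Dp
  have h1 : (1000 : ℝ) ≤ p := by exact_mod_cast hp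
  have h2 : (p : ℝ)⁻¹ ≤ 1 / 1000 := by
    rw [inv_eq_one_div]
    exact one_div_le_one_div_of_le (by norm_num) h1
  have h3 : 0 < (p : ℝ)⁻¹ := by positivity
  have h4 : 0 < 1 - (p : ℝ)⁻¹ := by linarith
  positivity

lemma DS_pos {S : Finset ℕ} (hS : ∀ p ∈ S, 1000 ≤ p) : 0 < DS S :=
  Finset.prod_pos fun p hp => Dp_pos (hS p hp)

/-- sum over the subsets of a product -/
lemma sum_powerset_ite (t : Finset ℕ) (a b : ℕ → ℝ) :
    ∑ s ∈ t.powerset, ∏ g ∈ t, (if g ∈ s then a g else b g) = ∏ g ∈ t, (a g + b g) := by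
  classical
  rw [Finset.prod_add]
  refine Finset.sum_congr rfl fun s hs => ?_
  rw [Finset.mem_powerset] at hs
  rw [mul_comm]
  exact (prod_split hs b a).symm

lemma Wt_mul_prod {v : ℕ} {t s : Finset ℕ} (hs : s ⊆ t) (a b : ℕ → ℝ) :
    Wt v s * ∏ g ∈ t, (if g ∈ s then a g else b g)
      = ∏ g ∈ t, (if g ∈ s then Real.exp (8 * Rg v g) / Rg v g ^ (2 * Mg v g) * a g else b g) := by
  classical
  unfold Wt
  rw [← prod_split hs b a, ← prod_split hs b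
    (fun g => Real.exp (8 * Rg v g) / Rg v g ^ (2 * Mg v g) * a g), Finset.prod_mul_distrib]
  ring

/-- the sharp bounds of the blocks -/
noncomputable def q0 (C c : ℝ) (v p0 : ℕ) (Y : ℝ) (g : ℕ) : ℝ :=
  DS (Sg v p0 Y g) * Real.exp ((c ^ 2 + 4 * c) * VV (Sg v p0 Y g) + C * V2 (Sg v p0 Y g)
    + Real.exp (-(rg v g : ℝ)))

noncomputable def q1 (v p0 : ℕ) (Y : ℝ) (g : ℕ) : ℝ :=
  DS (Sg v p0 Y g) * Real.exp (-(rg v g : ℝ))
    * ((1000 * (rg v g : ℝ)) ^ (2 * (100000 * rg v g)) / Real.exp (8 * (1000 * (rg v g : ℝ))))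

noncomputable def a0 (C c : ℝ) (v p0 : ℕ) (Y : ℝ) (g : ℕ) : ℝ :=
  DS (Sg v p0 Y g) * Real.exp ((c ^ 2 + 4 * |c|) * VV (Sg v p0 Y g) + C)

noncomputable def a1 (C : ℝ) (v p0 : ℕ) (Y : ℝ) (g : ℕ) : ℝ :=
  DS (Sg v p0 Y g) * Real.exp (C - (rg v g : ℝ))
    * ((1000 * (rg v g : ℝ)) ^ (2 * (100000 * rg v g)) / Real.exp (8 * (1000 * (rg v g : ℝ))))

lemma wt_cancel {v : ℕ} (hv : 1 ≤ v) (g : ℕ) (x : ℝ) :
    Real.exp (8 * Rg v g) / Rg v g ^ (2 * Mg v g)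
      * (x * ((1000 * (rg v g : ℝ)) ^ (2 * (100000 * rg v g)) / Real.exp (8 * (1000 * (rg v g : ℝ)))))
      = x := by
  have h1 : (0 : ℝ) < rg v g := by exact_mod_cast one_le_rg hv g
  have h2 : Rg v g = 1000 * (rg v g : ℝ) := rfl
  have h3 : Mg v g = 100000 * rg v g := rfl
  rw [h2, h3]
  have h4 : (0 : ℝ) < (1000 * (rg v g : ℝ)) ^ (2 * (100000 * rg v g)) := by positivity
  have h5 := Real.exp_pos (8 * (1000 * (rg v g : ℝ)))
  field_simp

/-- the error term of a block -/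
noncomputable def er (C : ℝ) (v p0 : ℕ) (Y : ℝ) (g : ℕ) : ℝ :=
  C * V2 (Sg v p0 Y g) + 2 * Real.exp (-(rg v g : ℝ) / 2)

lemma V2_nonneg' (S : Finset ℕ) : 0 ≤ V2 S := Finset.sum_nonneg fun _ _ => by positivity

section
variable {C c : ℝ} {v p0 : ℕ} {Y : ℝ} {g : ℕ}

lemma cVV (hc : |c| ≤ 1 / 1000) (hV : VV (Sg v p0 Y g) ≤ 2 * rg v g) :
    -((rg v g : ℝ) / 2) ≤ (c ^ 2 + 4 * c) * VV (Sg v p0 Y g) := by
  have h0 := VV_nonneg (Sg v p0 Y g)
  have h1 := neg_abs_le c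
  have h2 : -(1 / 200) ≤ c ^ 2 + 4 * c := by nlinarith [sq_nonneg c]
  have h3 : (0 : ℝ) ≤ rg v g := Nat.cast_nonneg _
  nlinarith

lemma q_sum_le (hC : 0 ≤ C) (hp0 : 1000 ≤ p0) (hc : |c| ≤ 1 / 1000)
    (hV : VV (Sg v p0 Y g) ≤ 2 * rg v g) :
    DS (Sg v p0 Y g) * Real.exp (-(rg v g : ℝ)) + q0 C c v p0 Y g
      ≤ DS (Sg v p0 Y g) * Real.exp ((c ^ 2 + 4 * c) * VV (Sg v p0 Y g)) * Real.exp (er C v p0 Y g) := by
  have hD : 0 < DS (Sg v p0 Y g) := DS_pos fun p hp => hp0.trans (Sg_gt p hp).le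
  have h1 := cVV hc hV
  set x := (c ^ 2 + 4 * c) * VV (Sg v p0 Y g) with hx
  have h2 : Real.exp (-(rg v g : ℝ)) ≤ Real.exp x * Real.exp (-(rg v g : ℝ) / 2) := by
    rw [← Real.exp_add]
    apply Real.exp_le_exp.mpr
    linarith
  have h3 : Real.exp (x + C * V2 (Sg v p0 Y g) + Real.exp (-(rg v g : ℝ)))
      = Real.exp x * Real.exp (C * V2 (Sg v p0 Y g) + Real.exp (-(rg v g : ℝ))) := by
    rw [← Real.exp_add]
    congr 1
    ring
  have h4 : Real.exp (-(rg v g : ℝ)) ≤ Real.exp (-(rg v g : ℝ) / 2) := by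
    apply Real.exp_le_exp.mpr
    have : (0 : ℝ) ≤ rg v g := Nat.cast_nonneg _
    linarith
  have h5 : Real.exp (-(rg v g : ℝ) / 2) + Real.exp (C * V2 (Sg v p0 Y g) + Real.exp (-(rg v g : ℝ)))
      ≤ Real.exp (er C v p0 Y g) := by
    have hn : 0 ≤ C * V2 (Sg v p0 Y g) := mul_nonneg hC (V2_nonneg' _)
    have h6 : 1 ≤ Real.exp (C * V2 (Sg v p0 Y g) + Real.exp (-(rg v g : ℝ))) :=
      Real.one_le_exp (by positivity)
    have h7 := Real.add_one_le_exp (Real.exp (-(rg v g : ℝ) / 2))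
    have h8 := Real.exp_pos (-(rg v g : ℝ) / 2)
    calc Real.exp (-(rg v g : ℝ) / 2) + Real.exp (C * V2 (Sg v p0 Y g) + Real.exp (-(rg v g : ℝ)))
        ≤ (Real.exp (-(rg v g : ℝ) / 2) + 1)
          * Real.exp (C * V2 (Sg v p0 Y g) + Real.exp (-(rg v g : ℝ))) := by nlinarith
      _ ≤ Real.exp (Real.exp (-(rg v g : ℝ) / 2))
          * Real.exp (C * V2 (Sg v p0 Y g) + Real.exp (-(rg v g : ℝ))) := by gcongr
      _ = Real.exp (Real.exp (-(rg v g : ℝ) / 2)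
          + (C * V2 (Sg v p0 Y g) + Real.exp (-(rg v g : ℝ)))) := by rw [← Real.exp_add]
      _ ≤ _ := by
          apply Real.exp_le_exp.mpr
          unfold er
          linarith
  unfold q0
  rw [← hx, h3]
  calc DS (Sg v p0 Y g) * Real.exp (-(rg v g : ℝ))
        + DS (Sg v p0 Y g) * (Real.exp x * Real.exp (C * V2 (Sg v p0 Y g) + Real.exp (-(rg v g : ℝ))))
      ≤ DS (Sg v p0 Y g) * (Real.exp x * Real.exp (-(rg v g : ℝ) / 2))
        + DS (Sg v p0 Y g) * (Real.exp x * Real.exp (C * V2 (Sg v p0 Y g) + Real.exp (-(rg v g : ℝ)))) := by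
        gcongr
    _ = DS (Sg v p0 Y g) * Real.exp x * (Real.exp (-(rg v g : ℝ) / 2)
        + Real.exp (C * V2 (Sg v p0 Y g) + Real.exp (-(rg v g : ℝ)))) := by ring
    _ ≤ _ := by gcongr

lemma a_sum_le (hC : 0 ≤ C) (hp0 : 1000 ≤ p0) (hc : |c| ≤ 1 / 1000)
    (hV : VV (Sg v p0 Y g) ≤ 2 * rg v g) :
    DS (Sg v p0 Y g) * Real.exp (C - (rg v g : ℝ)) + a0 C c v p0 Y g
      ≤ DS (Sg v p0 Y g) * Real.exp ((c ^ 2 + 4 * c) * VV (Sg v p0 Y g)) * Real.exp (er C v p0 Y g)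
        * Real.exp (C + 1 + 16 * |c| * rg v g) := by
  have hD : 0 < DS (Sg v p0 Y g) := DS_pos fun p hp => hp0.trans (Sg_gt p hp).le
  have h0 := VV_nonneg (Sg v p0 Y g)
  have h1 := cVV hc hV
  have hr : (0 : ℝ) ≤ rg v g := Nat.cast_nonneg _
  have hcn : 0 ≤ |c| := abs_nonneg c
  have hcc : -c ≤ |c| := neg_le_abs c
  set x := (c ^ 2 + 4 * c) * VV (Sg v p0 Y g) with hx
  have h2 : Real.exp (C - (rg v g : ℝ)) ≤ Real.exp x * Real.exp (C + 16 * |c| * rg v g) := by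
    rw [← Real.exp_add]
    apply Real.exp_le_exp.mpr
    have : 0 ≤ 16 * |c| * (rg v g : ℝ) := by positivity
    linarith
  have h3 : Real.exp ((c ^ 2 + 4 * |c|) * VV (Sg v p0 Y g) + C)
      ≤ Real.exp x * Real.exp (C + 16 * |c| * rg v g) := by
    rw [← Real.exp_add]
    apply Real.exp_le_exp.mpr
    have h4 : (4 * |c| - 4 * c) * VV (Sg v p0 Y g) ≤ 8 * |c| * (2 * rg v g) := by
      have : 4 * |c| - 4 * c ≤ 8 * |c| := by linarith
      have h5 : 0 ≤ 8 * |c| := by positivity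
      calc (4 * |c| - 4 * c) * VV (Sg v p0 Y g) ≤ 8 * |c| * VV (Sg v p0 Y g) := by gcongr
        _ ≤ 8 * |c| * (2 * rg v g) := by gcongr
    rw [hx]
    linarith
  have h5 : 1 ≤ Real.exp (er C v p0 Y g) := by
    apply Real.one_le_exp
    have := mul_nonneg hC (V2_nonneg' (Sg v p0 Y g))
    unfold er
    positivity
  have h6 : (2 : ℝ) ≤ Real.exp 1 := by
    have := Real.exp_one_gt_d9
    linarith
  have h7 : Real.exp (C + 1 + 16 * |c| * rg v g) = Real.exp 1 * Real.exp (C + 16 * |c| * rg v g) := by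
    rw [← Real.exp_add]
    congr 1
    ring
  unfold a0
  calc DS (Sg v p0 Y g) * Real.exp (C - (rg v g : ℝ))
        + DS (Sg v p0 Y g) * Real.exp ((c ^ 2 + 4 * |c|) * VV (Sg v p0 Y g) + C)
      ≤ DS (Sg v p0 Y g) * (Real.exp x * Real.exp (C + 16 * |c| * rg v g))
        + DS (Sg v p0 Y g) * (Real.exp x * Real.exp (C + 16 * |c| * rg v g)) := by gcongr
    _ = DS (Sg v p0 Y g) * Real.exp x * 1 * (2 * Real.exp (C + 16 * |c| * rg v g)) := by ring
    _ ≤ DS (Sg v p0 Y g) * Real.exp x * Real.exp (er C v p0 Y g)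
        * (Real.exp 1 * Real.exp (C + 16 * |c| * rg v g)) := by gcongr
    _ = _ := by rw [h7]

end

lemma Wt_nonneg' (v : ℕ) (s : Finset ℕ) : 0 ≤ Wt v s :=
  Finset.prod_nonneg fun g _ => by unfold Rg; positivity

/-- the bounds given to the window lemma -/
noncomputable def Qs (C c : ℝ) (v p0 : ℕ) (Y : ℝ) (s : Finset ℕ) (g : ℕ) : ℝ :=
  if g ∈ s then q1 v p0 Y g else q0 C c v p0 Y g

noncomputable def As (C c : ℝ) (v p0 : ℕ) (Y : ℝ) (s : Finset ℕ) (g : ℕ) : ℝ :=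
  if g ∈ s then a1 C v p0 Y g else a0 C c v p0 Y g

/-- the main factor -/
noncomputable def PG (C c : ℝ) (v p0 : ℕ) (Y : ℝ) (g : ℕ) : ℝ :=
  DS (Sg v p0 Y g) * Real.exp ((c ^ 2 + 4 * c) * VV (Sg v p0 Y g)) * Real.exp (er C v p0 Y g)

section
variable {C c : ℝ} {v p0 : ℕ} {Y : ℝ}

lemma DSg_pos (hp0 : 1000 ≤ p0) (g : ℕ) : 0 < DS (Sg v p0 Y g) :=
  DS_pos fun p hp => hp0.trans (Sg_gt p hp).le

lemma Qs_nonneg (hp0 : 1000 ≤ p0) (s : Finset ℕ) (g : ℕ) : 0 ≤ Qs C c v p0 Y s g := by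
  have := DSg_pos (v := v) (Y := Y) hp0 g
  unfold Qs q1 q0
  split_ifs <;> positivity

lemma As_nonneg (hp0 : 1000 ≤ p0) (s : Finset ℕ) (g : ℕ) : 0 ≤ As C c v p0 Y s g := by
  have := DSg_pos (v := v) (Y := Y) hp0 g
  unfold As a1 a0
  split_ifs <;> positivity

lemma PG_pos (hp0 : 1000 ≤ p0) (g : ℕ) : 0 < PG C c v p0 Y g := by
  have := DSg_pos (v := v) (Y := Y) hp0 g
  unfold PG
  positivity

lemma sum_Wt_Qs_le (hv : 1 ≤ v) (hC : 0 ≤ C) (hp0 : 1000 ≤ p0) (hc : |c| ≤ 1 / 1000)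
    (hV : ∀ g, VV (Sg v p0 Y g) ≤ 2 * rg v g) (i J : ℕ) :
    ∑ s ∈ (Finset.Ico i J).powerset, Wt v s * ∏ g ∈ Finset.Ico i J, Qs C c v p0 Y s g
      ≤ ∏ g ∈ Finset.Ico i J, PG C c v p0 Y g := by
  have h1 : ∀ s ∈ (Finset.Ico i J).powerset, Wt v s * ∏ g ∈ Finset.Ico i J, Qs C c v p0 Y s g
      = ∏ g ∈ Finset.Ico i J, (if g ∈ s then DS (Sg v p0 Y g) * Real.exp (-(rg v g : ℝ))
          else q0 C c v p0 Y g) := by
    intro s hs
    rw [Finset.mem_powerset] at hs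
    unfold Qs
    rw [Wt_mul_prod hs]
    refine Finset.prod_congr rfl fun g _ => ?_
    split_ifs
    · unfold q1
      exact wt_cancel hv g _
    · rfl
  rw [Finset.sum_congr rfl h1, sum_powerset_ite]
  refine Finset.prod_le_prod (fun g _ => ?_) fun g _ => q_sum_le hC hp0 hc (hV g)
  have := DSg_pos (v := v) (Y := Y) hp0 g
  unfold q0
  positivity

lemma sum_Wt_As_le (hv : 1 ≤ v) (hC : 0 ≤ C) (hp0 : 1000 ≤ p0) (hc : |c| ≤ 1 / 1000)
    (hV : ∀ g, VV (Sg v p0 Y g) ≤ 2 * rg v g) {i J h : ℕ} (hh : h ∈ Finset.Ico i J) :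
    ∑ s ∈ (Finset.Ico i J).powerset, Wt v s * ((∏ g ∈ Finset.Ico i (h + 1), As C c v p0 Y s g)
        * ∏ g ∈ Finset.Ico (h + 1) J, Qs C c v p0 Y s g)
      ≤ (∏ g ∈ Finset.Ico i J, PG C c v p0 Y g)
        * Real.exp (∑ g ∈ Finset.Ico i (h + 1), (C + 1 + 16 * |c| * rg v g)) := by
  rw [Finset.mem_Ico] at hh
  have h1 : ∀ s ∈ (Finset.Ico i J).powerset,
      Wt v s * ((∏ g ∈ Finset.Ico i (h + 1), As C c v p0 Y s g)
        * ∏ g ∈ Finset.Ico (h + 1) J, Qs C c v p0 Y s g)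
      = ∏ g ∈ Finset.Ico i J, (if g ∈ s then
          (if g < h + 1 then DS (Sg v p0 Y g) * Real.exp (C - (rg v g : ℝ))
            else DS (Sg v p0 Y g) * Real.exp (-(rg v g : ℝ)))
          else (if g < h + 1 then a0 C c v p0 Y g else q0 C c v p0 Y g)) := by
    intro s hs
    rw [Finset.mem_powerset] at hs
    have h2 : (∏ g ∈ Finset.Ico i (h + 1), As C c v p0 Y s g)
        * ∏ g ∈ Finset.Ico (h + 1) J, Qs C c v p0 Y s g
        = ∏ g ∈ Finset.Ico i J, (if g ∈ s then (if g < h + 1 then a1 C v p0 Y g else q1 v p0 Y g)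
            else (if g < h + 1 then a0 C c v p0 Y g else q0 C c v p0 Y g)) := by
      rw [← Finset.prod_Ico_consecutive _ (show i ≤ h + 1 by omega) (show h + 1 ≤ J by omega)]
      congr 1
      · refine Finset.prod_congr rfl fun g hg => ?_
        rw [Finset.mem_Ico] at hg
        rw [if_pos hg.2, if_pos hg.2]
        rfl
      · refine Finset.prod_congr rfl fun g hg => ?_
        rw [Finset.mem_Ico] at hg
        rw [if_neg (by omega : ¬ g < h + 1), if_neg (by omega : ¬ g < h + 1)]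
        rfl
    rw [h2, Wt_mul_prod hs]
    refine Finset.prod_congr rfl fun g _ => ?_
    split_ifs
    · unfold a1
      exact wt_cancel hv g _
    · unfold q1
      exact wt_cancel hv g _
    · rfl
    · rfl
  rw [Finset.sum_congr rfl h1, sum_powerset_ite]
  have h3 : ∀ g ∈ Finset.Ico i J,
      ((if g < h + 1 then DS (Sg v p0 Y g) * Real.exp (C - (rg v g : ℝ))
            else DS (Sg v p0 Y g) * Real.exp (-(rg v g : ℝ)))
        + (if g < h + 1 then a0 C c v p0 Y g else q0 C c v p0 Y g))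
      ≤ PG C c v p0 Y g * (if g < h + 1 then Real.exp (C + 1 + 16 * |c| * rg v g) else 1) := by
    intro g _
    split_ifs
    · exact a_sum_le hC hp0 hc (hV g)
    · rw [mul_one]
      exact q_sum_le hC hp0 hc (hV g)
  refine (Finset.prod_le_prod (fun g _ => ?_) h3).trans ?_
  · have := DSg_pos (v := v) (Y := Y) hp0 g
    unfold q0 a0
    split_ifs <;> positivity
  rw [Finset.prod_mul_distrib, Real.exp_sum]
  refine le_of_eq ?_
  congr 1
  rw [← Finset.prod_Ico_consecutive _ (show i ≤ h + 1 by omega) (show h + 1 ≤ J by omega)]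
  have h4 : ∏ g ∈ Finset.Ico (h + 1) J,
      (if g < h + 1 then Real.exp (C + 1 + 16 * |c| * rg v g) else 1) = 1 := by
    refine Finset.prod_eq_one fun g hg => ?_
    rw [Finset.mem_Ico] at hg
    rw [if_neg (by omega : ¬ g < h + 1)]
  rw [h4, mul_one]
  refine Finset.prod_congr rfl fun g hg => ?_
  rw [Finset.mem_Ico] at hg
  rw [if_pos hg.2]

lemma DS_SU (hY : 0 ≤ Y) (i J : ℕ) :
    DS (SU v p0 Y i J) = ∏ g ∈ Finset.Ico i J, DS (Sg v p0 Y g) := by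
  unfold DS SU
  exact Finset.prod_biUnion fun g _ h _ hgh => sgDisj v p0 Y hY g h hgh

lemma V2_SU (hY : 0 ≤ Y) (i J : ℕ) :
    V2 (SU v p0 Y i J) = ∑ g ∈ Finset.Ico i J, V2 (Sg v p0 Y g) := by
  unfold V2 SU
  exact Finset.sum_biUnion fun g _ h _ hgh => sgDisj v p0 Y hY g h hgh

lemma V2_SU_le (hp0 : 1 ≤ p0) (i J : ℕ) : V2 (SU v p0 Y i J) ≤ 1 / p0 := by
  unfold V2
  refine MP_f9aece_nt_h6.sum_sq_Pall_le (Y := Y) hp0 _ fun p hp => ?_
  unfold SU at hp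
  obtain ⟨g, -, hg⟩ := Finset.mem_biUnion.mp hp
  rw [mem_Sg] at hg
  exact MP_f9aece_nt_h6.mem_Pall.mpr ⟨hg.1, hg.2.1, hg.2.2.1⟩

lemma sum_exp_half_le (hv : 2 ≤ v) (t : Finset ℕ) :
    ∑ g ∈ t, 2 * Real.exp (-(rg v g : ℝ) / 2) ≤ 4 * Real.exp (-(v : ℝ) / 2) := by
  have hv0 : (2 : ℝ) ≤ v := by exact_mod_cast hv
  have h1 : ∀ g : ℕ, 2 * Real.exp (-(rg v g : ℝ) / 2)
      ≤ 2 * Real.exp (-(v : ℝ) / 2) * (1 / 2 : ℝ) ^ g := by
    intro g
    have h2 : Real.exp (-(rg v g : ℝ) / 2) = Real.exp (-(v : ℝ) / 2) * Real.exp (-(v : ℝ) / 2) ^ g := by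
      rw [← Real.exp_nat_mul, ← Real.exp_add]
      congr 1
      unfold rg
      push_cast
      ring
    have h3 : Real.exp (-(v : ℝ) / 2) ≤ 1 / 2 := by
      have h4 : Real.exp (-(v : ℝ) / 2) ≤ Real.exp (-1) := Real.exp_le_exp.mpr (by linarith)
      refine h4.trans ?_
      rw [Real.exp_neg, inv_eq_one_div]
      apply one_div_le_one_div_of_le (by norm_num)
      have := Real.exp_one_gt_d9
      linarith
    rw [h2, ← mul_assoc]
    gcongr
  calc ∑ g ∈ t, 2 * Real.exp (-(rg v g : ℝ) / 2)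
      ≤ ∑ g ∈ t, 2 * Real.exp (-(v : ℝ) / 2) * (1 / 2 : ℝ) ^ g := Finset.sum_le_sum fun g _ => h1 g
    _ = 2 * Real.exp (-(v : ℝ) / 2) * ∑ g ∈ t, (1 / 2 : ℝ) ^ g := by rw [← Finset.mul_sum]
    _ ≤ 2 * Real.exp (-(v : ℝ) / 2) * 2 := by
        gcongr
        exact (summable_geometric_two.sum_le_tsum t fun g _ => by positivity).trans_eq
          tsum_geometric_two
    _ = _ := by ring

lemma prod_PG_le (hv : 2 ≤ v) (hC : 0 ≤ C) (hp0 : 1000 ≤ p0) (hY : 0 ≤ Y) (i J : ℕ) :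
    ∏ g ∈ Finset.Ico i J, PG C c v p0 Y g
      ≤ DS (SU v p0 Y i J) * Real.exp ((c ^ 2 + 4 * c) * Vs v p0 Y i J)
        * Real.exp (C / p0 + 4 * Real.exp (-(v : ℝ) / 2)) := by
  unfold PG
  rw [Finset.prod_mul_distrib, Finset.prod_mul_distrib, ← DS_SU hY, ← Real.exp_sum, ← Real.exp_sum,
    ← Finset.mul_sum]
  have hD : 0 < DS (SU v p0 Y i J) := by
    rw [DS_SU hY]
    exact Finset.prod_pos fun g _ => DSg_pos hp0 g
  have h1 : ∑ g ∈ Finset.Ico i J, er C v p0 Y g ≤ C / p0 + 4 * Real.exp (-(v : ℝ) / 2) := by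
    unfold er
    rw [Finset.sum_add_distrib, ← Finset.mul_sum, ← V2_SU hY]
    have h2 := V2_SU_le (v := v) (p0 := p0) (Y := Y) (by omega) i J
    have h3 := sum_exp_half_le hv (Finset.Ico i J)
    have h4 : C * V2 (SU v p0 Y i J) ≤ C / p0 := by
      calc C * V2 (SU v p0 Y i J) ≤ C * (1 / p0) := by gcongr
        _ = C / p0 := by ring
    linarith
  have h5 : Real.exp (∑ g ∈ Finset.Ico i J, er C v p0 Y g)
      ≤ Real.exp (C / p0 + 4 * Real.exp (-(v : ℝ) / 2)) := Real.exp_le_exp.mpr h1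
  have h6 : ∑ g ∈ Finset.Ico i J, VV (Sg v p0 Y g) = Vs v p0 Y i J := rfl
  rw [h6]
  gcongr

lemma geom_sum_le' (a : ℕ → ℝ) (ha : ∀ g, 0 ≤ a g) {i : ℕ} (h : ∀ g, i ≤ g → a (g + 1) ≤ a g / 2)
    (J : ℕ) : ∑ g ∈ Finset.Ico i J, a g ≤ 2 * a i := by
  rcases le_total J i with hJ | hJ
  · rw [Finset.Ico_eq_empty_of_le hJ, Finset.sum_empty]
    have := ha i
    linarith
  · have h1 : ∀ J, i ≤ J → ∑ g ∈ Finset.Ico i J, a g ≤ 2 * a i - 2 * a J := by
      intro J hJ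
      induction J, hJ using Nat.le_induction with
      | base => simp
      | succ J hJ ih =>
        rw [Finset.sum_Ico_succ_top hJ]
        have := h J hJ
        linarith
    have h2 := h1 J hJ
    have := ha J
    linarith

lemma exp_neg_one_le : Real.exp (-1) ≤ 1 / 2 := by
  rw [Real.exp_neg, inv_eq_one_div]
  apply one_div_le_one_div_of_le (by norm_num)
  have := Real.exp_one_gt_d9
  linarith

lemma sum_Yg_le (hv : 1 ≤ v) (hY : 0 < Y) (i J : ℕ) :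
    ∑ h ∈ Finset.Ico i J, Yg v Y h ≤ 2 * Yg v Y i := by
  refine geom_sum_le' _ (fun g => (Yg_pos v hY g).le) (fun g _ => ?_) J
  rw [Yg_succ]
  have h0 := Yg_pos v hY g
  have h1 : Real.exp (-(rg v g : ℝ)) ≤ 1 / 2 := by
    refine (Real.exp_le_exp.mpr ?_).trans exp_neg_one_le
    have : (1 : ℝ) ≤ rg v g := by exact_mod_cast one_le_rg hv g
    linarith
  calc Yg v Y g * Real.exp (-(rg v g : ℝ)) ≤ Yg v Y g * (1 / 2) := by gcongr
    _ = _ := by ring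

lemma sum_Yg_exp_le (hC : 0 ≤ C) (hv : 2 * (C + 2) ≤ v) (hc : |c| ≤ 1 / 1000) (hY : 0 < Y)
    (i J : ℕ) :
    ∑ h ∈ Finset.Ico i J, Yg v Y h * Real.exp (∑ g ∈ Finset.Ico i (h + 1), (C + 1 + 16 * |c| * rg v g))
      ≤ 2 * (Yg v Y i * Real.exp (C + 1 + 16 * |c| * rg v i)) := by
  have h := geom_sum_le' (i := i)
    (fun h => Yg v Y h * Real.exp (∑ g ∈ Finset.Ico i (h + 1), (C + 1 + 16 * |c| * rg v g)))
    (fun g => mul_nonneg (Yg_pos v hY g).le (Real.exp_pos _).le) (fun g hg => ?_) J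
  · refine h.trans (le_of_eq ?_)
    simp
  · rw [Yg_succ, Finset.sum_Ico_succ_top (by omega : i ≤ g + 1), Real.exp_add]
    have h0 := Yg_pos v hY g
    have h1 : Real.exp (-(rg v g : ℝ)) * Real.exp (C + 1 + 16 * |c| * rg v (g + 1)) ≤ 1 / 2 := by
      rw [← Real.exp_add]
      refine (Real.exp_le_exp.mpr ?_).trans exp_neg_one_le
      have h2 : (rg v (g + 1) : ℝ) ≤ 2 * rg v g := by
        unfold rg
        push_cast
        have h3 : (0 : ℝ) ≤ v := Nat.cast_nonneg v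
        have h4 : (0 : ℝ) ≤ (g : ℝ) := Nat.cast_nonneg g
        nlinarith [mul_nonneg h3 h4]
      have h3 : (v : ℝ) ≤ rg v g := by
        unfold rg
        push_cast
        have h3 : (0 : ℝ) ≤ v := Nat.cast_nonneg v
        have h4 : (0 : ℝ) ≤ (g : ℝ) := Nat.cast_nonneg g
        nlinarith [mul_nonneg h3 h4]
      have h4 : 16 * |c| * (rg v (g + 1) : ℝ) ≤ 16 * (1 / 1000) * (2 * rg v g) := by
        have := abs_nonneg c
        gcongr
      linarith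
    have h5 := Real.exp_pos (∑ k ∈ Finset.Ico i (g + 1), (C + 1 + 16 * |c| * rg v k))
    calc Yg v Y g * Real.exp (-(rg v g : ℝ))
          * (Real.exp (∑ k ∈ Finset.Ico i (g + 1), (C + 1 + 16 * |c| * rg v k))
            * Real.exp (C + 1 + 16 * |c| * rg v (g + 1)))
        = Yg v Y g * Real.exp (∑ k ∈ Finset.Ico i (g + 1), (C + 1 + 16 * |c| * rg v k))
          * (Real.exp (-(rg v g : ℝ)) * Real.exp (C + 1 + 16 * |c| * rg v (g + 1))) := by ring
      _ ≤ Yg v Y g * Real.exp (∑ k ∈ Finset.Ico i (g + 1), (C + 1 + 16 * |c| * rg v k)) * (1 / 2) := by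
          gcongr
      _ = _ := by ring

end

lemma EB_mono {S : Finset ℕ} {f : ℕ → ℝ} {E E' : ℝ} (h : EB S f E) (hE : E ≤ E') : EB S f E' :=
  fun s hs => (h s hs).trans hE

/-- the window lemma summed over the sets of groups -/
theorem FWsum (hFW : FW) (hE : BeExpo) (hP : BePow) (hEA : BeExpoAbs) (hPA : BePowAbs) :
    ∃ (C : ℝ) (v0 : ℕ), 0 ≤ C ∧ 2 ≤ v0 ∧ ∀ v p0 : ℕ, v0 ≤ v → 1000 ≤ p0 → ∀ (Y : ℝ) (i J : ℕ), 0 < Y →
    ∀ (f : ℝ → ℝ) (c A0 lm X1 X2 η : ℝ), |c| ≤ 1 / 1000 → 0 < lm → 0 ≤ A0 → 0 < η →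
    (∀ x, |f x| ≤ A0) → (∀ x y, |f x - f y| ≤ A0 / lm * |x - y|) →
    (∀ x, X2 ≤ x → f x = 0) → (∀ x, x ≤ X1 → f x = 0) →
    ∀ N : ℕ, X2 ≤ Real.log (N + 1) → ∀ R1 Rw : ℝ, 0 ≤ R1 → 0 ≤ Rw →
    (∀ s : Finset ℕ, (∀ r ∈ s, Rough (SU v p0 Y i J) r) →
      ∑ r ∈ s, dv r ^ 2 * f (Real.log r) ^ 2 / (r : ℝ) ≤ R1) →
    (∀ s : Finset ℕ, (∀ r ∈ s, Rough (SU v p0 Y i J) r ∧ Real.log r ≤ X2) →
      ∑ r ∈ s, dv r ^ 2 / (r : ℝ)
        * Real.exp (-(2 * (1 / (6 * Yg v Y i)) * max (X1 - Real.log r) 0)) ≤ Rw) →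
    ∑ s ∈ (Finset.Ico i J).powerset, Wt v s * En (DF f N * Bt c v p0 Y i J s)
      ≤ DS (SU v p0 Y i J) * Real.exp ((c ^ 2 + 4 * c) * Vs v p0 Y i J)
        * Real.exp (C / p0 + 4 * Real.exp (-(v : ℝ) / 2))
        * ((1 + η) * R1 + (1 + 1 / η) * (Rw * A0 ^ 2 * (C * (Yg v Y i / lm) ^ 2
          * Real.exp (16 * |c| * rg v i)))) := by
  obtain ⟨C1, hC1, hE⟩ := hE
  obtain ⟨C2, hC2, hEA⟩ := hEA
  obtain ⟨C3, hC3, hPA⟩ := hPA
  obtain ⟨v1, hV⟩ := vvSg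
  set C := max C1 (max C2 C3) with hCdef
  have hC1' : C1 ≤ C := le_max_left _ _
  have hC2' : C2 ≤ C := (le_max_left _ _).trans (le_max_right _ _)
  have hC3' : C3 ≤ C := (le_max_right _ _).trans (le_max_right _ _)
  have hC : 0 ≤ C := hC1.trans hC1'
  obtain ⟨v2, hv2⟩ := exists_nat_ge (2 * (C + 2))
  refine ⟨max C (144 * Real.exp (C + 1)), max (max v1 v2) 2, le_max_of_le_left hC, le_max_right _ _,
    fun v p0 hv hp0 Y i J hY f c A0 lm X1 X2 η hc hlm hA0 hη hf hlip hX2 hX1 N hN R1 Rw hR1 hRw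
      hR1' hRw' => ?_⟩
  have hv1 : v1 ≤ v := (le_max_left _ _).trans ((le_max_left _ _).trans hv)
  have hv2' : v2 ≤ v := (le_max_right _ _).trans ((le_max_left _ _).trans hv)
  have hv3 : 2 ≤ v := (le_max_right _ _).trans hv
  have hv0 : 1 ≤ v := by omega
  have hvC : 2 * (C + 2) ≤ v := hv2.trans (by exact_mod_cast hv2')
  have hV' : ∀ g, VV (Sg v p0 Y g) ≤ 2 * rg v g := fun g => hV v hv1 p0 Y g hY
  have hSg : ∀ g, ∀ p ∈ Sg v p0 Y g, p.Prime ∧ 1000 ≤ p :=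
    fun g p hp => ⟨Sg_prime p hp, hp0.trans (Sg_gt p hp).le⟩
  have hSg' : ∀ g, ∀ p ∈ Sg v p0 Y g, p.Prime ∧ 1000 ≤ p ∧ Real.log p ≤ Yg v Y g :=
    fun g p hp => ⟨Sg_prime p hp, hp0.trans (Sg_gt p hp).le, Sg_log_le p hp⟩
  have hc1 : |c| ≤ 1 := hc.trans (by norm_num)
  have hYp := Yg_pos v hY
  have hD := DSg_pos (v := v) (Y := Y) hp0
  set κ : ℝ := 1 / (6 * Yg v Y i) with hκ
  have hκ0 : 0 < κ := by
    have := hYp i
    rw [hκ]; positivity
  -- block energies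
  have hQ : ∀ s g, EB (Sg v p0 Y g) (cv (bg c v p0 Y s g) dv) (Qs C c v p0 Y s g) := by
    intro s g
    unfold bg Qs
    split_ifs
    · exact hP (Sg v p0 Y g) (rg v g) (hSg g) (one_le_rg hv0 g) (hV' g)
    · refine EB_mono (hE (Sg v p0 Y g) (rg v g) c (hSg g) (one_le_rg hv0 g) (hV' g) hc1) ?_
      unfold q0
      have h1 := V2_nonneg' (Sg v p0 Y g)
      have h2 := hD g
      gcongr
  have hA : ∀ s, ∀ g ∈ Finset.Ico i J, EB (Sg v p0 Y g)
      (cva (bg c v p0 Y s g) (fun n => dv n * (n : ℝ) ^ (κ + 1 / (6 * Yg v Y g))))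
      (As C c v p0 Y s g) := by
    intro s g hg
    rw [Finset.mem_Ico] at hg
    have h0 := hYp g
    have h0i := hYp i
    have h1 : Yg v Y g ≤ Yg v Y i := Yg_anti v hY hg.1
    have h2 : 0 ≤ κ + 1 / (6 * Yg v Y g) := by positivity
    have h3 : (κ + 1 / (6 * Yg v Y g)) * Yg v Y g ≤ 1 / 3 := by
      have h4 : κ ≤ 1 / (6 * Yg v Y g) := by
        rw [hκ]
        apply one_div_le_one_div_of_le (by positivity)
        linarith
      calc (κ + 1 / (6 * Yg v Y g)) * Yg v Y g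
          ≤ (1 / (6 * Yg v Y g) + 1 / (6 * Yg v Y g)) * Yg v Y g := by gcongr
        _ = 1 / 3 := by field_simp; norm_num
    unfold bg As
    split_ifs
    · refine EB_mono (hPA (Sg v p0 Y g) (rg v g) _ (Yg v Y g) (hSg' g) (one_le_rg hv0 g) (hV' g)
        h2 h3) ?_
      unfold a1
      have h2 := hD g
      gcongr
    · refine EB_mono (hEA (Sg v p0 Y g) (rg v g) c _ (Yg v Y g) (hSg' g) (one_le_rg hv0 g) (hV' g)
        hc1 h2 h3) ?_
      unfold a0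
      have h2 := hD g
      gcongr
  -- the window lemma for every set of groups
  set E1 : ℝ := ∑ h ∈ Finset.Ico i J, 6 * Yg v Y h / lm with hE1
  have hE1' : 0 ≤ E1 := Finset.sum_nonneg fun h _ => by
    have := hYp h
    positivity
  have key : ∀ s ∈ (Finset.Ico i J).powerset, Wt v s * En (DF f N * Bt c v p0 Y i J s)
      ≤ (1 + η) * (R1 * (Wt v s * ∏ g ∈ Finset.Ico i J, Qs C c v p0 Y s g))
        + (1 + 1 / η) * (Rw * A0 ^ 2 * E1 * ∑ h ∈ Finset.Ico i J, 6 * Yg v Y h / lm *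
          (Wt v s * ((∏ g ∈ Finset.Ico i (h + 1), As C c v p0 Y s g)
            * ∏ g ∈ Finset.Ico (h + 1) J, Qs C c v p0 Y s g))) := by
    intro s hs
    rw [Finset.mem_powerset] at hs
    rw [Bt_eq c v p0 Y i J hs]
    have h1 := hFW i J (Sg v p0 Y) (fun g => Sg_prime) (fun g h hgh => sgDisj v p0 Y hY.le g h hgh)
      (bg c v p0 Y s) (fun g n hn => sup_bg_Smo c v p0 Y s g n hn) (fun g => 6 * Yg v Y g)
      (fun g => by have := hYp g; positivity)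
      (fun g p hp => by
        have h2 := Sg_log_le p hp
        have := hYp g
        linarith)
      f A0 lm X1 X2 κ η hκ0 hlm hA0 hη hf hlip hX2 hX1 (Qs C c v p0 Y s) (As C c v p0 Y s)
      (Qs_nonneg hp0 s) (As_nonneg hp0 s) (fun g _ => hQ s g) (hA s) N hN R1 Rw hR1' hRw'
    have h2 := mul_le_mul_of_nonneg_left h1 (Wt_nonneg' v s)
    refine h2.trans (le_of_eq ?_)
    rw [mul_add]
    congr 1
    · ring
    · rw [← hE1]
      have e : ∀ h, 6 * Yg v Y h / lm * (Wt v s * ((∏ g ∈ Finset.Ico i (h + 1), As C c v p0 Y s g)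
            * ∏ g ∈ Finset.Ico (h + 1) J, Qs C c v p0 Y s g))
          = Wt v s * (6 * Yg v Y h / lm * ((∏ g ∈ Finset.Ico i (h + 1), As C c v p0 Y s g)
            * ∏ g ∈ Finset.Ico (h + 1) J, Qs C c v p0 Y s g)) := fun h => by ring
      rw [Finset.sum_congr rfl fun h _ => e h, ← Finset.mul_sum]
      ring
  refine (Finset.sum_le_sum key).trans ?_
  rw [Finset.sum_add_distrib, ← Finset.mul_sum, ← Finset.mul_sum, ← Finset.mul_sum, ← Finset.mul_sum,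
    Finset.sum_comm]
  set P : ℝ := ∏ g ∈ Finset.Ico i J, PG C c v p0 Y g with hPdef
  have hP0 : 0 ≤ P := Finset.prod_nonneg fun g _ => (PG_pos hp0 g).le
  have hQsum := sum_Wt_Qs_le hv0 hC hp0 hc hV' i J
  have hAsum : ∑ h ∈ Finset.Ico i J, ∑ s ∈ (Finset.Ico i J).powerset, 6 * Yg v Y h / lm *
      (Wt v s * ((∏ g ∈ Finset.Ico i (h + 1), As C c v p0 Y s g)
        * ∏ g ∈ Finset.Ico (h + 1) J, Qs C c v p0 Y s g))
      ≤ P * (12 / lm * (Yg v Y i * Real.exp (C + 1 + 16 * |c| * rg v i))) := by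
    have h1 : ∀ h ∈ Finset.Ico i J, ∑ s ∈ (Finset.Ico i J).powerset, 6 * Yg v Y h / lm *
        (Wt v s * ((∏ g ∈ Finset.Ico i (h + 1), As C c v p0 Y s g)
          * ∏ g ∈ Finset.Ico (h + 1) J, Qs C c v p0 Y s g))
        ≤ P * (6 / lm) * (Yg v Y h * Real.exp (∑ g ∈ Finset.Ico i (h + 1), (C + 1 + 16 * |c| * rg v g))) := by
      intro h hh
      rw [← Finset.mul_sum]
      have h2 := sum_Wt_As_le hv0 hC hp0 hc hV' hh
      have h3 := hYp h
      calc 6 * Yg v Y h / lm * _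
          ≤ 6 * Yg v Y h / lm * (P * Real.exp (∑ g ∈ Finset.Ico i (h + 1), (C + 1 + 16 * |c| * rg v g))) :=
            mul_le_mul_of_nonneg_left h2 (by positivity)
        _ = _ := by ring
    refine (Finset.sum_le_sum h1).trans ?_
    rw [← Finset.mul_sum]
    have h4 := sum_Yg_exp_le (i := i) (J := J) hC hvC hc hY
    calc P * (6 / lm) * _ ≤ P * (6 / lm) * (2 * (Yg v Y i * Real.exp (C + 1 + 16 * |c| * rg v i))) :=
          mul_le_mul_of_nonneg_left h4 (by positivity)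
      _ = _ := by ring
  have hE1b : E1 ≤ 12 / lm * Yg v Y i := by
    have e : E1 = 6 / lm * ∑ h ∈ Finset.Ico i J, Yg v Y h := by
      rw [hE1, Finset.mul_sum]
      exact Finset.sum_congr rfl fun h _ => by ring
    rw [e]
    have h4 := sum_Yg_le (i := i) (J := J) hv0 hY
    calc 6 / lm * ∑ h ∈ Finset.Ico i J, Yg v Y h ≤ 6 / lm * (2 * Yg v Y i) := by gcongr
      _ = _ := by ring
  have hYi := hYp i
  have hsecond : Rw * A0 ^ 2 * E1 * ∑ h ∈ Finset.Ico i J, ∑ s ∈ (Finset.Ico i J).powerset,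
      6 * Yg v Y h / lm * (Wt v s * ((∏ g ∈ Finset.Ico i (h + 1), As C c v p0 Y s g)
        * ∏ g ∈ Finset.Ico (h + 1) J, Qs C c v p0 Y s g))
      ≤ P * (Rw * A0 ^ 2 * (144 * Real.exp (C + 1) * (Yg v Y i / lm) ^ 2
          * Real.exp (16 * |c| * rg v i))) := by
    calc Rw * A0 ^ 2 * E1 * _
        ≤ Rw * A0 ^ 2 * (12 / lm * Yg v Y i)
          * (P * (12 / lm * (Yg v Y i * Real.exp (C + 1 + 16 * |c| * rg v i)))) := by
          refine mul_le_mul ?_ hAsum ?_ (by positivity)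
          · gcongr
          · refine Finset.sum_nonneg fun h _ => Finset.sum_nonneg fun s _ => ?_
            have h1 := hYp h
            have h2 := Wt_nonneg' v s
            have h3 := Finset.prod_nonneg fun g (_ : g ∈ Finset.Ico i (h + 1)) =>
              As_nonneg (C := C) (c := c) (v := v) (Y := Y) hp0 s g
            have h4 := Finset.prod_nonneg fun g (_ : g ∈ Finset.Ico (h + 1) J) =>
              Qs_nonneg (C := C) (c := c) (v := v) (Y := Y) hp0 s g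
            positivity
      _ = _ := by
          rw [show C + 1 + 16 * |c| * (rg v i : ℝ) = (C + 1) + 16 * |c| * rg v i by ring,
            Real.exp_add (C + 1)]
          ring
  have hPle := prod_PG_le (c := c) hv3 hC hp0 hY.le i J
  rw [← hPdef] at hPle
  have hfin : (1 + η) * (R1 * ∑ s ∈ (Finset.Ico i J).powerset, Wt v s *
      ∏ g ∈ Finset.Ico i J, Qs C c v p0 Y s g) + (1 + 1 / η) * (Rw * A0 ^ 2 * E1 *
      ∑ h ∈ Finset.Ico i J, ∑ s ∈ (Finset.Ico i J).powerset,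
      6 * Yg v Y h / lm * (Wt v s * ((∏ g ∈ Finset.Ico i (h + 1), As C c v p0 Y s g)
        * ∏ g ∈ Finset.Ico (h + 1) J, Qs C c v p0 Y s g)))
      ≤ P * ((1 + η) * R1 + (1 + 1 / η) * (Rw * A0 ^ 2 * (144 * Real.exp (C + 1)
        * (Yg v Y i / lm) ^ 2 * Real.exp (16 * |c| * rg v i)))) := by
    have h1 : (1 + η) * (R1 * ∑ s ∈ (Finset.Ico i J).powerset, Wt v s *
        ∏ g ∈ Finset.Ico i J, Qs C c v p0 Y s g) ≤ (1 + η) * (R1 * P) := by gcongr
    have h2 := mul_le_mul_of_nonneg_left hsecond (by positivity : 0 ≤ 1 + 1 / η)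
    linarith
  refine hfin.trans ?_
  have hDS : 0 ≤ DS (SU v p0 Y i J) := by
    rw [DS_SU hY.le]
    exact Finset.prod_nonneg fun g _ => (DSg_pos hp0 g).le
  have hp00 : (0 : ℝ) < p0 := by
    have : (1000 : ℝ) ≤ p0 := by exact_mod_cast hp0
    linarith
  have hPle' : P ≤ DS (SU v p0 Y i J) * Real.exp ((c ^ 2 + 4 * c) * Vs v p0 Y i J)
        * Real.exp (max C (144 * Real.exp (C + 1)) / p0 + 4 * Real.exp (-(v : ℝ) / 2)) := by
    refine hPle.trans ?_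
    have : C ≤ max C (144 * Real.exp (C + 1)) := le_max_left _ _
    gcongr
  refine mul_le_mul hPle' ?_ (by positivity) (by positivity)
  have : 144 * Real.exp (C + 1) ≤ max C (144 * Real.exp (C + 1)) := le_max_right _ _
  gcongr

end Pool.Agent.Lib.J4.H91
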