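import Pool.Agent.Lib.MP_f9aece_nt_j4.I2Sum

/-!
# JointFour, module I2: sizes of the block products
-/

set_option autoImplicit false

namespace Pool.Agent.Lib.J4

open Pool.Agent.Lib.MP_f9aece_nt (DP PP VV Smo expo)

/-! ### the functional `evha` -/

lemma evha_eq {f : DP} {t : Finset ℕ} (ht : f.coeff.support ⊆ t) :
    evha f = ∑ n ∈ t, |f.coeff n| / Real.sqrt n := by
  unfold evha
  refine Finset.sum_subset ht fun n _ hn => ?_
  rw [Finsupp.notMem_support_iff] at hn
  rw [hn]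
  simp

lemma evha_nonneg (f : DP) : 0 ≤ evha f := Finset.sum_nonneg fun _ _ => by positivity

lemma evha_zero : evha 0 = 0 := by simp [evha]

lemma evha_single (a : ℕ) (x : ℝ) : evha (MonoidAlgebra.single a x) = |x| / Real.sqrt a := by
  classical
  have h : (MonoidAlgebra.single a x : DP).coeff.support ⊆ {a} := by
    rw [MonoidAlgebra.coeff_single]
    exact Finsupp.support_single_subset
  rw [evha_eq h, Finset.sum_singleton, MonoidAlgebra.coeff_single, Finsupp.single_eq_same]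

lemma evha_one : evha 1 = 1 := by
  rw [MonoidAlgebra.one_def, evha_single]
  simp

lemma evha_add_le (f g : DP) : evha (f + g) ≤ evha f + evha g := by
  classical
  have h1 : (f + g).coeff.support ⊆ f.coeff.support ∪ g.coeff.support := by
    rw [MonoidAlgebra.coeff_add]
    exact Finsupp.support_add
  rw [evha_eq h1, evha_eq (f := f) (t := f.coeff.support ∪ g.coeff.support) Finset.subset_union_left,
    evha_eq (f := g) (t := f.coeff.support ∪ g.coeff.support) Finset.subset_union_right,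
    ← Finset.sum_add_distrib]
  refine Finset.sum_le_sum fun n _ => ?_
  rw [← add_div, MonoidAlgebra.coeff_add, Finsupp.add_apply]
  have := abs_add_le (f.coeff n) (g.coeff n)
  gcongr

lemma evha_sum_le {ι : Type} (s : Finset ι) (f : ι → DP) :
    evha (∑ i ∈ s, f i) ≤ ∑ i ∈ s, evha (f i) := by
  classical
  induction s using Finset.induction_on with
  | empty => simp [evha_zero]
  | insert a s ha ih =>
    rw [Finset.sum_insert ha, Finset.sum_insert ha]
    exact (evha_add_le _ _).trans (by gcongr)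

lemma evha_smul (c : ℝ) (f : DP) : evha (c • f) = |c| * evha f := by
  have h1 : (c • f).coeff.support ⊆ f.coeff.support := by
    rw [MonoidAlgebra.coeff_smul]
    exact Finsupp.support_smul
  rw [evha_eq h1]
  unfold evha
  rw [Finset.mul_sum]
  refine Finset.sum_congr rfl fun n _ => ?_
  rw [MonoidAlgebra.coeff_smul, Finsupp.smul_apply, smul_eq_mul, abs_mul, mul_div_assoc]

lemma evha_mul_le (f g : DP) : evha (f * g) ≤ evha f * evha g := by
  classical
  rw [MonoidAlgebra.mul_def, Finsupp.sum]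
  refine (evha_sum_le _ _).trans ?_
  unfold evha
  rw [Finset.sum_mul]
  refine Finset.sum_le_sum fun a _ => ?_
  rw [Finsupp.sum]
  refine (evha_sum_le _ _).trans ?_
  rw [Finset.mul_sum]
  refine Finset.sum_le_sum fun b _ => ?_
  rw [evha_single]
  refine le_of_eq ?_
  push_cast
  rw [abs_mul, Real.sqrt_mul (Nat.cast_nonneg a)]
  ring

lemma evha_pow_le (f : DP) (r : ℕ) : evha (f ^ r) ≤ evha f ^ r := by
  induction r with
  | zero => simp [evha_one]
  | succ r ih =>
    rw [pow_succ, pow_succ]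
    exact (evha_mul_le _ _).trans (mul_le_mul_of_nonneg_right ih (evha_nonneg _))

lemma evha_prod_le {ι : Type} (s : Finset ι) (f : ι → DP) :
    evha (∏ i ∈ s, f i) ≤ ∏ i ∈ s, evha (f i) := by
  classical
  induction s using Finset.induction_on with
  | empty => simp [evha_one]
  | insert a s ha ih =>
    rw [Finset.prod_insert ha, Finset.prod_insert ha]
    exact (evha_mul_le _ _).trans (mul_le_mul_of_nonneg_left ih (evha_nonneg _))

/-! ### the blocks -/

lemma evha_PP_le {I : Finset ℕ} {y : ℝ} (hI : ∀ p ∈ I, 1 ≤ p ∧ Real.log p ≤ y) :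
    evha (PP I) ≤ Real.exp y := by
  unfold PP
  refine (evha_sum_le _ _).trans ?_
  have h1 : ∀ p ∈ I, evha (MonoidAlgebra.single p 1) ≤ 1 := by
    intro p hp
    rw [evha_single, abs_one]
    have h2 : (1 : ℝ) ≤ Real.sqrt p := by
      rw [← Real.sqrt_one]
      apply Real.sqrt_le_sqrt
      exact_mod_cast (hI p hp).1
    rw [div_le_one (by linarith)]
    exact h2
  refine (Finset.sum_le_sum h1).trans ?_
  rw [Finset.sum_const, nsmul_eq_mul, mul_one]
  have h2 : I ⊆ Finset.Icc 1 ⌊Real.exp y⌋₊ := by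
    intro p hp
    obtain ⟨h3, h4⟩ := hI p hp
    rw [Finset.mem_Icc]
    refine ⟨h3, Nat.le_floor ?_⟩
    rw [← Real.log_le_iff_le_exp (by exact_mod_cast h3)]
    exact h4
  have h3 : (I.card : ℝ) ≤ (⌊Real.exp y⌋₊ : ℝ) := by
    have h4 := Finset.card_le_card h2
    rw [Nat.card_Icc] at h4
    exact_mod_cast (by omega : I.card ≤ ⌊Real.exp y⌋₊)
  exact h3.trans (Nat.floor_le (Real.exp_pos y).le)

lemma evha_expo_le {I : Finset ℕ} {y : ℝ} (hy : 0 ≤ y) (hI : ∀ p ∈ I, 1 ≤ p ∧ Real.log p ≤ y)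
    (c : ℝ) (K : ℕ) : evha (expo c K I) ≤ Real.exp |c| * Real.exp (K * y) := by
  unfold expo
  refine (evha_sum_le _ _).trans ?_
  have h1 : ∀ r ∈ Finset.range (K + 1), evha ((c ^ r / (r.factorial : ℝ)) • PP I ^ r)
      ≤ |c| ^ r / (r.factorial : ℝ) * Real.exp (K * y) := by
    intro r hr
    rw [Finset.mem_range] at hr
    rw [evha_smul, abs_div, abs_pow, Nat.abs_cast]
    have h2 : evha (PP I ^ r) ≤ Real.exp (K * y) := by
      refine (evha_pow_le _ _).trans ?_
      refine (pow_le_pow_left₀ (evha_nonneg _) (evha_PP_le hI) r).trans ?_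
      rw [← Real.exp_nat_mul]
      apply Real.exp_le_exp.mpr
      have : (r : ℝ) ≤ K := by exact_mod_cast (by omega : r ≤ K)
      gcongr
    gcongr
  refine (Finset.sum_le_sum h1).trans ?_
  rw [← Finset.sum_mul]
  have h3 := Real.sum_le_exp_of_nonneg (abs_nonneg c) (K + 1)
  gcongr

lemma Wt_le_one {v : ℕ} (hv : 1 ≤ v) (s : Finset ℕ) : Wt v s ≤ 1 := by
  unfold Wt
  refine Finset.prod_le_one (fun g _ => by unfold Rg; positivity) fun g _ => ?_
  have hr : 1 ≤ rg v g := one_le_rg hv g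
  have hr0 : (1 : ℝ) ≤ rg v g := by exact_mod_cast hr
  have hpos : 0 < Rg v g := by unfold Rg; linarith
  rw [div_le_one (by positivity)]
  have h1 : Real.exp (8 * Rg v g) = Real.exp 8000 ^ rg v g := by
    rw [← Real.exp_nat_mul]
    congr 1
    unfold Rg
    ring
  have h2 : Real.exp 8000 ≤ 5 ^ 100000 :=
    le_trans (Real.exp_le_exp.mpr (by norm_num)) exp_eight_thousand
  have h3 : (5 : ℝ) ≤ Rg v g := by unfold Rg; linarith
  rw [h1]
  calc Real.exp 8000 ^ rg v g ≤ (5 ^ 100000) ^ rg v g := by gcongr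
    _ = 5 ^ (100000 * rg v g) := by rw [← pow_mul]
    _ ≤ Rg v g ^ (100000 * rg v g) := by gcongr
    _ ≤ Rg v g ^ (2 * Mg v g) := by
        refine pow_le_pow_right₀ (by linarith) ?_
        unfold Mg
        omega

lemma Wt_nonneg (v : ℕ) (s : Finset ℕ) : 0 ≤ Wt v s :=
  Finset.prod_nonneg fun g _ => by unfold Rg; positivity

lemma evha_bg_le {v : ℕ} (p0 : ℕ) {Y : ℝ} (hY : 0 < Y) {c : ℝ} (hc : |c| ≤ 3) (s : Finset ℕ)
    (g : ℕ) : evha (bg c v p0 Y s g) ≤ Real.exp (3 + Mg v g * Yg v Y g) := by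
  have hY0 := (Yg_pos v hY g).le
  have hI : ∀ p ∈ Sg v p0 Y g, 1 ≤ p ∧ Real.log p ≤ Yg v Y g :=
    fun p hp => ⟨(Sg_prime p hp).one_le, Sg_log_le p hp⟩
  unfold bg
  split_ifs with h
  · refine (evha_pow_le _ _).trans ?_
    refine (pow_le_pow_left₀ (evha_nonneg _) (evha_PP_le hI) _).trans ?_
    rw [← Real.exp_nat_mul]
    apply Real.exp_le_exp.mpr
    linarith
  · refine (evha_expo_le hY0 hI c (Kg v g)).trans ?_
    rw [← Real.exp_add]
    apply Real.exp_le_exp.mpr
    have h1 : (Kg v g : ℝ) ≤ Mg v g := by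
      have : Kg v g ≤ Mg v g := by unfold Kg Mg; omega
      exact_mod_cast this
    have h2 : (Kg v g : ℝ) * Yg v Y g ≤ Mg v g * Yg v Y g := by gcongr
    linarith

/-- the number of groups -/
lemma J_le {v : ℕ} (hv : 2 ≤ v) {p0 : ℕ} (hp0 : 10 ≤ p0) {Y : ℝ} (hY : 0 < Y) {J : ℕ}
    (hJ : ∀ g < J, Real.log p0 < Yg v Y g) : (J : ℝ) ≤ 2 * Y := by
  have h1 : ∀ g ∈ Finset.range J, (1 : ℝ) ≤ ((g : ℝ) + 1) * Yg v Y g := by
    intro g hg
    have h2 := hJ g (Finset.mem_range.mp hg)
    have h3 : (1 : ℝ) ≤ Real.log p0 := by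
      rw [Real.le_log_iff_exp_le (by positivity)]
      have h4 := Real.exp_one_lt_d9
      have h5 : (10 : ℝ) ≤ p0 := by exact_mod_cast hp0
      linarith
    have h6 : (1 : ℝ) ≤ (g : ℝ) + 1 := by
      have := Nat.cast_nonneg (α := ℝ) g
      linarith
    nlinarith
  have h2 := Finset.sum_le_sum h1
  rw [Finset.sum_const, Finset.card_range, nsmul_eq_mul, mul_one] at h2
  have h3 := sum_rY_le hv hY 0 J
  rw [Nat.Ico_zero_eq_range, Yg_zero] at h3
  push_cast at h3
  linarith

theorem sum_Wt_evha_le {v : ℕ} (hv : 2 ≤ v) {p0 : ℕ} (hp0 : 10 ≤ p0) {Y : ℝ} (hY : 0 < Y) {J : ℕ}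
    (hJ : ∀ g < J, Real.log p0 < Yg v Y g) {c : ℝ} (hc : |c| ≤ 3) :
    ∑ s ∈ (Finset.range J).powerset, Wt v s * evha (Bt c v p0 Y 0 J s) ^ 2
      ≤ Real.exp (1000000 * v * Y) := by
  have hJ2 := J_le hv hp0 hY hJ
  have hv0 : (2 : ℝ) ≤ v := by exact_mod_cast hv
  have hM := sum_MY_le hv hY 0 J
  rw [Nat.Ico_zero_eq_range, Yg_zero] at hM
  push_cast at hM
  have h1 : ∀ s ∈ (Finset.range J).powerset, Wt v s * evha (Bt c v p0 Y 0 J s) ^ 2
      ≤ Real.exp (6 * J + 400000 * v * Y) := by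
    intro s hs
    rw [Finset.mem_powerset] at hs
    have h2 : evha (Bt c v p0 Y 0 J s) ≤ Real.exp (3 * J + 200000 * v * Y) := by
      rw [Bt_eq c v p0 Y 0 J (by rwa [Nat.Ico_zero_eq_range]), Nat.Ico_zero_eq_range]
      refine (evha_prod_le _ _).trans ?_
      refine (Finset.prod_le_prod (fun g _ => evha_nonneg _)
        (fun g _ => evha_bg_le p0 hY hc s g)).trans ?_
      rw [← Real.exp_sum, Finset.sum_add_distrib, Finset.sum_const, Finset.card_range,
        nsmul_eq_mul]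
      apply Real.exp_le_exp.mpr
      linarith
    calc Wt v s * evha (Bt c v p0 Y 0 J s) ^ 2
        ≤ 1 * Real.exp (3 * J + 200000 * v * Y) ^ 2 := by
          have h3 := Wt_le_one (by omega : 1 ≤ v) s
          have h4 := evha_nonneg (Bt c v p0 Y 0 J s)
          gcongr
      _ = Real.exp (6 * J + 400000 * v * Y) := by
          rw [one_mul, ← Real.exp_nat_mul]
          congr 1
          push_cast
          ring
  refine (Finset.sum_le_sum h1).trans ?_
  rw [Finset.sum_const, Finset.card_powerset, Finset.card_range, nsmul_eq_mul]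
  push_cast
  have h2 : (2 : ℝ) ^ J ≤ Real.exp J := by
    have h3 : (2 : ℝ) ≤ Real.exp 1 := by
      have := Real.exp_one_gt_d9
      linarith
    calc (2 : ℝ) ^ J ≤ Real.exp 1 ^ J := by gcongr
      _ = Real.exp J := by rw [← Real.exp_nat_mul, mul_one]
  calc (2 : ℝ) ^ J * Real.exp (6 * J + 400000 * v * Y)
      ≤ Real.exp J * Real.exp (6 * J + 400000 * v * Y) := by gcongr
    _ = Real.exp (J + (6 * J + 400000 * v * Y)) := by rw [← Real.exp_add]
    _ ≤ _ := by
        apply Real.exp_le_exp.mpr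
        nlinarith

theorem btSize : BtSize := by
  intro v p0 hv hp0 ρ hρ
  refine ⟨max 1 (1000000 * v / ρ), le_max_left _ _, fun Λ hΛ => ⟨2, by norm_num, fun T hT J hJ c hc => ?_⟩⟩
  have hΛ1 : 1 ≤ Λ := (le_max_left _ _).trans hΛ
  have hΛ2 : 1000000 * v / ρ ≤ Λ := (le_max_right _ _).trans hΛ
  have hΛ0 : 0 < Λ := by linarith
  have hT0 : 0 < T := by linarith
  have hL : 0 < Real.log T := Real.log_pos (by linarith)
  refine (sum_Wt_evha_le hv hp0 (div_pos hL hΛ0) hJ hc).trans ?_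
  rw [Real.rpow_def_of_pos hT0]
  apply Real.exp_le_exp.mpr
  rw [div_le_iff₀ hρ] at hΛ2
  have e : 1000000 * (v : ℝ) * (Real.log T / Λ) = Real.log T * (1000000 * v / Λ) := by ring
  rw [e]
  have h1 : 1000000 * (v : ℝ) / Λ ≤ ρ := by
    rw [div_le_iff₀ hΛ0]
    linarith
  gcongr

end Pool.Agent.Lib.J4
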