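import Mathlib
import Pool.Agent.Lib.MP_f9aece_nt_j4.Stmts
import Pool.Agent.Lib.MP_f9aece_nt_h20.ContZeta

/-!
The lower half to the right of the fourth moment: from weighted integrals to the shifted moments.
-/

set_option autoImplicit false

namespace Pool.Agent.Lib.J4

open MeasureTheory Set Filter Topology Complex
open Pool.Agent.Lib.MP_f9aece_nt (mom)
open Pool.Agent.Lib.MP_f9aece_nt_h20.Cz (continuous_zeta)

lemma trap_continuous (a b δ : ℝ) : Continuous (trap a b δ) := by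
  unfold trap
  fun_prop

lemma trap_nonneg (a b δ u : ℝ) : 0 ≤ trap a b δ u := le_max_left _ _

lemma trap_le_one (a b δ u : ℝ) : trap a b δ u ≤ 1 :=
  max_le zero_le_one (min_le_left _ _)

lemma trap_supp {a b δ u : ℝ} (hδ : 0 < δ) (h : trap a b δ u ≠ 0) : a < u ∧ u < b := by
  have h1 : 0 < min 1 (min ((u - a) / δ) ((b - u) / δ)) := by
    by_contra hc
    push Not at hc
    exact h (max_eq_left hc)
  have h2 := lt_min_iff.mp (lt_min_iff.mp h1).2
  have h3 := (div_pos_iff_of_pos_right hδ).mp h2.1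
  have h4 := (div_pos_iff_of_pos_right hδ).mp h2.2
  constructor <;> linarith

lemma trap_eq_one {a b δ u : ℝ} (hδ : 0 < δ) (h1 : a + δ ≤ u) (h2 : u ≤ b - δ) :
    trap a b δ u = 1 := by
  have h3 : 1 ≤ (u - a) / δ := by rw [le_div_iff₀ hδ]; linarith
  have h4 : 1 ≤ (b - u) / δ := by rw [le_div_iff₀ hδ]; linarith
  unfold trap
  rw [min_eq_left (le_min h3 h4), max_eq_right zero_le_one]

lemma trap_integrable {a b δ : ℝ} (hδ : 0 < δ) : Integrable (trap a b δ) := by
  refine (trap_continuous a b δ).integrable_of_hasCompactSupport ?_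
  refine HasCompactSupport.intro (isCompact_Icc (a := a) (b := b)) fun x hx => ?_
  by_contra h
  have := trap_supp hδ h
  exact hx ⟨this.1.le, this.2.le⟩

lemma trap_integral_ge {a b δ : ℝ} (hδ : 0 < δ) (hab : a + 2 * δ ≤ b) :
    b - a - 2 * δ ≤ ∫ u, trap a b δ u := by
  have h1 : ∫ u in Icc (a + δ) (b - δ), trap a b δ u ≤ ∫ u, trap a b δ u :=
    setIntegral_le_integral (trap_integrable hδ) (Eventually.of_forall fun u => trap_nonneg a b δ u)
  have h2 : ∫ u in Icc (a + δ) (b - δ), trap a b δ u = ∫ u in Icc (a + δ) (b - δ), (1 : ℝ) := by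
    refine setIntegral_congr_fun measurableSet_Icc fun u hu => ?_
    exact trap_eq_one hδ hu.1 hu.2
  rw [h2] at h1
  simp only [integral_const, MeasurableSet.univ, measureReal_restrict_apply, univ_inter,
    Real.volume_real_Icc, smul_eq_mul, mul_one] at h1
  have h3 := le_max_left (b - δ - (a + δ)) 0
  linarith

/-- the moment as an integral over an interval of the critical line -/
lemma mom_eq_integral {β x T : ℝ} (hT : 0 < T) :
    mom β x T = (∫ t in x..(x + T), ‖riemannZeta (1 / 2 + I * t)‖ ^ β) / T := by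
  have h2 := intervalIntegral.integral_comp_mul_add (a := 0) (b := 1)
    (fun t : ℝ => ‖riemannZeta (1 / 2 + I * t)‖ ^ β) hT.ne' x
  simp only [mul_zero, zero_add, mul_one, smul_eq_mul] at h2
  unfold mom
  rw [add_comm T x] at h2
  rw [div_eq_inv_mul _ T, ← h2]
  refine intervalIntegral.integral_congr fun u _ => ?_
  congr 3
  push_cast
  ring

/-- the logarithm of a slightly shorter range -/
lemma log_sub_abs_ge {x T : ℝ} (hT : 0 < T) (hxT : |x| * T⁻¹ ≤ 1 / 2) (hlogT : 1 ≤ Real.log T) :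
    Real.log T * (1 - 2 * |x| * T⁻¹) ≤ Real.log (T - |x|) := by
  have e1 : T - |x| = T * (1 - |x| * T⁻¹) := by field_simp
  have h4 : 0 < 1 - |x| * T⁻¹ := by linarith
  rw [e1, Real.log_mul hT.ne' h4.ne']
  have h5 := Real.one_sub_inv_le_log_of_pos h4
  have h6 : -(2 * (|x| * T⁻¹)) ≤ 1 - (1 - |x| * T⁻¹)⁻¹ := by
    have hu : ∀ u : ℝ, 0 < 1 - u → 1 - (1 - u)⁻¹ = -u / (1 - u) := by
      intro u hu
      field_simp
      ring
    have e2 := hu (|x| * T⁻¹) h4
    rw [e2, le_div_iff₀ h4]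
    have : 0 ≤ |x| * T⁻¹ := by positivity
    nlinarith
  have h7 : |x| * T⁻¹ ≤ Real.log T * (|x| * T⁻¹) := le_mul_of_one_le_left (by positivity) hlogT
  linarith

/-- module M2 -/
theorem lowerFour (hW : WgtTrap) (h : LowerW) : LowerFour := by
  intro x ε hε
  set c0 : ℝ := 1 / (2 * Real.pi ^ 2) with hc0
  have hpi := Real.pi_gt_three
  have hc0p : 0 < c0 := by positivity
  have hc01 : c0 ≤ 1 := by
    rw [hc0, div_le_one (by positivity)]
    nlinarith
  set e := min (ε / 4) (1 / 10) with he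
  have he0 : 0 < e := lt_min (by positivity) (by norm_num)
  have he1 : e ≤ 1 / 10 := min_le_right _ _
  have he2 : e ≤ ε / 4 := min_le_left _ _
  set θ := e / 3 with hθ
  have hθ0 : 0 < θ := by positivity
  have hθ1 : 3 * θ = e := by rw [hθ]; ring
  obtain ⟨C, hw⟩ := hW θ 1 θ hθ0 hθ0 (by linarith) (by norm_num)
  obtain ⟨a0, ha0, ha0', T1, hT1, h⟩ := h (trap θ 1 θ) θ C hθ0 (by linarith) hw e he0
  have hwi : 1 - e ≤ ∫ u, trap θ 1 θ u := by
    have := trap_integral_ge (a := θ) (b := 1) hθ0 (by linarith)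
    linarith
  have hxa : 0 ≤ |x| := abs_nonneg x
  have hlim : Tendsto (fun T : ℝ => (1 - |x| * T⁻¹) * (1 - 2 * |x| * T⁻¹) ^ 9) atTop
      (𝓝 ((1 - |x| * 0) * (1 - 2 * |x| * 0) ^ 9)) := by
    have h0 := tendsto_inv_atTop_zero (𝕜 := ℝ)
    exact ((h0.const_mul |x|).const_sub 1).mul (((h0.const_mul (2 * |x|)).const_sub 1).pow 9)
  simp only [mul_zero, sub_zero, mul_one, one_pow] at hlim
  have hev := hlim.eventually (lt_mem_nhds (show 1 - e < 1 by linarith))
  obtain ⟨T2, hT2⟩ := (hev.and (eventually_ge_atTop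
    (T1 + 4 * |x| + |x| / θ + Real.exp 1))).exists_forall_of_atTop
  refine ⟨4 * a0, by positivity, T2, ?_⟩
  intro β hβ hβ0 T hT
  obtain ⟨hTa, hTb⟩ := hT2 T hT
  have he1' : 1 ≤ Real.exp 1 := Real.one_le_exp zero_le_one
  have hxθ : 0 ≤ |x| / θ := by positivity
  have hTpos : 0 < T := by linarith
  set a := β / 4 - 1 with ha
  have ha00 : 0 ≤ a := by linarith
  have haa : a ≤ a0 := by linarith
  have hβa : 4 * (1 + a) = β := by rw [ha]; ring
  have hβa2 : 4 * (1 + a) ^ 2 = β ^ 2 / 4 := by rw [ha]; ring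
  have hβ6 : β ≤ 6 := by linarith
  have hs0 : 0 ≤ β ^ 2 / 4 := by positivity
  have hs9 : β ^ 2 / 4 ≤ 9 := by nlinarith
  have h3 := h a ha00 haa (T - |x|) (by linarith)
  rw [hβa, hβa2] at h3
  set F : ℝ → ℝ := fun t => ‖riemannZeta (1 / 2 + I * t)‖ ^ β with hF
  have hFc : Continuous F := continuous_zeta.norm.rpow_const fun _ => Or.inr (by linarith)
  have hF0 : ∀ t, 0 ≤ F t := fun t => by rw [hF]; positivity
  rw [mom_eq_integral hTpos, le_div_iff₀ hTpos]
  -- comparison of the integrals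
  have hTx : 0 < T - |x| := by linarith
  have h4 : ∫ t : ℝ, trap θ 1 θ (t / (T - |x|)) * F t ≤ ∫ t in x..(x + T), F t := by
    have hz : ∀ t, t ∉ Ioc x (x + T) → trap θ 1 θ (t / (T - |x|)) * F t = 0 := by
      intro t ht
      by_contra hc
      have h5 := trap_supp hθ0 (left_ne_zero_of_mul hc)
      have h6 : θ * (T - |x|) < t := (lt_div_iff₀ hTx).mp h5.1
      have h7 : t < 1 * (T - |x|) := (div_lt_iff₀ hTx).mp h5.2
      refine ht ⟨?_, ?_⟩
      · have h8 : |x| / θ ≤ T - |x| := by linarith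
        rw [div_le_iff₀ hθ0] at h8
        have := le_abs_self x
        linarith
      · have := neg_abs_le x
        linarith
    rw [← setIntegral_eq_integral_of_forall_compl_eq_zero hz,
      intervalIntegral.integral_of_le (by linarith)]
    have hc1 : Continuous fun t : ℝ => trap θ 1 θ (t / (T - |x|)) * F t :=
      ((trap_continuous θ 1 θ).comp (continuous_id.div_const _)).mul hFc
    refine setIntegral_mono_on ?_ ?_ measurableSet_Ioc fun t _ => ?_
    · exact (hc1.integrableOn_Icc (a := x) (b := x + T)).mono_set Ioc_subset_Icc_self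
    · exact (hFc.integrableOn_Icc (a := x) (b := x + T)).mono_set Ioc_subset_Icc_self
    · exact mul_le_of_le_one_left (hF0 t) (trap_le_one _ _ _ _)
  have hlogT : 1 ≤ Real.log T := by
    rw [Real.le_log_iff_exp_le hTpos]
    linarith
  have hxT : |x| * T⁻¹ ≤ 1 / 4 := by
    rw [← div_eq_mul_inv, div_le_iff₀ hTpos]
    linarith
  have hlog2 := log_sub_abs_ge (x := x) hTpos (by linarith) hlogT
  have hxT0 : 0 ≤ |x| * T⁻¹ := by positivity
  have hy0 : 0 < 1 - 2 * |x| * T⁻¹ := by linarith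
  have hy1 : 1 - 2 * |x| * T⁻¹ ≤ 1 := by linarith
  set lk := Real.log T ^ (β ^ 2 / 4) with hlk
  have hlk0 : 0 < lk := by positivity
  have h5 : lk * (1 - 2 * |x| * T⁻¹) ^ 9 ≤ Real.log (T - |x|) ^ (β ^ 2 / 4) := by
    calc lk * (1 - 2 * |x| * T⁻¹) ^ 9 ≤ lk * (1 - 2 * |x| * T⁻¹) ^ (β ^ 2 / 4) := by
          gcongr
          rw [← Real.rpow_natCast]
          refine Real.rpow_le_rpow_of_exponent_ge hy0 hy1 ?_
          push_cast
          exact hs9
      _ = (Real.log T * (1 - 2 * |x| * T⁻¹)) ^ (β ^ 2 / 4) := by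
          rw [Real.mul_rpow (by linarith) hy0.le]
      _ ≤ _ := by gcongr
  have h6 : (1 - 2 * e) * c0 * ((T - |x|) * (lk * (1 - 2 * |x| * T⁻¹) ^ 9))
      ≤ ∫ t in x..(x + T), F t := by
    refine le_trans ?_ (h3.trans h4)
    have : 0 ≤ T - |x| := hTx.le
    have h7 : 1 - 2 * e ≤ (∫ u, trap θ 1 θ u) - e := by linarith
    have h8 : 0 ≤ 1 - 2 * e := by linarith
    have h9 : 0 ≤ (∫ u, trap θ 1 θ u) - e := by linarith
    gcongr
  have h7 : (T - |x|) * (lk * (1 - 2 * |x| * T⁻¹) ^ 9)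
      = (T * lk) * ((1 - |x| * T⁻¹) * (1 - 2 * |x| * T⁻¹) ^ 9) := by
    field_simp
  rw [h7] at h6
  have h8 : (1 - 2 * e) * c0 * ((T * lk) * (1 - e))
      ≤ (1 - 2 * e) * c0 * ((T * lk) * ((1 - |x| * T⁻¹) * (1 - 2 * |x| * T⁻¹) ^ 9)) := by
    have : 0 ≤ 1 - 2 * e := by linarith
    gcongr
  have h9 : c0 - ε ≤ (1 - 2 * e) * c0 * (1 - e) := by
    have h10 : (1 - 2 * e) * c0 * (1 - e) = c0 - 3 * e * c0 + 2 * e ^ 2 * c0 := by ring
    have h11 : 3 * e * c0 ≤ 3 * e * 1 := by gcongr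
    have h12 : 0 ≤ 2 * e ^ 2 * c0 := by positivity
    linarith
  calc (c0 - ε) * lk * T = (c0 - ε) * (T * lk) := by ring
    _ ≤ (1 - 2 * e) * c0 * (1 - e) * (T * lk) := by gcongr
    _ = (1 - 2 * e) * c0 * ((T * lk) * (1 - e)) := by ring
    _ ≤ _ := h8
    _ ≤ _ := h6

end Pool.Agent.Lib.J4
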