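import Pool.Agent.Lib.MP_f9aece_nt_j4.KCore

/-!
Upper half for weighted integrals.
-/

set_option autoImplicit false

namespace Pool.Agent.Lib.J4

open MeasureTheory Set Filter Topology Complex

lemma H24.exists_kappa {F : ℝ → ℝ} {y : ℝ} (hF : ContinuousAt F 0) (h0 : F 0 < y) :
    ∃ κ : ℝ, 0 < κ ∧ κ ≤ 1 ∧ F κ ≤ y := by
  have h1 : ∀ᶠ κ in 𝓝 (0 : ℝ), F κ < y := hF.eventually (gt_mem_nhds h0)
  obtain ⟨δ, hδ, h2⟩ := Metric.eventually_nhds_iff.mp h1
  refine ⟨min (δ / 2) 1, lt_min (by positivity) one_pos, min_le_right _ _, (h2 ?_).le⟩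
  rw [Real.dist_eq, sub_zero, abs_of_pos (lt_min (by positivity) one_pos)]
  exact lt_of_le_of_lt (min_le_left _ _) (by linarith)

theorem upperW (hAFE : AFE) (hPU : PtUpper) (hPC : PtCap) (hMI : MainInt) (hSI : SuInt)
    (hWI : WinInt) (hShI : ShInt) (hEI : EdgeInt) (hMu : MuSum) (hVV : VVSg) (hVs : VsBounds)
    (hEJ : ExistsJ) : UpperW := by
  intro w θ C hθ hθ1 hw ε hε
  set w0 := ∫ u, w u with hw0
  have hpi : 0 < Real.pi := Real.pi_pos
  have hF : ContinuousAt (fun κ : ℝ => (1 + κ) ^ 4 * (2 * w0 + κ) / (4 * Real.pi ^ 2) + 9 * κ) 0 := by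
    refine Continuous.continuousAt ?_
    fun_prop
  have h0 : (fun κ : ℝ => (1 + κ) ^ 4 * (2 * w0 + κ) / (4 * Real.pi ^ 2) + 9 * κ) 0
      < (w0 + ε) * (1 / (2 * Real.pi ^ 2)) := by
    simp only [add_zero, one_pow, one_mul, mul_zero]
    rw [mul_one_div, div_lt_div_iff₀ (by positivity) (by positivity)]
    have : 0 < Real.pi ^ 2 * ε := by positivity
    nlinarith
  obtain ⟨κ, hκ, hκ1, hκF⟩ := H24.exists_kappa hF h0
  obtain ⟨a0, ha0, ha01, T0, hT0, h⟩ := H24.upper_core hAFE hPU hPC hMI hSI hWI hShI hEI hMu hVV hVs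
    hEJ hθ hθ1 hw hκ hκ1
  refine ⟨a0, ha0, ha01, T0, hT0, fun a ha haa T hT => (h a ha haa T hT).trans ?_⟩
  refine mul_le_mul_of_nonneg_right hκF ?_
  have hTpos : 0 < T := by linarith
  have hL : 0 ≤ Real.log T := Real.log_nonneg (by linarith)
  positivity

end Pool.Agent.Lib.J4
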