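import Pool.Agent.Lib.MP_f9aece_nt_j4.LPar
import Pool.Agent.Lib.MP_f9aece_nt_j4.UpperW

/-!
Lower half for weighted integrals.
-/

set_option autoImplicit false

namespace Pool.Agent.Lib.J4

open MeasureTheory Set Filter Topology Complex
open scoped ComplexConjugate
open Pool.Agent.Lib.MP_f9aece_nt (DP pair BK K1 ev ev1 evh PP VV Smo expo EE mom)
open Pool.Agent.H20.Chi (chi)

namespace H24

lemma single_le_S {v p0 J : ℕ} {c Y : ℝ} (D : DP) :
    En (D * Bt c v p0 Y 0 J ∅) ≤ ∑ s ∈ (Finset.range J).powerset, Wt v s *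
      En (D * Bt c v p0 Y 0 J s) := by
  have hmem : (∅ : Finset ℕ) ∈ (Finset.range J).powerset := Finset.empty_mem_powerset _
  have h1 := Finset.single_le_sum (f := fun s => Wt v s * En (D * Bt c v p0 Y 0 J s))
    (fun s _ => mul_nonneg (Wt_nonneg v s) (En_nonneg24 _)) hmem
  have h2 : Wt v ∅ = 1 := by simp [Wt]
  simp only [h2, one_mul] at h1
  exact h1

theorem lower_core {CA T1 : ℝ} {w : ℝ → ℝ} {θ C : ℝ} (hCA : 0 ≤ CA)
    (hAFE : ∀ T : ℝ, T1 ≤ T → ∀ t : ℝ, θ * T ≤ t → t ≤ 2 * T →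
    ‖riemannZeta (1 / 2 + I * t) ^ 2
      - (ev t (Lo T) + chi t ^ 2 * conj (ev t (Lot T t)) + ev t (Ce T))‖ ≤ CA)
    (hPL : PtLower) (hMI : MainInt) (hSI : SuInt) (hMu : MuSum) (hMl : MlSum) (hM : MVT)
    (hO : OscSumTau) (hB : BtLen) (hZ : BtSize) (hD : D2Sum) (hVs : VsBounds) (hEJ : ExistsJ)
    (hθ : 0 < θ) (hθ1 : θ ≤ 1) (hw : Wgt w θ C) {κ : ℝ} (hκ : 0 < κ) (hκ1 : κ ≤ 1) :
    ∃ a0 : ℝ, 0 < a0 ∧ a0 ≤ 1 / 2 ∧ ∃ T0 : ℝ, 1 ≤ T0 ∧ ∀ a : ℝ, 0 ≤ a → a ≤ a0 →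
    ∀ T : ℝ, T0 ≤ T →
    ((4 * (∫ u, w u) * (1 - κ) - (1 + 2 * κ) * (1 + κ) ^ 2 * (2 * (∫ u, w u) + κ)
        - 6 * CA * κ * ((∫ u, w u) + 1)
        - κ * |4 * (∫ u, w u) * (1 - κ) - (1 + 2 * κ) * (1 + κ) ^ 2 * (2 * (∫ u, w u) + κ)
          - 6 * CA * κ * ((∫ u, w u) + 1)|) / (4 * Real.pi ^ 2) - 21 * κ)
        * (T * Real.log T ^ (4 * (1 + a) ^ 2))
      ≤ ∫ t : ℝ, w (t / T) * ‖riemannZeta (1 / 2 + I * t)‖ ^ (4 * (1 + a)) := by
  obtain ⟨CV, hCV, hVs⟩ := hVs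
  obtain ⟨vb, hSI⟩ := hSI
  obtain ⟨C2s, hC2s, hSI⟩ := hSI w θ C hθ hθ1 hw
  obtain ⟨ve, pe, hMu⟩ := hMu κ hκ
  obtain ⟨vg, pg, hMl⟩ := hMl κ hκ
  obtain ⟨vf, hvf⟩ : ∃ vf : ℕ, ∀ v : ℕ, vf ≤ v → Real.exp (Real.exp (-(v : ℝ))) ≤ 1 + κ := by
    have h1 : Tendsto (fun v : ℕ => Real.exp (Real.exp (-(v : ℝ)))) atTop (𝓝 (Real.exp 0)) :=
      (Real.continuous_exp.tendsto 0).comp
        (Real.tendsto_exp_neg_atTop_nhds_zero.comp tendsto_natCast_atTop_atTop)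
    rw [Real.exp_zero] at h1
    have h2 := h1.eventually (gt_mem_nhds (show (1 : ℝ) < 1 + κ by linarith))
    obtain ⟨vf, hvf⟩ := eventually_atTop.mp h2
    exact ⟨vf, fun v hv => (hvf v hv).le⟩
  set v : ℕ := max (max vb ve) (max (max vg vf) 2) with hv
  have hvb : vb ≤ v := by simp only [hv]; omega
  have hve : ve ≤ v := by simp only [hv]; omega
  have hvg : vg ≤ v := by simp only [hv]; omega
  have hvf' : vf ≤ v := by simp only [hv]; omega
  have hv2 : 2 ≤ v := by simp only [hv]; omega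
  clear_value v
  set p0 : ℕ := max (max pe pg) 10 with hp
  have hpe : pe ≤ p0 := by simp only [hp]; omega
  have hpg : pg ≤ p0 := by simp only [hp]; omega
  have hp10 : 10 ≤ p0 := by simp only [hp]; omega
  clear_value p0
  set E := Real.exp (Real.exp (-(v : ℝ))) with hE
  have hE1 : E ≤ 1 + κ := hvf v hvf'
  have hE0 : 0 < E := Real.exp_pos _
  obtain ⟨Λs, hΛs, hSI⟩ := hSI v p0 hvb hp10
  obtain ⟨σ0, hσ0, hMl⟩ := hMl v p0 hvg hpg
  set σ := min (1 / 4) σ0 with hσdef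
  have hσ : 0 < σ := lt_min (by norm_num) hσ0
  have hσ1 : σ ≤ 1 / 4 := min_le_left _ _
  have hσ2 : σ ≤ σ0 := min_le_right _ _
  clear_value σ
  obtain ⟨Λm, hΛm, hMI⟩ := hMI w θ C hθ hθ1 hw v p0 hv2 hp10 σ hσ hσ1
  obtain ⟨Λu, hΛu, hMu⟩ := hMu v p0 hve hpe σ hσ hσ1
  obtain ⟨Λl, hΛl, hMl⟩ := hMl σ hσ hσ2
  obtain ⟨Λe, hΛe, hErr⟩ := err_terms hM hO hB hZ hD hθ hθ1 hw hv2 hp10 hσ hσ1
  set Λ := max (max Λs Λm) (max Λu (max Λl Λe)) with hΛ
  have hΛ1 : Λs ≤ Λ := (le_max_left _ _).trans (le_max_left _ _)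
  have hΛ2 : Λm ≤ Λ := (le_max_right _ _).trans (le_max_left _ _)
  have hΛ3 : Λu ≤ Λ := (le_max_left _ _).trans (le_max_right _ _)
  have hΛ4 : Λl ≤ Λ := ((le_max_left _ _).trans (le_max_right _ _)).trans (le_max_right _ _)
  have hΛ5 : Λe ≤ Λ := ((le_max_right _ _).trans (le_max_right _ _)).trans (le_max_right _ _)
  clear_value Λ
  have hΛ7 : 1 ≤ Λ := hΛs.trans hΛ1
  have hΛ0 : 0 < Λ := by linarith
  obtain ⟨Ts, hTs, hSI⟩ := hSI Λ hΛ1
  obtain ⟨Tm, hTm, hMI⟩ := hMI Λ hΛ2 κ hκ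
  obtain ⟨Tu, hTu, hMu⟩ := hMu Λ hΛ3
  obtain ⟨Tl, hTl, hMl⟩ := hMl Λ hΛ4
  obtain ⟨Te, hTe, hErr⟩ := hErr Λ hΛ5 κ hκ
  set K0 := Real.log Λ + 2 + Real.log p0 with hK0
  have hK00 : 0 ≤ K0 := by
    have h1 : 0 ≤ Real.log Λ := Real.log_nonneg hΛ7
    have h2 : 0 ≤ Real.log p0 := Real.log_natCast_nonneg p0
    linarith
  set w0 := ∫ u, w u with hw0
  have hw00 : 0 ≤ w0 := integral_nonneg hw.nonneg
  set Q3 := C2s * Real.exp (9 * CV) with hQ3
  have hQ30 : 0 ≤ Q3 := by positivity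
  set Q4 := 3 * CA / κ * (C2s * Real.exp CV) with hQ4
  have hQ40 : 0 ≤ Q4 := by positivity
  set ML := max Λ (Q4 / κ) with hML
  set a0 : ℝ := min (min (min (1 / 2000) κ) (κ / (24 * (K0 + CV + 1)))) (κ / (Q3 + 1)) with ha0
  refine ⟨a0, ?_, ?_, max (max (max Ts Tm) (max Tu Tl)) (max (max Te (Real.exp ML)) T1), ?_, ?_⟩
  · rw [ha0]
    exact lt_min (lt_min (lt_min (by norm_num) hκ) (by positivity)) (by positivity)
  · have h1 : a0 ≤ 1 / 2000 := ((min_le_left _ _).trans (min_le_left _ _)).trans (min_le_left _ _)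
    linarith
  · exact hTs.trans ((le_max_left _ _).trans ((le_max_left _ _).trans (le_max_left _ _)))
  intro a ha haa T hT
  have hT1' : Ts ≤ T := ((le_max_left _ _).trans ((le_max_left _ _).trans (le_max_left _ _))).trans hT
  have hT2' : Tm ≤ T := ((le_max_right _ _).trans ((le_max_left _ _).trans (le_max_left _ _))).trans hT
  have hT3' : Tu ≤ T := ((le_max_left _ _).trans ((le_max_right _ _).trans (le_max_left _ _))).trans hT
  have hT4' : Tl ≤ T := ((le_max_right _ _).trans ((le_max_right _ _).trans (le_max_left _ _))).trans hT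
  have hT5' : Te ≤ T := ((le_max_left _ _).trans ((le_max_left _ _).trans (le_max_right _ _))).trans hT
  have hT6' : Real.exp ML ≤ T :=
    ((le_max_right _ _).trans ((le_max_left _ _).trans (le_max_right _ _))).trans hT
  have hT7' : T1 ≤ T := ((le_max_right _ _).trans (le_max_right _ _)).trans hT
  clear hT
  have hTpos : 0 < T := (Real.exp_pos _).trans_le hT6'
  set L := Real.log T with hL
  have hLM : ML ≤ L := by rw [hL, Real.le_log_iff_exp_le hTpos]; exact hT6'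
  have hLΛ : Λ ≤ L := (le_max_left _ _).trans hLM
  have hLQ : Q4 / κ ≤ L := (le_max_right _ _).trans hLM
  have hL1 : 1 ≤ L := hΛ7.trans hLΛ
  have hL0 : 0 < L := by linarith
  have hY1 : 1 ≤ L / Λ := by rw [le_div_iff₀ hΛ0]; linarith
  have hY0 : 0 < L / Λ := by linarith
  obtain ⟨J, hJ⟩ := hEJ v p0 (by omega) (by omega) (L / Λ) hY0
  obtain ⟨hVlo, hVhi⟩ := Jok_Vs hVs (by omega : 1 ≤ p0) hΛ7 hLΛ hJ
  set V := Vs v p0 (L / Λ) 0 J with hVdef
  have ha1 : a ≤ 1 / 2000 :=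
    haa.trans (((min_le_left _ _).trans (min_le_left _ _)).trans (min_le_left _ _))
  have haκ : a ≤ κ :=
    haa.trans (((min_le_left _ _).trans (min_le_left _ _)).trans (min_le_right _ _))
  have ha3 : 24 * a * (K0 + CV + 1) ≤ κ := by
    have h1 : a ≤ κ / (24 * (K0 + CV + 1)) := haa.trans ((min_le_left _ _).trans (min_le_right _ _))
    rw [le_div_iff₀ (by positivity)] at h1
    linarith
  have ha3K : 12 * a * K0 ≤ κ := by
    have h1 : 0 ≤ a * K0 := mul_nonneg ha hK00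
    have h2 : 0 ≤ a * CV := mul_nonneg ha hCV
    clear * - h1 h2 ha3 ha
    nlinarith
  have ha3C : 12 * a * CV ≤ κ / 2 := by
    have h1 : 0 ≤ a * K0 := mul_nonneg ha hK00
    have h2 : 0 ≤ a * CV := mul_nonneg ha hCV
    clear * - h1 h2 ha3 ha
    nlinarith
  have ha4 : a * Q3 ≤ κ := by
    have h1 : a ≤ κ / (Q3 + 1) := haa.trans (min_le_right _ _)
    rw [le_div_iff₀ (by positivity)] at h1
    clear * - h1 ha
    nlinarith
  have ha12 : a ≤ 1 / 2 := ha1.trans (by norm_num)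
  have ha10 : a ≤ 1 := ha1.trans (by norm_num)
  have hc : |2 * a| ≤ 1 / 1000 := by
    rw [abs_of_nonneg (by positivity)]; clear * - ha1; linarith
  have hc3 : |2 * a| ≤ 3 := hc.trans (by norm_num)
  have hc4 : |2 * (1 + a)| ≤ 3 := by
    rw [abs_of_nonneg (by positivity)]; clear * - ha12; linarith
  set X := T * L ^ (4 * (1 + a) ^ 2) with hX
  have hLr : 1 ≤ L ^ (4 * (1 + a) ^ 2) := Real.one_le_rpow hL1 (by positivity)
  have hTX : T ≤ X := by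
    rw [hX]
    exact le_mul_of_one_le_right hTpos.le hLr
  have hX00 : 0 < X := hTpos.trans_le hTX
  set G := Real.exp (((2 * a) ^ 2 + 4 * (2 * a)) * V) with hG
  have hG0 : 0 < G := Real.exp_pos _
  set m := L ^ 4 / (4 * Real.pi ^ 2) * G with hm
  have hm0 : 0 ≤ m := by positivity
  -- the pieces
  have pM := hMI T hT2' J hJ.2 (2 * a) hc3
  have pMu := hMu T hT3' J hJ (2 * a) hc
  have pMl := hMl T hT4' J hJ (2 * a) (by positivity) (by rw [abs_of_nonneg (by positivity)] at hc; exact hc)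
  have pS := hSI T hT1' J (2 * (1 + a)) hc4
  have pA := hSI T hT1' J (2 * a) hc3
  obtain ⟨p1, p2, p3⟩ := hErr T hT5' J hJ.2 a ha ha12
  set S := ∑ s ∈ (Finset.range J).powerset, Wt v s *
      En (Dm σ T * Bt (2 * a) v p0 (L / Λ) 0 J s) with hS
  have hS0 : 0 ≤ S :=
    Finset.sum_nonneg fun s _ => mul_nonneg (Wt_nonneg v s) (En_nonneg24 _)
  set Q := En (Am a v p0 (L / Λ) J * Dm σ T) with hQ
  have hQ' : Q = En (Dm σ T * Bt (2 * a) v p0 (L / Λ) 0 J ∅) := by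
    rw [hQ, mul_comm]; rfl
  have hmain := lowerT hPL (Λ := Λ) (σ := σ) (J := J) (a := a) (κ := κ) (p0 := p0) hθ hw
    (by omega : 1 ≤ v) ha ha12 hκ hCA hTpos (fun t h1 h2 => hAFE T hT7' t h1 h2) pM pS pA p3
  have hTm : T * m = (T * (L ^ 4 * G)) / (4 * Real.pi ^ 2) := by
    rw [hm]; ring
  have hXlo : (1 - κ) * X ≤ T * (L ^ 4 * G) := by
    have h1 := Llo hL1 ha ha10 hVlo hK00 ha3K
    calc (1 - κ) * X = T * ((1 - κ) * L ^ (4 * (1 + a) ^ 2)) := by rw [hX]; ring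
      _ ≤ _ := mul_le_mul_of_nonneg_left h1 hTpos.le
  have hXhi : T * (L ^ 4 * G) ≤ (1 + κ) * X := by
    have h1 := Lhi hL1 ha ha10 hVhi hCV hκ hκ1 ha3C
    calc T * (L ^ 4 * G) ≤ T * ((1 + κ) * L ^ (4 * (1 + a) ^ 2)) :=
          mul_le_mul_of_nonneg_left h1 hTpos.le
      _ = _ := by rw [hX]; ring
  have haS : a * (C2s * T * Real.exp ((2 * (1 + a)) ^ 2 * V)) ≤ κ * X := by
    have h1 := Lsu hL1 ha ha12 hVhi hCV
    calc a * (C2s * T * Real.exp ((2 * (1 + a)) ^ 2 * V))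
        ≤ a * (C2s * T * (Real.exp (9 * CV) * L ^ (4 * (1 + a) ^ 2))) := by gcongr
      _ = a * Q3 * X := by rw [hQ3, hX]; ring
      _ ≤ _ := mul_le_mul_of_nonneg_right ha4 hX00.le
  have hBA : 3 * CA / κ * (C2s * T * Real.exp ((2 * a) ^ 2 * V)) ≤ κ * X := by
    have h1 := Lsa hL1 ha ha12 hVhi hCV
    have h2 : L ^ 2 ≤ L ^ (4 * (1 + a) ^ 2) := by
      rw [← Real.rpow_natCast]
      refine Real.rpow_le_rpow_of_exponent_le hL1 ?_
      push_cast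
      clear * - ha
      nlinarith
    calc 3 * CA / κ * (C2s * T * Real.exp ((2 * a) ^ 2 * V))
        ≤ 3 * CA / κ * (C2s * T * (Real.exp CV * L)) := by gcongr
      _ = Q4 * (T * L) := by rw [hQ4]; ring
      _ ≤ (κ * L) * (T * L) := by
          refine mul_le_mul_of_nonneg_right ?_ (by positivity)
          rw [div_le_iff₀ hκ] at hLQ
          linarith
      _ = κ * (T * L ^ 2) := by ring
      _ ≤ κ * (T * L ^ (4 * (1 + a) ^ 2)) := by gcongr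
      _ = κ * X := by rw [hX]
  have hQlo : (1 - κ) * m ≤ Q := by
    rw [hQ', hm]
    calc (1 - κ) * (L ^ 4 / (4 * Real.pi ^ 2) * G) = (1 - κ) * (L ^ 4 / (4 * Real.pi ^ 2)) * G := by
          ring
      _ ≤ _ := pMl
  have hQhi : Q ≤ S := by rw [hQ']; exact single_le_S _
  have hSm : S ≤ (1 + κ) * m := by
    calc S ≤ (1 + κ) * (L ^ 4 / (4 * Real.pi ^ 2)) * G := pMu
      _ = _ := by rw [hm]; ring
  exact Lfinal (C2s := C2s) (EV := Real.exp ((2 * (1 + a)) ^ 2 * V)) hκ hκ1 ha haκ ha12 hw00 hCA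
    hTpos hE0 hE1 hm0 hmain p1 p2 hQlo hQhi hSm hS0 rfl rfl rfl haS hBA (by positivity)
    (by positivity) hTm hTX hXlo hXhi

end H24

theorem lowerW (hAFE : AFE) (hPL : PtLower) (hMI : MainInt) (hSI : SuInt) (hMu : MuSum)
    (hMl : MlSum) (hM : MVT) (hO : OscSumTau) (hB : BtLen) (hZ : BtSize) (hD : D2Sum)
    (hVs : VsBounds) (hEJ : ExistsJ) : LowerW := by
  intro w θ C hθ hθ1 hw ε hε
  obtain ⟨CA, T1, hCA, hT1, hAFE⟩ := hAFE θ hθ hθ1
  set w0 := ∫ u, w u with hw0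
  have hw00 : 0 ≤ w0 := integral_nonneg hw.nonneg
  have hpi : 0 < Real.pi := Real.pi_pos
  set F : ℝ → ℝ := fun κ => (4 * w0 * (1 - κ) - (1 + 2 * κ) * (1 + κ) ^ 2 * (2 * w0 + κ)
        - 6 * CA * κ * (w0 + 1)
        - κ * |4 * w0 * (1 - κ) - (1 + 2 * κ) * (1 + κ) ^ 2 * (2 * w0 + κ)
          - 6 * CA * κ * (w0 + 1)|) / (4 * Real.pi ^ 2) - 21 * κ with hFdef
  have hF : ContinuousAt (fun κ => -F κ) 0 := by
    refine Continuous.continuousAt ?_
    rw [hFdef]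
    fun_prop
  have h0 : (fun κ => -F κ) 0 < -((w0 - ε) * (1 / (2 * Real.pi ^ 2))) := by
    have h1 : F 0 = 2 * w0 / (4 * Real.pi ^ 2) := by
      rw [hFdef]
      simp only [sub_zero, mul_one, mul_zero, add_zero, one_pow, one_mul, zero_mul]
      congr 1
      ring
    simp only []
    rw [h1, neg_lt_neg_iff, mul_one_div, div_lt_div_iff₀ (by positivity) (by positivity)]
    have : 0 < Real.pi ^ 2 * ε := by positivity
    nlinarith
  obtain ⟨κ, hκ, hκ1, hκF⟩ := H24.exists_kappa hF h0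
  obtain ⟨a0, ha0, ha01, T0, hT0, h⟩ := H24.lower_core hCA hAFE hPL hMI hSI hMu hMl hM hO hB hZ hD
    hVs hEJ hθ hθ1 hw hκ hκ1
  refine ⟨a0, ha0, ha01, T0, hT0, fun a ha haa T hT => le_trans ?_ (h a ha haa T hT)⟩
  have hκF' : (w0 - ε) * (1 / (2 * Real.pi ^ 2)) ≤ F κ := by linarith
  refine mul_le_mul_of_nonneg_right hκF' ?_
  have hTpos : 0 < T := by linarith
  have hL : 0 ≤ Real.log T := Real.log_nonneg (by linarith)
  positivity

end Pool.Agent.Lib.J4
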