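import Pool.Agent.Lib.MP_f9aece_nt_j4.MlBase
import Pool.Agent.Lib.MP_f9aece_nt_j4.FWsum

/-!
# JointFour, module MlSum: the lower bound for the main term
-/

set_option autoImplicit false

namespace Pool.Agent.Lib.J4.H29

open Pool.Agent.Lib.MP_f9aece_nt
  (DP pair BK K1 ev ev1 evh PP VV Smo expo EE log_le_of_Omega)
open Pool.Agent.Lib.MP_f9aece_nt_h97 (Sup)
open scoped ArithmeticFunction.Omega

lemma cu_eq_one {c w x : ℝ} (hw : 0 < w) (hx : x ≤ c - w) : cu c w x = 1 := by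
  unfold cu
  apply Real.smoothTransition.one_of_one_le
  rw [le_div_iff₀ hw]
  linarith

/-- the energy of the main polynomial, from below -/
lemma En_main (hR : Rough4) {C : ℝ} (hC : 0 ≤ C)
    (hB : ∀ (S : Finset ℕ) (r : ℕ) (c : ℝ),
      (∀ p ∈ S, p.Prime ∧ 1000 ≤ p) → 1 ≤ r → VV S ≤ 2 * r → 0 ≤ c → c ≤ 1 →
      ∃ s : Finset ℕ,
        (∀ m ∈ s, m ∈ Smo (S : Set ℕ) ∧ ArithmeticFunction.cardFactors m ≤ 50000 * r) ∧
      DS S * Real.exp ((c ^ 2 + 4 * c) * VV S - C * V2 S - Real.exp (-r))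
        ≤ ∑ m ∈ s, cv (expo c (50000 * r) S) dv m ^ 2 / (m : ℝ))
    {v p0 : ℕ} (hv : 2 ≤ v) (hp0 : 1000 ≤ p0) {Y : ℝ} (hY : 0 < Y)
    (hV : ∀ g, VV (Sg v p0 Y g) ≤ 2 * rg v g) (J : ℕ) {c : ℝ} (hc0 : 0 ≤ c) (hc1 : c ≤ 1)
    {σ T : ℝ} (hσ : 0 < σ) (hT : 1 < T) {x : ℝ} (hx0 : 0 ≤ x)
    (hx : x + 200000 * v * Y ≤ Real.log T - 2 * (σ * Real.log T)) :
    (∑ n ∈ Finset.Icc 1 ⌊Real.exp x⌋₊, dv n ^ 2 / (n : ℝ))
        * Real.exp ((c ^ 2 + 4 * c) * Vs v p0 Y 0 J - (C / p0 + 4 * Real.exp (-(v : ℝ) / 2)))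
      ≤ En (Dm σ T * Bt c v p0 Y 0 J ∅) := by
  classical
  have hL : 0 < Real.log T := Real.log_pos hT
  have hT0 : 0 < T := by linarith
  have hprime : ∀ p ∈ SU v p0 Y 0 J, p.Prime := by
    intro p hp
    unfold SU at hp
    obtain ⟨g, -, hg⟩ := Finset.mem_biUnion.mp hp
    exact Sg_prime p hg
  obtain ⟨R, hR1, hR2⟩ := hR (SU v p0 Y 0 J) hprime x hx0
  have hB' : ∀ g : ℕ, ∃ s : Finset ℕ,
      (∀ m ∈ s, m ∈ Smo (Sg v p0 Y g : Set ℕ) ∧ ArithmeticFunction.cardFactors m ≤ 50000 * rg v g) ∧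
      DS (Sg v p0 Y g) * Real.exp ((c ^ 2 + 4 * c) * VV (Sg v p0 Y g) - C * V2 (Sg v p0 Y g)
          - Real.exp (-(rg v g : ℝ)))
        ≤ ∑ m ∈ s, cv (expo c (50000 * rg v g) (Sg v p0 Y g)) dv m ^ 2 / (m : ℝ) := fun g =>
    hB (Sg v p0 Y g) (rg v g) c (fun p hp => ⟨Sg_prime p hp, hp0.trans (Sg_gt p hp).le⟩)
      (one_le_rg (by omega) g) (hV g) hc0 hc1
  choose s hs1 hs2 using hB'
  rw [Bt_eq c v p0 Y 0 J (Finset.empty_subset _)]
  have hbg : ∀ g, bg c v p0 Y ∅ g = Eg c v p0 Y g := fun g => bg_notMem (Finset.notMem_empty g)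
  have hlow := En_lower (Sg v p0 Y) (sgDisj v p0 Y hY.le) (bg c v p0 Y ∅)
    (sup_bg_Smo c v p0 Y ∅) s (fun g => (Mg v g : ℝ) * Yg v Y g) (Finset.Ico 0 J)
    (fun g _ m hm => ⟨(hs1 g m hm).1, log_le_of_Omega (lam := Yg v Y g) (fun p hp => Sg_log_le p hp)
      (Yg_pos v hY g).le (hs1 g m hm).1 ((hs1 g m hm).2.trans (by unfold Mg; omega))⟩)
    (f := cu (Real.log T - σ * Real.log T) (σ * Real.log T)) (N := ⌊T⌋₊)
    (X := Real.log T - 2 * (σ * Real.log T)) (x := x)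
    (fun y hy => cu_eq_one (mul_pos hσ hL) (by linarith)) (fun n hn hnX => ?_) ?_ (R := R)
    (fun r hr => ⟨by have := (hR1 r hr).1.1; omega, (hR1 r hr).1.2, (hR1 r hr).2⟩)
  · refine le_trans ?_ hlow
    have h1 : ∀ g ∈ Finset.Ico 0 J,
        DS (Sg v p0 Y g) * Real.exp ((c ^ 2 + 4 * c) * VV (Sg v p0 Y g) - C * V2 (Sg v p0 Y g)
          - Real.exp (-(rg v g : ℝ)))
        ≤ ∑ m ∈ s g, cv (bg c v p0 Y ∅ g) dv m ^ 2 / (m : ℝ) := by
      intro g _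
      rw [hbg]
      exact hs2 g
    have h2 : 0 ≤ ∑ r ∈ R, dv r ^ 2 / (r : ℝ) := Finset.sum_nonneg fun r _ => by positivity
    have h3 := Finset.prod_le_prod (fun g _ => (mul_pos (H91.DSg_pos (v := v) (Y := Y) hp0 g)
      (Real.exp_pos _)).le) h1
    refine le_trans ?_ (mul_le_mul_of_nonneg_left h3 h2)
    rw [Finset.prod_mul_distrib, ← H91.DS_SU hY.le, ← Real.exp_sum, Finset.sum_sub_distrib,
      Finset.sum_sub_distrib, ← Finset.mul_sum, ← Finset.mul_sum, ← H91.V2_SU hY.le]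
    have h4 : ∑ g ∈ Finset.Ico 0 J, VV (Sg v p0 Y g) = Vs v p0 Y 0 J := rfl
    rw [h4]
    have h5 : C * V2 (SU v p0 Y 0 J) ≤ C / p0 := by
      have := H91.V2_SU_le (v := v) (p0 := p0) (Y := Y) (by omega) 0 J
      calc C * V2 (SU v p0 Y 0 J) ≤ C * (1 / p0) := by gcongr
        _ = C / p0 := by ring
    have h6 : ∑ g ∈ Finset.Ico 0 J, Real.exp (-(rg v g : ℝ)) ≤ 4 * Real.exp (-(v : ℝ) / 2) := by
      refine le_trans (Finset.sum_le_sum fun g _ => ?_) (H91.sum_exp_half_le hv (Finset.Ico 0 J))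
      have h7 : Real.exp (-(rg v g : ℝ)) ≤ Real.exp (-(rg v g : ℝ) / 2) := by
        apply Real.exp_le_exp.mpr
        have : (0 : ℝ) ≤ rg v g := Nat.cast_nonneg _
        linarith
      have h8 := Real.exp_pos (-(rg v g : ℝ) / 2)
      linarith
    have h9 : 0 ≤ DS (SU v p0 Y 0 J) := H6.DS_nonneg hprime
    calc (∑ n ∈ Finset.Icc 1 ⌊Real.exp x⌋₊, dv n ^ 2 / (n : ℝ))
          * Real.exp ((c ^ 2 + 4 * c) * Vs v p0 Y 0 J - (C / p0 + 4 * Real.exp (-(v : ℝ) / 2)))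
        ≤ (DS (SU v p0 Y 0 J) * ∑ r ∈ R, dv r ^ 2 / (r : ℝ))
          * Real.exp ((c ^ 2 + 4 * c) * Vs v p0 Y 0 J - C * V2 (SU v p0 Y 0 J)
            - ∑ g ∈ Finset.Ico 0 J, Real.exp (-(rg v g : ℝ))) := by
          refine mul_le_mul hR2 (Real.exp_le_exp.mpr (by linarith)) (Real.exp_pos _).le
            (mul_nonneg h9 h2)
      _ = _ := by ring
  · apply Nat.le_floor
    have h1 : (0 : ℝ) < n := by exact_mod_cast hn
    rw [← Real.log_le_log_iff h1 hT0]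
    have := mul_pos hσ hL
    linarith
  · have h1 := sum_MY_le hv hY 0 J
    rw [Yg_zero] at h1
    push_cast at h1
    linarith

/-- the divisor sum, from below -/
lemma sum_dv_ge {C : ℝ} (hC : 0 ≤ C) (hD : ∀ N : ℕ, 1 ≤ N →
    |∑ n ∈ Finset.Icc 1 N, dv n ^ 2 / (n : ℝ) - Real.log N ^ 4 / (4 * Real.pi ^ 2)|
      ≤ C * (1 + Real.log N) ^ 3) {x : ℝ} (hx : 1 ≤ x) :
    (x - 1) ^ 4 / (4 * Real.pi ^ 2) - C * (1 + x) ^ 3
      ≤ ∑ n ∈ Finset.Icc 1 ⌊Real.exp x⌋₊, dv n ^ 2 / (n : ℝ) := by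
  have hx0 : 0 < x := by linarith
  have he : 1 ≤ Real.exp x := Real.one_le_exp hx0.le
  set N := ⌊Real.exp x⌋₊ with hN
  have hN1 : 1 ≤ N := Nat.le_floor (by simpa using he)
  have hNle : (N : ℝ) ≤ Real.exp x := Nat.floor_le (by linarith)
  have hNge : Real.exp x < N + 1 := Nat.lt_floor_add_one _
  have hN0 : (0 : ℝ) < N := by exact_mod_cast hN1
  have h1 : Real.log N ≤ x := by
    rw [Real.log_le_iff_le_exp hN0]
    exact hNle
  have h2 : x - 1 ≤ Real.log N := by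
    rw [Real.le_log_iff_exp_le hN0, Real.exp_sub]
    have h3 : Real.exp x ≤ 2 * N := by
      have : (1 : ℝ) ≤ N := by exact_mod_cast hN1
      linarith
    rw [div_le_iff₀ (Real.exp_pos 1)]
    have h4 := Real.exp_one_gt_d9
    have h5 : 2 * (N : ℝ) ≤ Real.exp 1 * N := mul_le_mul_of_nonneg_right (by linarith) hN0.le
    linarith
  have h3 := (abs_le.mp (hD N hN1)).1
  have hl : 0 ≤ Real.log N := Real.log_natCast_nonneg N
  have h4 : (x - 1) ^ 4 / (4 * Real.pi ^ 2) ≤ Real.log N ^ 4 / (4 * Real.pi ^ 2) := by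
    have := Real.pi_pos
    gcongr
  have h5 : C * (1 + Real.log N) ^ 3 ≤ C * (1 + x) ^ 3 := by gcongr
  linarith

theorem _root_.Pool.Agent.Lib.J4.mlSum (hD : D2Sum) (hR : Rough4) (hB : BeLower) : MlSum := by
  intro ε hε
  obtain ⟨C, hC, hB⟩ := hB
  obtain ⟨C', hC', hD⟩ := hD
  obtain ⟨v1, hv1⟩ := vvSg
  -- choice of the parameters
  have hex : ∃ v0 : ℕ, ∀ v : ℕ, v0 ≤ v → 4 * Real.exp (-(v : ℝ) / 2) ≤ ε / 8 := by
    have h1 : Filter.Tendsto (fun v : ℕ => 4 * Real.exp (-(v : ℝ) / 2)) Filter.atTop (nhds 0) := by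
      have h2 : Filter.Tendsto (fun v : ℕ => Real.exp (-((v : ℝ) / 2))) Filter.atTop (nhds 0) :=
        Real.tendsto_exp_neg_atTop_nhds_zero.comp
          ((tendsto_natCast_atTop_atTop (R := ℝ)).atTop_div_const (by norm_num))
      have h3 := h2.const_mul 4
      rw [mul_zero] at h3
      refine h3.congr fun v => ?_
      congr 2
      ring
    have h4 := (h1.eventually (gt_mem_nhds (show (0 : ℝ) < ε / 8 by positivity))).exists_forall_of_atTop
    obtain ⟨v0, h5⟩ := h4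
    exact ⟨v0, fun v hv => (h5 v hv).le⟩
  obtain ⟨v2, hv2⟩ := hex
  obtain ⟨p1, hp1⟩ := exists_nat_ge (8 * C / ε)
  refine ⟨max (max v1 v2) 2, max p1 1000, fun v p0 hv hp0 => ?_⟩
  have hv1' : v1 ≤ v := (le_max_left _ _).trans ((le_max_left _ _).trans hv)
  have hv2' : v2 ≤ v := (le_max_right _ _).trans ((le_max_left _ _).trans hv)
  have hv3 : 2 ≤ v := (le_max_right _ _).trans hv
  have hp1' : p1 ≤ p0 := (le_max_left _ _).trans hp0
  have hp2 : 1000 ≤ p0 := (le_max_right _ _).trans hp0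
  refine ⟨min (ε / 64) (1 / 8), by positivity, fun σ hσ hσ0 => ?_⟩
  have hσ1 : σ ≤ ε / 64 := hσ0.trans (min_le_left _ _)
  have hσ2 : σ ≤ 1 / 8 := hσ0.trans (min_le_right _ _)
  refine ⟨max (200000 * v / σ) 1, le_max_right _ _, fun Λ hΛ => ?_⟩
  have hΛ1 : 1 ≤ Λ := (le_max_right _ _).trans hΛ
  have hΛ2 : 200000 * v / σ ≤ Λ := (le_max_left _ _).trans hΛ
  have hpi := Real.pi_pos
  refine ⟨Real.exp (max (max (2 / σ) 2) (128 * Real.pi ^ 2 * C' / ε)), ?_, fun T hT J hJ c hc0 hc1 => ?_⟩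
  · apply Real.one_le_exp
    exact (show (0 : ℝ) ≤ 2 by norm_num).trans ((le_max_right _ _).trans (le_max_left _ _))
  have hT0 : 0 < T := (Real.exp_pos _).trans_le hT
  have hL := (Real.le_log_iff_exp_le hT0).mpr hT
  set L := Real.log T with hLdef
  have hL1 : 2 / σ ≤ L := (le_max_left _ _).trans ((le_max_left _ _).trans hL)
  have hL2 : 2 ≤ L := (le_max_right _ _).trans ((le_max_left _ _).trans hL)
  have hL3 : 128 * Real.pi ^ 2 * C' / ε ≤ L := (le_max_right _ _).trans hL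
  have hσL : 2 ≤ σ * L := by
    rw [div_le_iff₀ hσ] at hL1
    linarith
  have hL0 : 0 < L := by linarith
  have hT1 : 1 < T := by
    by_contra h
    have := Real.log_nonpos hT0.le (not_lt.mp h)
    linarith
  have hY : 0 < L / Λ := by positivity
  rcases le_or_gt 1 ε with hε1 | hε1
  · refine le_trans ?_ (En_nonneg' _)
    have h1 : 0 ≤ L ^ 4 / (4 * Real.pi ^ 2)
        * Real.exp ((c ^ 2 + 4 * c) * Vs v p0 (L / Λ) 0 J) := by positivity
    rw [mul_assoc]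
    exact mul_nonpos_of_nonpos_of_nonneg (by linarith) h1
  have hYs : 200000 * v * (L / Λ) ≤ σ * L := by
    rw [div_le_iff₀ hσ] at hΛ2
    rw [← mul_div_assoc, div_le_iff₀ (by linarith)]
    have := mul_le_mul_of_nonneg_right hΛ2 hL0.le
    linarith
  have hσL' : σ * L ≤ 1 / 8 * L := mul_le_mul_of_nonneg_right hσ2 hL0.le
  have hmain := En_main hR hC hB hv3 hp2 hY (fun g => hv1 v hv1' p0 (L / Λ) g hY) J hc0
    (by linarith) hσ hT1 (x := L - 3 * (σ * L)) (by linarith) (by rw [← hLdef]; linarith)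
  refine le_trans ?_ hmain
  have hx1 : 1 ≤ L - 3 * (σ * L) := by linarith
  have hsum := sum_dv_ge hC' hD hx1
  -- the divisor sum is large
  have h1 : (1 - ε / 2) * (L ^ 4 / (4 * Real.pi ^ 2))
      ≤ ∑ n ∈ Finset.Icc 1 ⌊Real.exp (L - 3 * (σ * L))⌋₊, dv n ^ 2 / (n : ℝ) := by
    refine le_trans ?_ hsum
    have h2 : (1 - 16 * σ) * L ^ 4 ≤ (L - 3 * (σ * L) - 1) ^ 4 := by
      have h3 : (1 - 4 * σ) * L ≤ L - 3 * (σ * L) - 1 := by linarith
      have h4 : 0 ≤ (1 - 4 * σ) * L := mul_nonneg (by linarith) hL0.le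
      have h5 := pow_le_pow_left₀ h4 h3 4
      refine le_trans ?_ h5
      rw [mul_pow]
      have h6 : 1 - 16 * σ ≤ (1 - 4 * σ) ^ 4 := by
        have := one_add_mul_le_pow (show (-2 : ℝ) ≤ -(4 * σ) by linarith) 4
        push_cast at this
        have e : (1 : ℝ) + -(4 * σ) = 1 - 4 * σ := by ring
        rw [e] at this
        linarith
      gcongr
    have h7 : C' * (1 + (L - 3 * (σ * L))) ^ 3 ≤ ε / 4 * (L ^ 4 / (4 * Real.pi ^ 2)) := by
      have h8 : 1 + (L - 3 * (σ * L)) ≤ 2 * L := by linarith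
      have h9 : C' * (1 + (L - 3 * (σ * L))) ^ 3 ≤ C' * (2 * L) ^ 3 := by
        gcongr
      refine h9.trans ?_
      rw [div_le_iff₀ hε] at hL3
      have h10 : C' * (2 * L) ^ 3 = 8 * C' * L ^ 3 := by ring
      rw [h10]
      have h11 : 8 * C' ≤ ε / 4 * (L / (4 * Real.pi ^ 2)) := by
        rw [← mul_div_assoc, le_div_iff₀ (by positivity)]
        linarith
      calc 8 * C' * L ^ 3 ≤ ε / 4 * (L / (4 * Real.pi ^ 2)) * L ^ 3 := by gcongr
        _ = _ := by ring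
    have h12 : (1 - ε / 4) * (L ^ 4 / (4 * Real.pi ^ 2))
        ≤ (L - 3 * (σ * L) - 1) ^ 4 / (4 * Real.pi ^ 2) := by
      rw [← mul_div_assoc]
      gcongr
      refine le_trans ?_ h2
      gcongr
      linarith
    linarith
  have h13 : 1 - ε / 4 ≤ Real.exp (-(C / p0 + 4 * Real.exp (-(v : ℝ) / 2))) := by
    have h14 : C / p0 ≤ ε / 8 := by
      have hp0' : (0 : ℝ) < p0 := by
        have : 0 < p0 := by omega
        exact_mod_cast this
      rw [div_le_iff₀ hp0']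
      have h15 : 8 * C / ε ≤ p0 := hp1.trans (by exact_mod_cast hp1')
      rw [div_le_iff₀ hε] at h15
      linarith
    have h16 := hv2 v hv2'
    have h17 := Real.add_one_le_exp (-(C / p0 + 4 * Real.exp (-(v : ℝ) / 2)))
    linarith
  have e1 : Real.exp ((c ^ 2 + 4 * c) * Vs v p0 (L / Λ) 0 J
      - (C / p0 + 4 * Real.exp (-(v : ℝ) / 2)))
      = Real.exp ((c ^ 2 + 4 * c) * Vs v p0 (L / Λ) 0 J)
        * Real.exp (-(C / p0 + 4 * Real.exp (-(v : ℝ) / 2))) := by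
    rw [← Real.exp_add]
    congr 1
  rw [e1]
  have h18 : 0 ≤ L ^ 4 / (4 * Real.pi ^ 2) := by positivity
  have h19 : (1 - ε) ≤ (1 - ε / 2) * (1 - ε / 4) := by
    linarith [mul_nonneg hε.le hε.le]
  calc (1 - ε) * (L ^ 4 / (4 * Real.pi ^ 2)) * Real.exp ((c ^ 2 + 4 * c) * Vs v p0 (L / Λ) 0 J)
      ≤ ((1 - ε / 2) * (1 - ε / 4)) * (L ^ 4 / (4 * Real.pi ^ 2))
        * Real.exp ((c ^ 2 + 4 * c) * Vs v p0 (L / Λ) 0 J) := by gcongr
    _ = ((1 - ε / 2) * (L ^ 4 / (4 * Real.pi ^ 2)))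
        * (Real.exp ((c ^ 2 + 4 * c) * Vs v p0 (L / Λ) 0 J) * (1 - ε / 4)) := by ring
    _ ≤ _ := by
      apply mul_le_mul h1 _ _ _
      · gcongr
      · exact mul_nonneg (Real.exp_pos _).le (by linarith)
      · exact (mul_nonneg (by linarith) h18).trans h1

end Pool.Agent.Lib.J4.H29
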