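import Pool.Agent.Lib.MP_f9aece_nt_h87.MidSum

/-!
# JointFour, module J2: `MuSum`, the sharp upper bound for the main term
-/

set_option autoImplicit false

namespace Pool.Agent.Lib.J4

open Pool.Agent.Lib.MP_f9aece_nt (DP PP VV Smo expo)

namespace H91M

/-- the smooth transition is Lipschitz -/
lemma smoothTransition_lip : ∃ C : ℝ, 0 ≤ C ∧ ∀ x y : ℝ,
    |Real.smoothTransition x - Real.smoothTransition y| ≤ C * |x - y| := by
  have h1 : ContDiff ℝ 1 fun x : ℝ => Real.smoothTransition x * Real.smoothTransition (3 - x) :=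
    Real.smoothTransition.contDiff.mul
      (Real.smoothTransition.contDiff.comp (contDiff_const.sub contDiff_id))
  have h2 : HasCompactSupport fun x : ℝ => Real.smoothTransition x * Real.smoothTransition (3 - x) := by
    refine HasCompactSupport.intro (isCompact_Icc (a := (0 : ℝ)) (b := 3)) fun x hx => ?_
    rw [Set.mem_Icc, not_and_or, not_le, not_le] at hx
    rcases hx with hx | hx
    · rw [Real.smoothTransition.zero_of_nonpos hx.le, zero_mul]
    · rw [Real.smoothTransition.zero_of_nonpos (by linarith : 3 - x ≤ 0), mul_zero]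
  obtain ⟨C, hC⟩ := h1.lipschitzWith_of_hasCompactSupport h2 one_ne_zero
  refine ⟨C, C.2, fun x y => ?_⟩
  have h3 : ∀ x : ℝ, Real.smoothTransition x
      = Real.smoothTransition (Set.projIcc (0 : ℝ) 1 zero_le_one x)
        * Real.smoothTransition (3 - (Set.projIcc (0 : ℝ) 1 zero_le_one x : ℝ)) := by
    intro x
    have h4 := (Set.projIcc (0 : ℝ) 1 zero_le_one x).2
    have h6 : Real.smoothTransition (3 - (Set.projIcc (0 : ℝ) 1 zero_le_one x : ℝ)) = 1 :=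
      Real.smoothTransition.one_of_one_le (by linarith [h4.2])
    rw [h6, mul_one, Real.smoothTransition.projIcc]
  have h5 := hC.dist_le_mul (Set.projIcc (0 : ℝ) 1 zero_le_one x) (Set.projIcc (0 : ℝ) 1 zero_le_one y)
  rw [← h3 x, ← h3 y, Real.dist_eq] at h5
  refine h5.trans ?_
  have h6 := (LipschitzWith.projIcc (zero_le_one : (0 : ℝ) ≤ 1)).dist_le_mul x y
  rw [NNReal.coe_one, one_mul, Subtype.dist_eq, Real.dist_eq x y] at h6
  exact mul_le_mul_of_nonneg_left h6 C.2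

/-- the ramp -/
noncomputable def ramp (a x : ℝ) : ℝ := max 0 (min 1 (1 + x / a))

lemma ramp_nonneg (a x : ℝ) : 0 ≤ ramp a x := le_max_left _ _

lemma ramp_le_one (a x : ℝ) : ramp a x ≤ 1 := max_le zero_le_one (min_le_left _ _)

lemma ramp_one {a x : ℝ} (ha : 0 < a) (hx : 0 ≤ x) : ramp a x = 1 := by
  unfold ramp
  have : 0 ≤ x / a := by positivity
  rw [min_eq_left (by linarith), max_eq_right zero_le_one]

lemma ramp_zero {a x : ℝ} (ha : 0 < a) (hx : x ≤ -a) : ramp a x = 0 := by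
  unfold ramp
  have : x / a ≤ -1 := by
    rw [div_le_iff₀ ha]
    linarith
  rw [max_eq_left]
  exact (min_le_right _ _).trans (by linarith)

lemma ramp_lip {a : ℝ} (ha : 0 < a) (x y : ℝ) : |ramp a x - ramp a y| ≤ 1 / a * |x - y| := by
  unfold ramp
  have h1 := abs_max_sub_max_le_max 0 (min 1 (1 + x / a)) 0 (min 1 (1 + y / a))
  have h2 := abs_min_sub_min_le_max 1 (1 + x / a) 1 (1 + y / a)
  rw [sub_self, abs_zero, max_eq_right (abs_nonneg (min 1 (1 + x / a) - min 1 (1 + y / a)))] at h1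
  rw [sub_self, abs_zero, max_eq_right (abs_nonneg (1 + x / a - (1 + y / a)))] at h2
  refine h1.trans (h2.trans (le_of_eq ?_))
  rw [show 1 + x / a - (1 + y / a) = 1 / a * (x - y) by ring, abs_mul, abs_of_pos (by positivity)]

/-- the symbol of the short polynomial, continued -/
noncomputable def fD (a b x : ℝ) : ℝ := cu b a x * ramp a x

lemma cu_nonneg (c w x : ℝ) : 0 ≤ cu c w x := Real.smoothTransition.nonneg _

lemma cu_le_one (c w x : ℝ) : cu c w x ≤ 1 := Real.smoothTransition.le_one _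

lemma cu_zero {c w x : ℝ} (hw : 0 < w) (hx : c ≤ x) : cu c w x = 0 := by
  unfold cu
  exact Real.smoothTransition.zero_of_nonpos (div_nonpos_of_nonpos_of_nonneg (by linarith) hw.le)

lemma fD_nonneg (a b x : ℝ) : 0 ≤ fD a b x := mul_nonneg (cu_nonneg _ _ _) (ramp_nonneg _ _)

lemma fD_le_one (a b x : ℝ) : fD a b x ≤ 1 :=
  mul_le_one₀ (cu_le_one _ _ _) (ramp_nonneg _ _) (ramp_le_one _ _)

lemma fD_lip {Cs : ℝ} (hCs : 0 ≤ Cs) (h : ∀ x y : ℝ,
    |Real.smoothTransition x - Real.smoothTransition y| ≤ Cs * |x - y|) {a : ℝ} (ha : 0 < a)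
    (b x y : ℝ) : |fD a b x - fD a b y| ≤ 1 / (a / (Cs + 1)) * |x - y| := by
  have h1 : |cu b a x - cu b a y| ≤ Cs / a * |x - y| := by
    unfold cu
    refine (h _ _).trans (le_of_eq ?_)
    rw [show (b - x) / a - (b - y) / a = (1 / a) * (y - x) by ring, abs_mul,
      abs_of_pos (by positivity : 0 < 1 / a), abs_sub_comm y x]
    ring
  have h2 := ramp_lip ha x y
  have e : fD a b x - fD a b y = (cu b a x - cu b a y) * ramp a x + cu b a y * (ramp a x - ramp a y) := by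
    unfold fD; ring
  rw [e]
  refine (abs_add_le _ _).trans ?_
  rw [abs_mul, abs_mul, abs_of_nonneg (ramp_nonneg a x), abs_of_nonneg (cu_nonneg b a y)]
  have h3 := ramp_le_one a x
  have h4 := cu_le_one b a y
  have h5 : 0 ≤ |x - y| := abs_nonneg _
  calc |cu b a x - cu b a y| * ramp a x + cu b a y * |ramp a x - ramp a y|
      ≤ |cu b a x - cu b a y| * 1 + 1 * |ramp a x - ramp a y| := by gcongr
    _ ≤ Cs / a * |x - y| * 1 + 1 * (1 / a * |x - y|) := by gcongr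
    _ = _ := by field_simp

lemma DF_fD {a b : ℝ} (ha : 0 < a) (N : ℕ) : DF (cu b a) N = DF (fD a b) N := by
  unfold DF
  refine Finset.sum_congr rfl fun n hn => ?_
  rw [Finset.mem_Icc] at hn
  congr 2
  unfold fD
  rw [ramp_one ha (Real.log_nonneg (by exact_mod_cast hn.1)), mul_one]

lemma exp_neg_le_inv {x : ℝ} (hx : 0 < x) : Real.exp (-x) ≤ 1 / x := by
  rw [Real.exp_neg, inv_eq_one_div]
  apply one_div_le_one_div_of_le hx
  linarith [Real.add_one_le_exp x]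

lemma pow_four_le {δ : ℝ} (h0 : 0 ≤ δ) (h1 : δ ≤ 1) : (1 + δ) ^ 4 ≤ 1 + 15 * δ := by
  have h2 : δ ^ 2 ≤ δ := pow_le_of_le_one h0 h1 two_ne_zero
  have h3 : δ ^ 3 ≤ δ := pow_le_of_le_one h0 h1 three_ne_zero
  have h4 : δ ^ 4 ≤ δ := pow_le_of_le_one h0 h1 four_ne_zero
  have e : (1 + δ) ^ 4 = 1 + 4 * δ + 6 * δ ^ 2 + 4 * δ ^ 3 + δ ^ 4 := by ring
  rw [e]
  linarith

end H91M

open H91M H87

theorem muSum (hFW : FW) (hR1 : Rough1) (hR3 : Rough3) (hD2 : D2Sum) (hE : BeExpo) (hP : BePow)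
    (hEA : BeExpoAbs) (hPA : BePowAbs) (hV : VVSg) (hDj : SgDisj) : MuSum := by
  classical
  obtain ⟨C, v0, hC, hcore⟩ := core hFW hE hP hEA hPA hV hDj
  obtain ⟨C1, hC1, hR1⟩ := hR1
  obtain ⟨C3, hC3, hR3⟩ := hR3
  obtain ⟨C2, hC2, hD2⟩ := hD2
  obtain ⟨Cs, hCs, hlip⟩ := smoothTransition_lip
  intro ε hε
  set δ : ℝ := min ε 1 / 16 with hδ
  have hδ0 : 0 < δ := by rw [hδ]; positivity
  have hδ1 : δ ≤ 1 := by
    rw [hδ]
    have : min ε 1 ≤ 1 := min_le_right _ _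
    linarith
  have hδε : 16 * δ ≤ ε := by
    rw [hδ]
    have : min ε 1 ≤ ε := min_le_left _ _
    linarith
  have hlog : 0 < Real.log (1 + δ) := Real.log_pos (by linarith)
  -- the choice of v0, p1
  obtain ⟨p1, hp1⟩ : ∃ p1 : ℕ, ∀ p0 : ℕ, p1 ≤ p0 → C / p0 ≤ Real.log (1 + δ) / 2 := by
    have h1 := tendsto_const_div_atTop_nhds_zero_nat C
    have h2 := h1.eventually (ge_mem_nhds (half_pos hlog))
    exact Filter.eventually_atTop.mp h2
  obtain ⟨v1, hv1⟩ : ∃ v1 : ℕ, ∀ v : ℕ, v1 ≤ v →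
      C * Real.exp (-(v : ℝ) / 2) ≤ Real.log (1 + δ) / 2 := by
    obtain ⟨n, hn⟩ := exists_nat_ge (C * 4 / Real.log (1 + δ) + 1)
    refine ⟨n, fun v hv => ?_⟩
    have h1 : C * 4 / Real.log (1 + δ) + 1 ≤ v := hn.trans (by exact_mod_cast hv)
    have h2 : 0 ≤ C * 4 / Real.log (1 + δ) := by positivity
    have h3 : (0 : ℝ) < v := by linarith
    have h4 := exp_neg_le_inv (half_pos h3)
    have h5 : -(v : ℝ) / 2 = -((v : ℝ) / 2) := by ring
    rw [h5]
    calc C * Real.exp (-((v : ℝ) / 2)) ≤ C * (1 / ((v : ℝ) / 2)) := by gcongr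
      _ = (2 * C) / v := by field_simp
      _ ≤ Real.log (1 + δ) / 2 := by
        rw [div_le_iff₀ h3]
        have h6 : C * 4 / Real.log (1 + δ) ≤ v := by linarith
        rw [div_le_iff₀ hlog] at h6
        linarith
  refine ⟨max v0 v1, max p1 1000, fun v p0 hv hp0 σ hσ0 hσ => ?_⟩
  have hv0 : v0 ≤ v := (le_max_left _ _).trans hv
  have hv1' : v1 ≤ v := (le_max_right _ _).trans hv
  have hp1' : p1 ≤ p0 := (le_max_left _ _).trans hp0
  have hp1000 : 1000 ≤ p0 := (le_max_right _ _).trans hp0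
  have hfac : Real.exp (C / p0 + C * Real.exp (-(v : ℝ) / 2)) ≤ 1 + δ := by
    have h1 := hp1 p0 hp1'
    have h2 := hv1 v hv1'
    calc Real.exp (C / p0 + C * Real.exp (-(v : ℝ) / 2)) ≤ Real.exp (Real.log (1 + δ)) :=
          Real.exp_le_exp.mpr (by linarith)
      _ = 1 + δ := Real.exp_log (by linarith)
  -- the choice of Λ0
  set K : ℝ := (1 + 1 / δ) * (243 * C3 * C * ((Cs + 1) / σ) ^ 2 * Real.exp v) with hK
  have hK0 : 0 ≤ K := by rw [hK]; positivity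
  have hpi := Real.pi_pos
  refine ⟨max 1 (max (C1 * (1 + δ) / (δ * σ)) (4 * Real.pi ^ 2 * K / δ)), le_max_left _ _,
    fun Λ hΛ => ?_⟩
  have hΛ1 : 1 ≤ Λ := (le_max_left _ _).trans hΛ
  have hΛ2 : C1 * (1 + δ) / (δ * σ) ≤ Λ := (le_max_left _ _).trans ((le_max_right _ _).trans hΛ)
  have hΛ3 : 4 * Real.pi ^ 2 * K / δ ≤ Λ := (le_max_right _ _).trans ((le_max_right _ _).trans hΛ)
  have hΛ0 : 0 < Λ := by linarith
  -- the choice of T0
  refine ⟨Real.exp (max Λ (32 * Real.pi ^ 2 * C2 / δ)), Real.one_le_exp (le_max_of_le_left hΛ0.le),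
    fun T hT J hJ c hc => ?_⟩
  have hT0 : 0 < T := (Real.exp_pos _).trans_le hT
  set L := Real.log T with hL
  have hLT : max Λ (32 * Real.pi ^ 2 * C2 / δ) ≤ L := (Real.le_log_iff_exp_le hT0).mpr hT
  have hL1 : Λ ≤ L := (le_max_left _ _).trans hLT
  have hL2 : 32 * Real.pi ^ 2 * C2 / δ ≤ L := (le_max_right _ _).trans hLT
  have hL11 : 1 ≤ L := hΛ1.trans hL1
  have hL0 : 0 < L := by linarith
  set Y := L / Λ with hYdef
  have hY1 : 1 ≤ Y := (one_le_div hΛ0).mpr hL1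
  have hY0 : 0 < Y := by linarith
  have hYL : Y ≤ L := div_le_self hL0.le hΛ1
  have hσL : 0 < σ * L := by positivity
  have hσL1 : σ * L ≤ 1 / 4 * L := mul_le_mul_of_nonneg_right hσ hL0.le
  set lm := σ * L / (Cs + 1) with hlm
  have hlm0 : 0 < lm := by rw [hlm]; positivity
  have hYg0 : Yg v Y 0 = Y := by simp [Yg]
  have hTfl : (1 : ℕ) ≤ ⌊T⌋₊ := by
    apply Nat.le_floor
    push_cast
    refine le_trans ?_ hT
    exact Real.one_le_exp (le_max_of_le_left hΛ0.le)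
  have hexpL : Real.exp L = T := Real.exp_log hT0
  -- properties of the primes
  have hSU := H87.SU_prop (v := v) hY0 hp1000 (i := 0) (J := J)
  rw [hYg0, max_eq_left hY1] at hSU
  have hDS : 0 < DS (SU v p0 Y 0 J) := DS_pos fun p hp => (hSU p hp).1.two_le
  -- the value of D2Sum at T
  have hD2T : ∑ n ∈ Finset.Icc 1 ⌊T⌋₊, dv n ^ 2 / (n : ℝ)
      ≤ L ^ 4 / (4 * Real.pi ^ 2) * (1 + δ) := by
    have h1 := (abs_le.mp (hD2 ⌊T⌋₊ hTfl)).2
    have h2 : Real.log (⌊T⌋₊ : ℝ) ≤ L := by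
      apply Real.log_le_log
      · exact_mod_cast hTfl
      · exact Nat.floor_le hT0.le
    have h3 : 0 ≤ Real.log (⌊T⌋₊ : ℝ) := Real.log_natCast_nonneg _
    have h4 : Real.log (⌊T⌋₊ : ℝ) ^ 4 / (4 * Real.pi ^ 2) ≤ L ^ 4 / (4 * Real.pi ^ 2) := by gcongr
    have h5 : C2 * (1 + Real.log (⌊T⌋₊ : ℝ)) ^ 3 ≤ C2 * (2 * L) ^ 3 := by
      have : 1 + Real.log (⌊T⌋₊ : ℝ) ≤ 2 * L := by linarith
      gcongr
    have h6 : C2 * (2 * L) ^ 3 ≤ δ * (L ^ 4 / (4 * Real.pi ^ 2)) := by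
      rw [div_le_iff₀ hδ0] at hL2
      have h7 : C2 * (2 * L) ^ 3 = (32 * Real.pi ^ 2 * C2) * L ^ 3 / (4 * Real.pi ^ 2) := by
        field_simp; ring
      rw [h7]
      calc (32 * Real.pi ^ 2 * C2) * L ^ 3 / (4 * Real.pi ^ 2)
          ≤ (L * δ) * L ^ 3 / (4 * Real.pi ^ 2) := by gcongr
        _ = _ := by ring
    have h8 : L ^ 4 / (4 * Real.pi ^ 2) * (1 + δ)
        = L ^ 4 / (4 * Real.pi ^ 2) + δ * (L ^ 4 / (4 * Real.pi ^ 2)) := by ring
    linarith
  -- bound for the tail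
  have hq : C1 * Real.exp (-(σ * L) / Y) ≤ δ / (1 + δ) := by
    have e1 : -(σ * L) / Y = -(σ * Λ) := by
      rw [hYdef]
      field_simp
    rw [e1]
    have h1 : 0 < σ * Λ := by positivity
    calc C1 * Real.exp (-(σ * Λ)) ≤ C1 * (1 / (σ * Λ)) := by
          have := exp_neg_le_inv h1
          gcongr
      _ ≤ δ / (1 + δ) := by
          rw [div_le_iff₀ (by positivity)] at hΛ2
          rw [mul_one_div, div_le_div_iff₀ h1 (by linarith)]
          linarith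
  have hq' : 1 ≤ (1 + δ) * (1 - C1 * Real.exp (-(σ * L) / Y)) := by
    have h1 : (1 + δ) * (1 - δ / (1 + δ)) = 1 := by field_simp; ring
    have h2 : (1 + δ) * (1 - δ / (1 + δ)) ≤ (1 + δ) * (1 - C1 * Real.exp (-(σ * L) / Y)) :=
      mul_le_mul_of_nonneg_left (by linarith) (by linarith)
    linarith
  -- application of core
  have hR1' : ∀ s : Finset ℕ, (∀ r ∈ s, Rough (SU v p0 Y 0 J) r) →
      (∑ r ∈ s, dv r ^ 2 * fD (σ * L) (L - σ * L) (Real.log r) ^ 2 / (r : ℝ)) * DS (SU v p0 Y 0 J)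
        ≤ (1 + δ) * (L ^ 4 / (4 * Real.pi ^ 2) * (1 + δ)) := by
    intro s hs
    have h1 := hR1 (SU v p0 Y 0 J) Y (L - σ * L) (σ * L) hSU hY1 (by linarith) hσL.le
      (s.filter fun r : ℕ => Real.log r ≤ L - σ * L) (fun r hr => by
        rw [Finset.mem_filter] at hr
        exact ⟨hs r hr.1, hr.2⟩)
    rw [show L - σ * L + σ * L = L by ring, hexpL] at h1
    set S1 := ∑ r ∈ s.filter (fun r : ℕ => Real.log r ≤ L - σ * L), dv r ^ 2 / (r : ℝ) with hS1
    have hS10 : 0 ≤ S1 := Finset.sum_nonneg fun _ _ => by positivity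
    have h2 : ∑ r ∈ s, dv r ^ 2 * fD (σ * L) (L - σ * L) (Real.log r) ^ 2 / (r : ℝ) ≤ S1 := by
      rw [hS1, Finset.sum_filter]
      refine Finset.sum_le_sum fun r _ => ?_
      split_ifs with h4
      · have h5 : fD (σ * L) (L - σ * L) (Real.log r) ^ 2 ≤ 1 :=
          pow_le_one₀ (fD_nonneg _ _ _) (fD_le_one _ _ _)
        have h6 : 0 ≤ dv r ^ 2 / (r : ℝ) := by positivity
        calc dv r ^ 2 * fD (σ * L) (L - σ * L) (Real.log r) ^ 2 / (r : ℝ)
            = fD (σ * L) (L - σ * L) (Real.log r) ^ 2 * (dv r ^ 2 / r) := by ring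
          _ ≤ 1 * (dv r ^ 2 / r) := mul_le_mul_of_nonneg_right h5 h6
          _ = _ := one_mul _
      · have h5 : fD (σ * L) (L - σ * L) (Real.log r) = 0 := by
          unfold fD
          rw [cu_zero hσL (not_le.mp h4).le, zero_mul]
        rw [h5]
        simp
    calc _ ≤ S1 * DS (SU v p0 Y 0 J) := mul_le_mul_of_nonneg_right h2 hDS.le
      _ = S1 * DS (SU v p0 Y 0 J) * 1 := (mul_one _).symm
      _ ≤ S1 * DS (SU v p0 Y 0 J) * ((1 + δ) * (1 - C1 * Real.exp (-(σ * L) / Y))) :=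
          mul_le_mul_of_nonneg_left hq' (mul_nonneg hS10 hDS.le)
      _ = (1 + δ) * (S1 * (DS (SU v p0 Y 0 J) * (1 - C1 * Real.exp (-(σ * L) / Y)))) := by ring
      _ ≤ (1 + δ) * (L ^ 4 / (4 * Real.pi ^ 2) * (1 + δ)) := by
          have := h1.trans hD2T
          gcongr
  have hRw' : ∀ s : Finset ℕ, (∀ r ∈ s, Rough (SU v p0 Y 0 J) r ∧ Real.log r ≤ L - σ * L) →
      (∑ r ∈ s, dv r ^ 2 / (r : ℝ)
        * Real.exp (-(2 * (1 / (6 * Yg v Y 0)) * max (-(σ * L) - Real.log r) 0)))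
        * DS (SU v p0 Y 0 J) ≤ 243 * C3 * L ^ 4 := by
    intro s hs
    have h1 := hR3 (SU v p0 Y 0 J) Y (-(σ * L)) (L - σ * L) (1 / (6 * Yg v Y 0)) hSU hY1
      (by linarith) (by linarith) (by rw [hYg0]; positivity) s hs
    refine h1.trans ?_
    rw [hYg0, one_div_one_div]
    have h2 : L - σ * L - -(σ * L) + 6 * Y + Y + 1 ≤ 9 * L := by linarith
    have h3 : 1 + (L - σ * L) + Y ≤ 3 * L := by linarith
    have h4 : 0 ≤ 1 + (L - σ * L) + Y := by linarith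
    calc C3 * (L - σ * L - -(σ * L) + 6 * Y + Y + 1) * (1 + (L - σ * L) + Y) ^ 3
        ≤ C3 * (9 * L) * (3 * L) ^ 3 := by gcongr
      _ = _ := by ring
  have hmain := hcore v p0 hv0 hp1000 Y 0 J hY0 c 1 lm (-(σ * L)) (L - σ * L) δ
    (fD (σ * L) (L - σ * L)) hc zero_le_one hlm0 hδ0
    (fun x => by rw [abs_of_nonneg (fD_nonneg _ _ _)]; exact fD_le_one _ _ _)
    (fun x y => fD_lip hCs hlip hσL _ x y)
    (fun x hx => by unfold fD; rw [cu_zero hσL hx, zero_mul])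
    (fun x hx => by unfold fD; rw [ramp_zero hσL hx, mul_zero])
    ⌊T⌋₊ (by
      have h1 : L ≤ Real.log (⌊T⌋₊ + 1) := by
        apply Real.log_le_log hT0
        exact (Nat.lt_floor_add_one T).le
      linarith)
    ((1 + δ) * (L ^ 4 / (4 * Real.pi ^ 2) * (1 + δ))) (243 * C3 * L ^ 4) hR1' hRw'
  rw [Nat.Ico_zero_eq_range] at hmain
  have hDm : Dm σ T = DF (fD (σ * L) (L - σ * L)) ⌊T⌋₊ := by
    unfold Dm
    exact DF_fD hσL _
  rw [hDm]
  refine hmain.trans ?_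
  set E0 := Real.exp ((c ^ 2 + 4 * c) * Vs v p0 Y 0 J) with hE0
  have hE0p : 0 < E0 := Real.exp_pos _
  set M := L ^ 4 / (4 * Real.pi ^ 2) with hM
  have hM0 : 0 ≤ M := by rw [hM]; positivity
  have t1 : (1 + δ) * ((1 + δ) * (M * (1 + δ))) * Real.exp (C / p0 + C * Real.exp (-(v : ℝ) / 2))
      ≤ (1 + 15 * δ) * M := by
    calc (1 + δ) * ((1 + δ) * (M * (1 + δ))) * Real.exp (C / p0 + C * Real.exp (-(v : ℝ) / 2))
        ≤ (1 + δ) * ((1 + δ) * (M * (1 + δ))) * (1 + δ) := by gcongr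
      _ = (1 + δ) ^ 4 * M := by ring
      _ ≤ (1 + 15 * δ) * M := by
          exact mul_le_mul_of_nonneg_right (pow_four_le hδ0.le hδ1) hM0
  have t2 : (1 + 1 / δ) * (243 * C3 * L ^ 4 * 1 ^ 2 * C * (if 0 < J then Yg v Y 0 / lm else 0) ^ 2
      * Real.exp (16 * |c| * rg v 0)) ≤ δ * M := by
    have h1 : (if 0 < J then Yg v Y 0 / lm else 0) ^ 2 ≤ ((Cs + 1) / σ) ^ 2 * (1 / Λ) := by
      have h2 : Yg v Y 0 / lm = (Cs + 1) / σ * (1 / Λ) := by
        rw [hYg0, hlm, hYdef]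
        field_simp
      have h3 : (1 / Λ) ^ 2 ≤ 1 / Λ := by
        have h4 : 1 / Λ ≤ 1 := by
          rw [div_le_one hΛ0]
          exact hΛ1
        have h5 : 0 ≤ 1 / Λ := by positivity
        exact pow_le_of_le_one h5 h4 two_ne_zero
      split_ifs
      · rw [h2, mul_pow]
        gcongr
      · rw [zero_pow two_ne_zero]
        positivity
    have h2 : Real.exp (16 * |c| * rg v 0) ≤ Real.exp v := by
      apply Real.exp_le_exp.mpr
      have h3 : (rg v 0 : ℝ) = v := by unfold rg; simp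
      rw [h3]
      have h4 : (0 : ℝ) ≤ v := Nat.cast_nonneg v
      have h5 : 16 * |c| ≤ 1 := by linarith
      calc 16 * |c| * (v : ℝ) ≤ 1 * v := by gcongr
        _ = v := one_mul _
    calc (1 + 1 / δ) * (243 * C3 * L ^ 4 * 1 ^ 2 * C * (if 0 < J then Yg v Y 0 / lm else 0) ^ 2
          * Real.exp (16 * |c| * rg v 0))
        ≤ (1 + 1 / δ) * (243 * C3 * L ^ 4 * 1 ^ 2 * C * (((Cs + 1) / σ) ^ 2 * (1 / Λ))
          * Real.exp v) := by gcongr
      _ = K * L ^ 4 * (1 / Λ) := by rw [hK]; ring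
      _ ≤ δ * M := by
          rw [div_le_iff₀ hδ0] at hΛ3
          rw [hM, mul_one_div, div_le_iff₀ hΛ0]
          have h6 : δ * (L ^ 4 / (4 * Real.pi ^ 2)) * Λ = (Λ * δ) * L ^ 4 / (4 * Real.pi ^ 2) := by ring
          rw [h6, le_div_iff₀ (by positivity)]
          calc K * L ^ 4 * (4 * Real.pi ^ 2) = (4 * Real.pi ^ 2 * K) * L ^ 4 := by ring
            _ ≤ (Λ * δ) * L ^ 4 := by gcongr
  calc E0 * ((1 + δ) * ((1 + δ) * (M * (1 + δ))) * Real.exp (C / p0 + C * Real.exp (-(v : ℝ) / 2))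
        + (1 + 1 / δ) * (243 * C3 * L ^ 4 * 1 ^ 2 * C * (if 0 < J then Yg v Y 0 / lm else 0) ^ 2
          * Real.exp (16 * |c| * rg v 0)))
      ≤ E0 * ((1 + 15 * δ) * M + δ * M) := by gcongr
    _ = (1 + 16 * δ) * M * E0 := by ring
    _ ≤ (1 + ε) * M * E0 := by
        have : 1 + 16 * δ ≤ 1 + ε := by linarith
        gcongr

end Pool.Agent.Lib.J4
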