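import Pool.Agent.Lib.MP_f9aece_nt_h17.Pt
import Pool.Agent.Lib.MP_f9aece_nt_h17.WinT
import Pool.Agent.Lib.MP_f9aece_nt_h20.Afe
import Pool.Agent.Lib.MP_f9aece_nt_h22.OscSum
import Pool.Agent.Lib.MP_f9aece_nt_h4.NInt
import Pool.Agent.Lib.MP_f9aece_nt_h4.UpperFour
import Pool.Agent.Lib.MP_f9aece_nt_h49.BePow
import Pool.Agent.Lib.MP_f9aece_nt_h87.MidSum
import Pool.Agent.Lib.MP_f9aece_nt_h87.D2Sum
import Pool.Agent.Lib.MP_f9aece_nt_h87.EdgeInt
import Pool.Agent.Lib.MP_f9aece_nt_j4.LowerFour
import Pool.Agent.Lib.MP_f9aece_nt_j4.I2Sum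
import Pool.Agent.Lib.MP_f9aece_nt_j4.I2Size
import Pool.Agent.Lib.MP_f9aece_nt_j4.FExpo
import Pool.Agent.Lib.MP_f9aece_nt_j4.Rough
import Pool.Agent.Lib.MP_f9aece_nt_j4.FW
import Pool.Agent.Lib.MP_f9aece_nt_j4.MuSum
import Pool.Agent.Lib.MP_f9aece_nt_j4.MlSum
import Pool.Agent.Lib.MP_f9aece_nt_j4.LowerW

/-!
Moments of zeta near the fourth moment: the modules put together.
-/

set_option autoImplicit false

namespace Pool.Agent.Lib.J4

theorem muSum_final : MuSum :=
  muSum fw rough1 (rough3 d2Sum) d2Sum beExpo bePow beExpoAbs bePowAbs vvSg sgDisj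

theorem midSum_final : MidSum :=
  midSum fw (rough2 d2Sum) (rough3 d2Sum) beExpo bePow beExpoAbs bePowAbs vvSg sgDisj

theorem mlSum_final : MlSum := mlSum d2Sum rough4 beLower

theorem suInt_final : SuInt := suInt mvt btLen suSum

theorem mainInt_final : MainInt := mainInt mvt oscSum btLen btSize d2Sum

theorem upperW_final : UpperW :=
  upperW afe ptUpper ptCap mainInt_final suInt_final (winInt mvt midSum_final)
    (shInt mvt midSum_final) (edgeInt mvt d2Sum) muSum_final vvSg vsBounds existsJ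

theorem lowerW_final : LowerW :=
  lowerW afe ptLower mainInt_final suInt_final muSum_final mlSum_final mvt oscSumTau btLen btSize
    d2Sum vsBounds existsJ

/-- the upper half at the fourth moment -/
theorem upperFour_final : UpperFour := upperFour upperW_final

/-- the lower half at the fourth moment -/
theorem lowerFour_final : LowerFour := lowerFour wgtTrap lowerW_final

end Pool.Agent.Lib.J4
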