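import Pool.Agent.Lib.MP_f9aece_nt_j4.KPar

/-!
Upper half: choice of the parameters.
-/

set_option autoImplicit false

namespace Pool.Agent.Lib.J4.H24

open MeasureTheory Set Filter Topology Complex
open Pool.Agent.Lib.MP_f9aece_nt (DP pair BK K1 ev ev1 evh PP VV Smo expo EE mom)

theorem upper_core (hAFE : AFE) (hPU : PtUpper) (hPC : PtCap) (hMI : MainInt) (hSI : SuInt)
    (hWI : WinInt) (hShI : ShInt) (hEI : EdgeInt) (hMu : MuSum) (hVV : VVSg) (hVs : VsBounds)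
    (hEJ : ExistsJ) {w : ℝ → ℝ} {θ C : ℝ} (hθ : 0 < θ) (hθ1 : θ ≤ 1) (hw : Wgt w θ C)
    {κ : ℝ} (hκ : 0 < κ) (hκ1 : κ ≤ 1) :
    ∃ a0 : ℝ, 0 < a0 ∧ a0 ≤ 1 / 2 ∧ ∃ T0 : ℝ, 1 ≤ T0 ∧ ∀ a : ℝ, 0 ≤ a → a ≤ a0 →
    ∀ T : ℝ, T0 ≤ T →
    ∫ t : ℝ, w (t / T) * ‖riemannZeta (1 / 2 + I * t)‖ ^ (4 * (1 - a))
      ≤ ((1 + κ) ^ 4 * (2 * (∫ u, w u) + κ) / (4 * Real.pi ^ 2) + 9 * κ)
        * (T * Real.log T ^ (4 * (1 - a) ^ 2)) := by
  obtain ⟨CA, T1, hCA, hT1, hAFE⟩ := hAFE θ hθ hθ1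
  obtain ⟨va, hVV⟩ := hVV
  obtain ⟨CV, hCV, hVs⟩ := hVs
  obtain ⟨vb, hSI⟩ := hSI
  obtain ⟨C2s, hC2s, hSI⟩ := hSI w θ C hθ hθ1 hw
  obtain ⟨vc, pc, hWI⟩ := hWI
  obtain ⟨C2w, hC2w, hWI⟩ := hWI w θ C hθ hθ1 hw
  obtain ⟨vd, pd, hShI⟩ := hShI
  obtain ⟨C2h, hC2h, hShI⟩ := hShI w θ C hθ hθ1 hw
  obtain ⟨C2e, T2, hC2e, hT2, hEI⟩ := hEI w θ C hθ hθ1 hw
  obtain ⟨ve, pe, hMu⟩ := hMu κ hκ
  -- choice of v
  obtain ⟨vf, hvf⟩ : ∃ vf : ℕ, ∀ v : ℕ, vf ≤ v → Real.exp (Real.exp (-(v : ℝ))) ≤ 1 + κ := by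
    have h1 : Tendsto (fun v : ℕ => Real.exp (Real.exp (-(v : ℝ)))) atTop (𝓝 (Real.exp 0)) :=
      (Real.continuous_exp.tendsto 0).comp
        (Real.tendsto_exp_neg_atTop_nhds_zero.comp tendsto_natCast_atTop_atTop)
    rw [Real.exp_zero] at h1
    have h2 := h1.eventually (gt_mem_nhds (show (1 : ℝ) < 1 + κ by linarith))
    obtain ⟨vf, hvf⟩ := eventually_atTop.mp h2
    exact ⟨vf, fun v hv => (hvf v hv).le⟩
  set v : ℕ := max (max (max va vb) (max vc vd)) (max (max ve vf) 2) with hv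
  have hva : va ≤ v := by simp only [hv]; omega
  have hvb : vb ≤ v := by simp only [hv]; omega
  have hvc : vc ≤ v := by simp only [hv]; omega
  have hvd : vd ≤ v := by simp only [hv]; omega
  have hve : ve ≤ v := by simp only [hv]; omega
  have hvf' : vf ≤ v := by simp only [hv]; omega
  have hv2 : 2 ≤ v := by simp only [hv]; omega
  clear_value v
  set p0 : ℕ := max (max pc pd) (max pe 10) with hp
  have hpc : pc ≤ p0 := by simp only [hp]; omega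
  have hpd : pd ≤ p0 := by simp only [hp]; omega
  have hpe : pe ≤ p0 := by simp only [hp]; omega
  have hp10 : 10 ≤ p0 := by simp only [hp]; omega
  clear_value p0
  have hV : ∀ (Y : ℝ) (g : ℕ), 0 < Y → VV (Sg v p0 Y g) ≤ 2 * rg v g :=
    fun Y g hY => hVV v hva p0 Y g hY
  set E := Real.exp (Real.exp (-(v : ℝ))) with hE
  have hE1 : E ≤ 1 + κ := hvf v hvf'
  have hE0 : 0 < E := Real.exp_pos _
  obtain ⟨Λs, hΛs, hSI⟩ := hSI v p0 hvb hp10
  -- choice of σ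
  set P := (1 + 1 / κ) * (1 + κ) * (16 * E * C2w) + 1 with hP
  have hP0 : 0 < P := by positivity
  set σ := min (1 / 4) (κ / (2 * P)) with hσ
  have hσ0 : 0 < σ := by rw [hσ]; exact lt_min (by norm_num) (by positivity)
  have hσ1 : σ ≤ 1 / 4 := min_le_left _ _
  have hσP : P * (2 * σ) ≤ κ := by
    have : σ ≤ κ / (2 * P) := min_le_right _ _
    calc P * (2 * σ) ≤ P * (2 * (κ / (2 * P))) := by gcongr
      _ = κ := by field_simp
  clear_value σ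
  obtain ⟨Λm, hΛm, hMI⟩ := hMI w θ C hθ hθ1 hw v p0 hv2 hp10 σ hσ0 hσ1
  obtain ⟨Λw, hΛw, hWI⟩ := hWI v p0 hvc hpc σ hσ0 hσ1
  obtain ⟨Λh, hΛh, hShI⟩ := hShI v p0 hvd hpd σ hσ0 hσ1
  obtain ⟨Λu, hΛu, hMu⟩ := hMu v p0 hve hpe σ hσ0 hσ1
  -- choice of Λ
  set Λ := max (max (max Λs Λm) (max Λw Λh)) (max Λu (P * (6000000 * v) / κ)) with hΛ
  have hΛ1 : Λs ≤ Λ := (le_max_left _ _).trans ((le_max_left _ _).trans (le_max_left _ _))
  have hΛ2 : Λm ≤ Λ := (le_max_right _ _).trans ((le_max_left _ _).trans (le_max_left _ _))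
  have hΛ3 : Λw ≤ Λ := (le_max_left _ _).trans ((le_max_right _ _).trans (le_max_left _ _))
  have hΛ4 : Λh ≤ Λ := (le_max_right _ _).trans ((le_max_right _ _).trans (le_max_left _ _))
  have hΛ5 : Λu ≤ Λ := (le_max_left _ _).trans (le_max_right _ _)
  have hΛ6 : P * (6000000 * v) / κ ≤ Λ := (le_max_right _ _).trans (le_max_right _ _)
  clear_value Λ
  have hΛ7 : 1 ≤ Λ := hΛs.trans hΛ1
  have hΛ0 : 0 < Λ := by linarith
  have hΛP : P * (6000000 * v / Λ) ≤ κ := by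
    rw [div_le_iff₀ hκ] at hΛ6
    rw [← mul_div_assoc, div_le_iff₀ hΛ0]
    linarith
  obtain ⟨Ts, hTs, hSI⟩ := hSI Λ hΛ1
  obtain ⟨Tm, hTm, hMI⟩ := hMI Λ hΛ2 κ hκ
  obtain ⟨Tw, hTw, hWI⟩ := hWI Λ hΛ3
  obtain ⟨Th, hTh, hShI⟩ := hShI Λ hΛ4
  obtain ⟨Tu, hTu, hMu⟩ := hMu Λ hΛ5
  -- constants for the last terms
  set K0 := Real.log Λ + 2 + Real.log p0 with hK0
  have hK00 : 0 ≤ K0 := by
    have h1 : 0 ≤ Real.log Λ := Real.log_nonneg hΛ7
    have h2 : 0 ≤ Real.log p0 := Real.log_natCast_nonneg p0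
    linarith
  set w0 := ∫ u, w u with hw0
  have hw00 : 0 ≤ w0 := integral_nonneg hw.nonneg
  set Q1 := (1 + 1 / κ) * (1 + κ) * (4 * E * (C2h * 2)) / σ ^ 2 with hQ1
  have hQ10 : 0 ≤ Q1 := by positivity
  set Q2 := (1 + 1 / κ) * (1 + κ) * (4 * E * (C2e + CA ^ 2 * w0) * Real.exp (1 + CV)) with hQ2
  have hQ20 : 0 ≤ Q2 := by positivity
  set Q3 := E * C2s * Real.exp (4 * CV) with hQ3
  have hQ30 : 0 ≤ Q3 := by positivity
  set ML := max (max Λ (Q1 / κ)) ((Q2 / κ) ^ 2) with hML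
  -- choice of a0 and T0
  set a0 : ℝ := min (min (1 / (1000000 * (v : ℝ))) (κ / (16 * (K0 + 1)))) (κ / (Q3 + 1)) with ha0
  have hvR : (2 : ℝ) ≤ v := by exact_mod_cast hv2
  have hv0 : (0 : ℝ) < v := by linarith
  refine ⟨a0, ?_, ?_, max (max (max Ts Tm) (max Tw Th)) (max (max Tu (Real.exp ML)) (max T1 T2)),
    ?_, ?_⟩
  · rw [ha0]
    refine lt_min (lt_min (by positivity) (by positivity)) (by positivity)
  · have h1 : a0 ≤ 1 / (1000000 * (v : ℝ)) := (min_le_left _ _).trans (min_le_left _ _)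
    have h2 : 1 / (1000000 * (v : ℝ)) ≤ 1 / 2 := by
      apply one_div_le_one_div_of_le (by norm_num)
      linarith
    linarith
  · exact hTs.trans ((le_max_left _ _).trans ((le_max_left _ _).trans (le_max_left _ _)))
  intro a ha haa T hT
  have hT1' : Ts ≤ T := ((le_max_left _ _).trans ((le_max_left _ _).trans (le_max_left _ _))).trans hT
  have hT2' : Tm ≤ T := ((le_max_right _ _).trans ((le_max_left _ _).trans (le_max_left _ _))).trans hT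
  have hT3' : Tw ≤ T := ((le_max_left _ _).trans ((le_max_right _ _).trans (le_max_left _ _))).trans hT
  have hT4' : Th ≤ T := ((le_max_right _ _).trans ((le_max_right _ _).trans (le_max_left _ _))).trans hT
  have hT5' : Tu ≤ T := ((le_max_left _ _).trans ((le_max_left _ _).trans (le_max_right _ _))).trans hT
  have hT6' : Real.exp ML ≤ T :=
    ((le_max_right _ _).trans ((le_max_left _ _).trans (le_max_right _ _))).trans hT
  have hT7' : T1 ≤ T := ((le_max_left _ _).trans ((le_max_right _ _).trans (le_max_right _ _))).trans hT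
  have hT8' : T2 ≤ T := ((le_max_right _ _).trans ((le_max_right _ _).trans (le_max_right _ _))).trans hT
  clear hT
  have hTpos : 0 < T := (Real.exp_pos _).trans_le hT6'
  set L := Real.log T with hL
  have hLM : ML ≤ L := by rw [hL, Real.le_log_iff_exp_le hTpos]; exact hT6'
  have hLΛ : Λ ≤ L := ((le_max_left _ _).trans (le_max_left _ _)).trans hLM
  have hLQ1 : Q1 / κ ≤ L := ((le_max_right _ _).trans (le_max_left _ _)).trans hLM
  have hLQ2 : (Q2 / κ) ^ 2 ≤ L := (le_max_right _ _).trans hLM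
  have hL1 : 1 ≤ L := hΛ7.trans hLΛ
  have hL0 : 0 < L := by linarith
  have hY1 : 1 ≤ L / Λ := by rw [le_div_iff₀ hΛ0]; linarith
  have hYL : L / Λ ≤ L := div_le_self hL0.le hΛ7
  have hY0 : 0 < L / Λ := by linarith
  obtain ⟨J, hJ⟩ := hEJ v p0 (by omega) (by omega) (L / Λ) hY0
  obtain ⟨hVlo, hVhi⟩ := Jok_Vs hVs (by omega : 1 ≤ p0) hΛ7 hLΛ hJ
  have hVs0 := Vs_nonneg v p0 (L / Λ) 0 J
  set V := Vs v p0 (L / Λ) 0 J with hVdef
  -- bounds for a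
  obtain ⟨ha1, ha2⟩ := a_le hv2 ha (haa.trans ((min_le_left _ _).trans (min_le_left _ _)))
  have ha3 : 8 * a * K0 ≤ κ / 2 := by
    have h1 : a ≤ κ / (16 * (K0 + 1)) := haa.trans ((min_le_left _ _).trans (min_le_right _ _))
    rw [le_div_iff₀ (by positivity)] at h1
    clear_value K0
    clear * - h1 hK00 ha
    nlinarith
  have ha4 : a * Q3 ≤ κ := by
    have h1 : a ≤ κ / (Q3 + 1) := haa.trans (min_le_right _ _)
    rw [le_div_iff₀ (by positivity)] at h1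
    clear_value Q3
    clear * - h1 ha
    nlinarith
  have hexpK : Real.exp (8 * a * K0) ≤ 1 + κ := exp_le_one_add hκ hκ1 ha3
  have habs : |(-2 : ℝ) * a| = 2 * a := by
    rw [abs_mul, abs_of_nonneg ha]; norm_num
  have ha10 : a ≤ 1 := ha2.trans (by norm_num)
  have ha12 : a ≤ 1 / 2 := ha2.trans (by norm_num)
  have hc : |(-2 : ℝ) * a| ≤ 1 / 1000 := by
    rw [habs]; clear * - ha2; linarith
  have hc3 : |(-2 : ℝ) * a| ≤ 3 := hc.trans (by norm_num)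
  have hc4 : |2 * (1 - a)| ≤ 3 := by
    clear * - ha ha10
    rw [abs_le]; constructor <;> linarith
  -- target quantities
  set X := T * L ^ (4 * (1 - a) ^ 2) with hX
  have hLr : 1 ≤ L ^ (4 * (1 - a) ^ 2) := Real.one_le_rpow hL1 (by positivity)
  have hTX : T ≤ X := by
    rw [hX]
    exact le_mul_of_one_le_right hTpos.le hLr
  have hX0' : 0 < X := hTpos.trans_le hTX
  set X0 := T * (L ^ 4 * Real.exp ((4 * a ^ 2 - 8 * a) * V)) with hX0
  have hX0X : X0 ≤ (1 + κ) * X := by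
    have h1 := X0_le hL1 ha ha10 hVlo hK00
    calc X0 ≤ T * (Real.exp (8 * a * K0) * L ^ (4 * (1 - a) ^ 2)) := by
          rw [hX0]; gcongr
      _ = Real.exp (8 * a * K0) * X := by rw [hX]; ring
      _ ≤ _ := by gcongr
  -- the pieces
  have pM := hMI T hT2' J hJ.2 (-2 * a) hc3
  have pMu := hMu T hT5' J hJ (-2 * a) hc
  have pS := hSI T hT1' J (2 * (1 - a)) hc4
  have pSh := hShI T hT4' J hJ (-2 * a) hc
  have pE := hEI T hT8'
  have hmain := upperT hPU hPC (CA := CA) (κ := κ) (J := J) (Λ := Λ) (σ := σ) (v := v) (p0 := p0)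
    hθ hw (by omega) ha ha12 hκ hTpos
    (fun t h1 h2 => hAFE T hT7' t h1 h2) pM pS (fun i hi => hWI T hT3' J hJ i hi (-2 * a) hc)
    pSh pE
  refine hmain.trans ?_
  have hsqc : ((-2 : ℝ) * a) ^ 2 + 4 * (-2 * a) = 4 * a ^ 2 - 8 * a := by ring
  rw [hsqc] at pMu
  have hS0 : 0 ≤ ∑ s ∈ (Finset.range J).powerset, Wt v s *
      En (Dm σ T * Bt (-2 * a) v p0 (L / Λ) 0 J s) :=
    Finset.sum_nonneg fun s _ => mul_nonneg (Wt_nonneg v s) (En_nonneg24 _)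
  have q1 := q1_le hκ hκ1 hw00 hE1 hTpos hTX hS0 pMu hX0 hX0X
  have q2 := q2_le (p0 := p0) (J := J) hE0 hC2w hTpos hL0 hΛ7 hσ0 ha ha1 (by omega : 1 ≤ v)
    (fun g => hV (L / Λ) g hY0) hX0
  have q3 := q3_le (v := v) hE0 hC2h hTpos hL1 hσ0 ha ha1 hX0
  have q4 := q4_le (CA := CA) hE0 hC2e hw00 hCV hTpos hL1 ha ha2 ha1 (J_bound hp10 hJ hY1 hYL)
    hVs0 hVhi hX0
  have q5 := q5_le hE0 hC2s hCV hTpos hL1 ha ha10 hVhi hX ha4
  have r2 := r2_le (v := v) hκ hE0 hC2w hX0' hX0X hσ0 hΛ0 hP hσP hΛP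
  have r3 := r3_le hκ hE0 hC2h hX0' hX0X hL0 hQ1 hLQ1
  have r4 := r4_le hκ hE0 hC2e hw00 hX0' hX0X hL0 hQ2 hLQ2
  have h6 : 0 ≤ 1 + 1 / κ := by positivity
  have r6 := mul_le_mul_of_nonneg_left (add_le_add (add_le_add q2 q3) q4) h6
  have r7 := r6.trans (show _ ≤ 2 * κ * X + κ * X + κ * X by
    rw [mul_add, mul_add]; exact add_le_add (add_le_add r2 r3) r4)
  have r8 := add_le_add (add_le_add q1 r7) q5
  refine r8.trans (le_of_eq ?_)
  ring

end Pool.Agent.Lib.J4.H24
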