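import Pool.Agent.Lib.MP_f9aece_nt_j4.KPoint

/-!
Upper half: the integrated inequality.
-/

set_option autoImplicit false

namespace Pool.Agent.Lib.J4.H24

open MeasureTheory Set Filter Topology Complex
open scoped ComplexConjugate
open Pool.Agent.Lib.MP_f9aece_nt (DP pair BK K1 ev ev1 evh PP VV Smo expo EE mom continuous_ev)
open Pool.Agent.H20.Chi (chi continuous_chi)

lemma ev_DF (t : ℝ) (f : ℝ → ℝ) (N : ℕ) :
    ev t (DF f N) = ∑ n ∈ Finset.Icc 1 N, ((dv n * f (Real.log n) : ℝ) : ℂ)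
      * (n : ℂ) ^ (-(1 / 2 + I * t : ℂ)) := by
  unfold DF
  rw [map_sum]
  exact Finset.sum_congr rfl fun n _ => by rw [Pool.Agent.Lib.MP_f9aece_nt.ev_single]

lemma continuous_cu (c d : ℝ) : Continuous (cu c d) := by
  unfold cu
  exact Real.smoothTransition.continuous.comp ((continuous_const.sub continuous_id).div_const d)

lemma continuous_win (v : ℕ) (Y L σ : ℝ) (J i : ℕ) : Continuous (win v Y L σ J i) := by
  unfold win
  exact (continuous_cu _ _).sub (continuous_cu _ _)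

lemma continuousOn_tau {T : ℝ} (hT : 0 < T) : ContinuousOn (tau T) (Ioi 0) := by
  unfold tau
  refine continuousOn_const.mul (ContinuousOn.log (continuousOn_const.div continuousOn_id ?_) ?_)
  · intro t ht; exact (ne_of_gt ht)
  · intro t ht
    have : (0 : ℝ) < t := ht
    positivity

lemma continuousOn_ev_DF {T : ℝ} (hT : 0 < T) {F : ℝ → ℝ} (hF : Continuous F) (N : ℕ) :
    ContinuousOn (fun t => ev t (DF (fun x => F (x + tau T t)) N)) (Ioi 0) := by
  simp only [ev_DF]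
  refine continuousOn_finsetSum _ fun n hn => ?_
  have hn1 : 1 ≤ n := (Finset.mem_Icc.mp hn).1
  have hn0 : (n : ℂ) ≠ 0 := by exact_mod_cast (Nat.one_le_iff_ne_zero.mp hn1)
  refine ContinuousOn.mul ?_ ?_
  · refine Complex.continuous_ofReal.comp_continuousOn (continuousOn_const.mul ?_)
    exact hF.comp_continuousOn (continuousOn_const.add (continuousOn_tau hT))
  · refine Continuous.continuousOn ?_
    refine Continuous.const_cpow ?_ (Or.inl hn0)
    fun_prop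

lemma continuousOn_Dmt {T θ : ℝ} (hT : 0 < T) (hθ : 0 < θ) (σ : ℝ) :
    ContinuousOn (fun t => ev t (Dmt σ T t)) (Icc (θ * T) (2 * T)) :=
  (continuousOn_ev_DF hT (continuous_cu _ _) _).mono fun _ ht =>
    lt_of_lt_of_le (mul_pos hθ hT) ht.1

lemma continuousOn_Wnt {T θ : ℝ} (hT : 0 < T) (hθ : 0 < θ) (v : ℕ) (Λ σ : ℝ) (J i : ℕ) :
    ContinuousOn (fun t => ev t (Wnt v Λ σ T J i t)) (Icc (θ * T) (2 * T)) :=
  (continuousOn_ev_DF hT (continuous_win _ _ _ _ _ _) _).mono fun _ ht =>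
    lt_of_lt_of_le (mul_pos hθ hT) ht.1

lemma Iw_cap {w : ℝ → ℝ} {θ C T : ℝ} (hw : Wgt w θ C) (hT : 0 < T) {f : ℝ → ℝ}
    (hf : ContinuousOn f (Icc (θ * T) (2 * T))) (c : ℝ) (v p0 : ℕ) (Y : ℝ) (i J : ℕ) :
    Iw w T (fun t => f t * cap c v p0 Y i J t) = ∑ s ∈ (Finset.Ico i J).powerset,
      Wt v s * ∫ t : ℝ, w (t / T) * (f t * ‖ev t (Bt c v p0 Y i J s)‖ ^ 2) := by
  have h1 : (fun t => f t * cap c v p0 Y i J t) = fun t => ∑ s ∈ (Finset.Ico i J).powerset,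
      Wt v s * (f t * ‖ev t (Bt c v p0 Y i J s)‖ ^ 2) := by
    funext t
    unfold cap
    rw [Finset.mul_sum]
    exact Finset.sum_congr rfl fun s _ => by ring
  rw [h1, Iw_sum hw hT]
  · refine Finset.sum_congr rfl fun s _ => ?_
    rw [Iw_const_mul]
    rfl
  · intro s _
    exact continuousOn_const.mul (hf.mul ((continuous_ev _).norm.pow 2).continuousOn)

lemma upperT (hU : PtUpper) (hCap : PtCap) {w : ℝ → ℝ} {θ C : ℝ} (hθ : 0 < θ) (hw : Wgt w θ C)
    {v p0 : ℕ} (hv : 1 ≤ v) {Λ σ : ℝ} {J : ℕ} {a κ CA T : ℝ} (ha : 0 ≤ a) (ha2 : a ≤ 1 / 2)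
    (hκ : 0 < κ) (hT : 0 < T)
    (h : ∀ t : ℝ, θ * T ≤ t → t ≤ 2 * T → ‖riemannZeta (1 / 2 + I * t) ^ 2
      - (ev t (Lo T) + chi t ^ 2 * conj (ev t (Lot T t)) + ev t (Ce T))‖ ≤ CA)
    {BM BS BSh BE : ℝ} {BW : ℕ → ℝ}
    (hM : ∑ s ∈ (Finset.range J).powerset, Wt v s * ∫ t : ℝ, w (t / T) *
        (‖ev t (Dm σ T) + chi t ^ 2 * conj (ev t (Dm σ T))‖ ^ 2
          * ‖ev t (Bt (-2 * a) v p0 (Real.log T / Λ) 0 J s)‖ ^ 2) ≤ BM)
    (hS : ∑ s ∈ (Finset.range J).powerset, Wt v s * ∫ t : ℝ, w (t / T) *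
        ‖ev t (Bt (2 * (1 - a)) v p0 (Real.log T / Λ) 0 J s)‖ ^ 2 ≤ BS)
    (hW : ∀ i ≤ J, ∑ s ∈ (Finset.Ico i J).powerset, Wt v s * ∫ t : ℝ, w (t / T) *
        ((‖ev t (Wn v Λ σ T J i)‖ ^ 2 + ‖ev t (Wnt v Λ σ T J i t)‖ ^ 2)
          * ‖ev t (Bt (-2 * a) v p0 (Real.log T / Λ) i J s)‖ ^ 2) ≤ BW i)
    (hSh : ∑ s ∈ (Finset.range J).powerset, Wt v s * ∫ t : ℝ, w (t / T) *
        (‖ev t (Dmt σ T t) - ev t (Dm σ T)‖ ^ 2
          * ‖ev t (Bt (-2 * a) v p0 (Real.log T / Λ) 0 J s)‖ ^ 2) ≤ BSh)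
    (hE : ∫ t : ℝ, w (t / T) * ‖ev t (Ce T)‖ ^ 2 ≤ BE) :
    ∫ t : ℝ, w (t / T) * ‖riemannZeta (1 / 2 + I * t)‖ ^ (4 * (1 - a)) ≤
      (1 + κ) * (Real.exp (Real.exp (-v)) * BM)
      + (1 + 1 / κ) * (∑ i ∈ Finset.range (J + 1),
            (16 * 2 ^ i * Real.exp (4 * a * ∑ g ∈ Finset.range i, Rg v g) * Real.exp (Real.exp (-v)))
              * BW i
          + 4 * Real.exp (Real.exp (-v)) * BSh
          + 4 * (Real.exp (4 * a * ∑ g ∈ Finset.range J, Rg v g) * Real.exp (Real.exp (-v)))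
              * (BE + CA ^ 2 * (T * ∫ u, w u)))
      + a * Real.exp (Real.exp (-v)) * BS := by
  set Y := Real.log T / Λ with hY
  set E := Real.exp (Real.exp (-(v : ℝ))) with hE'
  have hE0 : 0 < E := Real.exp_pos _
  set Q := Icc (θ * T) (2 * T) with hQ
  set f1 : ℝ → ℝ := fun t => ‖ev t (Dm σ T) + chi t ^ 2 * conj (ev t (Dm σ T))‖ ^ 2 with hf1
  set f2 : ℕ → ℝ → ℝ := fun i t => ‖ev t (Wn v Λ σ T J i)‖ ^ 2 + ‖ev t (Wnt v Λ σ T J i t)‖ ^ 2
    with hf2
  set f3 : ℝ → ℝ := fun t => ‖ev t (Dmt σ T t) - ev t (Dm σ T)‖ ^ 2 with hf3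
  set f4 : ℝ → ℝ := fun t => ‖ev t (Ce T)‖ ^ 2 with hf4
  have c1 : ContinuousOn f1 Q := by
    refine Continuous.continuousOn ?_
    exact ((continuous_ev _).add ((continuous_chi.pow 2).mul
      (Complex.continuous_conj.comp (continuous_ev _)))).norm.pow 2
  have c2 : ∀ i, ContinuousOn (f2 i) Q := fun i =>
    (((continuous_ev _).norm.pow 2).continuousOn).add ((continuousOn_Wnt hT hθ v Λ σ J i).norm.pow 2)
  have c3 : ContinuousOn f3 Q :=
    ((continuousOn_Dmt hT hθ σ).sub (continuous_ev _).continuousOn).norm.pow 2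
  have c4 : ContinuousOn f4 Q := ((continuous_ev _).norm.pow 2).continuousOn
  have cc : ∀ (c : ℝ) (i : ℕ), ContinuousOn (cap c v p0 Y i J) Q := fun c i =>
    (continuous_cap c v p0 Y i J).continuousOn
  -- the integrated pieces
  have i1 : Iw w T (fun t => f1 t * cap (-2 * a) v p0 Y 0 J t) ≤ BM := by
    rw [Iw_cap hw hT c1, ← Finset.range_eq_Ico]
    exact hM
  have i2 : ∀ i ≤ J, Iw w T (fun t => f2 i t * cap (-2 * a) v p0 Y i J t) ≤ BW i := by
    intro i hi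
    rw [Iw_cap hw hT (c2 i)]
    exact hW i hi
  have i3 : Iw w T (fun t => f3 t * cap (-2 * a) v p0 Y 0 J t) ≤ BSh := by
    rw [Iw_cap hw hT c3, ← Finset.range_eq_Ico]
    exact hSh
  have i5 : Iw w T (fun t => cap (2 * (1 - a)) v p0 Y 0 J t) ≤ BS := by
    have h1 := Iw_cap hw hT (f := fun _ => 1) continuousOn_const (2 * (1 - a)) v p0 Y 0 J
    simp only [one_mul] at h1
    rw [h1, ← Finset.range_eq_Ico]
    exact hS
  -- the dominating function
  set e1 : ℝ → ℝ := fun t => (1 + κ) * (E * (f1 t * cap (-2 * a) v p0 Y 0 J t)) with he1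
  set e2 : ℕ → ℝ → ℝ := fun i t =>
    (16 * 2 ^ i * Real.exp (4 * a * ∑ g ∈ Finset.range i, Rg v g) * E)
      * (f2 i t * cap (-2 * a) v p0 Y i J t) with he2
  set e3 : ℝ → ℝ := fun t => 4 * E * (f3 t * cap (-2 * a) v p0 Y 0 J t) with he3
  set EJ := 4 * (Real.exp (4 * a * ∑ g ∈ Finset.range J, Rg v g) * E) with hEJ
  set e4 : ℝ → ℝ := fun t => EJ * (f4 t + CA ^ 2 * 1) with he4
  set e5 : ℝ → ℝ := fun t => a * E * cap (2 * (1 - a)) v p0 Y 0 J t with he5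
  have d1 : ContinuousOn e1 Q := continuousOn_const.mul (continuousOn_const.mul (c1.mul (cc _ _)))
  have d2 : ∀ i, ContinuousOn (e2 i) Q := fun i => continuousOn_const.mul ((c2 i).mul (cc _ _))
  have d2s : ContinuousOn (fun t => ∑ i ∈ Finset.range (J + 1), e2 i t) Q :=
    continuousOn_finsetSum _ fun i _ => d2 i
  have d3 : ContinuousOn e3 Q := continuousOn_const.mul (c3.mul (cc _ _))
  have d4 : ContinuousOn e4 Q := continuousOn_const.mul (c4.add continuousOn_const)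
  have d5 : ContinuousOn e5 Q := continuousOn_const.mul (cc _ _)
  have key : Iw w T (fun t => ‖riemannZeta (1 / 2 + I * t)‖ ^ (4 * (1 - a)))
      ≤ Iw w T (fun t => e1 t + (1 + 1 / κ) * ((∑ i ∈ Finset.range (J + 1), e2 i t) + e3 t + e4 t)
        + e5 t) := by
    refine Iw_mono hw hT ?_ ?_ ?_
    · exact (d1.add (continuousOn_const.mul ((d2s.add d3).add d4))).add d5
    · intro t _
      positivity
    · intro t ht
      exact point_upper hU hCap hv ha ha2 hκ (h t ht.1 ht.2)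
  rw [Iw_add (f := fun t => e1 t + (1 + 1 / κ) * ((∑ i ∈ Finset.range (J + 1), e2 i t) + e3 t + e4 t))
      (g := e5) hw hT (d1.add (continuousOn_const.mul ((d2s.add d3).add d4))) d5,
    Iw_add (f := e1) (g := fun t => (1 + 1 / κ) * ((∑ i ∈ Finset.range (J + 1), e2 i t) + e3 t + e4 t))
      hw hT d1 (continuousOn_const.mul ((d2s.add d3).add d4)),
    Iw_const_mul (1 + 1 / κ) (fun t => (∑ i ∈ Finset.range (J + 1), e2 i t) + e3 t + e4 t),
    Iw_add (f := fun t => (∑ i ∈ Finset.range (J + 1), e2 i t) + e3 t) (g := e4) hw hT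
      (d2s.add d3) d4,
    Iw_add (f := fun t => (∑ i ∈ Finset.range (J + 1), e2 i t)) (g := e3) hw hT d2s d3,
    Iw_sum hw hT _ (fun i _ => d2 i)] at key
  have j1 : Iw w T e1 ≤ (1 + κ) * (E * BM) := by
    rw [he1, Iw_const_mul, Iw_const_mul]
    exact mul_le_mul_of_nonneg_left (mul_le_mul_of_nonneg_left i1 hE0.le) (by positivity)
  have j2 : ∑ i ∈ Finset.range (J + 1), Iw w T (e2 i) ≤ ∑ i ∈ Finset.range (J + 1),
            (16 * 2 ^ i * Real.exp (4 * a * ∑ g ∈ Finset.range i, Rg v g) * E) * BW i := by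
    refine Finset.sum_le_sum fun i hi => ?_
    rw [he2]
    simp only []
    rw [Iw_const_mul]
    exact mul_le_mul_of_nonneg_left (i2 i (Nat.lt_succ_iff.mp (Finset.mem_range.mp hi)))
      (by positivity)
  have j3 : Iw w T e3 ≤ 4 * E * BSh := by
    rw [he3, Iw_const_mul]
    exact mul_le_mul_of_nonneg_left i3 (by positivity)
  have j4 : Iw w T e4 ≤ EJ * (BE + CA ^ 2 * (T * ∫ u, w u)) := by
    rw [he4, Iw_const_mul, Iw_add hw hT c4 continuousOn_const, Iw_const_mul, Iw_one hT]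
    refine mul_le_mul_of_nonneg_left ?_ (by positivity)
    have : Iw w T f4 ≤ BE := hE
    linarith
  have j5 : Iw w T e5 ≤ a * E * BS := by
    rw [he5, Iw_const_mul]
    exact mul_le_mul_of_nonneg_left i5 (by positivity)
  have h6 : 0 ≤ 1 + 1 / κ := by positivity
  have j6 := mul_le_mul_of_nonneg_left (add_le_add (add_le_add j2 j3) j4) h6
  have key' : ∫ t : ℝ, w (t / T) * ‖riemannZeta (1 / 2 + I * t)‖ ^ (4 * (1 - a)) ≤ _ := key
  linarith

end Pool.Agent.Lib.J4.H24
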