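import Pool.Agent.Lib.MP_f9aece_nt_j4.KWin

/-!
Upper half: elementary inequalities for the choice of the parameters.
-/

set_option autoImplicit false

namespace Pool.Agent.Lib.J4.H24

open MeasureTheory Set Filter Topology Complex
open Pool.Agent.Lib.MP_f9aece_nt (DP pair BK K1 ev ev1 evh PP VV Smo expo EE mom)

lemma edge_le {a L CV V : ℝ} {v J : ℕ} (hL : 1 ≤ L) (ha : 0 ≤ a) (ha1 : a ≤ 1 / 1000000)
    (hav : a * v ≤ 1 / 1000000) (hJ : (v : ℝ) * (J * (J + 1)) ≤ 6 * Real.log L + 2 * v)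
    (hV0 : 0 ≤ V) (hV : V ≤ Real.log L + CV) (hCV : 0 ≤ CV) :
    Real.exp (4 * a * ∑ g ∈ Finset.range J, Rg v g) * L ^ 3
      ≤ Real.exp (1 + CV) * (L ^ 4 * Real.exp ((4 * a ^ 2 - 8 * a) * V)) / Real.sqrt L := by
  have hL0 : 0 < L := by linarith
  have hlog : 0 ≤ Real.log L := Real.log_nonneg hL
  have hs0 : 0 < Real.sqrt L := Real.sqrt_pos.mpr hL0
  have hsq : Real.sqrt L * Real.sqrt L = L := Real.mul_self_sqrt hL0.le
  have hsexp : Real.sqrt L = Real.exp (Real.log L / 2) := by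
    rw [Real.exp_half, Real.exp_log hL0]
  have h1 : Real.exp (4 * a * ∑ g ∈ Finset.range J, Rg v g)
      ≤ Real.exp (1 + CV) * Real.exp ((4 * a ^ 2 - 8 * a) * V) * Real.sqrt L := by
    rw [hsexp, ← Real.exp_add, ← Real.exp_add, Real.exp_le_exp, sum_Rg]
    have h2 : 4 * a * (500 * (v * (J * (J + 1)))) ≤ 2000 * a * (6 * Real.log L + 2 * v) := by
      calc 4 * a * (500 * (v * (J * (J + 1)))) = 2000 * a * (v * (J * (J + 1))) := by ring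
        _ ≤ _ := mul_le_mul_of_nonneg_left hJ (by positivity)
    have h3 : 0 ≤ 4 * a ^ 2 * V := by positivity
    have h4 : 8 * a * V ≤ 8 * a * (Real.log L + CV) := mul_le_mul_of_nonneg_left hV (by positivity)
    have h5 : a * Real.log L ≤ 1 / 1000000 * Real.log L := mul_le_mul_of_nonneg_right ha1 hlog
    have h6 : a * CV ≤ 1 / 1000000 * CV := mul_le_mul_of_nonneg_right ha1 hCV
    nlinarith
  rw [le_div_iff₀ hs0]
  calc Real.exp (4 * a * ∑ g ∈ Finset.range J, Rg v g) * L ^ 3 * Real.sqrt L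
      ≤ (Real.exp (1 + CV) * Real.exp ((4 * a ^ 2 - 8 * a) * V) * Real.sqrt L) * L ^ 3
        * Real.sqrt L := by gcongr
    _ = Real.exp (1 + CV) * Real.exp ((4 * a ^ 2 - 8 * a) * V) * L ^ 3
        * (Real.sqrt L * Real.sqrt L) := by ring
    _ = _ := by rw [hsq]; ring

lemma X0_le {a L K0 V : ℝ} (hL : 1 ≤ L) (ha : 0 ≤ a) (ha1 : a ≤ 1) (hV : Real.log L - K0 ≤ V)
    (hK : 0 ≤ K0) : L ^ 4 * Real.exp ((4 * a ^ 2 - 8 * a) * V)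
      ≤ Real.exp (8 * a * K0) * L ^ (4 * (1 - a) ^ 2) := by
  have hL0 : 0 < L := by linarith
  rw [Real.rpow_def_of_pos hL0]
  have h1 : L ^ 4 = Real.exp (4 * Real.log L) := by
    rw [show (4 : ℝ) * Real.log L = ((4 : ℕ) : ℝ) * Real.log L by norm_num, Real.exp_nat_mul,
      Real.exp_log hL0]
  rw [h1, ← Real.exp_add, ← Real.exp_add, Real.exp_le_exp]
  have h2 : (4 * a ^ 2 - 8 * a) * V ≤ (4 * a ^ 2 - 8 * a) * (Real.log L - K0) :=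
    mul_le_mul_of_nonpos_left hV (by nlinarith)
  have h3 : 0 ≤ a ^ 2 * K0 := by positivity
  nlinarith

lemma su_le {a L CV V : ℝ} (hL : 1 ≤ L) (ha : 0 ≤ a) (ha1 : a ≤ 1) (hV : V ≤ Real.log L + CV)
    (hCV : 0 ≤ CV) : Real.exp ((2 * (1 - a)) ^ 2 * V)
      ≤ Real.exp (4 * CV) * L ^ (4 * (1 - a) ^ 2) := by
  have hL0 : 0 < L := by linarith
  rw [Real.rpow_def_of_pos hL0, ← Real.exp_add, Real.exp_le_exp]
  have h1 : (2 * (1 - a)) ^ 2 * V ≤ (2 * (1 - a)) ^ 2 * (Real.log L + CV) :=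
    mul_le_mul_of_nonneg_left hV (by positivity)
  have h2 : (2 * (1 - a)) ^ 2 * CV ≤ 4 * CV := by
    refine mul_le_mul_of_nonneg_right ?_ hCV
    nlinarith
  nlinarith

lemma Jok_Vs {C : ℝ} (hVs : ∀ (v p0 : ℕ) (Y : ℝ) (J : ℕ), 1 ≤ p0 → 1 ≤ Y →
    Yg v Y J ≤ Real.log p0 →
    Real.log Y - 2 - Real.log p0 ≤ Vs v p0 Y 0 J ∧ Vs v p0 Y 0 J ≤ Real.log Y + C)
    {v p0 : ℕ} {L Λ : ℝ} {J : ℕ} (hp0 : 1 ≤ p0) (hΛ : 1 ≤ Λ) (hL : Λ ≤ L)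
    (hJ : Jok v p0 (L / Λ) J) :
    Real.log L - (Real.log Λ + 2 + Real.log p0) ≤ Vs v p0 (L / Λ) 0 J ∧
      Vs v p0 (L / Λ) 0 J ≤ Real.log L + C := by
  have hΛ0 : 0 < Λ := by linarith
  have hL0 : 0 < L := by linarith
  have hY : 1 ≤ L / Λ := by rw [le_div_iff₀ hΛ0]; linarith
  obtain ⟨h1, h2⟩ := hVs v p0 (L / Λ) J hp0 hY hJ.1
  rw [Real.log_div hL0.ne' hΛ0.ne'] at h1 h2
  have h3 : 0 ≤ Real.log Λ := Real.log_nonneg hΛ
  constructor <;> linarith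

lemma En_nonneg24 (f : DP) : 0 ≤ En f := by
  unfold En
  rw [Pool.Agent.Lib.MP_f9aece_nt.BK_K1_eq, Pool.Agent.Lib.MP_f9aece_nt.pair_def]
  refine Finset.sum_nonneg fun n _ => ?_
  have h1 := mul_self_nonneg (f.coeff n)
  have h4 : (0 : ℝ) ≤ (n : ℝ)⁻¹ := by positivity
  have := mul_nonneg h1 h4
  linarith

lemma a_le {a : ℝ} {v : ℕ} (hv : 2 ≤ v) (ha : 0 ≤ a) (h : a ≤ 1 / (1000000 * (v : ℝ))) :
    a * v ≤ 1 / 1000000 ∧ a ≤ 1 / 1000000 := by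
  have hvR : (2 : ℝ) ≤ v := by exact_mod_cast hv
  have hv0 : (0 : ℝ) < v := by linarith
  have h1 : a * v ≤ 1 / 1000000 := by
    calc a * v ≤ 1 / (1000000 * (v : ℝ)) * v := by gcongr
      _ = 1 / 1000000 := by field_simp
  exact ⟨h1, by nlinarith⟩

lemma exp_le_one_add {κ x : ℝ} (hκ : 0 < κ) (hκ1 : κ ≤ 1) (hx : x ≤ κ / 2) :
    Real.exp x ≤ 1 + κ := by
  have h1 : Real.exp x ≤ Real.exp (κ / 2) := Real.exp_le_exp.mpr hx
  have h2 : Real.exp (κ / 2) ≤ 1 + κ := by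
    have h3 := Real.abs_exp_sub_one_le (x := κ / 2) (by rw [abs_of_pos (by positivity)]; linarith)
    rw [abs_of_pos (show (0 : ℝ) < κ / 2 by positivity)] at h3
    have h4 := le_abs_self (Real.exp (κ / 2) - 1)
    linarith
  linarith

lemma q1_le {κ w0 E T X X0 S L G : ℝ} (hκ : 0 < κ) (hκ1 : κ ≤ 1) (hw0 : 0 ≤ w0) (hE1 : E ≤ 1 + κ)
    (hT : 0 < T) (hTX : T ≤ X) (hS : 0 ≤ S) (hSle : S ≤ (1 + κ) * (L ^ 4 / (4 * Real.pi ^ 2)) * G)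
    (hX0 : X0 = T * (L ^ 4 * G)) (hX0X : X0 ≤ (1 + κ) * X) :
    (1 + κ) * (E * ((2 * w0 + κ) * T * S + κ * T))
      ≤ ((1 + κ) ^ 4 * (2 * w0 + κ) / (4 * Real.pi ^ 2) + 4 * κ) * X := by
  have hX : 0 < X := by linarith
  have h1 : (2 * w0 + κ) * T * S ≤ (2 * w0 + κ) * (1 + κ) / (4 * Real.pi ^ 2) * X0 := by
    calc _ ≤ (2 * w0 + κ) * T * ((1 + κ) * (L ^ 4 / (4 * Real.pi ^ 2)) * G) :=
          mul_le_mul_of_nonneg_left hSle (by positivity)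
      _ = _ := by rw [hX0]; ring
  have h2 : (2 * w0 + κ) * (1 + κ) / (4 * Real.pi ^ 2) * X0
      ≤ (2 * w0 + κ) * (1 + κ) / (4 * Real.pi ^ 2) * ((1 + κ) * X) :=
    mul_le_mul_of_nonneg_left hX0X (by positivity)
  have h0 : 0 ≤ (2 * w0 + κ) * T * S + κ * T := by positivity
  have h5 : (2 * w0 + κ) * T * S + κ * T
      ≤ (2 * w0 + κ) * (1 + κ) / (4 * Real.pi ^ 2) * ((1 + κ) * X) + κ * X := by
    have : κ * T ≤ κ * X := mul_le_mul_of_nonneg_left hTX hκ.le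
    linarith
  calc (1 + κ) * (E * ((2 * w0 + κ) * T * S + κ * T))
      ≤ (1 + κ) * ((1 + κ) * ((2 * w0 + κ) * T * S + κ * T)) :=
        mul_le_mul_of_nonneg_left (mul_le_mul_of_nonneg_right hE1 h0) (by positivity)
    _ ≤ (1 + κ) * ((1 + κ) * ((2 * w0 + κ) * (1 + κ) / (4 * Real.pi ^ 2) * ((1 + κ) * X)
        + κ * X)) :=
        mul_le_mul_of_nonneg_left (mul_le_mul_of_nonneg_left h5 (by positivity)) (by positivity)
    _ = ((1 + κ) ^ 4 * (2 * w0 + κ) / (4 * Real.pi ^ 2)) * X + (1 + κ) ^ 2 * κ * X := by ring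
    _ ≤ _ := by
        have h3 : (1 + κ) ^ 2 * κ * X ≤ 4 * κ * X := by
          refine mul_le_mul_of_nonneg_right (mul_le_mul_of_nonneg_right ?_ hκ.le) hX.le
          nlinarith
        linarith

lemma q2_le {E C2w T L Λ σ a X0 : ℝ} {v p0 J : ℕ} (hE0 : 0 < E) (hC2w : 0 ≤ C2w) (hT : 0 < T)
    (hL : 0 < L) (hΛ : 1 ≤ Λ) (hσ : 0 < σ) (ha : 0 ≤ a) (hav : a * v ≤ 1 / 1000000) (hv : 1 ≤ v)
    (hV : ∀ g : ℕ, VV (Sg v p0 (L / Λ) g) ≤ 2 * rg v g)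
    (hX0 : X0 = T * (L ^ 4 * Real.exp ((4 * a ^ 2 - 8 * a) * Vs v p0 (L / Λ) 0 J))) :
    ∑ i ∈ Finset.range (J + 1),
        (16 * 2 ^ i * Real.exp (4 * a * ∑ g ∈ Finset.range i, Rg v g) * E)
          * (C2w * T * lam v (L / Λ) L σ J i * L ^ 3
        * Real.exp (((-2 * a) ^ 2 + 4 * (-2 * a)) * Vs v p0 (L / Λ) i J
          + 32 * |(-2) * a| * rg v i))
      ≤ 16 * E * C2w * X0 * (2 * σ + 6000000 * v / Λ) := by
  have hΛ0 : 0 < Λ := by linarith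
  have h1 : ∀ i ∈ Finset.range (J + 1),
      (16 * 2 ^ i * Real.exp (4 * a * ∑ g ∈ Finset.range i, Rg v g) * E)
        * (C2w * T * lam v (L / Λ) L σ J i * L ^ 3
      * Real.exp (((-2 * a) ^ 2 + 4 * (-2 * a)) * Vs v p0 (L / Λ) i J + 32 * |(-2) * a| * rg v i))
      ≤ 16 * E * C2w * X0 * (2 ^ i * (lam v (L / Λ) L σ J i / L)
        * Real.exp (21 / 10000 * ((i : ℝ) + 1) ^ 2)) := by
    intro i hi
    have hiJ : i ≤ J := Nat.lt_succ_iff.mp (Finset.mem_range.mp hi)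
    have h2 := win_exp_le (p0 := p0) (Y := L / Λ) hV hiJ ha hav
    have hlam : 0 ≤ lam v (L / Λ) L σ J i := by
      unfold lam Yg
      split_ifs <;> positivity
    calc _ = 16 * E * C2w * T * L ^ 3 * (2 ^ i * lam v (L / Λ) L σ J i)
          * (Real.exp (4 * a * ∑ g ∈ Finset.range i, Rg v g)
            * Real.exp (((-2 * a) ^ 2 + 4 * (-2 * a)) * Vs v p0 (L / Λ) i J
              + 32 * |(-2) * a| * rg v i)) := by
          ring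
      _ ≤ 16 * E * C2w * T * L ^ 3 * (2 ^ i * lam v (L / Λ) L σ J i)
          * (Real.exp ((4 * a ^ 2 - 8 * a) * Vs v p0 (L / Λ) 0 J)
            * Real.exp (21 / 10000 * ((i : ℝ) + 1) ^ 2)) :=
          mul_le_mul_of_nonneg_left h2 (by positivity)
      _ = _ := by
          rw [hX0]
          field_simp
  have hX00 : 0 ≤ X0 := by rw [hX0]; positivity
  refine (Finset.sum_le_sum h1).trans ?_
  rw [← Finset.mul_sum]
  exact mul_le_mul_of_nonneg_left (sum_lam hv hL hΛ hσ.le J) (by positivity)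

lemma q3_le {E C2h T L σ a V X0 : ℝ} {v : ℕ} (hE0 : 0 < E) (hC2h : 0 ≤ C2h) (hT : 0 < T)
    (hL : 1 ≤ L) (hσ : 0 < σ) (ha : 0 ≤ a) (hav : a * v ≤ 1 / 1000000)
    (hX0 : X0 = T * (L ^ 4 * Real.exp ((4 * a ^ 2 - 8 * a) * V))) :
    4 * E * (C2h * T * (L ^ 2 / σ ^ 2)
        * Real.exp (((-2 * a) ^ 2 + 4 * (-2 * a)) * V + 32 * |(-2) * a| * rg v 0))
      ≤ 4 * E * (C2h * 2) / σ ^ 2 * X0 / L := by
  have hL0 : 0 < L := by linarith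
  have hrg : (rg v 0 : ℝ) = v := by unfold rg; push_cast; ring
  have habs : |(-2 : ℝ) * a| = 2 * a := by
    rw [abs_mul, abs_of_nonneg ha]; norm_num
  have h1 : Real.exp (32 * |(-2) * a| * rg v 0) ≤ 2 := by
    rw [habs, hrg, ← Real.le_log_iff_exp_le (by norm_num)]
    have := Real.log_two_gt_d9
    nlinarith
  have hsqc : ((-2 : ℝ) * a) ^ 2 + 4 * (-2 * a) = 4 * a ^ 2 - 8 * a := by ring
  rw [Real.exp_add, hsqc]
  have h2 : L ^ 2 ≤ L ^ 4 / L := by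
    rw [le_div_iff₀ hL0]
    nlinarith [pow_pos hL0 3]
  calc 4 * E * (C2h * T * (L ^ 2 / σ ^ 2)
      * (Real.exp ((4 * a ^ 2 - 8 * a) * V) * Real.exp (32 * |(-2) * a| * rg v 0)))
      ≤ 4 * E * (C2h * T * ((L ^ 4 / L) / σ ^ 2)
      * (Real.exp ((4 * a ^ 2 - 8 * a) * V) * 2)) := by gcongr
    _ = _ := by
        rw [hX0]
        field_simp

lemma q4_le {E C2e CA w0 CV T L a V X0 : ℝ} {v J : ℕ} (hE0 : 0 < E) (hC2e : 0 ≤ C2e)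
    (hw0 : 0 ≤ w0) (hCV : 0 ≤ CV) (hT : 0 < T) (hL : 1 ≤ L) (ha : 0 ≤ a) (ha1 : a ≤ 1 / 1000000)
    (hav : a * v ≤ 1 / 1000000) (hJ : (v : ℝ) * (J * (J + 1)) ≤ 6 * Real.log L + 2 * v)
    (hV0 : 0 ≤ V) (hV : V ≤ Real.log L + CV)
    (hX0 : X0 = T * (L ^ 4 * Real.exp ((4 * a ^ 2 - 8 * a) * V))) :
    4 * (Real.exp (4 * a * ∑ g ∈ Finset.range J, Rg v g) * E)
        * (C2e * T * L ^ 3 + CA ^ 2 * (T * w0))
      ≤ 4 * E * (C2e + CA ^ 2 * w0) * Real.exp (1 + CV) * X0 / Real.sqrt L := by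
  have h1 := edge_le hL ha ha1 hav hJ hV0 hV hCV
  have h2 : CA ^ 2 * (T * w0) ≤ CA ^ 2 * w0 * (T * L ^ 3) := by
    have h3 : (1 : ℝ) ≤ L ^ 3 := one_le_pow₀ hL
    have h4 : 0 ≤ CA ^ 2 * w0 * T := by positivity
    nlinarith
  calc 4 * (Real.exp (4 * a * ∑ g ∈ Finset.range J, Rg v g) * E)
      * (C2e * T * L ^ 3 + CA ^ 2 * (T * w0))
      ≤ 4 * (Real.exp (4 * a * ∑ g ∈ Finset.range J, Rg v g) * E)
      * (C2e * T * L ^ 3 + CA ^ 2 * w0 * (T * L ^ 3)) := by gcongr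
    _ = 4 * E * (C2e + CA ^ 2 * w0) * T
        * (Real.exp (4 * a * ∑ g ∈ Finset.range J, Rg v g) * L ^ 3) := by ring
    _ ≤ 4 * E * (C2e + CA ^ 2 * w0) * T
        * (Real.exp (1 + CV) * (L ^ 4 * Real.exp ((4 * a ^ 2 - 8 * a) * V)) / Real.sqrt L) :=
        mul_le_mul_of_nonneg_left h1 (by positivity)
    _ = _ := by rw [hX0]; ring

lemma q5_le {E C2s CV T L a V κ X : ℝ} (hE0 : 0 < E) (hC2s : 0 ≤ C2s) (hCV : 0 ≤ CV) (hT : 0 < T)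
    (hL : 1 ≤ L) (ha : 0 ≤ a) (ha1 : a ≤ 1) (hV : V ≤ Real.log L + CV)
    (hX : X = T * L ^ (4 * (1 - a) ^ 2)) (haQ : a * (E * C2s * Real.exp (4 * CV)) ≤ κ) :
    a * E * (C2s * T * Real.exp ((2 * (1 - a)) ^ 2 * V)) ≤ κ * X := by
  have h1 := su_le hL ha ha1 hV hCV
  have hL0 : 0 < L := by linarith
  have hX0 : 0 < X := by rw [hX]; positivity
  calc a * E * (C2s * T * Real.exp ((2 * (1 - a)) ^ 2 * V))
      ≤ a * E * (C2s * T * (Real.exp (4 * CV) * L ^ (4 * (1 - a) ^ 2))) := by gcongr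
    _ = a * (E * C2s * Real.exp (4 * CV)) * X := by rw [hX]; ring
    _ ≤ _ := by gcongr

lemma r2_le {κ E C2w X X0 σ Λ P : ℝ} {v : ℕ} (hκ : 0 < κ) (hE0 : 0 < E) (hC2w : 0 ≤ C2w)
    (hX : 0 < X) (hX0X : X0 ≤ (1 + κ) * X) (hσ : 0 < σ) (hΛ : 0 < Λ)
    (hP : P = (1 + 1 / κ) * (1 + κ) * (16 * E * C2w) + 1) (hσP : P * (2 * σ) ≤ κ)
    (hΛP : P * (6000000 * v / Λ) ≤ κ) :
    (1 + 1 / κ) * (16 * E * C2w * X0 * (2 * σ + 6000000 * v / Λ)) ≤ 2 * κ * X := by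
  calc (1 + 1 / κ) * (16 * E * C2w * X0 * (2 * σ + 6000000 * v / Λ))
      ≤ (1 + 1 / κ) * (16 * E * C2w * ((1 + κ) * X) * (2 * σ + 6000000 * v / Λ)) := by gcongr
    _ = ((1 + 1 / κ) * (1 + κ) * (16 * E * C2w)) * (2 * σ + 6000000 * v / Λ) * X := by ring
    _ ≤ P * (2 * σ + 6000000 * v / Λ) * X := by
        refine mul_le_mul_of_nonneg_right (mul_le_mul_of_nonneg_right ?_ (by positivity)) hX.le
        rw [hP]; linarith
    _ ≤ _ := by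
        refine mul_le_mul_of_nonneg_right ?_ hX.le
        rw [mul_add]
        linarith

lemma r3_le {κ E C2h X X0 σ L Q1 : ℝ} (hκ : 0 < κ) (hE0 : 0 < E) (hC2h : 0 ≤ C2h)
    (hX : 0 < X) (hX0X : X0 ≤ (1 + κ) * X) (hL : 0 < L)
    (hQ1 : Q1 = (1 + 1 / κ) * (1 + κ) * (4 * E * (C2h * 2)) / σ ^ 2) (hLQ : Q1 / κ ≤ L) :
    (1 + 1 / κ) * (4 * E * (C2h * 2) / σ ^ 2 * X0 / L) ≤ κ * X := by
  calc (1 + 1 / κ) * (4 * E * (C2h * 2) / σ ^ 2 * X0 / L)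
      ≤ (1 + 1 / κ) * (4 * E * (C2h * 2) / σ ^ 2 * ((1 + κ) * X) / L) := by gcongr
    _ = Q1 / L * X := by rw [hQ1]; ring
    _ ≤ _ := by
        refine mul_le_mul_of_nonneg_right ?_ hX.le
        rw [div_le_iff₀ hL]
        rw [div_le_iff₀ hκ] at hLQ
        linarith

lemma r4_le {κ E C2e CA w0 CV X X0 L Q2 : ℝ} (hκ : 0 < κ) (hE0 : 0 < E) (hC2e : 0 ≤ C2e)
    (hw0 : 0 ≤ w0) (hX : 0 < X) (hX0X : X0 ≤ (1 + κ) * X) (hL : 0 < L)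
    (hQ2 : Q2 = (1 + 1 / κ) * (1 + κ) * (4 * E * (C2e + CA ^ 2 * w0) * Real.exp (1 + CV)))
    (hLQ : (Q2 / κ) ^ 2 ≤ L) :
    (1 + 1 / κ) * (4 * E * (C2e + CA ^ 2 * w0) * Real.exp (1 + CV) * X0 / Real.sqrt L)
      ≤ κ * X := by
  have hsL : 0 < Real.sqrt L := Real.sqrt_pos.mpr hL
  calc (1 + 1 / κ) * (4 * E * (C2e + CA ^ 2 * w0) * Real.exp (1 + CV) * X0 / Real.sqrt L)
      ≤ (1 + 1 / κ) * (4 * E * (C2e + CA ^ 2 * w0) * Real.exp (1 + CV) * ((1 + κ) * X)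
        / Real.sqrt L) := by gcongr
    _ = Q2 / Real.sqrt L * X := by rw [hQ2]; ring
    _ ≤ _ := by
        refine mul_le_mul_of_nonneg_right ?_ hX.le
        rw [div_le_iff₀ hsL]
        have h1 : Q2 / κ ≤ Real.sqrt L := Real.le_sqrt_of_sq_le hLQ
        rw [div_le_iff₀ hκ] at h1
        linarith

end Pool.Agent.Lib.J4.H24
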