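import Pool.Agent.Lib.MP_f9aece_nt_j4.Iw

/-!
Upper half: decomposition of the square of zeta and the pointwise inequality.
-/

set_option autoImplicit false

namespace Pool.Agent.Lib.J4.H24

open MeasureTheory Set Filter Topology Complex
open scoped ComplexConjugate
open Pool.Agent.Lib.MP_f9aece_nt (DP pair BK K1 ev ev1 evh PP VV Smo expo EE mom)
open Pool.Agent.H20.Chi (chi)

lemma DF_add (f g : ℝ → ℝ) (N : ℕ) : DF (fun x => f x + g x) N = DF f N + DF g N := by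
  unfold DF
  rw [← Finset.sum_add_distrib]
  refine Finset.sum_congr rfl fun n _ => ?_
  rw [mul_add, MonoidAlgebra.single_add]

lemma DF_sum {ι : Type} (s : Finset ι) (f : ι → ℝ → ℝ) (N : ℕ) :
    DF (fun x => ∑ i ∈ s, f i x) N = ∑ i ∈ s, DF (f i) N := by
  classical
  induction s using Finset.induction_on with
  | empty => simp [DF]
  | insert a s ha ih =>
    rw [Finset.sum_insert ha, ← ih, ← DF_add]
    simp only [Finset.sum_insert ha]

lemma sum_win (v : ℕ) (Y L σ : ℝ) (J : ℕ) (x : ℝ) :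
    ∑ i ∈ Finset.range (J + 1), win v Y L σ J i x = cu (L - 1) 1 x - cu (L - σ * L) (σ * L) x := by
  unfold win
  rw [Finset.sum_range_sub (fun i => cu (L - lam v Y L σ J i) (lam v Y L σ J i) x)]
  have h0 : lam v Y L σ J 0 = σ * L := by simp [lam]
  have h1 : lam v Y L σ J (J + 1) = 1 := by simp [lam]
  rw [h0, h1]

/-- the shifted short polynomial -/
noncomputable def Dmt (σ T t : ℝ) : DP :=
  DF (fun x => cu (Real.log T - σ * Real.log T) (σ * Real.log T) (x + tau T t)) ⌊T⌋₊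

/-- the windows -/
noncomputable def Wn (v : ℕ) (Λ σ T : ℝ) (J i : ℕ) : DP :=
  DF (win v (Real.log T / Λ) (Real.log T) σ J i) ⌊T⌋₊

/-- the shifted windows -/
noncomputable def Wnt (v : ℕ) (Λ σ T : ℝ) (J i : ℕ) (t : ℝ) : DP :=
  DF (fun x => win v (Real.log T / Λ) (Real.log T) σ J i (x + tau T t)) ⌊T⌋₊

lemma Lo_eq (v : ℕ) (Λ σ T : ℝ) (J : ℕ) :
    Lo T = Dm σ T + ∑ i ∈ Finset.range (J + 1), Wn v Λ σ T J i := by
  unfold Lo Dm Wn
  rw [← DF_sum, ← DF_add]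
  congr 1
  funext x
  rw [sum_win]
  ring

lemma Lot_eq (v : ℕ) (Λ σ T : ℝ) (J : ℕ) (t : ℝ) :
    Lot T t = Dmt σ T t + ∑ i ∈ Finset.range (J + 1), Wnt v Λ σ T J i t := by
  unfold Lot Dmt Wnt
  rw [← DF_sum, ← DF_add]
  congr 1
  funext x
  rw [sum_win]
  ring

lemma zeta_sq_le {CA T t : ℝ} (v : ℕ) (Λ σ : ℝ) (J : ℕ)
    (h : ‖riemannZeta (1 / 2 + I * t) ^ 2
      - (ev t (Lo T) + chi t ^ 2 * conj (ev t (Lot T t)) + ev t (Ce T))‖ ≤ CA) :
    ‖riemannZeta (1 / 2 + I * t)‖ ^ 2 ≤ ‖ev t (Dm σ T) + chi t ^ 2 * conj (ev t (Dm σ T))‖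
      + (∑ i ∈ Finset.range (J + 1), (‖ev t (Wn v Λ σ T J i)‖ + ‖ev t (Wnt v Λ σ T J i t)‖)
        + ‖ev t (Dmt σ T t) - ev t (Dm σ T)‖ + ‖ev t (Ce T)‖ + CA) := by
  have hchi : ‖chi t ^ 2‖ = 1 := by rw [norm_pow, Pool.Agent.H20.Chi.norm_chi, one_pow]
  set z := riemannZeta (1 / 2 + I * t) with hz
  have h1 : ‖z‖ ^ 2 = ‖z ^ 2‖ := (norm_pow z 2).symm
  rw [h1]
  have h2 : z ^ 2 = (z ^ 2 - (ev t (Lo T) + chi t ^ 2 * conj (ev t (Lot T t)) + ev t (Ce T)))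
      + ((ev t (Dm σ T) + chi t ^ 2 * conj (ev t (Dm σ T)))
        + (∑ i ∈ Finset.range (J + 1), (ev t (Wn v Λ σ T J i)
            + chi t ^ 2 * conj (ev t (Wnt v Λ σ T J i t)))
          + chi t ^ 2 * conj (ev t (Dmt σ T t) - ev t (Dm σ T)) + ev t (Ce T))) := by
    rw [Lo_eq v Λ σ T J, Lot_eq v Λ σ T J t]
    simp only [map_add, map_sum, map_sub, Finset.sum_add_distrib, Finset.mul_sum, mul_add, mul_sub]
    ring
  rw [h2]
  have h3 : ‖∑ i ∈ Finset.range (J + 1), (ev t (Wn v Λ σ T J i)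
      + chi t ^ 2 * conj (ev t (Wnt v Λ σ T J i t)))‖
      ≤ ∑ i ∈ Finset.range (J + 1), (‖ev t (Wn v Λ σ T J i)‖ + ‖ev t (Wnt v Λ σ T J i t)‖) := by
    refine (norm_sum_le _ _).trans (Finset.sum_le_sum fun i _ => (norm_add_le _ _).trans ?_)
    rw [norm_mul, hchi, one_mul, RCLike.norm_conj]
  have h4 : ‖chi t ^ 2 * conj (ev t (Dmt σ T t) - ev t (Dm σ T))‖
      = ‖ev t (Dmt σ T t) - ev t (Dm σ T)‖ := by
    rw [norm_mul, hchi, one_mul, RCLike.norm_conj]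
  refine (norm_add_le _ _).trans ?_
  refine (add_le_add h ((norm_add_le _ _).trans (add_le_add_right ((norm_add_le _ _).trans
    (add_le_add ((norm_add_le _ _).trans (add_le_add h3 h4.le)) le_rfl)) _))).trans ?_
  linarith

lemma sq_split {κ : ℝ} (hκ : 0 < κ) (x X : ℝ) : (x + X) ^ 2 ≤ (1 + κ) * x ^ 2 + (1 + 1 / κ) * X ^ 2 := by
  have h1 : 0 ≤ (κ * x - X) ^ 2 / κ := by positivity
  have h2 : (1 + κ) * x ^ 2 + (1 + 1 / κ) * X ^ 2 - (x + X) ^ 2 = (κ * x - X) ^ 2 / κ := by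
    field_simp
    ring
  linarith

lemma sum_sq_two_pow (J : ℕ) (y : ℕ → ℝ) :
    (∑ i ∈ Finset.range J, y i) ^ 2 ≤ 2 * ∑ i ∈ Finset.range J, 2 ^ i * y i ^ 2 := by
  have h1 := Finset.sum_mul_sq_le_sq_mul_sq (Finset.range J) (fun i => (Real.sqrt (2 ^ i))⁻¹)
    (fun i => Real.sqrt (2 ^ i) * y i)
  have h2 : ∀ i : ℕ, (Real.sqrt (2 ^ i))⁻¹ * (Real.sqrt (2 ^ i) * y i) = y i := by
    intro i
    have : Real.sqrt (2 ^ i) ≠ 0 := by positivity
    rw [← mul_assoc, inv_mul_cancel₀ this, one_mul]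
  have h3 : ∀ i : ℕ, ((Real.sqrt (2 ^ i))⁻¹) ^ 2 = (1 / 2 : ℝ) ^ i := by
    intro i
    rw [inv_pow, Real.sq_sqrt (by positivity), one_div, inv_pow]
  have h4 : ∀ i : ℕ, (Real.sqrt (2 ^ i) * y i) ^ 2 = 2 ^ i * y i ^ 2 := by
    intro i
    rw [mul_pow, Real.sq_sqrt (by positivity)]
  simp only [h2, h3, h4] at h1
  refine h1.trans (mul_le_mul_of_nonneg_right ?_ (Finset.sum_nonneg fun i _ => by positivity))
  have h5 := (summable_geometric_two).sum_le_tsum (Finset.range J) (fun i _ => by positivity)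
  rw [tsum_geometric_two] at h5
  exact h5

/-- the cap -/
noncomputable def cap (c : ℝ) (v p0 : ℕ) (Y : ℝ) (i J : ℕ) (t : ℝ) : ℝ :=
  ∑ s ∈ (Finset.Ico i J).powerset, Wt v s * ‖ev t (Bt c v p0 Y i J s)‖ ^ 2

lemma Wt_nonneg (v : ℕ) (s : Finset ℕ) : 0 ≤ Wt v s := by
  unfold Wt Rg
  exact Finset.prod_nonneg fun g _ => by positivity

lemma cap_nonneg (c : ℝ) (v p0 : ℕ) (Y : ℝ) (i J : ℕ) (t : ℝ) : 0 ≤ cap c v p0 Y i J t :=
  Finset.sum_nonneg fun s _ => mul_nonneg (Wt_nonneg v s) (by positivity)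

lemma cap_self (c : ℝ) (v p0 : ℕ) (Y : ℝ) (J : ℕ) (t : ℝ) : cap c v p0 Y J J t = 1 := by
  simp [cap, Wt, Bt]

lemma continuous_cap (c : ℝ) (v p0 : ℕ) (Y : ℝ) (i J : ℕ) : Continuous (cap c v p0 Y i J) := by
  unfold cap
  exact continuous_finsetSum _ fun s _ => continuous_const.mul
    ((Pool.Agent.Lib.MP_f9aece_nt.continuous_ev _).norm.pow 2)

lemma GG_nonneg (a : ℝ) (v p0 : ℕ) (Y : ℝ) (J : ℕ) (t : ℝ) : 0 ≤ GG a v p0 Y J t := by
  unfold GG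
  refine Finset.prod_nonneg fun g _ => ?_
  split_ifs
  · positivity
  · norm_num

/-- the pointwise inequality for the upper half -/
lemma point_upper (hU : PtUpper) (hCap : PtCap) {v p0 : ℕ} (hv : 1 ≤ v) {Λ σ : ℝ} {J : ℕ}
    {a κ CA T t : ℝ} (ha : 0 ≤ a) (ha2 : a ≤ 1 / 2) (hκ : 0 < κ)
    (h : ‖riemannZeta (1 / 2 + I * t) ^ 2
      - (ev t (Lo T) + chi t ^ 2 * conj (ev t (Lot T t)) + ev t (Ce T))‖ ≤ CA) :
    ‖riemannZeta (1 / 2 + I * t)‖ ^ (4 * (1 - a)) ≤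
      (1 + κ) * (Real.exp (Real.exp (-v))
        * (‖ev t (Dm σ T) + chi t ^ 2 * conj (ev t (Dm σ T))‖ ^ 2
          * cap (-2 * a) v p0 (Real.log T / Λ) 0 J t))
      + (1 + 1 / κ) * (∑ i ∈ Finset.range (J + 1),
            (16 * 2 ^ i * Real.exp (4 * a * ∑ g ∈ Finset.range i, Rg v g) * Real.exp (Real.exp (-v)))
              * ((‖ev t (Wn v Λ σ T J i)‖ ^ 2 + ‖ev t (Wnt v Λ σ T J i t)‖ ^ 2)
                * cap (-2 * a) v p0 (Real.log T / Λ) i J t)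
          + 4 * Real.exp (Real.exp (-v)) * (‖ev t (Dmt σ T t) - ev t (Dm σ T)‖ ^ 2
              * cap (-2 * a) v p0 (Real.log T / Λ) 0 J t)
          + 4 * (Real.exp (4 * a * ∑ g ∈ Finset.range J, Rg v g) * Real.exp (Real.exp (-v)))
              * (‖ev t (Ce T)‖ ^ 2 + CA ^ 2 * 1))
      + a * Real.exp (Real.exp (-v)) * cap (2 * (1 - a)) v p0 (Real.log T / Λ) 0 J t := by
  set Y := Real.log T / Λ with hY
  set E := Real.exp (Real.exp (-(v : ℝ))) with hE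
  have hE0 : 0 < E := Real.exp_pos _
  set z := riemannZeta (1 / 2 + I * t) with hz
  have h1 := hU v hv p0 Y J a ha ha2 t z
  have h2 := zeta_sq_le v Λ σ J h
  set x0 := ‖ev t (Dm σ T) + chi t ^ 2 * conj (ev t (Dm σ T))‖ with hx0
  set y : ℕ → ℝ := fun i => ‖ev t (Wn v Λ σ T J i)‖ + ‖ev t (Wnt v Λ σ T J i t)‖ with hy
  set s := ‖ev t (Dmt σ T t) - ev t (Dm σ T)‖ with hs
  set e := ‖ev t (Ce T)‖ with he
  set q : ℕ → ℝ := fun i => ‖ev t (Wn v Λ σ T J i)‖ ^ 2 + ‖ev t (Wnt v Λ σ T J i t)‖ ^ 2 with hq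
  have hq0 : ∀ i, 0 ≤ q i := fun i => by positivity
  have hyq : ∀ i, y i ^ 2 ≤ 2 * q i := by
    intro i
    simp only [hy, hq]
    nlinarith [sq_nonneg (‖ev t (Wn v Λ σ T J i)‖ - ‖ev t (Wnt v Λ σ T J i t)‖)]
  set S := ∑ i ∈ Finset.range (J + 1), y i with hS
  have hS1 : S ^ 2 ≤ 4 * ∑ i ∈ Finset.range (J + 1), 2 ^ i * q i := by
    refine (sum_sq_two_pow (J + 1) y).trans ?_
    have : ∑ i ∈ Finset.range (J + 1), 2 ^ i * y i ^ 2
        ≤ ∑ i ∈ Finset.range (J + 1), 2 ^ i * (2 * q i) :=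
      Finset.sum_le_sum fun i _ => mul_le_mul_of_nonneg_left (hyq i) (by positivity)
    have h' : ∑ i ∈ Finset.range (J + 1), (2 : ℝ) ^ i * (2 * q i)
        = 2 * ∑ i ∈ Finset.range (J + 1), 2 ^ i * q i := by
      rw [Finset.mul_sum]
      exact Finset.sum_congr rfl fun i _ => by ring
    rw [h'] at this
    linarith
  have hz4 : ‖z‖ ^ 4 ≤ (1 + κ) * x0 ^ 2 + (1 + 1 / κ)
      * (16 * ∑ i ∈ Finset.range (J + 1), 2 ^ i * q i + 4 * s ^ 2 + 4 * (e ^ 2 + CA ^ 2)) := by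
    have h3 : ‖z‖ ^ 4 = (‖z‖ ^ 2) ^ 2 := by ring
    rw [h3]
    refine (pow_le_pow_left₀ (by positivity) h2 2).trans ?_
    refine (sq_split hκ _ _).trans ?_
    have h4 : (S + s + e + CA) ^ 2 ≤ 4 * (S ^ 2 + s ^ 2 + e ^ 2 + CA ^ 2) := by
      nlinarith [sq_nonneg (S - s), sq_nonneg (S - e), sq_nonneg (S - CA), sq_nonneg (s - e),
        sq_nonneg (s - CA), sq_nonneg (e - CA)]
    have h5 : (S + s + e + CA) ^ 2 ≤ 16 * ∑ i ∈ Finset.range (J + 1), 2 ^ i * q i + 4 * s ^ 2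
        + 4 * (e ^ 2 + CA ^ 2) := by linarith
    have h6 : 0 ≤ 1 + 1 / κ := by positivity
    linarith [mul_le_mul_of_nonneg_left h5 h6]
  have hG0 := GG_nonneg a v p0 Y J t
  have hcap : ∀ i, i ≤ J → GG a v p0 Y J t ≤ Real.exp (4 * a * ∑ g ∈ Finset.range i, Rg v g)
      * (E * cap (-2 * a) v p0 Y i J t) := fun i hi => hCap v hv p0 Y i J hi a ha ha2 t
  have hcap0 : GG a v p0 Y J t ≤ E * cap (-2 * a) v p0 Y 0 J t := by
    have := hcap 0 (Nat.zero_le _)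
    simpa using this
  have hcapJ : GG a v p0 Y J t ≤ Real.exp (4 * a * ∑ g ∈ Finset.range J, Rg v g) * E := by
    have := hcap J le_rfl
    rwa [cap_self, mul_one] at this
  have hF : ‖z‖ ^ 4 * GG a v p0 Y J t ≤ (1 + κ) * (E * (x0 ^ 2 * cap (-2 * a) v p0 Y 0 J t))
      + (1 + 1 / κ) * (∑ i ∈ Finset.range (J + 1),
            (16 * 2 ^ i * Real.exp (4 * a * ∑ g ∈ Finset.range i, Rg v g) * E)
              * (q i * cap (-2 * a) v p0 Y i J t)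
          + 4 * E * (s ^ 2 * cap (-2 * a) v p0 Y 0 J t)
          + 4 * (Real.exp (4 * a * ∑ g ∈ Finset.range J, Rg v g) * E) * (e ^ 2 + CA ^ 2 * 1)) := by
    have hA : x0 ^ 2 * GG a v p0 Y J t ≤ E * (x0 ^ 2 * cap (-2 * a) v p0 Y 0 J t) := by
      have := mul_le_mul_of_nonneg_left hcap0 (sq_nonneg x0)
      linarith
    have hB : (∑ i ∈ Finset.range (J + 1), 2 ^ i * q i) * GG a v p0 Y J t
        ≤ ∑ i ∈ Finset.range (J + 1),
          (2 ^ i * Real.exp (4 * a * ∑ g ∈ Finset.range i, Rg v g) * E)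
              * (q i * cap (-2 * a) v p0 Y i J t) := by
      rw [Finset.sum_mul]
      refine Finset.sum_le_sum fun i hi => ?_
      have h7 := hcap i (Nat.lt_succ_iff.mp (Finset.mem_range.mp hi))
      have h8 := mul_le_mul_of_nonneg_left h7 (mul_nonneg (by positivity : (0 : ℝ) ≤ 2 ^ i) (hq0 i))
      linarith
    have hCc : s ^ 2 * GG a v p0 Y J t ≤ E * (s ^ 2 * cap (-2 * a) v p0 Y 0 J t) := by
      have := mul_le_mul_of_nonneg_left hcap0 (sq_nonneg s)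
      linarith
    have hD : (e ^ 2 + CA ^ 2) * GG a v p0 Y J t
        ≤ (Real.exp (4 * a * ∑ g ∈ Finset.range J, Rg v g) * E) * (e ^ 2 + CA ^ 2 * 1) := by
      have := mul_le_mul_of_nonneg_left hcapJ (by positivity : 0 ≤ e ^ 2 + CA ^ 2)
      linarith
    have hB' : ∑ i ∈ Finset.range (J + 1),
            (16 * 2 ^ i * Real.exp (4 * a * ∑ g ∈ Finset.range i, Rg v g) * E)
              * (q i * cap (-2 * a) v p0 Y i J t)
        = 16 * ∑ i ∈ Finset.range (J + 1),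
          (2 ^ i * Real.exp (4 * a * ∑ g ∈ Finset.range i, Rg v g) * E)
              * (q i * cap (-2 * a) v p0 Y i J t) := by
      rw [Finset.mul_sum]
      exact Finset.sum_congr rfl fun i _ => by ring
    rw [hB']
    have h6 : 0 ≤ 1 + 1 / κ := by positivity
    have h9 := mul_le_mul_of_nonneg_right hz4 hG0
    have h10 : (1 + κ) * (x0 ^ 2 * GG a v p0 Y J t)
        ≤ (1 + κ) * (E * (x0 ^ 2 * cap (-2 * a) v p0 Y 0 J t)) :=
      mul_le_mul_of_nonneg_left hA (by positivity)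
    have h11 : (1 + 1 / κ) * (16 * ((∑ i ∈ Finset.range (J + 1), 2 ^ i * q i) * GG a v p0 Y J t)
        + 4 * (s ^ 2 * GG a v p0 Y J t) + 4 * ((e ^ 2 + CA ^ 2) * GG a v p0 Y J t))
        ≤ (1 + 1 / κ) * (16 * ∑ i ∈ Finset.range (J + 1),
          (2 ^ i * Real.exp (4 * a * ∑ g ∈ Finset.range i, Rg v g) * E)
              * (q i * cap (-2 * a) v p0 Y i J t)
          + 4 * E * (s ^ 2 * cap (-2 * a) v p0 Y 0 J t)
          + 4 * (Real.exp (4 * a * ∑ g ∈ Finset.range J, Rg v g) * E) * (e ^ 2 + CA ^ 2 * 1)) := by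
      refine mul_le_mul_of_nonneg_left ?_ h6
      linarith
    linarith
  have hF0 : 0 ≤ ‖z‖ ^ 4 * GG a v p0 Y J t := mul_nonneg (by positivity) hG0
  have h12 : (1 - a) * (‖z‖ ^ 4 * GG a v p0 Y J t) ≤ ‖z‖ ^ 4 * GG a v p0 Y J t := by
    have : 0 ≤ a * (‖z‖ ^ 4 * GG a v p0 Y J t) := mul_nonneg ha hF0
    linarith
  have h13 : a * (E * ∑ s ∈ (Finset.range J).powerset,
      Wt v s * ‖ev t (Bt (2 * (1 - a)) v p0 Y 0 J s)‖ ^ 2)
      = a * E * cap (2 * (1 - a)) v p0 Y 0 J t := by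
    unfold cap
    rw [Finset.range_eq_Ico]
    ring
  rw [h13] at h1
  linarith

end Pool.Agent.Lib.J4.H24
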