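import Pool.Agent.Lib.MP_f9aece_nt_j4.KInt

/-!
Upper half: the sum over the windows.
-/

set_option autoImplicit false

namespace Pool.Agent.Lib.J4.H24

open MeasureTheory Set Filter Topology Complex
open Pool.Agent.Lib.MP_f9aece_nt (DP pair BK K1 ev ev1 evh PP VV Smo expo EE mom)

lemma sum_rg (v i : ℕ) : ∑ g ∈ Finset.range i, (rg v g : ℝ) = v * (i * (i + 1)) / 2 := by
  induction i with
  | zero => simp
  | succ n ih =>
    rw [Finset.sum_range_succ, ih]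
    unfold rg
    push_cast
    ring

lemma sum_Rg (v i : ℕ) : ∑ g ∈ Finset.range i, Rg v g = 500 * (v * (i * (i + 1))) := by
  unfold Rg
  rw [← Finset.mul_sum, sum_rg]
  ring

lemma Vs_nonneg (v p0 : ℕ) (Y : ℝ) (i J : ℕ) : 0 ≤ Vs v p0 Y i J :=
  Finset.sum_nonneg fun _ _ => Pool.Agent.Lib.MP_f9aece_nt.VV_nonneg _

lemma Vs_split (v p0 : ℕ) (Y : ℝ) {i J : ℕ} (h : i ≤ J) :
    Vs v p0 Y 0 J = Vs v p0 Y 0 i + Vs v p0 Y i J := by
  unfold Vs
  exact (Finset.sum_Ico_consecutive _ (Nat.zero_le _) h).symm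

lemma Vs_zero_le {v p0 : ℕ} {Y : ℝ} (hV : ∀ g, VV (Sg v p0 Y g) ≤ 2 * rg v g) (i : ℕ) :
    Vs v p0 Y 0 i ≤ v * (i * (i + 1)) := by
  unfold Vs
  rw [← Finset.range_eq_Ico]
  refine (Finset.sum_le_sum fun g _ => hV g).trans ?_
  rw [← Finset.mul_sum, sum_rg]
  linarith

/-- the exponent for window `i` -/
lemma win_exp_le {v p0 : ℕ} {Y : ℝ} (hV : ∀ g, VV (Sg v p0 Y g) ≤ 2 * rg v g) {i J : ℕ}
    (hi : i ≤ J) {a : ℝ} (ha : 0 ≤ a) (hav : a * v ≤ 1 / 1000000) :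
    Real.exp (4 * a * ∑ g ∈ Finset.range i, Rg v g)
      * Real.exp (((-2 * a) ^ 2 + 4 * (-2 * a)) * Vs v p0 Y i J + 32 * |(-2) * a| * rg v i)
    ≤ Real.exp ((4 * a ^ 2 - 8 * a) * Vs v p0 Y 0 J) * Real.exp (21 / 10000 * ((i : ℝ) + 1) ^ 2) := by
  rw [← Real.exp_add, ← Real.exp_add, Real.exp_le_exp, sum_Rg, Vs_split v p0 Y hi]
  have h1 := Vs_zero_le hV i
  have h0 := Vs_nonneg v p0 Y 0 i
  have habs : |(-2) * a| = 2 * a := by
    rw [abs_mul, abs_of_nonneg ha]; norm_num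
  rw [habs]
  have hrg : (rg v i : ℝ) = v * (i + 1) := by unfold rg; push_cast; ring
  rw [hrg]
  have hi0 : (0 : ℝ) ≤ i := Nat.cast_nonneg i
  have hv0 : (0 : ℝ) ≤ v := Nat.cast_nonneg v
  -- (8a - 4a^2) Vs 0 i ≤ 8 a v i (i+1)
  have h2 : (8 * a - 4 * a ^ 2) * Vs v p0 Y 0 i ≤ 8 * a * (v * (i * (i + 1))) := by
    have : (8 * a - 4 * a ^ 2) * Vs v p0 Y 0 i ≤ 8 * a * Vs v p0 Y 0 i :=
      mul_le_mul_of_nonneg_right (by nlinarith) h0
    exact this.trans (mul_le_mul_of_nonneg_left h1 (by positivity))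
  have h3 : 4 * a * (500 * (v * (i * (i + 1)))) + 32 * (2 * a) * (v * (i + 1))
      + 8 * a * (v * (i * (i + 1))) ≤ 2100 * (a * v) * ((i : ℝ) + 1) ^ 2 := by
    have h4 : 0 ≤ a * v := mul_nonneg ha hv0
    have h5 : 4 * a * (500 * (v * (i * (i + 1)))) + 32 * (2 * a) * (v * (i + 1))
      + 8 * a * (v * (i * (i + 1))) = (a * v) * ((i + 1) * (2008 * i + 64)) := by ring
    rw [h5]
    have h6 : ((i : ℝ) + 1) * (2008 * i + 64) ≤ 2100 * ((i : ℝ) + 1) ^ 2 := by nlinarith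
    calc (a * v) * (((i : ℝ) + 1) * (2008 * i + 64)) ≤ (a * v) * (2100 * ((i : ℝ) + 1) ^ 2) :=
          mul_le_mul_of_nonneg_left h6 h4
      _ = _ := by ring
  have h7 : 2100 * (a * v) * ((i : ℝ) + 1) ^ 2 ≤ 21 / 10000 * ((i : ℝ) + 1) ^ 2 :=
    mul_le_mul_of_nonneg_right (by linarith) (by positivity)
  nlinarith

lemma geo_aux (j : ℕ) {v : ℕ} (hv : 1 ≤ v) :
    2 ^ (j + 1) * ((j : ℝ) + 1) * Real.exp (-((v : ℝ) * j * (j + 1) / 2))
      * Real.exp (21 / 10000 * ((j : ℝ) + 1 + 1) ^ 2) ≤ 15 * (1 / 2) ^ j := by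
  have hj0 : (0 : ℝ) ≤ j := Nat.cast_nonneg j
  have hv1 : (1 : ℝ) ≤ v := by exact_mod_cast hv
  have h1 : ((j : ℝ) + 1) ≤ 2 ^ j := by
    have := Nat.lt_two_pow_self (n := j)
    exact_mod_cast this
  have h8 : (8 : ℝ) ^ j ≤ Real.exp (21 / 10 * j) := by
    have h : (8 : ℝ) ≤ Real.exp (21 / 10) := by
      have h2 : Real.exp (21 / 10) = Real.exp (7 / 10) ^ 3 := by
        rw [← Real.exp_nat_mul]; norm_num
      have h3 : (2 : ℝ) ≤ Real.exp (7 / 10) := by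
        rw [← Real.log_le_iff_le_exp (by norm_num)]
        have := Real.log_two_lt_d9
        linarith
      rw [h2]
      calc (8 : ℝ) = 2 ^ 3 := by norm_num
        _ ≤ _ := pow_le_pow_left₀ (by norm_num) h3 3
    calc (8 : ℝ) ^ j ≤ Real.exp (21 / 10) ^ j := pow_le_pow_left₀ (by norm_num) h j
      _ = Real.exp (21 / 10 * j) := by rw [← Real.exp_nat_mul]; ring_nf
  have h2 : Real.exp (-((v : ℝ) * j * (j + 1) / 2)) ≤ Real.exp (-((j : ℝ) * (j + 1) / 2)) := by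
    rw [Real.exp_le_exp]
    have : (j : ℝ) * (j + 1) ≤ v * (j * (j + 1)) := by
      have h3 : 0 ≤ (j : ℝ) * (j + 1) := by positivity
      nlinarith
    linarith
  have h3 : Real.exp (21 / 10 * j) * Real.exp (-((j : ℝ) * (j + 1) / 2))
      * Real.exp (21 / 10000 * ((j : ℝ) + 1 + 1) ^ 2) ≤ Real.exp 2 := by
    rw [← Real.exp_add, ← Real.exp_add, Real.exp_le_exp]
    nlinarith [sq_nonneg ((j : ℝ) - 8 / 5)]
  have he2 : Real.exp 2 ≤ 15 / 2 := by
    have h4 : Real.exp 2 = Real.exp 1 ^ 2 := by rw [← Real.exp_nat_mul]; norm_num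
    have h5 := Real.exp_one_lt_d9
    rw [h4]
    have h6 : 0 < Real.exp 1 := Real.exp_pos 1
    nlinarith
  have h4 : (2 : ℝ) ^ (j + 1) * ((j : ℝ) + 1) ≤ 2 * (8 ^ j * (1 / 2) ^ j) := by
    have h5 : (8 : ℝ) ^ j * (1 / 2) ^ j = 2 ^ j * 2 ^ j := by
      rw [← mul_pow, ← mul_pow]; norm_num
    rw [h5, pow_succ]
    have h6 : (0 : ℝ) < 2 ^ j := by positivity
    nlinarith
  calc 2 ^ (j + 1) * ((j : ℝ) + 1) * Real.exp (-((v : ℝ) * j * (j + 1) / 2))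
      * Real.exp (21 / 10000 * ((j : ℝ) + 1 + 1) ^ 2)
      ≤ (2 * (8 ^ j * (1 / 2) ^ j)) * Real.exp (-((j : ℝ) * (j + 1) / 2))
        * Real.exp (21 / 10000 * ((j : ℝ) + 1 + 1) ^ 2) := by gcongr
    _ ≤ (2 * (Real.exp (21 / 10 * j) * (1 / 2) ^ j)) * Real.exp (-((j : ℝ) * (j + 1) / 2))
        * Real.exp (21 / 10000 * ((j : ℝ) + 1 + 1) ^ 2) := by gcongr
    _ = 2 * (1 / 2) ^ j * (Real.exp (21 / 10 * j) * Real.exp (-((j : ℝ) * (j + 1) / 2))
        * Real.exp (21 / 10000 * ((j : ℝ) + 1 + 1) ^ 2)) := by ring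
    _ ≤ 2 * (1 / 2) ^ j * Real.exp 2 := by gcongr
    _ ≤ 2 * (1 / 2) ^ j * (15 / 2) := by gcongr
    _ = _ := by ring

/-- the sum of the relative sizes of the windows -/
lemma sum_lam {v : ℕ} (hv : 1 ≤ v) {L Λ σ : ℝ} (hL : 0 < L) (hΛ : 1 ≤ Λ) (hσ : 0 ≤ σ) (J : ℕ) :
    ∑ i ∈ Finset.range (J + 1), 2 ^ i * (lam v (L / Λ) L σ J i / L)
        * Real.exp (21 / 10000 * ((i : ℝ) + 1) ^ 2) ≤ 2 * σ + 6000000 * v / Λ := by
  have hΛ0 : 0 < Λ := by linarith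
  rw [Finset.sum_range_succ']
  have h0 : (2 : ℝ) ^ 0 * (lam v (L / Λ) L σ J 0 / L)
        * Real.exp (21 / 10000 * (((0 : ℕ) : ℝ) + 1) ^ 2) ≤ 2 * σ := by
    have h1 : lam v (L / Λ) L σ J 0 = σ * L := by simp [lam]
    rw [h1, pow_zero, one_mul, mul_div_assoc, div_self hL.ne', mul_one]
    have h2 : Real.exp (21 / 10000 * (((0 : ℕ) : ℝ) + 1) ^ 2) ≤ 2 := by
      rw [← Real.le_log_iff_exp_le (by norm_num)]
      have := Real.log_two_gt_d9
      push_cast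
      linarith
    nlinarith
  have h1 : ∑ j ∈ Finset.range J, 2 ^ (j + 1) * (lam v (L / Λ) L σ J (j + 1) / L)
        * Real.exp (21 / 10000 * (((j + 1 : ℕ) : ℝ) + 1) ^ 2)
      ≤ ∑ j ∈ Finset.range J, (200000 * v / Λ) * (15 * (1 / 2) ^ j) := by
    refine Finset.sum_le_sum fun j hj => ?_
    have hjJ : j + 1 ≤ J := Finset.mem_range.mp hj
    have h2 : lam v (L / Λ) L σ J (j + 1)
        = 200000 * v * ((j : ℝ) + 1) * (L / Λ * Real.exp (-((v : ℝ) * j * (j + 1) / 2))) := by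
      unfold lam Yg
      rw [if_neg (Nat.succ_ne_zero j), if_pos hjJ, Nat.add_sub_cancel]
      push_cast
      ring
    rw [h2]
    have h3 : 2 ^ (j + 1) * (200000 * v * ((j : ℝ) + 1) * (L / Λ * Real.exp (-((v : ℝ) * j * (j + 1) / 2)))
        / L) * Real.exp (21 / 10000 * (((j + 1 : ℕ) : ℝ) + 1) ^ 2)
        = (200000 * v / Λ) * (2 ^ (j + 1) * ((j : ℝ) + 1) * Real.exp (-((v : ℝ) * j * (j + 1) / 2))
          * Real.exp (21 / 10000 * ((j : ℝ) + 1 + 1) ^ 2)) := by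
      push_cast
      field_simp
    rw [h3]
    exact mul_le_mul_of_nonneg_left (geo_aux j hv) (by positivity)
  have h2 : ∑ j ∈ Finset.range J, (200000 * v / Λ) * (15 * (1 / 2) ^ j)
      ≤ 6000000 * v / Λ := by
    rw [← Finset.mul_sum, ← Finset.mul_sum]
    have h5 := (summable_geometric_two).sum_le_tsum (Finset.range J) (fun i _ => by positivity)
    rw [tsum_geometric_two] at h5
    calc (200000 * v / Λ) * (15 * ∑ i ∈ Finset.range J, (1 / 2 : ℝ) ^ i)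
        ≤ (200000 * v / Λ) * (15 * 2) := by
          refine mul_le_mul_of_nonneg_left ?_ (by positivity)
          linarith
      _ = _ := by ring
  linarith

/-- bound for the number of groups -/
lemma J_bound {v p0 : ℕ} {Y L : ℝ} {J : ℕ} (hp0 : 10 ≤ p0) (hJ : Jok v p0 Y J) (hY : 1 ≤ Y)
    (hYL : Y ≤ L) : (v : ℝ) * (J * (J + 1)) ≤ 6 * Real.log L + 2 * v := by
  have hv0 : (0 : ℝ) ≤ v := Nat.cast_nonneg v
  have hL0 : 0 ≤ Real.log L := Real.log_nonneg (hY.trans hYL)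
  rcases Nat.eq_zero_or_pos J with h0 | h0
  · subst h0
    simp only [Nat.cast_zero, zero_mul, mul_zero]
    positivity
  · obtain ⟨j, rfl⟩ : ∃ j, J = j + 1 := ⟨J - 1, by omega⟩
    have h1 := hJ.2 j (by omega)
    have h2 : (1 : ℝ) ≤ Real.log p0 := by
      rw [Real.le_log_iff_exp_le (by positivity)]
      have := Real.exp_one_lt_d9
      have h3 : (10 : ℝ) ≤ p0 := by exact_mod_cast hp0
      linarith
    have h3 : 1 < Y * Real.exp (-((v : ℝ) * j * (j + 1) / 2)) := by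
      have : Yg v Y j = Y * Real.exp (-((v : ℝ) * j * (j + 1) / 2)) := rfl
      linarith
    have hY0 : 0 < Y := by linarith
    have h4 : (v : ℝ) * j * (j + 1) / 2 < Real.log Y := by
      have h5 := Real.log_lt_log one_pos h3
      rw [Real.log_one, Real.log_mul hY0.ne' (Real.exp_pos _).ne', Real.log_exp] at h5
      linarith
    have h5 : Real.log Y ≤ Real.log L := Real.log_le_log hY0 hYL
    push_cast
    have hj0 : (0 : ℝ) ≤ j := Nat.cast_nonneg j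
    have h6 : (v : ℝ) * (((j : ℝ) + 1) * ((j : ℝ) + 1 + 1)) ≤ 3 * (v * j * (j + 1)) + 2 * v := by
      have h7 : ((j : ℝ) + 1) * ((j : ℝ) + 1 + 1) ≤ 3 * (j * (j + 1)) + 2 := by
        have h8 : (j : ℝ) ≤ j * j := by
          have : (j : ℕ) ≤ j * j := Nat.le_mul_self j
          exact_mod_cast this
        nlinarith
      calc (v : ℝ) * (((j : ℝ) + 1) * ((j : ℝ) + 1 + 1)) ≤ v * (3 * (j * (j + 1)) + 2) :=
            mul_le_mul_of_nonneg_left h7 hv0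
        _ = _ := by ring
    linarith

end Pool.Agent.Lib.J4.H24
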