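import Pool.Agent.Lib.MP_f9aece_nt_j4.LInt
import Pool.Agent.Lib.MP_f9aece_nt_h4.NIntA

/-!
Lower half: the mean values with the long polynomial.
-/

set_option autoImplicit false

namespace Pool.Agent.Lib.J4.H24

open MeasureTheory Set Filter Topology Complex
open scoped ComplexConjugate
open Pool.Agent.Lib.MP_f9aece_nt (DP pair BK K1 ev ev1 evh PP VV Smo expo EE mom continuous_ev
  Cone BK_mono K1_nonneg cone_expo)
open Pool.Agent.H20.Chi (chi continuous_chi norm_chi zeta_eq)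
open Pool.Agent.Lib.J4.NInt (coeff_mul_ne Dm_supp Bt_supp int_sq_le En_Dm_le cu_nonneg cu_le_one)

lemma ev_small {s K δ : ℝ} (hs : 0 < s) (hδ : 0 < δ) :
    ∃ T0 : ℝ, 1 ≤ T0 ∧ ∀ T : ℝ, T0 ≤ T → K * (3 + Real.log T) ^ 4 * T ^ (-s) ≤ δ := by
  have h1 : Tendsto (fun L : ℝ => L ^ (4 : ℝ) * Real.exp (-s * L)) atTop (𝓝 0) :=
    tendsto_rpow_mul_exp_neg_mul_atTop_nhds_zero 4 s hs
  have h2 : ∀ᶠ L : ℝ in atTop, L ^ (4 : ℝ) * Real.exp (-s * L) < δ / (16 * (|K| + 1)) :=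
    h1.eventually (gt_mem_nhds (by positivity))
  obtain ⟨L0, hL0⟩ := eventually_atTop.mp (h2.and (eventually_ge_atTop (3 : ℝ)))
  refine ⟨Real.exp (max L0 0), Real.one_le_exp (le_max_right _ _), fun T hT => ?_⟩
  have hTpos : 0 < T := (Real.exp_pos _).trans_le hT
  have hL : L0 ≤ Real.log T := by
    rw [Real.le_log_iff_exp_le hTpos]
    exact (Real.exp_le_exp.mpr (le_max_left _ _)).trans hT
  obtain ⟨h3, h4⟩ := hL0 _ hL
  have h5 : T ^ (-s) = Real.exp (-s * Real.log T) := by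
    rw [Real.rpow_def_of_pos hTpos]; ring_nf
  rw [h5]
  have h6 : (3 + Real.log T) ^ 4 ≤ 16 * Real.log T ^ 4 := by
    calc (3 + Real.log T) ^ 4 ≤ (2 * Real.log T) ^ 4 := by gcongr; linarith
      _ = _ := by ring
  have h7 : Real.log T ^ 4 * Real.exp (-s * Real.log T) < δ / (16 * (|K| + 1)) := by
    have : Real.log T ^ (4 : ℝ) = Real.log T ^ 4 := by
      rw [← Real.rpow_natCast]; norm_num
    rwa [this] at h3
  have hE : 0 < Real.exp (-s * Real.log T) := Real.exp_pos _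
  calc K * (3 + Real.log T) ^ 4 * Real.exp (-s * Real.log T)
      ≤ (|K| + 1) * (16 * Real.log T ^ 4) * Real.exp (-s * Real.log T) := by
        refine mul_le_mul_of_nonneg_right ?_ hE.le
        have hK : K ≤ |K| + 1 := (le_abs_self K).trans (by linarith)
        exact mul_le_mul hK h6 (by positivity) (by positivity)
    _ = 16 * (|K| + 1) * (Real.log T ^ 4 * Real.exp (-s * Real.log T)) := by ring
    _ ≤ 16 * (|K| + 1) * (δ / (16 * (|K| + 1))) :=
        mul_le_mul_of_nonneg_left h7.le (by positivity)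
    _ = δ := by field_simp

/-- the amplifier has nonnegative coefficients -/
lemma Am_cone {a : ℝ} (ha : 0 ≤ a) (v p0 : ℕ) (Y : ℝ) (J : ℕ) :
    ∀ n, 0 ≤ (Am a v p0 Y J).coeff n := by
  unfold Am Bt
  rw [Finset.sdiff_empty, Finset.prod_empty, mul_one]
  have h1 : Cone Set.univ (∏ g ∈ Finset.Ico 0 J, Eg (2 * a) v p0 Y g) := by
    refine Cone.prod _ (fun g _ => ?_) (Set.mem_univ _) (fun _ _ _ _ => Set.mem_univ _)
    refine (cone_expo (fun p hp => ?_) (by positivity) _).mono (Set.subset_univ _)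
    unfold Sg at hp
    exact (Finset.mem_filter.mp hp).2.1
  exact fun n => (h1 n).1

lemma coeff_mul_mono {A f g : DP} (hA : ∀ n, 0 ≤ A.coeff n) (h : ∀ n, f.coeff n ≤ g.coeff n) (n : ℕ) :
    (A * f).coeff n ≤ (A * g).coeff n := by
  have h1 : Cone Set.univ A := fun n => ⟨hA n, fun _ => Set.mem_univ _⟩
  have h2 : Cone Set.univ (g - f) := fun n =>
    ⟨by rw [MonoidAlgebra.coeff_sub, Finsupp.sub_apply]; linarith [h n], fun _ => Set.mem_univ _⟩
  have h3 := (Cone.mul h1 h2 (C := Set.univ) (fun _ _ _ _ => Set.mem_univ _) n).1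
  rw [mul_sub, MonoidAlgebra.coeff_sub, Finsupp.sub_apply] at h3
  linarith

lemma cu_eq_zero {c w x : ℝ} (hw : 0 ≤ w) (hx : c ≤ x) : cu c w x = 0 := by
  unfold cu
  exact Real.smoothTransition.zero_of_nonpos (div_nonpos_of_nonpos_of_nonneg (by linarith) hw)

lemma dv_nonneg24 (n : ℕ) : 0 ≤ dv n := Nat.cast_nonneg _

/-- the symbol of the sum of the two long polynomials -/
lemma Lo_add_Ce {T : ℝ} (hT : 1 ≤ T) : Lo T + Ce T
    = DF (fun x => 1 - cu (Real.log T - 1) 1 (2 * Real.log T - x)) ⌊T * Real.exp 2⌋₊ := by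
  ext n
  rw [MonoidAlgebra.coeff_add, Finsupp.add_apply]
  unfold Lo Ce
  rw [coeff_DF, coeff_DF, coeff_DF]
  have hT0 : 0 < T := by linarith
  have he : (1 : ℝ) ≤ Real.exp 2 := Real.one_le_exp (by norm_num)
  have hle : ⌊T⌋₊ ≤ ⌊T * Real.exp 2⌋₊ := Nat.floor_le_floor (by nlinarith)
  by_cases h1 : 1 ≤ n ∧ n ≤ ⌊T * Real.exp 2⌋₊
  · by_cases h2 : n ≤ ⌊T⌋₊
    · rw [if_pos ⟨h1.1, h2⟩, if_pos h1, if_pos h1]
      ring
    · rw [if_neg (fun h => h2 h.2), if_pos h1, if_pos h1, zero_add]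
      have h3 : T < n := by
        push Not at h2
        exact (Nat.floor_lt hT0.le).mp h2
      have h4 : Real.log T ≤ Real.log n := Real.log_le_log hT0 h3.le
      rw [cu_eq_zero zero_le_one (by linarith : Real.log T - 1 ≤ Real.log n)]
      ring
  · rw [if_neg h1, if_neg h1, if_neg (fun h => h1 ⟨h.1, h.2.trans hle⟩), zero_add]

lemma Dm_le_Lo {σ T : ℝ} (hT : 1 ≤ T) (n : ℕ) :
    0 ≤ (Dm σ T).coeff n ∧ (Dm σ T).coeff n ≤ (Lo T + Ce T).coeff n := by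
  rw [Lo_add_Ce hT]
  unfold Dm
  rw [coeff_DF, coeff_DF]
  have hT0 : 0 < T := by linarith
  have he : (1 : ℝ) ≤ Real.exp 2 := Real.one_le_exp (by norm_num)
  have hle : ⌊T⌋₊ ≤ ⌊T * Real.exp 2⌋₊ := Nat.floor_le_floor (by nlinarith)
  have hd := dv_nonneg24 n
  by_cases h1 : 1 ≤ n ∧ n ≤ ⌊T⌋₊
  · rw [if_pos h1, if_pos ⟨h1.1, h1.2.trans hle⟩]
    have h2 : (n : ℝ) ≤ T := (Nat.le_floor_iff hT0.le).mp h1.2
    have h3 : Real.log n ≤ Real.log T :=
      Real.log_le_log (by exact_mod_cast h1.1) h2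
    rw [cu_eq_zero zero_le_one (by linarith : Real.log T - 1 ≤ 2 * Real.log T - Real.log n), sub_zero]
    exact ⟨mul_nonneg hd (cu_nonneg _ _ _), mul_le_mul_of_nonneg_left (cu_le_one _ _ _) hd⟩
  · rw [if_neg h1]
    refine ⟨le_rfl, ?_⟩
    split_ifs
    · exact mul_nonneg hd (by linarith [cu_le_one (Real.log T - 1) 1 (2 * Real.log T - Real.log n)])
    · exact le_rfl

lemma Am_supp (hB : BtLen) {v p0 : ℕ} (hv : 2 ≤ v) (hp : 2 ≤ p0) {T Λ τ : ℝ} (hT : 1 < T)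
    (hΛ : 0 < Λ) (hτ : 200000 * v ≤ τ * Λ) {J : ℕ} {a : ℝ} {n : ℕ}
    (hn : (Am a v p0 (Real.log T / Λ) J).coeff n ≠ 0) : 1 ≤ n ∧ (n : ℝ) ≤ T ^ τ :=
  Bt_supp hB hv hp hT hΛ hτ (Finset.empty_mem_powerset _) hn

lemma Am_evha {v p0 J : ℕ} {c T Λ X : ℝ}
    (h : ∑ s ∈ (Finset.range J).powerset, Wt v s * evha (Bt c v p0 (Real.log T / Λ) 0 J s) ^ 2 ≤ X) :
    evha (Bt c v p0 (Real.log T / Λ) 0 J ∅) ^ 2 ≤ X := by
  refine le_trans ?_ h
  have hmem : (∅ : Finset ℕ) ∈ (Finset.range J).powerset := Finset.empty_mem_powerset _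
  have h1 := Finset.single_le_sum (f := fun s => Wt v s
    * evha (Bt c v p0 (Real.log T / Λ) 0 J s) ^ 2)
    (fun s _ => mul_nonneg (Wt_nonneg v s) (sq_nonneg _)) hmem
  have h2 : Wt v ∅ = 1 := by simp [Wt]
  simp only [h2, one_mul] at h1
  exact h1

end Pool.Agent.Lib.J4.H24
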