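import Pool.Agent.Lib.MP_f9aece_nt_j4.LErr

/-!
Lower half: the error terms.
-/

set_option autoImplicit false

namespace Pool.Agent.Lib.J4.H24

open MeasureTheory Set Filter Topology Complex
open scoped ComplexConjugate
open Pool.Agent.Lib.MP_f9aece_nt (DP pair BK K1 ev ev1 evh PP VV Smo expo EE mom continuous_ev
  Cone BK_mono K1_nonneg cone_expo)
open Pool.Agent.H20.Chi (chi continuous_chi norm_chi zeta_eq)
open Pool.Agent.Lib.J4.NInt (coeff_mul_ne Dm_supp Bt_supp int_sq_le En_Dm_le cu_nonneg cu_le_one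
  evha_sq_le)

lemma mul_supp {f g : DP} {x y : ℝ} (hf : ∀ n, f.coeff n ≠ 0 → 1 ≤ n ∧ (n : ℝ) ≤ x)
    (hg : ∀ n, g.coeff n ≠ 0 → 1 ≤ n ∧ (n : ℝ) ≤ y) (n : ℕ) (h : (f * g).coeff n ≠ 0) :
    1 ≤ n ∧ (n : ℝ) ≤ x * y := by
  obtain ⟨a, b, ha, hb, rfl⟩ := coeff_mul_ne h
  obtain ⟨h1, h2⟩ := hf a ha
  obtain ⟨h3, h4⟩ := hg b hb
  refine ⟨Nat.one_le_iff_ne_zero.mpr (mul_ne_zero (by omega) (by omega)), ?_⟩
  push_cast
  have : (0 : ℝ) ≤ a := Nat.cast_nonneg a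
  exact mul_le_mul h2 h4 (Nat.cast_nonneg b) (this.trans h2)

/-- energy of a divisor polynomial of length at most `T e^2` -/
lemma En_DF_le' (hD : D2Sum) : ∃ K : ℝ, 0 ≤ K ∧ ∀ (f : ℝ → ℝ), (∀ x, |f x| ≤ 1) → ∀ T : ℝ, 1 ≤ T →
    ∀ N : ℕ, (N : ℝ) ≤ T * Real.exp 2 → En (DF f N) ≤ K * (3 + Real.log T) ^ 4 := by
  obtain ⟨C, hC, hD⟩ := hD
  refine ⟨1 + C, by linarith, fun f hf T hT N hN => ?_⟩
  have hL : 0 ≤ Real.log T := Real.log_nonneg hT
  rcases Nat.eq_zero_or_pos N with h0 | h0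
  · subst h0
    have : DF f 0 = 0 := by simp [DF]
    rw [this]
    have h1 : En 0 = 0 := by simp [En, BK]
    rw [h1]
    positivity
  · refine (En_DF_le hC hD hf h0).trans ?_
    have h1 : Real.log N ≤ Real.log T + 2 := by
      have h2 : Real.log N ≤ Real.log (T * Real.exp 2) :=
        Real.log_le_log (by exact_mod_cast h0) hN
      rwa [Real.log_mul (by positivity) (by positivity), Real.log_exp] at h2
    have h3 : 0 ≤ Real.log N := Real.log_natCast_nonneg N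
    have h4 : (1 + Real.log N) ^ 4 ≤ (3 + Real.log T) ^ 4 :=
      pow_le_pow_left₀ (by linarith) (by linarith) 4
    exact mul_le_mul_of_nonneg_left h4 (by linarith)

lemma nb0 {C1 C2 C3 K : ℝ} (hC1 : 0 ≤ C1) (hC2 : 0 ≤ C2) (hC3 : 0 ≤ C3) (hK : 0 ≤ K) :
    4 * C1 * K ≤ 16 * (C1 + C3 + C2 + 1) * (K + 1) ∧
    C3 * K ≤ 16 * (C1 + C3 + C2 + 1) * (K + 1) ∧ C2 ≤ 16 * (C1 + C3 + C2 + 1) * (K + 1) := by
  have h1 := mul_nonneg hC1 hK
  have h2 := mul_nonneg hC2 hK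
  have h3 := mul_nonneg hC3 hK
  refine ⟨?_, ?_, ?_⟩ <;> nlinarith

lemma nb1 {C1 C2 C3 K x : ℝ} (hC1 : 0 ≤ C1) (hC2 : 0 ≤ C2) (hC3 : 0 ≤ C3) (hK : 0 ≤ K)
    (hx : 0 ≤ x) : 4 * C1 * (K * x) ≤ 16 * (C1 + C3 + C2 + 1) * (K + 1) * x := by
  have := mul_le_mul_of_nonneg_right (nb0 hC1 hC2 hC3 hK).1 hx
  linarith

lemma nb2 {C1 C2 C3 K x : ℝ} (hC1 : 0 ≤ C1) (hC2 : 0 ≤ C2) (hC3 : 0 ≤ C3) (hK : 0 ≤ K)
    (hx : 0 ≤ x) : C3 * (K * x) ≤ 16 * (C1 + C3 + C2 + 1) * (K + 1) * x := by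
  have := mul_le_mul_of_nonneg_right (nb0 hC1 hC2 hC3 hK).2.1 hx
  linarith

lemma nb3 {T y : ℝ} (hT : 1 ≤ T) (hy : 0 < y) : Real.exp 1 * y + T * y ≤ 4 * (T * y) := by
  have e3 : Real.exp 1 ≤ 3 := by have := Real.exp_one_lt_d9; linarith
  have e5 : Real.exp 1 * y ≤ 3 * y := mul_le_mul_of_nonneg_right e3 hy.le
  have e6 : y ≤ T * y := le_mul_of_one_le_left hy.le hT
  linarith

lemma rpow_add3 {T : ℝ} (hT : 0 < T) (x y z : ℝ) : T ^ x * T ^ y * T ^ z = T ^ (x + y + z) := by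
  rw [Real.rpow_add hT, Real.rpow_add hT]

/-- the mean values needed for the lower half -/
lemma err_terms (hM : MVT) (hO : OscSumTau) (hB : BtLen) (hZ : BtSize) (hD : D2Sum)
    {w : ℝ → ℝ} {θ C : ℝ} (hθ : 0 < θ) (hθ1 : θ ≤ 1) (hw : Wgt w θ C) {v p0 : ℕ} (hv : 2 ≤ v)
    (hp : 10 ≤ p0) {σ : ℝ} (hσ : 0 < σ) (hσ1 : σ ≤ 1 / 4) :
    ∃ Λ0 : ℝ, 1 ≤ Λ0 ∧ ∀ Λ : ℝ, Λ0 ≤ Λ → ∀ δ : ℝ, 0 < δ → ∃ T0 : ℝ, 1 ≤ T0 ∧ ∀ T : ℝ, T0 ≤ T →
    ∀ J : ℕ, (∀ g < J, Real.log p0 < Yg v (Real.log T / Λ) g) → ∀ a : ℝ, 0 ≤ a → a ≤ 1 / 2 →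
    T * (∫ u, w u) * En (Am a v p0 (Real.log T / Λ) J * Dm σ T) - δ * T
      ≤ (∫ t : ℝ, (w (t / T) : ℂ) * (ev t (Am a v p0 (Real.log T / Λ) J * (Lo T + Ce T))
            * conj (ev t (Am a v p0 (Real.log T / Λ) J * Dm σ T)))).re ∧
    -(δ * T) ≤ (∫ t : ℝ, (w (t / T) : ℂ) * chi t ^ 2 * (conj (ev t (Lot T t))
          * conj (ev t (Dm σ T))) * (ev t (Am a v p0 (Real.log T / Λ) J)
            * conj (ev t (Am a v p0 (Real.log T / Λ) J)))).re ∧
    ∫ t : ℝ, w (t / T) * ‖ev t (Am a v p0 (Real.log T / Λ) J * Dm σ T)‖ ^ 2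
      ≤ ((∫ u, w u) + 1) * T * En (Am a v p0 (Real.log T / Λ) J * Dm σ T) := by
  obtain ⟨C1, hC1, hM'⟩ := hM w θ C hθ hw
  obtain ⟨C2, hC2, hQ⟩ := int_sq_le hM hθ hw
  obtain ⟨C3, hC3, hO⟩ := hO w θ C hθ hθ1 hw
  obtain ⟨K, hK, hEn⟩ := En_DF_le' hD
  set τ := σ / 10 with hτ
  have hτ0 : 0 < τ := by positivity
  obtain ⟨Λ1, hΛ1, hZ⟩ := hZ v p0 hv hp τ hτ0
  refine ⟨max Λ1 (200000 * v / τ), hΛ1.trans (le_max_left _ _), fun Λ hΛ δ hδ => ?_⟩
  have hΛa : Λ1 ≤ Λ := (le_max_left _ _).trans hΛ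
  have hΛb : 200000 * v / τ ≤ Λ := (le_max_right _ _).trans hΛ
  have hΛ0 : 0 < Λ := by linarith
  have hΛτ : 200000 * v ≤ τ * Λ := by
    rw [div_le_iff₀ hτ0] at hΛb
    linarith
  obtain ⟨T1, hT1, hZ⟩ := hZ Λ hΛa
  obtain ⟨T2, hT2, hs⟩ := ev_small (s := 3 * τ) (K := 16 * (C1 + C3 + C2 + 1) * (K + 1))
    (δ := min δ 1) (by positivity) (lt_min hδ one_pos)
  obtain ⟨T3, hT3, hT3'⟩ : ∃ T3 : ℝ, 1 ≤ T3 ∧ ∀ T : ℝ, T3 ≤ T →
      12 * Real.pi ^ 2 / θ ^ 2 ≤ T ^ (9 * τ) := by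
    have h1 := (tendsto_rpow_atTop (y := 9 * τ) (by positivity)).eventually
      (eventually_ge_atTop (12 * Real.pi ^ 2 / θ ^ 2))
    obtain ⟨T3, h3⟩ := eventually_atTop.mp h1
    exact ⟨max T3 1, le_max_right _ _, fun T hT => h3 T ((le_max_left _ _).trans hT)⟩
  refine ⟨max (max T1 T2) (max T3 2), hT1.trans ((le_max_left _ _).trans (le_max_left _ _)),
    fun T hT J hJ a ha ha2 => ?_⟩
  have hTa : T1 ≤ T := ((le_max_left _ _).trans (le_max_left _ _)).trans hT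
  have hTb : T2 ≤ T := ((le_max_right _ _).trans (le_max_left _ _)).trans hT
  have hTc : T3 ≤ T := ((le_max_left _ _).trans (le_max_right _ _)).trans hT
  have hTd : 2 ≤ T := ((le_max_right _ _).trans (le_max_right _ _)).trans hT
  have hT1' : 1 < T := by linarith
  have hT0 : 0 < T := by linarith
  have hL : 0 < Real.log T := Real.log_pos hT1'
  set L := Real.log T with hLdef
  set A := Am a v p0 (L / Λ) J with hA
  set D := Dm σ T with hD'
  set P := Lo T + Ce T with hP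
  have hAsupp : ∀ n, A.coeff n ≠ 0 → 1 ≤ n ∧ (n : ℝ) ≤ T ^ τ := fun n hn =>
    Am_supp hB hv (by omega) hT1' hΛ0 hΛτ hn
  have hDsupp : ∀ n, D.coeff n ≠ 0 → 1 ≤ n ∧ (n : ℝ) ≤ T ^ (1 - σ) := fun n hn =>
    Dm_supp hσ hT1' hn
  have hPeq : P = DF (fun x => 1 - cu (L - 1) 1 (2 * L - x)) ⌊T * Real.exp 2⌋₊ :=
    Lo_add_Ce hT1'.le
  have hPsupp : ∀ n, P.coeff n ≠ 0 → 1 ≤ n ∧ (n : ℝ) ≤ T * Real.exp 2 := by
    intro n hn
    rw [hPeq] at hn
    obtain ⟨⟨h1, h2⟩, _⟩ := DF_support hn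
    exact ⟨h1, (Nat.le_floor_iff (by positivity)).mp h2⟩
  have hAev : evha A ^ 2 ≤ T ^ τ := by
    refine Am_evha (hZ T hTa J hJ (2 * a) ?_)
    rw [abs_of_nonneg (by positivity)]
    linarith
  -- energies
  set Z := K * (3 + L) ^ 4 with hZ'
  have hZ0 : 0 ≤ Z := by positivity
  have hexp2 : (1 : ℝ) ≤ Real.exp 2 := Real.one_le_exp (by norm_num)
  have hEnP : En P ≤ Z := by
    rw [hPeq]
    refine hEn _ (fun x => ?_) T hT1'.le _ (Nat.floor_le (by positivity))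
    have h1 := cu_nonneg (L - 1) 1 (2 * L - x)
    have h2 := cu_le_one (L - 1) 1 (2 * L - x)
    rw [abs_le]; constructor <;> linarith
  have hfl : ((⌊T⌋₊ : ℕ) : ℝ) ≤ T * Real.exp 2 := by
    exact (Nat.floor_le hT0.le).trans (le_mul_of_one_le_right hT0.le hexp2)
  have hEnD : En D ≤ Z := by
    refine hEn _ (fun x => ?_) T hT1'.le _ hfl
    rw [abs_of_nonneg (cu_nonneg _ _ _)]
    exact cu_le_one _ _ _
  have hEn1 : En (DF (fun _ => 1) ⌊T⌋₊) ≤ Z :=
    hEn _ (fun x => by simp) T hT1'.le _ hfl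
  have hAp : En (A * P) ≤ T ^ τ * Z :=
    (En_mul_le (fun n hn => (hAsupp n hn).1) P).trans
      (mul_le_mul hAev hEnP (En_nonneg24 _) (by positivity))
  have hAD : En (A * D) ≤ T ^ τ * Z :=
    (En_mul_le (fun n hn => (hAsupp n hn).1) D).trans
      (mul_le_mul hAev hEnD (En_nonneg24 _) (by positivity))
  have hsmall := hs T hTb
  -- supports of the products
  have s1 : ∀ n, (A * P).coeff n ≠ 0 → 1 ≤ n ∧ (n : ℝ) ≤ T ^ τ * (T * Real.exp 2) :=
    mul_supp hAsupp hPsupp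
  have s2 : ∀ n, (A * D).coeff n ≠ 0 → 1 ≤ n ∧ (n : ℝ) ≤ T ^ τ * T ^ (1 - σ) :=
    mul_supp hAsupp hDsupp
  have hTτ : 1 ≤ T ^ τ := Real.one_le_rpow hT1'.le hτ0.le
  have hTσ : 1 ≤ T ^ (1 - σ) := Real.one_le_rpow hT1'.le (by linarith)
  have hTσ' : T ^ (1 - σ) ≤ T := by
    calc T ^ (1 - σ) ≤ T ^ (1 : ℝ) := Real.rpow_le_rpow_of_exponent_le hT1'.le (by linarith)
      _ = T := Real.rpow_one T
  have hN2 : 1 ≤ T ^ τ * T ^ (1 - σ) := one_le_mul_of_one_le_of_one_le hTτ hTσ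
  have hN1 : T ^ τ * T ^ (1 - σ) ≤ T ^ τ * (T * Real.exp 2) := by
    refine mul_le_mul_of_nonneg_left ?_ (by positivity)
    exact hTσ'.trans (le_mul_of_one_le_right hT0.le hexp2)
  refine ⟨?_, ?_, ?_⟩
  · -- the main mean value
    have h1 := hM' T (T ^ τ * (T * Real.exp 2)) (T ^ τ * T ^ (1 - σ)) hT1'.le hN2 hN1 (A * P)
      (A * D) s1 s2
    have hBK : En (A * D) ≤ BK K1 (A * P) (A * D) := by
      have hc0 : ∀ n, 0 ≤ (A * D).coeff n := by
        intro n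
        have := coeff_mul_mono (A := A) (f := 0) (g := D) (Am_cone ha v p0 (L / Λ) J)
          (fun n => by simpa using (Dm_le_Lo (σ := σ) hT1'.le n).1) n
        simpa using this
      refine BK_mono hc0 (fun n => ?_) hc0 (fun n => le_rfl) K1_nonneg
      exact coeff_mul_mono (Am_cone ha v p0 (L / Λ) J) (fun n => (Dm_le_Lo hT1'.le n).2) n
    have h2 := (Complex.abs_re_le_norm _).trans h1
    rw [Complex.sub_re, Complex.ofReal_re] at h2
    have h3 := (abs_le.mp h2).1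
    -- size of the error
    have h4 : C1 / T * (Real.sqrt (T ^ τ * (T * Real.exp 2) * (T ^ τ * T ^ (1 - σ)))
        + (T ^ τ * T ^ (1 - σ)) ^ 2) * Real.sqrt (En (A * P)) * Real.sqrt (En (A * D))
        ≤ δ * T := by
      have hx1 : T ^ τ * (T * Real.exp 2) * (T ^ τ * T ^ (1 - σ))
          = Real.exp 1 ^ 2 * (T ^ (1 - 4 * τ)) ^ 2 := by
        rw [← Real.exp_nat_mul, ← Real.rpow_natCast (T ^ (1 - 4 * τ)), ← Real.rpow_mul hT0.le]
        have e1 : T ^ τ * (T * Real.exp 2) * (T ^ τ * T ^ (1 - σ))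
            = Real.exp 2 * (T ^ τ * T ^ (1 : ℝ) * T ^ τ * T ^ (1 - σ)) := by
          rw [Real.rpow_one]; ring
        rw [e1, ← Real.rpow_add hT0, ← Real.rpow_add hT0, ← Real.rpow_add hT0]
        congr 2
        · norm_num
        · rw [hτ]; push_cast; ring
      have hx2 : Real.sqrt (T ^ τ * (T * Real.exp 2) * (T ^ τ * T ^ (1 - σ)))
          = Real.exp 1 * T ^ (1 - 4 * τ) := by
        rw [hx1, ← mul_pow, Real.sqrt_sq (by positivity)]
      have hx3 : (T ^ τ * T ^ (1 - σ)) ^ 2 ≤ T * T ^ (1 - 4 * τ) := by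
        have e2 : T * T ^ (1 - 4 * τ) = T ^ (1 + (1 - 4 * τ)) := by
          rw [Real.rpow_add hT0, Real.rpow_one]
        rw [← Real.rpow_add hT0, ← Real.rpow_natCast, ← Real.rpow_mul hT0.le, e2]
        refine Real.rpow_le_rpow_of_exponent_le hT1'.le ?_
        rw [hτ]; push_cast; linarith
      have hx4 : Real.sqrt (T ^ τ * (T * Real.exp 2) * (T ^ τ * T ^ (1 - σ)))
        + (T ^ τ * T ^ (1 - σ)) ^ 2 ≤ 4 * (T * T ^ (1 - 4 * τ)) := by
        rw [hx2]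
        exact (add_le_add_right hx3 _).trans (nb3 hT1'.le (by positivity))
      have hx5 : Real.sqrt (En (A * P)) * Real.sqrt (En (A * D)) ≤ T ^ τ * Z := by
        rw [← Real.sqrt_mul (En_nonneg24 _)]
        refine (Real.sqrt_le_sqrt (mul_le_mul hAp hAD (En_nonneg24 _) (by positivity))).trans ?_
        rw [Real.sqrt_mul_self (by positivity)]
      calc C1 / T * (Real.sqrt (T ^ τ * (T * Real.exp 2) * (T ^ τ * T ^ (1 - σ)))
          + (T ^ τ * T ^ (1 - σ)) ^ 2) * Real.sqrt (En (A * P)) * Real.sqrt (En (A * D))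
          = C1 / T * (Real.sqrt (T ^ τ * (T * Real.exp 2) * (T ^ τ * T ^ (1 - σ)))
          + (T ^ τ * T ^ (1 - σ)) ^ 2) * (Real.sqrt (En (A * P)) * Real.sqrt (En (A * D))) := by ring
        _ ≤ C1 / T * (4 * (T * T ^ (1 - 4 * τ))) * (T ^ τ * Z) :=
            mul_le_mul (mul_le_mul_of_nonneg_left hx4 (div_nonneg hC1 hT0.le)) hx5
              (mul_nonneg (Real.sqrt_nonneg _) (Real.sqrt_nonneg _))
              (mul_nonneg (div_nonneg hC1 hT0.le) (by positivity))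
        _ = 4 * C1 * Z * (T ^ (1 - 4 * τ) * T ^ τ) := by field_simp
        _ = 4 * C1 * Z * (T * T ^ (-(3 * τ))) := by
            rw [← Real.rpow_add hT0]
            have : T * T ^ (-(3 * τ)) = T ^ (1 + -(3 * τ)) := by
              rw [Real.rpow_add hT0, Real.rpow_one]
            rw [this]
            congr 2
            ring
        _ ≤ (16 * (C1 + C3 + C2 + 1) * (K + 1) * (3 + L) ^ 4 * T ^ (-(3 * τ))) * T := by
            have e6 : 4 * C1 * Z ≤ 16 * (C1 + C3 + C2 + 1) * (K + 1) * (3 + L) ^ 4 :=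
              nb1 hC1 hC2 hC3 hK (by positivity)
            have e9 : 0 ≤ T * T ^ (-(3 * τ)) := by positivity
            calc 4 * C1 * Z * (T * T ^ (-(3 * τ)))
                ≤ (16 * (C1 + C3 + C2 + 1) * (K + 1) * (3 + L) ^ 4) * (T * T ^ (-(3 * τ))) :=
                  mul_le_mul_of_nonneg_right e6 e9
              _ = _ := by ring
        _ ≤ min δ 1 * T := mul_le_mul_of_nonneg_right hsmall hT0.le
        _ ≤ δ * T := mul_le_mul_of_nonneg_right (min_le_left _ _) hT0.le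
    have hw0 : 0 ≤ ∫ u, w u := integral_nonneg hw.nonneg
    have h5 : T * (∫ u, w u) * En (A * D) ≤ T * (∫ u, w u) * BK K1 (A * P) (A * D) :=
      mul_le_mul_of_nonneg_left hBK (by positivity)
    linarith
  · -- the oscillating term
    have h1 := hO T (T ^ (1 - σ)) (T ^ τ) hT1'.le hTσ hTτ ?_ D A A hDsupp
      (fun n hn => (hAsupp n hn).1) hAsupp
    · have h2 := (Complex.abs_re_le_norm _).trans h1
      refine le_trans ?_ (abs_le.mp h2).1
      apply neg_le_neg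
      have y1 : evha (DF (fun _ => 1) ⌊T⌋₊) ≤ Real.sqrt (T * Z) := by
        apply Real.le_sqrt_of_sq_le
        refine (evha_sq_le (N := T) hT0.le ?_).trans (mul_le_mul_of_nonneg_left hEn1 hT0.le)
        intro n hn
        obtain ⟨⟨q1, q2⟩, _⟩ := DF_support hn
        exact ⟨q1, (Nat.le_floor_iff hT0.le).mp q2⟩
      have y2 : evha D ≤ Real.sqrt (T ^ (1 - σ) * Z) := by
        apply Real.le_sqrt_of_sq_le
        exact (evha_sq_le (N := T ^ (1 - σ)) (by positivity) hDsupp).trans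
          (mul_le_mul_of_nonneg_left hEnD (by positivity))
      have y3 : evha (DF (fun _ => 1) ⌊T⌋₊) * evha D ≤ T ^ (1 - 5 * τ) * Z := by
        refine (mul_le_mul y1 y2 (evha_nonneg _) (Real.sqrt_nonneg _)).trans ?_
        rw [← Real.sqrt_mul (by positivity)]
        have e1 : T * Z * (T ^ (1 - σ) * Z) = (T ^ (1 - 5 * τ) * Z) ^ 2 := by
          have e2 : T * T ^ (1 - σ) = (T ^ (1 - 5 * τ)) ^ 2 := by
            rw [← Real.rpow_natCast (T ^ (1 - 5 * τ)), ← Real.rpow_mul hT0.le]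
            have : T * T ^ (1 - σ) = T ^ (1 + (1 - σ)) := by
              rw [Real.rpow_add hT0, Real.rpow_one]
            rw [this]
            congr 1
            rw [hτ]; push_cast; ring
          calc T * Z * (T ^ (1 - σ) * Z) = (T * T ^ (1 - σ)) * Z ^ 2 := by ring
            _ = _ := by rw [e2]; ring
        rw [e1, Real.sqrt_sq (by positivity)]
      calc C3 * (evha (DF (fun _ => 1) ⌊T⌋₊) * evha D * (evha A * evha A))
          = C3 * ((evha (DF (fun _ => 1) ⌊T⌋₊) * evha D) * evha A ^ 2) := by ring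
        _ ≤ C3 * ((T ^ (1 - 5 * τ) * Z) * T ^ τ) := by
            refine mul_le_mul_of_nonneg_left ?_ hC3
            exact mul_le_mul y3 hAev (sq_nonneg _) (by positivity)
        _ = C3 * Z * T ^ (1 - 4 * τ) := by
            have : T ^ (1 - 5 * τ) * T ^ τ = T ^ (1 - 4 * τ) := by
              rw [← Real.rpow_add hT0]; congr 1; ring
            rw [← this]; ring
        _ ≤ C3 * Z * (T * T ^ (-(3 * τ))) := by
            refine mul_le_mul_of_nonneg_left ?_ (by positivity)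
            have : T * T ^ (-(3 * τ)) = T ^ (1 + -(3 * τ)) := by
              rw [Real.rpow_add hT0, Real.rpow_one]
            rw [this]
            exact Real.rpow_le_rpow_of_exponent_le hT1'.le (by linarith)
        _ ≤ (16 * (C1 + C3 + C2 + 1) * (K + 1) * (3 + L) ^ 4 * T ^ (-(3 * τ))) * T := by
            have e6 : C3 * Z ≤ 16 * (C1 + C3 + C2 + 1) * (K + 1) * (3 + L) ^ 4 :=
              nb2 hC1 hC2 hC3 hK (by positivity)
            have e9 : 0 ≤ T * T ^ (-(3 * τ)) := by positivity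
            calc C3 * Z * (T * T ^ (-(3 * τ)))
                ≤ (16 * (C1 + C3 + C2 + 1) * (K + 1) * (3 + L) ^ 4) * (T * T ^ (-(3 * τ))) :=
                  mul_le_mul_of_nonneg_right e6 e9
              _ = _ := by ring
        _ ≤ min δ 1 * T := mul_le_mul_of_nonneg_right hsmall hT0.le
        _ ≤ δ * T := mul_le_mul_of_nonneg_right (min_le_left _ _) hT0.le
    · -- length condition
      have h2 := hT3' T hTc
      have h3 : T * T ^ (1 - σ) * T ^ τ = T ^ 2 / T ^ (9 * τ) := by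
        have e1 : T ^ 2 = T ^ (2 : ℝ) := by rw [← Real.rpow_natCast]; norm_num
        have e2 : T * T ^ (1 - σ) * T ^ τ = T ^ (1 : ℝ) * T ^ (1 - σ) * T ^ τ := by
          rw [Real.rpow_one]
        rw [e1, e2, ← Real.rpow_sub hT0, rpow_add3 hT0]
        congr 1
        rw [hτ]; ring
      rw [h3, div_le_iff₀ (by positivity)]
      have hpi : 0 < Real.pi := Real.pi_pos
      have h4 : (θ * T / (2 * Real.pi)) ^ 2 / 3 = T ^ 2 / (12 * Real.pi ^ 2 / θ ^ 2) := by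
        field_simp
        ring
      rw [h4, div_mul_eq_mul_div, le_div_iff₀ (by positivity)]
      exact mul_le_mul_of_nonneg_left h2 (by positivity)
  · -- the square of the short product
    have h1 := hQ T (T ^ τ * T ^ (1 - σ)) hT1'.le hN2 (A * D) s2
    refine h1.trans (mul_le_mul_of_nonneg_right ?_ (En_nonneg24 _))
    have hx3 : (T ^ τ * T ^ (1 - σ)) ^ 2 ≤ T * T ^ (1 - 4 * τ) := by
      have e2 : T * T ^ (1 - 4 * τ) = T ^ (1 + (1 - 4 * τ)) := by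
        rw [Real.rpow_add hT0, Real.rpow_one]
      rw [← Real.rpow_add hT0, ← Real.rpow_natCast, ← Real.rpow_mul hT0.le, e2]
      refine Real.rpow_le_rpow_of_exponent_le hT1'.le ?_
      rw [hτ]; push_cast; linarith
    have h5 : C2 / T * (T ^ τ * T ^ (1 - σ)) ^ 2 ≤ T := by
      calc C2 / T * (T ^ τ * T ^ (1 - σ)) ^ 2 ≤ C2 / T * (T * T ^ (1 - 4 * τ)) := by gcongr
        _ = C2 * T ^ (1 - 4 * τ) := by field_simp
        _ ≤ C2 * (T * T ^ (-(3 * τ))) := by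
            refine mul_le_mul_of_nonneg_left ?_ hC2
            have : T * T ^ (-(3 * τ)) = T ^ (1 + -(3 * τ)) := by
              rw [Real.rpow_add hT0, Real.rpow_one]
            rw [this]
            exact Real.rpow_le_rpow_of_exponent_le hT1'.le (by linarith)
        _ ≤ (16 * (C1 + C3 + C2 + 1) * (K + 1) * (3 + L) ^ 4 * T ^ (-(3 * τ))) * T := by
            have e7 : (1 : ℝ) ≤ (3 + L) ^ 4 := one_le_pow₀ (by linarith)
            have e8 : C2 ≤ 16 * (C1 + C3 + C2 + 1) * (K + 1) := (nb0 hC1 hC2 hC3 hK).2.2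
            have e9 : C2 ≤ 16 * (C1 + C3 + C2 + 1) * (K + 1) * (3 + L) ^ 4 :=
              e8.trans (le_mul_of_one_le_right (by positivity) e7)
            have e10 : 0 ≤ T * T ^ (-(3 * τ)) := by positivity
            calc C2 * (T * T ^ (-(3 * τ)))
                ≤ (16 * (C1 + C3 + C2 + 1) * (K + 1) * (3 + L) ^ 4) * (T * T ^ (-(3 * τ))) :=
                  mul_le_mul_of_nonneg_right e9 e10
              _ = _ := by ring
        _ ≤ min δ 1 * T := mul_le_mul_of_nonneg_right hsmall hT0.le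
        _ ≤ 1 * T := mul_le_mul_of_nonneg_right (min_le_right _ _) hT0.le
        _ = T := one_mul T
    have hw0 : 0 ≤ ∫ u, w u := integral_nonneg hw.nonneg
    linarith

end Pool.Agent.Lib.J4.H24
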