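import Pool.Agent.Lib.MP_f9aece_nt_j4.LPoint

/-!
Lower half: the integrated inequality.
-/

set_option autoImplicit false

namespace Pool.Agent.Lib.J4.H24

open MeasureTheory Set Filter Topology Complex
open scoped ComplexConjugate
open Pool.Agent.Lib.MP_f9aece_nt (DP pair BK K1 ev ev1 evh PP VV Smo expo EE mom continuous_ev)
open Pool.Agent.H20.Chi (chi continuous_chi norm_chi zeta_eq)

lemma continuous_zeta24 : Continuous (fun t : ℝ => riemannZeta (1 / 2 + I * t)) := by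
  rw [continuous_iff_continuousAt]
  intro t
  have h1 : (1 / 2 + I * (t : ℂ)) ≠ 1 := by
    intro h
    have := congrArg Complex.re h
    simp at this
  exact ((differentiableAt_riemannZeta h1).continuousAt).comp (f := fun t : ℝ => 1 / 2 + I * (t : ℂ))
    (by fun_prop)

lemma Iw_mono' {w : ℝ → ℝ} {θ C T : ℝ} (hw : Wgt w θ C) (hT : 0 < T) {f g : ℝ → ℝ}
    (hf : ContinuousOn f (Icc (θ * T) (2 * T))) (hg : ContinuousOn g (Icc (θ * T) (2 * T)))
    (hfg : ∀ t ∈ Icc (θ * T) (2 * T), f t ≤ g t) : Iw w T f ≤ Iw w T g := by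
  refine integral_mono (hw.integrable_mul24 hT hf) (hw.integrable_mul24 hT hg) fun t => ?_
  by_cases ht : t ∈ Icc (θ * T) (2 * T)
  · exact mul_le_mul_of_nonneg_left (hfg t ht) (hw.nonneg _)
  · simp [hw.eq_zero24 hT ht]

lemma integrable_wF {w : ℝ → ℝ} {θ C T : ℝ} (hw : Wgt w θ C) (hT : 0 < T) {F : ℝ → ℂ}
    (hF : ContinuousOn F (Icc (θ * T) (2 * T))) : Integrable (fun t => (w (t / T) : ℂ) * F t) := by
  have h1 : ContinuousOn (fun t => (w (t / T) : ℂ) * F t) (Icc (θ * T) (2 * T)) :=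
    (Complex.continuous_ofReal.comp (hw.cont24.comp (continuous_id.div_const T))).continuousOn.mul hF
  have h2 : IntegrableOn (fun t => (w (t / T) : ℂ) * F t) (Icc (θ * T) (2 * T)) :=
    h1.integrableOn_compact isCompact_Icc
  refine (integrableOn_iff_integrable_of_support_subset ?_).mp h2
  intro t ht
  by_contra h
  exact ht (by simp [hw.eq_zero24 hT h])

lemma Iw_re {w : ℝ → ℝ} {θ C T : ℝ} (hw : Wgt w θ C) (hT : 0 < T) {F : ℝ → ℂ}
    (hF : ContinuousOn F (Icc (θ * T) (2 * T))) :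
    Iw w T (fun t => (F t).re) = (∫ t : ℝ, (w (t / T) : ℂ) * F t).re := by
  have h1 := integral_re (integrable_wF hw hT hF)
  unfold Iw
  simp only [RCLike.re_eq_complex_re] at h1
  rw [← h1]
  refine integral_congr_ae (ae_of_all _ fun t => ?_)
  simp only [Complex.re_ofReal_mul]

lemma continuousOn_Lot {T θ : ℝ} (hT : 0 < T) (hθ : 0 < θ) :
    ContinuousOn (fun t => ev t (Lot T t)) (Icc (θ * T) (2 * T)) :=
  (continuousOn_ev_DF hT (continuous_cu _ _) _).mono fun _ ht =>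
    lt_of_lt_of_le (mul_pos hθ hT) ht.1

lemma lowerT (hL : PtLower) {w : ℝ → ℝ} {θ C : ℝ} (hθ : 0 < θ) (hw : Wgt w θ C)
    {v p0 : ℕ} (hv : 1 ≤ v) {Λ σ : ℝ} {J : ℕ} {a κ CA T : ℝ} (ha : 0 ≤ a) (ha2 : a ≤ 1 / 2)
    (hκ : 0 < κ) (hCA : 0 ≤ CA) (hT : 0 < T)
    (h : ∀ t : ℝ, θ * T ≤ t → t ≤ 2 * T → ‖riemannZeta (1 / 2 + I * t) ^ 2
      - (ev t (Lo T) + chi t ^ 2 * conj (ev t (Lot T t)) + ev t (Ce T))‖ ≤ CA)
    {BM BS BA BQ : ℝ}
    (hM : ∑ s ∈ (Finset.range J).powerset, Wt v s * ∫ t : ℝ, w (t / T) *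
        (‖ev t (Dm σ T) + chi t ^ 2 * conj (ev t (Dm σ T))‖ ^ 2
          * ‖ev t (Bt (2 * a) v p0 (Real.log T / Λ) 0 J s)‖ ^ 2) ≤ BM)
    (hS : ∑ s ∈ (Finset.range J).powerset, Wt v s * ∫ t : ℝ, w (t / T) *
        ‖ev t (Bt (2 * (1 + a)) v p0 (Real.log T / Λ) 0 J s)‖ ^ 2 ≤ BS)
    (hA : ∑ s ∈ (Finset.range J).powerset, Wt v s * ∫ t : ℝ, w (t / T) *
        ‖ev t (Bt (2 * a) v p0 (Real.log T / Λ) 0 J s)‖ ^ 2 ≤ BA)
    (hQ : ∫ t : ℝ, w (t / T) * ‖ev t (Am a v p0 (Real.log T / Λ) J * Dm σ T)‖ ^ 2 ≤ BQ) :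
    2 * (1 + a) * (2 * (∫ t : ℝ, (w (t / T) : ℂ)
          * (ev t (Am a v p0 (Real.log T / Λ) J * (Lo T + Ce T))
            * conj (ev t (Am a v p0 (Real.log T / Λ) J * Dm σ T)))).re
        + 2 * (∫ t : ℝ, (w (t / T) : ℂ) * chi t ^ 2 * (conj (ev t (Lot T t)) * conj (ev t (Dm σ T)))
          * (ev t (Am a v p0 (Real.log T / Λ) J)
            * conj (ev t (Am a v p0 (Real.log T / Λ) J)))).re)
      ≤ (∫ t : ℝ, w (t / T) * ‖riemannZeta (1 / 2 + I * t)‖ ^ (4 * (1 + a)))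
        + (1 + 2 * a) * (Real.exp (Real.exp (-v)) * (BM + a * BS))
        + 4 * (1 + a) * CA * (κ / 2 * BQ + 1 / (2 * κ) * BA) := by
  set Y := Real.log T / Λ with hY
  set E := Real.exp (Real.exp (-(v : ℝ))) with hE
  have hE0 : 0 < E := Real.exp_pos _
  set Q := Icc (θ * T) (2 * T) with hQ'
  set A := Am a v p0 Y J with hA'
  set D := Dm σ T with hD'
  set P := Lo T + Ce T with hP'
  set F1 : ℝ → ℂ := fun t => ev t (A * P) * conj (ev t (A * D)) with hF1
  set F2 : ℝ → ℂ := fun t => chi t ^ 2 * (conj (ev t (Lot T t)) * conj (ev t D))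
    * (ev t A * conj (ev t A)) with hF2
  have cF1 : ContinuousOn F1 Q := ((continuous_ev _).mul
    (Complex.continuous_conj.comp (continuous_ev _))).continuousOn
  have cF2 : ContinuousOn F2 Q := by
    refine ContinuousOn.mul (ContinuousOn.mul (continuous_chi.pow 2).continuousOn
      (ContinuousOn.mul ?_ ?_)) ?_
    · exact Complex.continuous_conj.comp_continuousOn (continuousOn_Lot hT hθ)
    · exact (Complex.continuous_conj.comp (continuous_ev _)).continuousOn
    · exact ((continuous_ev _).mul (Complex.continuous_conj.comp (continuous_ev _))).continuousOn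
  set M : ℝ → ℝ := fun t => ‖ev t D + chi t ^ 2 * conj (ev t D)‖ ^ 2 with hM'
  have cM : ContinuousOn M Q := by
    refine Continuous.continuousOn ?_
    exact ((continuous_ev _).add ((continuous_chi.pow 2).mul
      (Complex.continuous_conj.comp (continuous_ev _)))).norm.pow 2
  have cc : ∀ (c : ℝ), ContinuousOn (cap c v p0 Y 0 J) Q := fun c =>
    (continuous_cap c v p0 Y 0 J).continuousOn
  set e1 : ℝ → ℝ := fun t => ‖riemannZeta (1 / 2 + I * t)‖ ^ (4 * (1 + a)) with he1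
  have d1 : ContinuousOn e1 Q := by
    refine Continuous.continuousOn (continuous_zeta24.norm.rpow_const fun t => Or.inr (by positivity))
  set e2 : ℝ → ℝ := fun t => (1 + 2 * a) * (E * (M t * cap (2 * a) v p0 Y 0 J t
    + a * cap (2 * (1 + a)) v p0 Y 0 J t)) with he2
  have d2a : ContinuousOn (fun t => M t * cap (2 * a) v p0 Y 0 J t) Q := cM.mul (cc _)
  have d2b : ContinuousOn (fun t => a * cap (2 * (1 + a)) v p0 Y 0 J t) Q :=
    continuousOn_const.mul (cc _)
  have d2 : ContinuousOn e2 Q := continuousOn_const.mul (continuousOn_const.mul (d2a.add d2b))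
  set f4 : ℝ → ℝ := fun t => ‖ev t (A * D)‖ ^ 2 with hf4
  set f5 : ℝ → ℝ := fun t => ‖ev t A‖ ^ 2 with hf5
  have c4 : ContinuousOn f4 Q := ((continuous_ev _).norm.pow 2).continuousOn
  have c5 : ContinuousOn f5 Q := ((continuous_ev _).norm.pow 2).continuousOn
  set e3 : ℝ → ℝ := fun t => 4 * (1 + a) * CA * (κ / 2 * f4 t + 1 / (2 * κ) * f5 t) with he3
  have d3a : ContinuousOn (fun t => κ / 2 * f4 t) Q := continuousOn_const.mul c4
  have d3b : ContinuousOn (fun t => 1 / (2 * κ) * f5 t) Q := continuousOn_const.mul c5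
  have d3 : ContinuousOn e3 Q := continuousOn_const.mul (d3a.add d3b)
  have g1c : ContinuousOn (fun t => (F1 t).re) Q := Complex.continuous_re.comp_continuousOn cF1
  have g2c : ContinuousOn (fun t => (F2 t).re) Q := Complex.continuous_re.comp_continuousOn cF2
  have key : Iw w T (fun t => 2 * (1 + a) * (2 * (F1 t).re + 2 * (F2 t).re))
      ≤ Iw w T (fun t => e1 t + e2 t + e3 t) := by
    refine Iw_mono' hw hT ?_ ((d1.add d2).add d3) ?_
    · exact continuousOn_const.mul ((continuousOn_const.mul g1c).add (continuousOn_const.mul g2c))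
    · intro t ht
      have h1 := point_lower hL (p0 := p0) (Λ := Λ) (σ := σ) (J := J) hv ha ha2 (h t ht.1 ht.2)
      have h2 : ‖ev t D‖ * ‖ev t A‖ ^ 2 ≤ κ / 2 * f4 t + 1 / (2 * κ) * f5 t := by
        simp only [hf4, hf5]
        rw [map_mul, norm_mul]
        have h3 : 0 ≤ (κ * (‖ev t A‖ * ‖ev t D‖) - ‖ev t A‖) ^ 2 / (2 * κ) := by positivity
        have h4 : κ / 2 * (‖ev t A‖ * ‖ev t D‖) ^ 2 + 1 / (2 * κ) * ‖ev t A‖ ^ 2
            - ‖ev t D‖ * ‖ev t A‖ ^ 2
            = (κ * (‖ev t A‖ * ‖ev t D‖) - ‖ev t A‖) ^ 2 / (2 * κ) := by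
          field_simp
          ring
        linarith
      have h3 := mul_le_mul_of_nonneg_left h2 (show 0 ≤ 4 * (1 + a) * CA by positivity)
      refine h1.trans ?_
      simp only [he1, he2, he3]
      linarith
  rw [Iw_const_mul,
    Iw_add (f := fun t => 2 * (F1 t).re) (g := fun t => 2 * (F2 t).re) hw hT
      (continuousOn_const.mul g1c) (continuousOn_const.mul g2c),
    Iw_const_mul 2 (fun t => (F1 t).re), Iw_const_mul 2 (fun t => (F2 t).re),
    Iw_re hw hT cF1, Iw_re hw hT cF2,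
    Iw_add (f := fun t => e1 t + e2 t) (g := e3) hw hT (d1.add d2) d3,
    Iw_add (f := e1) (g := e2) hw hT d1 d2] at key
  have hF2' : (∫ t : ℝ, (w (t / T) : ℂ) * F2 t) = ∫ t : ℝ, (w (t / T) : ℂ) * chi t ^ 2
      * (conj (ev t (Lot T t)) * conj (ev t D)) * (ev t A * conj (ev t A)) := by
    refine integral_congr_ae (ae_of_all _ fun t => ?_)
    simp only [hF2]
    ring
  rw [hF2'] at key
  have j2 : Iw w T e2 ≤ (1 + 2 * a) * (E * (BM + a * BS)) := by
    rw [he2, Iw_const_mul, Iw_const_mul,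
      Iw_add (f := fun t => M t * cap (2 * a) v p0 Y 0 J t)
        (g := fun t => a * cap (2 * (1 + a)) v p0 Y 0 J t) hw hT d2a d2b, Iw_const_mul a]
    have i1 : Iw w T (fun t => M t * cap (2 * a) v p0 Y 0 J t) ≤ BM := by
      rw [Iw_cap hw hT cM, ← Finset.range_eq_Ico]
      exact hM
    have i2 : Iw w T (fun t => cap (2 * (1 + a)) v p0 Y 0 J t) ≤ BS := by
      have h1 := Iw_cap hw hT (f := fun _ => 1) continuousOn_const (2 * (1 + a)) v p0 Y 0 J
      simp only [one_mul] at h1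
      rw [h1, ← Finset.range_eq_Ico]
      exact hS
    have i3 := mul_le_mul_of_nonneg_left i2 ha
    exact mul_le_mul_of_nonneg_left (mul_le_mul_of_nonneg_left (add_le_add i1 i3) hE0.le)
      (by positivity)
  have j3 : Iw w T e3 ≤ 4 * (1 + a) * CA * (κ / 2 * BQ + 1 / (2 * κ) * BA) := by
    rw [he3, Iw_const_mul,
      Iw_add (f := fun t => κ / 2 * f4 t) (g := fun t => 1 / (2 * κ) * f5 t) hw hT d3a d3b,
      Iw_const_mul (κ / 2), Iw_const_mul (1 / (2 * κ))]
    have i4 : Iw w T f4 ≤ BQ := hQ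
    have i5 : Iw w T f5 ≤ BA := by
      refine le_trans ?_ hA
      have hmem : (∅ : Finset ℕ) ∈ (Finset.range J).powerset := Finset.empty_mem_powerset _
      have h1 := Finset.single_le_sum (f := fun s => Wt v s * ∫ t : ℝ, w (t / T) *
        ‖ev t (Bt (2 * a) v p0 Y 0 J s)‖ ^ 2) (fun s _ => mul_nonneg (Wt_nonneg v s)
          (integral_nonneg fun t => mul_nonneg (hw.nonneg _) (by positivity))) hmem
      have h2 : Wt v ∅ = 1 := by simp [Wt]
      simp only [h2, one_mul] at h1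
      exact h1
    have i6 := mul_le_mul_of_nonneg_left i4 (show 0 ≤ κ / 2 by positivity)
    have i7 := mul_le_mul_of_nonneg_left i5 (show 0 ≤ 1 / (2 * κ) by positivity)
    exact mul_le_mul_of_nonneg_left (add_le_add i6 i7) (by positivity)
  have key' := key.trans (add_le_add (add_le_add (le_refl (Iw w T e1)) j2) j3)
  exact key'

end Pool.Agent.Lib.J4.H24
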