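import Pool.Agent.Lib.MP_f9aece_nt_j4.LErr2

/-!
Lower half: elementary inequalities for the choice of the parameters.
-/

set_option autoImplicit false

namespace Pool.Agent.Lib.J4.H24

open MeasureTheory Set Filter Topology Complex
open Pool.Agent.Lib.MP_f9aece_nt (DP pair BK K1 ev ev1 evh PP VV Smo expo EE mom)

lemma Llo {a L K0 V κ : ℝ} (hL : 1 ≤ L) (ha : 0 ≤ a) (ha1 : a ≤ 1) (hV : Real.log L - K0 ≤ V)
    (hK : 0 ≤ K0) (haK : 12 * a * K0 ≤ κ) :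
    (1 - κ) * L ^ (4 * (1 + a) ^ 2) ≤ L ^ 4 * Real.exp (((2 * a) ^ 2 + 4 * (2 * a)) * V) := by
  have hL0 : 0 < L := by linarith
  rw [Real.rpow_def_of_pos hL0]
  have h1 : L ^ 4 = Real.exp (4 * Real.log L) := by
    rw [show (4 : ℝ) * Real.log L = ((4 : ℕ) : ℝ) * Real.log L by norm_num, Real.exp_nat_mul,
      Real.exp_log hL0]
  rw [h1, ← Real.exp_add]
  have h2 : 1 - κ ≤ Real.exp (-(12 * a * K0)) := by
    have := Real.add_one_le_exp (-(12 * a * K0))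
    linarith
  refine (mul_le_mul_of_nonneg_right h2 (Real.exp_pos _).le).trans ?_
  rw [← Real.exp_add, Real.exp_le_exp]
  have h3 : ((2 * a) ^ 2 + 4 * (2 * a)) * (Real.log L - K0) ≤ ((2 * a) ^ 2 + 4 * (2 * a)) * V :=
    mul_le_mul_of_nonneg_left hV (by positivity)
  have h4 : a ^ 2 * K0 ≤ a * K0 := by
    have : a ^ 2 ≤ a := by nlinarith
    exact mul_le_mul_of_nonneg_right this hK
  nlinarith

lemma Lhi {a L CV V κ : ℝ} (hL : 1 ≤ L) (ha : 0 ≤ a) (ha1 : a ≤ 1) (hV : V ≤ Real.log L + CV)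
    (hCV : 0 ≤ CV) (hκ : 0 < κ) (hκ1 : κ ≤ 1) (haC : 12 * a * CV ≤ κ / 2) :
    L ^ 4 * Real.exp (((2 * a) ^ 2 + 4 * (2 * a)) * V) ≤ (1 + κ) * L ^ (4 * (1 + a) ^ 2) := by
  have hL0 : 0 < L := by linarith
  rw [Real.rpow_def_of_pos hL0]
  have h1 : L ^ 4 = Real.exp (4 * Real.log L) := by
    rw [show (4 : ℝ) * Real.log L = ((4 : ℕ) : ℝ) * Real.log L by norm_num, Real.exp_nat_mul,
      Real.exp_log hL0]
  rw [h1, ← Real.exp_add]
  have h2 := exp_le_one_add hκ hκ1 haC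
  refine le_trans ?_ (mul_le_mul_of_nonneg_right h2 (Real.exp_pos _).le)
  rw [← Real.exp_add, Real.exp_le_exp]
  have h3 : ((2 * a) ^ 2 + 4 * (2 * a)) * V ≤ ((2 * a) ^ 2 + 4 * (2 * a)) * (Real.log L + CV) :=
    mul_le_mul_of_nonneg_left hV (by positivity)
  have h4 : a ^ 2 * CV ≤ a * CV := by
    have : a ^ 2 ≤ a := by nlinarith
    exact mul_le_mul_of_nonneg_right this hCV
  nlinarith

lemma Lsu {a L CV V : ℝ} (hL : 1 ≤ L) (ha : 0 ≤ a) (ha1 : a ≤ 1 / 2) (hV : V ≤ Real.log L + CV)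
    (hCV : 0 ≤ CV) : Real.exp ((2 * (1 + a)) ^ 2 * V)
      ≤ Real.exp (9 * CV) * L ^ (4 * (1 + a) ^ 2) := by
  have hL0 : 0 < L := by linarith
  rw [Real.rpow_def_of_pos hL0, ← Real.exp_add, Real.exp_le_exp]
  have h1 : (2 * (1 + a)) ^ 2 * V ≤ (2 * (1 + a)) ^ 2 * (Real.log L + CV) :=
    mul_le_mul_of_nonneg_left hV (by positivity)
  have h2 : (2 * (1 + a)) ^ 2 * CV ≤ 9 * CV := by
    refine mul_le_mul_of_nonneg_right ?_ hCV
    nlinarith
  nlinarith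

lemma Lsa {a L CV V : ℝ} (hL : 1 ≤ L) (ha : 0 ≤ a) (ha1 : a ≤ 1 / 2) (hV : V ≤ Real.log L + CV)
    (hCV : 0 ≤ CV) : Real.exp ((2 * a) ^ 2 * V) ≤ Real.exp CV * L := by
  have hL0 : 0 < L := by linarith
  have hl : 0 ≤ Real.log L := Real.log_nonneg hL
  have h0 : Real.exp CV * L = Real.exp (CV + Real.log L) := by
    rw [Real.exp_add, Real.exp_log hL0]
  rw [h0, Real.exp_le_exp]
  have h1 : (2 * a) ^ 2 * V ≤ (2 * a) ^ 2 * (Real.log L + CV) :=
    mul_le_mul_of_nonneg_left hV (by positivity)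
  have h2 : (2 * a) ^ 2 * (Real.log L + CV) ≤ 1 * (Real.log L + CV) :=
    mul_le_mul_of_nonneg_right (by nlinarith) (by linarith)
  linarith

/-- the final numerical step -/
lemma Lfinal {U N1 N2 E BM BS BQ BA S Q m X0 X T w0 κ a CA C2s EV : ℝ}
    (hκ : 0 < κ) (hκ1 : κ ≤ 1) (ha : 0 ≤ a) (haκ : a ≤ κ) (ha2 : a ≤ 1 / 2) (hw0 : 0 ≤ w0)
    (hCA : 0 ≤ CA) (hT : 0 < T) (hE0 : 0 < E) (hE : E ≤ 1 + κ) (hm : 0 ≤ m)
    (hmain : 2 * (1 + a) * (2 * N1 + 2 * N2) ≤ U + (1 + 2 * a) * (E * (BM + a * BS))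
      + 4 * (1 + a) * CA * (κ / 2 * BQ + 1 / (2 * κ) * BA))
    (hN1 : T * w0 * Q - κ * T ≤ N1) (hN2 : -(κ * T) ≤ N2)
    (hQlo : (1 - κ) * m ≤ Q) (hQhi : Q ≤ S) (hS : S ≤ (1 + κ) * m) (hS0 : 0 ≤ S)
    (hBM : BM = (2 * w0 + κ) * T * S + κ * T) (hBQ : BQ = (w0 + 1) * T * Q)
    (hBS : BS = C2s * T * EV) (haS : a * (C2s * T * EV) ≤ κ * X)
    (hBA : 3 * CA / κ * BA ≤ κ * X) (hBA0 : 0 ≤ BA) (hBS0 : 0 ≤ BS)
    (hX0 : T * m = X0 / (4 * Real.pi ^ 2)) (hTX : T ≤ X) (hXlo : (1 - κ) * X ≤ X0)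
    (hXhi : X0 ≤ (1 + κ) * X) :
    ((4 * w0 * (1 - κ) - (1 + 2 * κ) * (1 + κ) ^ 2 * (2 * w0 + κ) - 6 * CA * κ * (w0 + 1)
        - κ * |4 * w0 * (1 - κ) - (1 + 2 * κ) * (1 + κ) ^ 2 * (2 * w0 + κ)
          - 6 * CA * κ * (w0 + 1)|) / (4 * Real.pi ^ 2) - 21 * κ) * X ≤ U := by
  have hX : 0 < X := hT.trans_le hTX
  set Φ := 4 * w0 * (1 - κ) - (1 + 2 * κ) * (1 + κ) ^ 2 * (2 * w0 + κ) - 6 * CA * κ * (w0 + 1)
    with hΦ
  have hTm : 0 ≤ T * m := by positivity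
  -- first term
  have t1 : 4 * w0 * (1 - κ) * (T * m) - 12 * κ * X ≤ 2 * (1 + a) * (2 * N1 + 2 * N2) := by
    have h1 : T * w0 * ((1 - κ) * m) ≤ T * w0 * Q := mul_le_mul_of_nonneg_left hQlo (by positivity)
    have h2 : T * w0 * ((1 - κ) * m) - 2 * (κ * T) ≤ N1 + N2 := by linarith
    have h3 : 4 * (1 + a) * (T * w0 * ((1 - κ) * m) - 2 * (κ * T)) ≤ 4 * (1 + a) * (N1 + N2) :=
      mul_le_mul_of_nonneg_left h2 (by positivity)
    have h4 : 0 ≤ T * w0 * ((1 - κ) * m) := by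
      have : 0 ≤ 1 - κ := by linarith
      positivity
    have h5 : 0 ≤ a * (T * w0 * ((1 - κ) * m)) := mul_nonneg ha h4
    have h6 : κ * T ≤ κ * X := mul_le_mul_of_nonneg_left hTX hκ.le
    have h7 : a * (κ * T) ≤ 1 / 2 * (κ * T) := mul_le_mul_of_nonneg_right ha2 (by positivity)
    linarith
  -- second term
  have t2 : (1 + 2 * a) * (E * (BM + a * BS))
      ≤ (1 + 2 * κ) * (1 + κ) ^ 2 * (2 * w0 + κ) * (T * m) + 8 * κ * X := by
    have h1 : BM ≤ (2 * w0 + κ) * (1 + κ) * (T * m) + κ * T := by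
      rw [hBM]
      have : (2 * w0 + κ) * T * S ≤ (2 * w0 + κ) * T * ((1 + κ) * m) :=
        mul_le_mul_of_nonneg_left hS (by positivity)
      linarith
    have hBM0 : 0 ≤ BM := by rw [hBM]; positivity
    have h2 : 0 ≤ BM + a * BS := by positivity
    have h3 : E * (BM + a * BS) ≤ (1 + κ) * (BM + a * BS) := mul_le_mul_of_nonneg_right hE h2
    have h4 : (1 + 2 * a) * (E * (BM + a * BS)) ≤ (1 + 2 * κ) * ((1 + κ) * (BM + a * BS)) :=
      mul_le_mul (by linarith) h3 (by positivity) (by positivity)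
    have h4' : (1 + 2 * a) * (E * (BM + a * BS)) ≤ (1 + 2 * a) * ((1 + κ) * (BM + a * BS)) :=
      mul_le_mul_of_nonneg_left h3 (by positivity)
    have h5 : a * BS ≤ κ * X := by rw [hBS]; exact haS
    have h6 : κ * T ≤ κ * X := mul_le_mul_of_nonneg_left hTX hκ.le
    -- split: main part with (1 + 2κ), rest with (1 + 2a) (1 + κ) ≤ 4
    have h7 : (1 + 2 * a) * ((1 + κ) * (BM + a * BS))
        ≤ (1 + 2 * a) * (1 + κ) * ((2 * w0 + κ) * (1 + κ) * (T * m))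
          + (1 + 2 * a) * (1 + κ) * (2 * (κ * X)) := by
      have : (1 + κ) * (BM + a * BS) ≤ (1 + κ) * ((2 * w0 + κ) * (1 + κ) * (T * m) + 2 * (κ * X)) :=
        mul_le_mul_of_nonneg_left (by linarith) (by positivity)
      have h8 := mul_le_mul_of_nonneg_left this (show 0 ≤ 1 + 2 * a by positivity)
      linarith
    have h9 : (1 + 2 * a) * (1 + κ) ≤ 4 := by
      have : (1 + 2 * a) * (1 + κ) ≤ 2 * 2 :=
        mul_le_mul (by linarith) (by linarith) (by positivity) (by norm_num)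
      linarith
    have h10 : (1 + 2 * a) * (1 + κ) * (2 * (κ * X)) ≤ 4 * (2 * (κ * X)) :=
      mul_le_mul_of_nonneg_right h9 (by positivity)
    have h11 : (1 + 2 * a) * (1 + κ) * ((2 * w0 + κ) * (1 + κ) * (T * m))
        ≤ (1 + 2 * κ) * (1 + κ) * ((2 * w0 + κ) * (1 + κ) * (T * m)) :=
      mul_le_mul_of_nonneg_right (mul_le_mul_of_nonneg_right (by linarith) (by positivity))
        (by positivity)
    calc (1 + 2 * a) * (E * (BM + a * BS)) ≤ _ := h4'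
      _ ≤ _ := h7
      _ ≤ (1 + 2 * κ) * (1 + κ) * ((2 * w0 + κ) * (1 + κ) * (T * m)) + 4 * (2 * (κ * X)) :=
          add_le_add h11 h10
      _ = _ := by ring
  -- third term
  have t3 : 4 * (1 + a) * CA * (κ / 2 * BQ + 1 / (2 * κ) * BA)
      ≤ 6 * CA * κ * (w0 + 1) * (T * m) + κ * X := by
    have h1 : BQ ≤ 2 * (w0 + 1) * (T * m) := by
      rw [hBQ]
      have h2 : Q ≤ 2 * m :=
        (hQhi.trans hS).trans (mul_le_mul_of_nonneg_right (by linarith) hm)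
      have : (w0 + 1) * T * Q ≤ (w0 + 1) * T * (2 * m) := mul_le_mul_of_nonneg_left h2 (by positivity)
      linarith
    have h3 : 4 * (1 + a) * CA * (κ / 2 * BQ) ≤ 6 * CA * κ * (w0 + 1) * (T * m) := by
      have h4 : κ / 2 * BQ ≤ κ / 2 * (2 * (w0 + 1) * (T * m)) :=
        mul_le_mul_of_nonneg_left h1 (by positivity)
      have h5 : 4 * (1 + a) * CA ≤ 6 * CA := mul_le_mul_of_nonneg_right (by linarith) hCA
      calc 4 * (1 + a) * CA * (κ / 2 * BQ)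
          ≤ 4 * (1 + a) * CA * (κ / 2 * (2 * (w0 + 1) * (T * m))) :=
            mul_le_mul_of_nonneg_left h4 (by positivity)
        _ ≤ 6 * CA * (κ / 2 * (2 * (w0 + 1) * (T * m))) :=
            mul_le_mul_of_nonneg_right h5 (by positivity)
        _ = _ := by ring
    have h6 : 4 * (1 + a) * CA * (1 / (2 * κ) * BA) ≤ κ * X := by
      have h5 : 4 * (1 + a) * CA ≤ 6 * CA := mul_le_mul_of_nonneg_right (by linarith) hCA
      calc 4 * (1 + a) * CA * (1 / (2 * κ) * BA) ≤ 6 * CA * (1 / (2 * κ) * BA) :=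
            mul_le_mul_of_nonneg_right h5 (by positivity)
        _ = 3 * CA / κ * BA := by field_simp; ring
        _ ≤ _ := hBA
    linarith
  have hU : Φ * (T * m) - 21 * κ * X ≤ U := by
    have : Φ * (T * m) = 4 * w0 * (1 - κ) * (T * m)
      - (1 + 2 * κ) * (1 + κ) ^ 2 * (2 * w0 + κ) * (T * m)
      - 6 * CA * κ * (w0 + 1) * (T * m) := by rw [hΦ]; ring
    rw [this]
    linarith
  have hΦX : (Φ - κ * |Φ|) * X ≤ Φ * X0 := by
    rcases le_total 0 Φ with h | h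
    · rw [abs_of_nonneg h]
      have := mul_le_mul_of_nonneg_left hXlo h
      linarith
    · rw [abs_of_nonpos h]
      have := mul_le_mul_of_nonpos_left hXhi h
      linarith
  have hpi : 0 < 4 * Real.pi ^ 2 := by positivity
  have h5 : (Φ - κ * |Φ|) / (4 * Real.pi ^ 2) * X ≤ Φ * (T * m) := by
    rw [hX0, div_mul_eq_mul_div, ← mul_div_assoc]
    exact div_le_div_of_nonneg_right hΦX hpi.le
  rw [sub_mul]
  linarith

end Pool.Agent.Lib.J4.H24
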