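import Pool.Agent.Lib.MP_f9aece_nt_j4.EnNorm

/-!
Lower half: the pointwise inequality.
-/

set_option autoImplicit false

namespace Pool.Agent.Lib.J4.H24

open MeasureTheory Set Filter Topology Complex
open scoped ComplexConjugate
open Pool.Agent.Lib.MP_f9aece_nt (DP pair BK K1 ev ev1 evh PP VV Smo expo EE mom continuous_ev)
open Pool.Agent.H20.Chi (chi continuous_chi norm_chi zeta_eq)

/-- the product with the amplifier -/
noncomputable def Am (a : ℝ) (v p0 : ℕ) (Y : ℝ) (J : ℕ) : DP := Bt (2 * a) v p0 Y 0 J ∅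

lemma re_zeta_sq (t : ℝ) (D : ℂ) :
    (riemannZeta (1 / 2 + I * t) ^ 2 * conj (D + chi t ^ 2 * conj D)).re
      = 2 * (riemannZeta (1 / 2 + I * t) ^ 2 * conj D).re := by
  have h1 := zeta_eq t
  set z := riemannZeta (1 / 2 + I * t) with hz
  have h1' : z = chi t * conj z := h1
  have hchi : chi t * conj (chi t) = 1 := by
    rw [Complex.mul_conj, Complex.normSq_eq_norm_sq, norm_chi]
    norm_num
  have h2 : z ^ 2 * conj (chi t) ^ 2 = conj (z ^ 2) := by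
    calc z ^ 2 * conj (chi t) ^ 2 = (chi t * conj z) ^ 2 * conj (chi t) ^ 2 := by rw [← h1']
      _ = (chi t * conj (chi t)) ^ 2 * conj z ^ 2 := by ring
      _ = conj (z ^ 2) := by rw [hchi, map_pow]; ring
  have h3 : z ^ 2 * conj (D + chi t ^ 2 * conj D) = z ^ 2 * conj D + conj (z ^ 2 * conj D) := by
    rw [map_add, map_mul, map_pow, Complex.conj_conj, map_mul, Complex.conj_conj]
    calc z ^ 2 * (conj D + conj (chi t) ^ 2 * D) = z ^ 2 * conj D
          + (z ^ 2 * conj (chi t) ^ 2) * D := by ring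
      _ = _ := by rw [h2]
  rw [h3, Complex.add_re, Complex.conj_re]
  ring

/-- the pointwise inequality for the lower half -/
lemma point_lower (hL : PtLower) {v p0 : ℕ} (hv : 1 ≤ v) {Λ σ : ℝ} {J : ℕ}
    {a CA T t : ℝ} (ha : 0 ≤ a) (ha2 : a ≤ 1 / 2)
    (h : ‖riemannZeta (1 / 2 + I * t) ^ 2
      - (ev t (Lo T) + chi t ^ 2 * conj (ev t (Lot T t)) + ev t (Ce T))‖ ≤ CA) :
    2 * (1 + a) * (2 * (ev t (Am a v p0 (Real.log T / Λ) J * (Lo T + Ce T))
          * conj (ev t (Am a v p0 (Real.log T / Λ) J * Dm σ T))).re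
        + 2 * (chi t ^ 2 * (conj (ev t (Lot T t)) * conj (ev t (Dm σ T)))
          * (ev t (Am a v p0 (Real.log T / Λ) J) * conj (ev t (Am a v p0 (Real.log T / Λ) J)))).re)
      ≤ ‖riemannZeta (1 / 2 + I * t)‖ ^ (4 * (1 + a))
        + (1 + 2 * a) * (Real.exp (Real.exp (-v))
          * (‖ev t (Dm σ T) + chi t ^ 2 * conj (ev t (Dm σ T))‖ ^ 2
              * cap (2 * a) v p0 (Real.log T / Λ) 0 J t
            + a * cap (2 * (1 + a)) v p0 (Real.log T / Λ) 0 J t))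
        + 4 * (1 + a) * CA * (‖ev t (Dm σ T)‖
          * ‖ev t (Am a v p0 (Real.log T / Λ) J)‖ ^ 2) := by
  set Y := Real.log T / Λ with hY
  set E := Real.exp (Real.exp (-(v : ℝ))) with hE
  have hE0 : 0 < E := Real.exp_pos _
  set z := riemannZeta (1 / 2 + I * t) with hz
  set D := ev t (Dm σ T) with hD
  set A := ev t (Am a v p0 Y J) with hA
  set M := D + chi t ^ 2 * conj D with hM
  set e := z ^ 2 - (ev t (Lo T) + chi t ^ 2 * conj (ev t (Lot T t)) + ev t (Ce T)) with he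
  set b := a / (1 + 2 * a) with hb
  have h12 : 0 < 1 + 2 * a := by linarith
  have hb0 : 0 ≤ b := by positivity
  have hba : b ≤ a := div_le_self ha (by linarith)
  -- Young's inequality
  have hconj : (2 * (1 + a)).HolderConjugate (2 * (1 - b)) := by
    rw [Real.holderConjugate_iff]
    refine ⟨by linarith, ?_⟩
    have h1 : 1 - b = (1 + a) / (1 + 2 * a) := by
      rw [hb]; field_simp; ring
    rw [h1]
    have h2 : (1 + a) ≠ 0 := by linarith
    field_simp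
    ring
  have hY1 := Real.young_inequality_of_nonneg (a := ‖z‖ ^ 2) (b := ‖M‖ * ‖A‖ ^ 2) (by positivity)
    (by positivity) hconj
  have hpow : (‖z‖ ^ 2) ^ (2 * (1 + a)) = ‖z‖ ^ (4 * (1 + a)) := by
    rw [← Real.rpow_natCast ‖z‖ 2, ← Real.rpow_mul (norm_nonneg z)]
    congr 1
    push_cast
    ring
  rw [hpow] at hY1
  have hP := hL v hv p0 Y J a b ha ha2 hb t M
  have hP' : (‖M‖ * ‖A‖ ^ 2) ^ (2 * (1 - b)) ≤ E * (‖M‖ ^ 2 * cap (2 * a) v p0 Y 0 J t
      + a * cap (2 * (1 + a)) v p0 Y 0 J t) := by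
    refine hP.trans ?_
    have hc1 := cap_nonneg (2 * a) v p0 Y 0 J t
    have hc2 := cap_nonneg (2 * (1 + a)) v p0 Y 0 J t
    have e1 : ∑ s ∈ (Finset.range J).powerset, Wt v s * ‖ev t (Bt (2 * a) v p0 Y 0 J s)‖ ^ 2
        = cap (2 * a) v p0 Y 0 J t := by rw [cap, Finset.range_eq_Ico]
    have e2 : ∑ s ∈ (Finset.range J).powerset, Wt v s * ‖ev t (Bt (2 * (1 + a)) v p0 Y 0 J s)‖ ^ 2
        = cap (2 * (1 + a)) v p0 Y 0 J t := by rw [cap, Finset.range_eq_Ico]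
    rw [e1, e2]
    refine mul_le_mul_of_nonneg_left (add_le_add ?_ ?_) hE0.le
    · have : 0 ≤ ‖M‖ ^ 2 * cap (2 * a) v p0 Y 0 J t := mul_nonneg (by positivity) hc1
      nlinarith
    · exact mul_le_mul_of_nonneg_right hba hc2
  have hq : 2 * (1 + a) / (2 * (1 - b)) = 1 + 2 * a := by
    have h1 : 1 - b = (1 + a) / (1 + 2 * a) := by
      rw [hb]; field_simp; ring
    rw [h1]
    have h2 : (1 + a) ≠ 0 := by linarith
    field_simp
  have hpp : 0 < 2 * (1 + a) := by linarith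
  -- multiply Young's inequality by p
  have hY2 : 2 * (1 + a) * (‖z‖ ^ 2 * (‖M‖ * ‖A‖ ^ 2)) ≤ ‖z‖ ^ (4 * (1 + a))
      + (1 + 2 * a) * (E * (‖M‖ ^ 2 * cap (2 * a) v p0 Y 0 J t
        + a * cap (2 * (1 + a)) v p0 Y 0 J t)) := by
    calc 2 * (1 + a) * (‖z‖ ^ 2 * (‖M‖ * ‖A‖ ^ 2))
        ≤ 2 * (1 + a) * (‖z‖ ^ (4 * (1 + a)) / (2 * (1 + a))
          + (‖M‖ * ‖A‖ ^ 2) ^ (2 * (1 - b)) / (2 * (1 - b))) :=
          mul_le_mul_of_nonneg_left hY1 hpp.le
      _ = ‖z‖ ^ (4 * (1 + a)) + (2 * (1 + a) / (2 * (1 - b)))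
          * (‖M‖ * ‖A‖ ^ 2) ^ (2 * (1 - b)) := by
          field_simp
      _ ≤ _ := by
          rw [hq]
          have := mul_le_mul_of_nonneg_left hP' h12.le
          linarith
  -- the real part
  have hre : 2 * (z ^ 2 * conj D).re * ‖A‖ ^ 2 ≤ ‖z‖ ^ 2 * (‖M‖ * ‖A‖ ^ 2) := by
    rw [← re_zeta_sq t D]
    have h1 : (z ^ 2 * conj M).re ≤ ‖z‖ ^ 2 * ‖M‖ := by
      refine (Complex.re_le_norm _).trans ?_
      rw [norm_mul, norm_pow, RCLike.norm_conj]
    have h2 : 0 ≤ ‖A‖ ^ 2 := by positivity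
    calc (z ^ 2 * conj M).re * ‖A‖ ^ 2 ≤ (‖z‖ ^ 2 * ‖M‖) * ‖A‖ ^ 2 :=
          mul_le_mul_of_nonneg_right h1 h2
      _ = _ := by ring
  have hsplit : (z ^ 2 * conj D).re * ‖A‖ ^ 2
      = (ev t (Am a v p0 Y J * (Lo T + Ce T)) * conj (ev t (Am a v p0 Y J * Dm σ T))).re
        + (chi t ^ 2 * (conj (ev t (Lot T t)) * conj D) * (A * conj A)).re
        + (e * conj D).re * ‖A‖ ^ 2 := by
    have hAA : A * conj A = ((‖A‖ ^ 2 : ℝ) : ℂ) := by
      rw [Complex.mul_conj, Complex.normSq_eq_norm_sq]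
    have h1 : z ^ 2 = e + (ev t (Lo T) + chi t ^ 2 * conj (ev t (Lot T t)) + ev t (Ce T)) := by
      rw [he]; ring
    have h2 : ev t (Am a v p0 Y J * (Lo T + Ce T)) * conj (ev t (Am a v p0 Y J * Dm σ T))
        = (ev t (Lo T) + ev t (Ce T)) * conj D * ((‖A‖ ^ 2 : ℝ) : ℂ) := by
      rw [map_mul, map_mul, map_mul, map_add, ← hAA]
      ring
    have h3 : chi t ^ 2 * (conj (ev t (Lot T t)) * conj D) * (A * conj A)
        = chi t ^ 2 * (conj (ev t (Lot T t)) * conj D) * ((‖A‖ ^ 2 : ℝ) : ℂ) := by rw [hAA]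
    rw [h2, h3, Complex.re_mul_ofReal, Complex.re_mul_ofReal, ← add_mul, ← add_mul,
      ← Complex.add_re, ← Complex.add_re]
    congr 2
    rw [h1]
    ring
  have herr : -(CA * ‖D‖ * ‖A‖ ^ 2) ≤ (e * conj D).re * ‖A‖ ^ 2 := by
    have h1 : |(e * conj D).re| ≤ CA * ‖D‖ := by
      refine (Complex.abs_re_le_norm _).trans ?_
      rw [norm_mul, RCLike.norm_conj]
      exact mul_le_mul_of_nonneg_right h (norm_nonneg _)
    have h2 : 0 ≤ ‖A‖ ^ 2 := by positivity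
    have h3 := mul_le_mul_of_nonneg_right (neg_le_of_abs_le h1) h2
    linarith
  set G1 := (ev t (Am a v p0 Y J * (Lo T + Ce T)) * conj (ev t (Am a v p0 Y J * Dm σ T))).re
  set G2 := (chi t ^ 2 * (conj (ev t (Lot T t)) * conj D) * (A * conj A)).re
  have hfin : 2 * (G1 + G2) - 2 * (CA * ‖D‖ * ‖A‖ ^ 2) ≤ ‖z‖ ^ 2 * (‖M‖ * ‖A‖ ^ 2) := by
    linarith
  have h5 := mul_le_mul_of_nonneg_left hfin hpp.le
  linarith

end Pool.Agent.Lib.J4.H24
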